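import Pool.Agent.W_MP_dd0508_gt.Defs

/-!
Normalisation by a determinant-maximal quadruple (section 1).
-/

namespace XR57

open Set

/-- The functional `z ↦ s * z.1 + t * z.2`. -/
private noncomputable def gnl (s t : ℝ) : (ℝ × ℝ) →ₗ[ℝ] ℝ :=
  s • LinearMap.fst ℝ ℝ ℝ + t • LinearMap.snd ℝ ℝ ℝ

private theorem gnl_apply (s t : ℝ) (z : ℝ × ℝ) : gnl s t z = s * z.1 + t * z.2 := rfl

private theorem gnl_indep {s t s' t' : ℝ} (h : s * t' - t * s' ≠ 0) :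
    LinearIndependent ℝ ![gnl s t, gnl s' t'] := by
  rw [LinearIndependent.pair_iff]
  intro u v huv
  have h1 := congrArg (fun l : (ℝ × ℝ) →ₗ[ℝ] ℝ => l (0, 1)) huv
  have h2 := congrArg (fun l : (ℝ × ℝ) →ₗ[ℝ] ℝ => l (1, 0)) huv
  simp [gnl_apply] at h1 h2
  have h3 : u * (s * t' - t * s') = 0 := by linear_combination t' * h2 - s' * h1
  have h4 : v * (s * t' - t * s') = 0 := by linear_combination s * h1 - t * h2
  exact ⟨(mul_eq_zero.mp h3).resolve_right h, (mul_eq_zero.mp h4).resolve_right h⟩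

private theorem noCorner_image {K : Set (ℝ × ℝ)} (h : NoCorner K) (e : (ℝ × ℝ) ≃ₗ[ℝ] (ℝ × ℝ))
    (v : ℝ × ℝ) : NoCorner ((fun z => e z + v) '' K) := by
  rintro V ⟨z, hz, rfl⟩ p q hp hq hind
  refine h z hz (p ∘ₗ e.toLinearMap) (q ∘ₗ e.toLinearMap) ?_ ?_ ?_
  · intro x hx
    have := hp _ ⟨x, hx, rfl⟩
    simpa using this
  · intro x hx
    have := hq _ ⟨x, hx, rfl⟩
    simpa using this
  · rw [LinearIndependent.pair_iff] at hind ⊢
    intro s t hst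
    apply hind
    apply LinearMap.ext
    intro w
    have := LinearMap.congr_fun hst (e.symm w)
    simpa using this

/-- The normalised quadruple. -/
private theorem normal_core {K : Set (ℝ × ℝ)} (hnc : NoCorner K) {XL XR YL YU : ℝ}
    (hX : XR - XL = 1) (hY : YU - YL = 1)
    (m1 : ((0 : ℝ), YL) ∈ K) (m2 : ((0 : ℝ), YU) ∈ K) (m3 : (XL, (0 : ℝ)) ∈ K)
    (m4 : (XR, (0 : ℝ)) ∈ K)
    (hmax : ∀ p ∈ K, ∀ p' ∈ K, ∀ r ∈ K, ∀ r' ∈ K,
      (p.2 - p'.2) * (r.1 - r'.1) - (p.1 - p'.1) * (r.2 - r'.2) ≤ 1) :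
    XL < 0 ∧ 0 < XR ∧ YL < 0 ∧ 0 < YU ∧
      (∀ z ∈ K, XL ≤ z.1 ∧ z.1 ≤ XR ∧ YL ≤ z.2 ∧ z.2 ≤ YU) ∧
      (∀ z ∈ K, (z.1 = XL → z.2 = 0) ∧ (z.1 = XR → z.2 = 0) ∧
        (z.2 = YL → z.1 = 0) ∧ (z.2 = YU → z.1 = 0)) := by
  have hb : ∀ z ∈ K, XL ≤ z.1 ∧ z.1 ≤ XR ∧ YL ≤ z.2 ∧ z.2 ≤ YU := by
    intro z hz
    have h1 := hmax z hz _ m1 _ m4 _ m3
    have h2 := hmax _ m2 z hz _ m4 _ m3
    have h3 := hmax _ m2 _ m1 z hz _ m3
    have h4 := hmax _ m2 _ m1 _ m4 z hz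
    simp only at h1 h2 h3 h4
    rw [hX] at h1 h2
    rw [hY] at h3 h4
    refine ⟨?_, ?_, ?_, ?_⟩ <;> linarith
  have hu : ∀ z ∈ K, (z.1 = XL → z.2 = 0) ∧ (z.1 = XR → z.2 = 0) ∧
        (z.2 = YL → z.1 = 0) ∧ (z.2 = YU → z.1 = 0) := by
    intro z hz
    refine ⟨?_, ?_, ?_, ?_⟩
    · intro h
      by_contra hne
      refine hnc _ m2 (gnl 0 (-1)) (gnl (-z.2) (-1)) ?_ ?_ (gnl_indep (by simpa using hne))
      · intro w hw
        have := (hb w hw).2.2.2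
        simp only [gnl_apply]
        linarith
      · intro w hw
        have h1 := hmax w hw _ m1 _ m4 z hz
        simp only at h1
        rw [h, hX] at h1
        simp only [gnl_apply]
        linarith
    · intro h
      by_contra hne
      refine hnc _ m2 (gnl 0 (-1)) (gnl z.2 (-1)) ?_ ?_ (gnl_indep (by simpa using hne))
      · intro w hw
        have := (hb w hw).2.2.2
        simp only [gnl_apply]
        linarith
      · intro w hw
        have h1 := hmax w hw _ m1 z hz _ m3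
        simp only at h1
        rw [h, hX] at h1
        simp only [gnl_apply]
        linarith
    · intro h
      by_contra hne
      refine hnc _ m4 (gnl (-1) 0) (gnl (-1) (-z.1)) ?_ ?_ (gnl_indep (by simpa using hne))
      · intro w hw
        have := (hb w hw).2.1
        simp only [gnl_apply]
        linarith
      · intro w hw
        have h1 := hmax _ m2 z hz w hw _ m3
        simp only at h1
        rw [h, hY] at h1
        simp only [gnl_apply]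
        linarith
    · intro h
      by_contra hne
      refine hnc _ m4 (gnl (-1) 0) (gnl (-1) z.1) ?_ ?_ (gnl_indep (by simpa using hne))
      · intro w hw
        have := (hb w hw).2.1
        simp only [gnl_apply]
        linarith
      · intro w hw
        have h1 := hmax z hz _ m1 w hw _ m3
        simp only at h1
        rw [h, hY] at h1
        simp only [gnl_apply]
        linarith
  refine ⟨?_, ?_, ?_, ?_, hb, hu⟩
  · rcases lt_or_eq_of_le (hb _ m1).1 with h | h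
    · exact h
    · have h1 := (hu _ m1).1 h.symm
      have h2 := (hu _ m2).1 h.symm
      simp only at h1 h2
      linarith
  · rcases lt_or_eq_of_le (hb _ m1).2.1 with h | h
    · exact h
    · have h1 := (hu _ m1).2.1 h
      have h2 := (hu _ m2).2.1 h
      simp only at h1 h2
      linarith
  · rcases lt_or_eq_of_le (hb _ m3).2.2.1 with h | h
    · exact h
    · have h1 := (hu _ m3).2.2.1 h.symm
      have h2 := (hu _ m4).2.2.1 h.symm
      simp only at h1 h2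
      linarith
  · rcases lt_or_eq_of_le (hb _ m3).2.2.2 with h | h
    · exact h
    · have h1 := (hu _ m3).2.2.2 h
      have h2 := (hu _ m4).2.2.2 h
      simp only at h1 h2
      linarith

/-- The coordinate change with `e b = (1,0)` and `e a = (0,1)`. -/
private noncomputable def chg (a b : ℝ × ℝ) (M : ℝ) (hM : M = a.1 * b.2 - a.2 * b.1)
    (h0 : M ≠ 0) : (ℝ × ℝ) ≃ₗ[ℝ] (ℝ × ℝ) where
  toFun z := ((a.1 * z.2 - a.2 * z.1) / M, (z.1 * b.2 - z.2 * b.1) / M)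
  invFun w := (w.1 * b.1 + w.2 * a.1, w.1 * b.2 + w.2 * a.2)
  map_add' x y := by
    ext
    · simp only [Prod.fst_add, Prod.snd_add]; ring
    · simp only [Prod.fst_add, Prod.snd_add]; ring
  map_smul' c x := by
    ext
    · simp only [Prod.smul_fst, Prod.smul_snd, smul_eq_mul, RingHom.id_apply]; ring
    · simp only [Prod.smul_fst, Prod.smul_snd, smul_eq_mul, RingHom.id_apply]; ring
  left_inv z := by
    ext
    · simp only; field_simp; rw [hM]; ring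
    · simp only; field_simp; rw [hM]; ring
  right_inv w := by
    ext
    · simp only; field_simp; rw [hM]; ring
    · simp only; field_simp; rw [hM]; ring

theorem exists_normal {K : Set (ℝ × ℝ)} (hc : IsCompact K) (hK : Convex ℝ K)
    (hi : (interior K).Nonempty) (hnc : NoCorner K) :
    ∃ (e : (ℝ × ℝ) ≃ₗ[ℝ] (ℝ × ℝ)) (v : ℝ × ℝ) (XL XR YL YU : ℝ),
      XL < 0 ∧ 0 < XR ∧ YL < 0 ∧ 0 < YU ∧
      ((0 : ℝ), YL) ∈ (fun z => e z + v) '' K ∧ ((0 : ℝ), YU) ∈ (fun z => e z + v) '' K ∧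
      (XL, (0 : ℝ)) ∈ (fun z => e z + v) '' K ∧ (XR, (0 : ℝ)) ∈ (fun z => e z + v) '' K ∧
      (∀ z ∈ (fun z => e z + v) '' K, XL ≤ z.1 ∧ z.1 ≤ XR ∧ YL ≤ z.2 ∧ z.2 ≤ YU) ∧
      (∀ z ∈ (fun z => e z + v) '' K, (z.1 = XL → z.2 = 0) ∧ (z.1 = XR → z.2 = 0) ∧
        (z.2 = YL → z.1 = 0) ∧ (z.2 = YU → z.1 = 0)) := by
  obtain ⟨z0, hz0⟩ := hi
  have hz0K : z0 ∈ K := interior_subset hz0
  obtain ⟨ε, hε, hball⟩ := Metric.isOpen_iff.mp isOpen_interior z0 hz0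
  have hsq : ∀ u v : ℝ, |u| < ε → |v| < ε → (z0.1 + u, z0.2 + v) ∈ K := by
    intro u v hu hv
    apply interior_subset
    apply hball
    rw [Metric.mem_ball, Prod.dist_eq]
    apply max_lt
    · simpa [Real.dist_eq] using hu
    · simpa [Real.dist_eq] using hv
  have hp : |ε / 2| < ε := by rw [abs_of_pos (by linarith)]; linarith
  have hn : |-(ε / 2)| < ε := by rw [abs_neg]; exact hp
  have h0 : |(0 : ℝ)| < ε := by simpa using hε
  -- the maximiser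
  have hcc : IsCompact ((K ×ˢ K) ×ˢ (K ×ˢ K)) := (hc.prod hc).prod (hc.prod hc)
  have hne : ((K ×ˢ K) ×ˢ (K ×ˢ K)).Nonempty := ⟨((z0, z0), (z0, z0)), ⟨⟨hz0K, hz0K⟩, hz0K, hz0K⟩⟩
  let D : ((ℝ × ℝ) × (ℝ × ℝ)) × ((ℝ × ℝ) × (ℝ × ℝ)) → ℝ := fun w =>
    (w.1.1.1 - w.1.2.1) * (w.2.1.2 - w.2.2.2) - (w.1.1.2 - w.1.2.2) * (w.2.1.1 - w.2.2.1)
  have hDc : Continuous D := by fun_prop
  obtain ⟨⟨⟨p, p'⟩, ⟨r, r'⟩⟩, ⟨⟨hpK, hp'K⟩, hrK, hr'K⟩, hmax⟩ :=
    hcc.exists_isMaxOn hne hDc.continuousOn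
  simp only at hpK hp'K hrK hr'K
  obtain ⟨M, hM⟩ : ∃ M, M = (p - p').1 * (r - r').2 - (p - p').2 * (r - r').1 := ⟨_, rfl⟩
  have hmax' : ∀ q ∈ K, ∀ q' ∈ K, ∀ s ∈ K, ∀ s' ∈ K,
      (q.1 - q'.1) * (s.2 - s'.2) - (q.2 - q'.2) * (s.1 - s'.1) ≤ M := by
    intro q hq q' hq' s hs s' hs'
    have := hmax (show ((q, q'), (s, s')) ∈ (K ×ˢ K) ×ˢ (K ×ˢ K) from ⟨⟨hq, hq'⟩, hs, hs'⟩)
    rw [hM]
    exact this
  have hMpos : 0 < M := by
    have h1 := hmax' _ (hsq _ 0 hp h0) _ (hsq _ 0 hn h0) _ (hsq 0 _ h0 hp) _ (hsq 0 _ h0 hn)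
    simp only at h1
    nlinarith
  let e := chg (p - p') (r - r') M hM hMpos.ne'
  have he : ∀ z, e z = (((p - p').1 * z.2 - (p - p').2 * z.1) / M,
      (z.1 * (r - r').2 - z.2 * (r - r').1) / M) := fun z => rfl
  let v : ℝ × ℝ := (-(e p).1, -(e r).2)
  have hF : ∀ z : ℝ × ℝ, (fun z => e z + v) z =
      (((p - p').1 * (z.2 - p.2) - (p - p').2 * (z.1 - p.1)) / M,
        ((z.1 - r.1) * (r - r').2 - (z.2 - r.2) * (r - r').1) / M) := by
    intro z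
    ext
    · simp only [Prod.fst_add, v, he]; ring
    · simp only [Prod.snd_add, v, he]; ring
  simp only [Prod.fst_sub, Prod.snd_sub] at hF hM
  have hMne := hMpos.ne'
  have hnc' := noCorner_image hnc e v
  have n1 : ((0 : ℝ), ((p'.1 - r.1) * (r.2 - r'.2) - (p'.2 - r.2) * (r.1 - r'.1)) / M) ∈
      (fun z => e z + v) '' K := by
    refine ⟨p', hp'K, ?_⟩
    beta_reduce
    rw [hF]
    ext
    · simp only; ring
    · rfl
  have n2 : ((0 : ℝ), ((p.1 - r.1) * (r.2 - r'.2) - (p.2 - r.2) * (r.1 - r'.1)) / M) ∈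
      (fun z => e z + v) '' K := by
    refine ⟨p, hpK, ?_⟩
    beta_reduce
    rw [hF]
    ext
    · simp only; ring
    · rfl
  have n3 : (((p.1 - p'.1) * (r'.2 - p.2) - (p.2 - p'.2) * (r'.1 - p.1)) / M, (0 : ℝ)) ∈
      (fun z => e z + v) '' K := by
    refine ⟨r', hr'K, ?_⟩
    beta_reduce
    rw [hF]
    ext
    · rfl
    · simp only; ring
  have n4 : (((p.1 - p'.1) * (r.2 - p.2) - (p.2 - p'.2) * (r.1 - p.1)) / M, (0 : ℝ)) ∈
      (fun z => e z + v) '' K := by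
    refine ⟨r, hrK, ?_⟩
    beta_reduce
    rw [hF]
    ext
    · rfl
    · simp only; ring
  have hX : ((p.1 - p'.1) * (r.2 - p.2) - (p.2 - p'.2) * (r.1 - p.1)) / M -
      ((p.1 - p'.1) * (r'.2 - p.2) - (p.2 - p'.2) * (r'.1 - p.1)) / M = 1 := by
    rw [← sub_div, div_eq_one_iff_eq hMne, hM]; ring
  have hY : ((p.1 - r.1) * (r.2 - r'.2) - (p.2 - r.2) * (r.1 - r'.1)) / M -
      ((p'.1 - r.1) * (r.2 - r'.2) - (p'.2 - r.2) * (r.1 - r'.1)) / M = 1 := by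
    rw [← sub_div, div_eq_one_iff_eq hMne, hM]; ring
  obtain ⟨c1, c2, c3, c4, c5, c6⟩ := normal_core hnc' hX hY n1 n2 n3 n4 (by
    rintro _ ⟨q, hq, rfl⟩ _ ⟨q', hq', rfl⟩ _ ⟨s, hs, rfl⟩ _ ⟨s', hs', rfl⟩
    have h1 := hmax' q hq q' hq' s hs s' hs'
    beta_reduce
    rw [hF, hF, hF, hF]
    simp only
    have h2 : ((q.1 - r.1) * (r.2 - r'.2) - (q.2 - r.2) * (r.1 - r'.1)) / M -
        ((q'.1 - r.1) * (r.2 - r'.2) - (q'.2 - r.2) * (r.1 - r'.1)) / M =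
        ((q.1 - q'.1) * (r.2 - r'.2) - (q.2 - q'.2) * (r.1 - r'.1)) / M := by ring
    have h3 : ((p.1 - p'.1) * (s.2 - p.2) - (p.2 - p'.2) * (s.1 - p.1)) / M -
        ((p.1 - p'.1) * (s'.2 - p.2) - (p.2 - p'.2) * (s'.1 - p.1)) / M =
        ((p.1 - p'.1) * (s.2 - s'.2) - (p.2 - p'.2) * (s.1 - s'.1)) / M := by ring
    have h4 : ((p.1 - p'.1) * (q.2 - p.2) - (p.2 - p'.2) * (q.1 - p.1)) / M -
        ((p.1 - p'.1) * (q'.2 - p.2) - (p.2 - p'.2) * (q'.1 - p.1)) / M =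
        ((p.1 - p'.1) * (q.2 - q'.2) - (p.2 - p'.2) * (q.1 - q'.1)) / M := by ring
    have h5 : ((s.1 - r.1) * (r.2 - r'.2) - (s.2 - r.2) * (r.1 - r'.1)) / M -
        ((s'.1 - r.1) * (r.2 - r'.2) - (s'.2 - r.2) * (r.1 - r'.1)) / M =
        ((s.1 - s'.1) * (r.2 - r'.2) - (s.2 - s'.2) * (r.1 - r'.1)) / M := by ring
    rw [h2, h3, h4, h5]
    have h6 : ((q.1 - q'.1) * (r.2 - r'.2) - (q.2 - q'.2) * (r.1 - r'.1)) / M *
        (((p.1 - p'.1) * (s.2 - s'.2) - (p.2 - p'.2) * (s.1 - s'.1)) / M) -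
        ((p.1 - p'.1) * (q.2 - q'.2) - (p.2 - p'.2) * (q.1 - q'.1)) / M *
        (((s.1 - s'.1) * (r.2 - r'.2) - (s.2 - s'.2) * (r.1 - r'.1)) / M) =
        ((q.1 - q'.1) * (s.2 - s'.2) - (q.2 - q'.2) * (s.1 - s'.1)) / M := by
      field_simp
      rw [hM]
      ring
    rw [h6]
    exact (div_le_one hMpos).mpr h1)
  exact ⟨e, v, _, _, _, _, c1, c2, c3, c4, n1, n2, n3, n4, c5, c6⟩

end XR57
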