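import Pool.Agent.W_MP_dd0508_gt.Defs

/-!
A body without corners has continuously differentiable boundary functions.
-/

namespace XR57

open Set

/-- The slope of the tangent depends continuously on the point. -/
private theorem cont_deriv {f f' : ℝ → ℝ} {a b : ℝ} (hf : ConvexOn ℝ (Icc a b) f)
    (hd : ∀ x ∈ Ioo a b, HasDerivAt f (f' x) x) : ContinuousOn f' (Ioo a b) := by
  intro x0 hx0
  unfold ContinuousWithinAt
  have hsl : Filter.Tendsto (slope f x0) (nhdsWithin x0 {x0}ᶜ) (nhds (f' x0)) :=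
    hasDerivAt_iff_tendsto_slope.mp (hd x0 hx0)
  have hcont : ContinuousAt f x0 := (hd x0 hx0).continuousAt
  rw [tendsto_order]
  constructor
  · intro c hc
    -- a point y < x0 with slope > c
    have h1 : ∀ᶠ y in nhdsWithin x0 (Iio x0), c < slope f x0 y := by
      apply (hsl.mono_left (nhdsWithin_mono _ _)).eventually (lt_mem_nhds hc)
      intro y hy
      exact ne_of_lt hy
    have h2 : ∀ᶠ y in nhdsWithin x0 (Iio x0), a < y :=
      mem_nhdsWithin_of_mem_nhds (Ioi_mem_nhds hx0.1)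
    obtain ⟨y, ⟨hy1, hy2⟩, hy3⟩ := ((h1.and h2).and self_mem_nhdsWithin).exists
    have hy3' : y < x0 := hy3
    have ht : Filter.Tendsto (fun x => slope f y x) (nhdsWithin x0 (Ioo a b))
        (nhds (slope f y x0)) := by
      apply Filter.Tendsto.mono_left _ nhdsWithin_le_nhds
      simp only [slope_def_field]
      exact (hcont.tendsto.sub_const _).div (Filter.Tendsto.sub_const Filter.tendsto_id _)
        (sub_ne_zero.mpr hy3'.ne')
    have hc' : c < slope f y x0 := by rw [slope_comm]; exact hy1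
    filter_upwards [ht.eventually (lt_mem_nhds hc'), self_mem_nhdsWithin,
      mem_nhdsWithin_of_mem_nhds (Ioi_mem_nhds hy3')] with x hx hxI hyx
    have hyx' : y < x := hyx
    have := hf.slope_le_of_hasDerivAt (x := y) (y := x)
      ⟨hy2.le, by linarith [hxI.2]⟩ (Ioo_subset_Icc_self hxI) hyx' (hd x hxI)
    linarith
  · intro c hc
    have h1 : ∀ᶠ y in nhdsWithin x0 (Ioi x0), slope f x0 y < c := by
      apply (hsl.mono_left (nhdsWithin_mono _ _)).eventually (gt_mem_nhds hc)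
      intro y hy
      exact ne_of_gt hy
    have h2 : ∀ᶠ y in nhdsWithin x0 (Ioi x0), y < b :=
      mem_nhdsWithin_of_mem_nhds (Iio_mem_nhds hx0.2)
    obtain ⟨y, ⟨hy1, hy2⟩, hy3⟩ := ((h1.and h2).and self_mem_nhdsWithin).exists
    have hy3' : x0 < y := hy3
    have ht : Filter.Tendsto (fun x => slope f x y) (nhdsWithin x0 (Ioo a b))
        (nhds (slope f x0 y)) := by
      apply Filter.Tendsto.mono_left _ nhdsWithin_le_nhds
      simp only [slope_def_field]
      exact (hcont.tendsto.const_sub _).div (Filter.Tendsto.const_sub _ Filter.tendsto_id)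
        (sub_ne_zero.mpr hy3'.ne')
    filter_upwards [ht.eventually (gt_mem_nhds hy1), self_mem_nhdsWithin,
      mem_nhdsWithin_of_mem_nhds (Iio_mem_nhds hy3')] with x hx hxI hyx
    have hyx' : x < y := hyx
    have := hf.le_slope_of_hasDerivAt (x := x) (y := y)
      (Ioo_subset_Icc_self hxI) ⟨by linarith [hxI.1], hy2.le⟩ hyx' (hd x hxI)
    linarith

/-- A convex function with a unique supporting line at every interior point is `C¹`. -/
private theorem convex_c1 {f : ℝ → ℝ} {a b : ℝ} (hf : ConvexOn ℝ (Icc a b) f)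
    (hu : ∀ x ∈ Ioo a b, ∀ m1 m2 : ℝ, (∀ y ∈ Icc a b, f x + m1 * (y - x) ≤ f y) →
      (∀ y ∈ Icc a b, f x + m2 * (y - x) ≤ f y) → m1 = m2) :
    ∃ f' : ℝ → ℝ, (∀ x ∈ Ioo a b, HasDerivAt f (f' x) x) ∧ ContinuousOn f' (Ioo a b) := by
  have hd : ∀ x ∈ Ioo a b, HasDerivAt f (derivWithin f (Ioi x) x) x := by
    intro x hx
    have hxI : x ∈ interior (Icc a b) := by rw [interior_Icc]; exact hx
    have hxS : x ∈ Icc a b := Ioo_subset_Icc_self hx
    have hr := hf.hasDerivWithinAt_rightDeriv_of_mem_interior hxI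
    have hl := hf.hasDerivWithinAt_leftDeriv_of_mem_interior hxI
    have hle := hf.leftDeriv_le_rightDeriv_of_mem_interior hxI
    have key : ∀ m : ℝ, derivWithin f (Iio x) x ≤ m → m ≤ derivWithin f (Ioi x) x →
        ∀ y ∈ Icc a b, f x + m * (y - x) ≤ f y := by
      intro m h1 h2 y hy
      rcases lt_trichotomy y x with hlt | heq | hgt
      · have h3 := hf.slope_le_leftDeriv_of_mem_interior hy hxI hlt
        rw [slope_def_field] at h3
        have h4 : (f x - f y) / (x - y) ≤ m := h3.trans h1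
        rw [div_le_iff₀ (by linarith)] at h4
        linarith
      · rw [heq]; simp
      · have h3 := hf.rightDeriv_le_slope_of_mem_interior hxI hy hgt
        rw [slope_def_field] at h3
        have h4 : m ≤ (f y - f x) / (y - x) := h2.trans h3
        rw [le_div_iff₀ (by linarith)] at h4
        linarith
    have heq := hu x hx _ _ (key _ le_rfl hle) (key _ hle le_rfl)
    rw [heq] at hl
    have := hl.union hr
    rw [Iio_union_Ioi] at this
    exact hasDerivAt_iff_tendsto_slope.mpr (by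
      have h5 := hasDerivWithinAt_iff_tendsto_slope.mp this
      simpa using h5)
  exact ⟨fun x => derivWithin f (Ioi x) x, hd, cont_deriv hf hd⟩

/-- The functional `z ↦ s * z.2 - m * z.1`. -/
private noncomputable def fnl (s m : ℝ) : (ℝ × ℝ) →ₗ[ℝ] ℝ :=
  s • LinearMap.snd ℝ ℝ ℝ - m • LinearMap.fst ℝ ℝ ℝ

private theorem fnl_apply (s m : ℝ) (z : ℝ × ℝ) : fnl s m z = s * z.2 - m * z.1 := rfl

private theorem fnl_indep {s m1 m2 : ℝ} (hs : s ≠ 0) (h : m1 ≠ m2) :
    LinearIndependent ℝ ![fnl s m1, fnl s m2] := by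
  rw [LinearIndependent.pair_iff]
  intro u v huv
  have h1 := congrArg (fun l : (ℝ × ℝ) →ₗ[ℝ] ℝ => l (0, 1)) huv
  have h2 := congrArg (fun l : (ℝ × ℝ) →ₗ[ℝ] ℝ => l (1, 0)) huv
  simp [fnl_apply] at h1 h2
  have h3 : u + v = 0 := by
    have : s * (u + v) = 0 := by linarith
    exact (mul_eq_zero.mp this).resolve_left hs
  have h4 : u * (m1 - m2) = 0 := by
    have : v = -u := by linarith
    rw [this] at h2
    linarith
  have h5 : u = 0 := (mul_eq_zero.mp h4).resolve_right (sub_ne_zero.mpr h)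
  exact ⟨h5, by linarith⟩

theorem Rep.c1 {K : Set (ℝ × ℝ)} {a b : ℝ} {lo hi : ℝ → ℝ} (hR : Rep K a b lo hi)
    (hnc : NoCorner K) :
    ∃ lo' hi' : ℝ → ℝ, (∀ x ∈ Ioo a b, HasDerivAt lo (lo' x) x) ∧
      (∀ x ∈ Ioo a b, HasDerivAt hi (hi' x) x) ∧
      ContinuousOn lo' (Ioo a b) ∧ ContinuousOn hi' (Ioo a b) := by
  obtain ⟨lo', h1, h2⟩ : ∃ f' : ℝ → ℝ, (∀ x ∈ Ioo a b, HasDerivAt lo (f' x) x) ∧
      ContinuousOn f' (Ioo a b) := by
    apply convex_c1 hR.cvx
    intro x hx m1 m2 h1 h2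
    by_contra hne
    have hxS : x ∈ Icc a b := Ioo_subset_Icc_self hx
    refine hnc (x, lo x) ((hR.mem _ _).mpr ⟨hxS.1, hxS.2, le_rfl, hR.le x hxS⟩) (fnl 1 m1)
      (fnl 1 m2) ?_ ?_ (fnl_indep one_ne_zero hne)
    · rintro ⟨y1, y2⟩ hy
      obtain ⟨k1, k2, k3, k4⟩ := (hR.mem _ _).mp hy
      have := h1 y1 ⟨k1, k2⟩
      simp only [fnl_apply]
      linarith
    · rintro ⟨y1, y2⟩ hy
      obtain ⟨k1, k2, k3, k4⟩ := (hR.mem _ _).mp hy
      have := h2 y1 ⟨k1, k2⟩
      simp only [fnl_apply]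
      linarith
  obtain ⟨hi', h3, h4⟩ : ∃ f' : ℝ → ℝ, (∀ x ∈ Ioo a b, HasDerivAt (fun x => -hi x) (f' x) x) ∧
      ContinuousOn f' (Ioo a b) := by
    apply convex_c1 hR.ccv.neg
    intro x hx m1 m2 h1 h2
    by_contra hne
    have hxS : x ∈ Icc a b := Ioo_subset_Icc_self hx
    refine hnc (x, hi x) ((hR.mem _ _).mpr ⟨hxS.1, hxS.2, hR.le x hxS, le_rfl⟩) (fnl (-1) m1)
      (fnl (-1) m2) ?_ ?_ (fnl_indep (by norm_num) hne)
    · rintro ⟨y1, y2⟩ hy
      obtain ⟨k1, k2, k3, k4⟩ := (hR.mem _ _).mp hy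
      have := h1 y1 ⟨k1, k2⟩
      simp only [fnl_apply]
      simp only [Pi.neg_apply] at this
      linarith
    · rintro ⟨y1, y2⟩ hy
      obtain ⟨k1, k2, k3, k4⟩ := (hR.mem _ _).mp hy
      have := h2 y1 ⟨k1, k2⟩
      simp only [fnl_apply]
      simp only [Pi.neg_apply] at this
      linarith
  refine ⟨lo', fun x => -hi' x, h1, ?_, h2, h4.neg⟩
  intro x hx
  have h5 := (h3 x hx).neg
  have h6 : (-fun x => -hi x) = hi := by
    funext t
    simp
  rw [h6] at h5
  exact h5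

end XR57
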