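import Mathlib

/-!
MP_dd0508_gt, full positive answer (S14079): common definitions.  Paper proof: table `proofs`,
problem MP_dd0508_gt, author helper57.
-/

namespace XR57

open MeasureTheory Set

/-- Two planar sets have the same marginal along the function `l`. -/
def Same (l : ℝ × ℝ → ℝ) (L K : Set (ℝ × ℝ)) : Prop :=
  ∀ S : Set ℝ, MeasurableSet S → volume (L ∩ l ⁻¹' S) = volume (K ∩ l ⁻¹' S)

/-- `K` is verified by three marginals. -/
def Verif (K : Set (ℝ × ℝ)) : Prop :=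
  ∃ l : Fin 3 → ((ℝ × ℝ) →ₗ[ℝ] ℝ), (∀ i j : Fin 3, i ≠ j → LinearIndependent ℝ ![l i, l j]) ∧
    ∀ L : Set (ℝ × ℝ), MeasurableSet L → (∀ i, Same (l i) L K) →
      L =ᵐ[(volume : Measure (ℝ × ℝ))] K

/-- No two linearly independent functionals attain their minimum over `K` at the same point. -/
def NoCorner (K : Set (ℝ × ℝ)) : Prop :=
  ∀ v ∈ K, ∀ p q : (ℝ × ℝ) →ₗ[ℝ] ℝ, (∀ x ∈ K, p v ≤ p x) → (∀ x ∈ K, q v ≤ q x) →
    ¬ LinearIndependent ℝ ![p, q]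

/-- `K` is the region between the graphs of the convex function `lo` and the concave function `hi`
over `[a,b]`. -/
structure Rep (K : Set (ℝ × ℝ)) (a b : ℝ) (lo hi : ℝ → ℝ) : Prop where
  lt : a < b
  mem : ∀ x y : ℝ, (x, y) ∈ K ↔ a ≤ x ∧ x ≤ b ∧ lo x ≤ y ∧ y ≤ hi x
  cvx : ConvexOn ℝ (Icc a b) lo
  ccv : ConcaveOn ℝ (Icc a b) hi
  clo : ContinuousOn lo (Icc a b)
  chi : ContinuousOn hi (Icc a b)
  le : ∀ x ∈ Icc a b, lo x ≤ hi x
  ltt : ∀ x ∈ Ioo a b, lo x < hi x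

/-- A closed chain of inscribed segments, described by its levels: `η k` bottom levels,
`y k` top levels, `e k` the slope (`0` or `ε`) of the two legs of the `k`-th loop. The functions
`xl`, `xr` are the left and right boundary functions over the levels. -/
structure Chain (xl xr : ℝ → ℝ) (ε : ℝ) (N : ℕ) (e η y : ℕ → ℝ) : Prop where
  pos : 0 < N
  per : η N = η 0
  slope : ∀ k < N, e k = 0 ∨ e k = ε
  lt : ∀ k < N, η k < y k
  lt' : ∀ k < N, η (k + 1) < y k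
  right : ∀ k < N, xr (y k) - e k * y k = xr (η k) - e k * η k
  left : ∀ k < N, xl (y k) - e k * y k = xl (η (k + 1)) - e k * η (k + 1)

/-- The normal form of the level boundary functions (section 1 of the paper proof). -/
structure Normal (YL YU : ℝ) (xl xr xl' xr' : ℝ → ℝ) : Prop where
  lo : YL < 0
  up : 0 < YU
  ccv : ConcaveOn ℝ (Icc YL YU) xr
  cvx : ConvexOn ℝ (Icc YL YU) xl
  cr : ContinuousOn xr (Icc YL YU)
  cl : ContinuousOn xl (Icc YL YU)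
  dr : ∀ y ∈ Ioo YL YU, HasDerivAt xr (xr' y) y
  dl : ∀ y ∈ Ioo YL YU, HasDerivAt xl (xl' y) y
  cr' : ContinuousOn xr' (Ioo YL YU)
  cl' : ContinuousOn xl' (Ioo YL YU)
  rL : xr YL = 0
  rU : xr YU = 0
  lL : xl YL = 0
  lU : xl YU = 0
  mr : ∀ y ∈ Icc YL YU, y ≠ 0 → xr y < xr 0
  ml : ∀ y ∈ Icc YL YU, y ≠ 0 → xl 0 < xl y

/-- The inscribed parallelogram with `1/2 < q < 1` and positive leg slope `lam`, before the shear. -/
structure Good (YL YU : ℝ) (xl xr xl' xr' : ℝ → ℝ) (lam ym yp : ℝ) : Prop where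
  hlam : 0 < lam
  ymL : YL < ym
  ym0 : ym < 0
  yp0 : 0 < yp
  ypU : yp < YU
  er : xr yp - xr ym = lam * (yp - ym)
  el : xl yp - xl ym = lam * (yp - ym)
  a : 0 < xr' ym - lam
  a' : xr' yp - lam < 0
  b : 0 < xl' yp - lam
  b' : xl' ym - lam < 0
  q1 : (xr' ym - lam) * (xl' yp - lam) < (xr' yp - lam) * (xl' ym - lam)
  q2 : (xr' yp - lam) * (xl' ym - lam) < 2 * ((xr' ym - lam) * (xl' yp - lam))

/-- The hypotheses of the core theorem: the body after normalisation and shear. -/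
structure CoreHyp (K : Set (ℝ × ℝ)) (XL XR YL YU : ℝ) (bot top bot' top' xl xr xl' xr' : ℝ → ℝ)
    (ym yp x3 x1 : ℝ) : Prop where
  cpt : IsCompact K
  cvx : Convex ℝ K
  int : (interior K).Nonempty
  repx : Rep K XL XR bot top
  repy : Rep (Prod.swap ⁻¹' K) YL YU xl xr
  db : ∀ x ∈ Ioo XL XR, HasDerivAt bot (bot' x) x
  dt : ∀ x ∈ Ioo XL XR, HasDerivAt top (top' x) x
  cb' : ContinuousOn bot' (Ioo XL XR)
  ct' : ContinuousOn top' (Ioo XL XR)
  dl : ∀ y ∈ Ioo YL YU, HasDerivAt xl (xl' y) y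
  dr : ∀ y ∈ Ioo YL YU, HasDerivAt xr (xr' y) y
  cl' : ContinuousOn xl' (Ioo YL YU)
  cr' : ContinuousOn xr' (Ioo YL YU)
  ymL : YL < ym
  ym0 : ym < 0
  yp0 : 0 < yp
  ypU : yp < YU
  x31 : x3 < x1
  rm : xr ym = x1
  rp : xr yp = x1
  lm : xl ym = x3
  lp : xl yp = x3
  a : 0 < xr' ym
  a' : xr' yp < 0
  b : 0 < xl' yp
  b' : xl' ym < 0
  q1 : xr' ym * xl' yp < xr' yp * xl' ym
  q2 : xr' yp * xl' ym < 2 * (xr' ym * xl' yp)
  r0 : xr' 0 < 0
  l0 : xl' 0 < 0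

/-- The one-variable data needed to construct the function `f`. -/
structure FHyp (XL xL x3 x1 xR XR ym yp : ℝ) (bot top bot' top' : ℝ → ℝ) : Prop where
  o1 : XL < xL
  o2 : xL < x3
  o3 : x3 < x1
  o4 : x1 < xR
  o5 : xR < XR
  cvx : ConvexOn ℝ (Icc XL XR) bot
  ccv : ConcaveOn ℝ (Icc XL XR) top
  cb : ContinuousOn bot (Icc XL XR)
  ct : ContinuousOn top (Icc XL XR)
  db : ∀ x ∈ Ioo XL XR, HasDerivAt bot (bot' x) x
  dt : ∀ x ∈ Ioo XL XR, HasDerivAt top (top' x) x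
  cb' : ContinuousOn bot' (Ioo XL XR)
  ct' : ContinuousOn top' (Ioo XL XR)
  ltt : ∀ x ∈ Ioo XL XR, bot x < top x
  aR : StrictAntiOn top (Icc x1 XR)
  mR : StrictMonoOn bot (Icc x1 XR)
  mL : StrictMonoOn top (Icc XL x3)
  aL : StrictAntiOn bot (Icc XL x3)
  tR : top xR = 0
  bL : bot xL = 0
  t1 : top x1 = yp
  t3 : top x3 = yp
  b1 : bot x1 = ym
  b3 : bot x3 = ym
  m0 : ym < 0
  p0 : 0 < yp

/-- The properties (C1)-(C4) of the function `f`. -/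
structure FProp (XL xL x3 x1 xR XR ym yp : ℝ) (bot top : ℝ → ℝ) (ε : ℝ) (f : ℝ → ℝ) : Prop where
  lip : ∀ u v : ℝ, |f u - f v| ≤ |u - v| / ε
  strict : ∀ u v : ℝ, u < v → xL < v → u < xR → |f u - f v| < (v - u) / ε
  left : ∀ w ≤ xL, f w = f xL + (xL - w) / ε
  right : ∀ w, xR ≤ w → f w = f xR + (w - xR) / ε
  eq : ∀ x ∈ Ioo XL XR, x ∉ Ioo x1 (x1 + ε * (yp - ym)) → x ∉ Ioo (x3 - ε * (yp - ym)) x3 →
    f (x - ε * top x) - f (x - ε * bot x) = |top x| - |bot x|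

end XR57
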