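import Pool.Agent.W_MP_dd0508_gt.RepEx
import Pool.Agent.W_MP_dd0508_gt.C1
import Pool.Agent.W_MP_dd0508_gt.Marg

/-!
The level boundary functions of a normalised body (section 1).
-/

namespace XR57

open Set

/-- The level boundary functions of a normalised body. -/
theorem normal_of {K : Set (ℝ × ℝ)} (hc : IsCompact K) (hK : Convex ℝ K)
    (hi : (interior K).Nonempty) (hnc : NoCorner K) {XL XR YL YU : ℝ}
    (h1 : XL < 0) (h2 : 0 < XR) (h3 : YL < 0) (h4 : 0 < YU)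
    (m1 : ((0 : ℝ), YL) ∈ K) (m2 : ((0 : ℝ), YU) ∈ K)
    (m3 : (XL, (0 : ℝ)) ∈ K) (m4 : (XR, (0 : ℝ)) ∈ K)
    (hb : ∀ z ∈ K, XL ≤ z.1 ∧ z.1 ≤ XR ∧ YL ≤ z.2 ∧ z.2 ≤ YU)
    (hu : ∀ z ∈ K, (z.1 = XL → z.2 = 0) ∧ (z.1 = XR → z.2 = 0) ∧
        (z.2 = YL → z.1 = 0) ∧ (z.2 = YU → z.1 = 0)) :
    ∃ xl xr xl' xr' : ℝ → ℝ, Rep (Prod.swap ⁻¹' K) YL YU xl xr ∧
      Normal YL YU xl xr xl' xr' := by
  -- the swapped body
  have hpre : IsCompact (Prod.swap ⁻¹' K) :=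
    (Homeomorph.prodComm ℝ ℝ).isCompact_preimage.2 hc
  have hcv : Convex ℝ (Prod.swap ⁻¹' K) :=
    hK.linear_preimage (LinearEquiv.prodComm ℝ ℝ ℝ).toLinearMap
  have hint : (interior (Prod.swap ⁻¹' K : Set (ℝ × ℝ))).Nonempty := by
    have h5 : interior (Prod.swap ⁻¹' K : Set (ℝ × ℝ)) = Prod.swap ⁻¹' (interior K) :=
      ((Homeomorph.prodComm ℝ ℝ).preimage_interior K).symm
    rw [h5]
    obtain ⟨z, hz⟩ := hi
    exact ⟨z.swap, by simpa using hz⟩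
  have hnc' : NoCorner (Prod.swap ⁻¹' K) := by
    have h5 : (Prod.swap ⁻¹' K : Set (ℝ × ℝ)) =
        (fun z => LinearEquiv.prodComm ℝ ℝ ℝ z + 0) '' K := by
      ext z
      constructor
      · intro hz
        exact ⟨z.swap, hz, by simp [LinearEquiv.prodComm]⟩
      · rintro ⟨w, hw, rfl⟩
        simpa [LinearEquiv.prodComm] using hw
    rw [h5]
    exact hnc.image _ _
  obtain ⟨a, b, xl, xr, hR⟩ := exists_rep hpre hcv hint
  have hmem : ∀ x y : ℝ, (x, y) ∈ K ↔ a ≤ y ∧ y ≤ b ∧ xl y ≤ x ∧ x ≤ xr y := fun x y =>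
    hR.mem y x
  have hab := hR.lt
  have ha : a = YL := by
    refine le_antisymm ((hmem _ _).1 m1).1 ?_
    exact (hb (xl a, a) ((hmem _ _).2 ⟨le_rfl, hab.le, le_rfl, hR.le a ⟨le_rfl, hab.le⟩⟩)).2.2.1
  have hb' : b = YU := by
    refine le_antisymm ?_ ((hmem _ _).1 m2).2.1
    exact (hb (xl b, b) ((hmem _ _).2 ⟨hab.le, le_rfl, le_rfl, hR.le b ⟨hab.le, le_rfl⟩⟩)).2.2.2
  subst ha
  subst hb'
  obtain ⟨xl', xr', d1, d2, d3, d4⟩ := hR.c1 hnc'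
  have memr : ∀ y ∈ Icc a b, (xr y, y) ∈ K := fun y hy =>
    (hmem _ _).2 ⟨hy.1, hy.2, hR.le y hy, le_rfl⟩
  have meml : ∀ y ∈ Icc a b, (xl y, y) ∈ K := fun y hy =>
    (hmem _ _).2 ⟨hy.1, hy.2, le_rfl, hR.le y hy⟩
  have hL : a ∈ Icc a b := ⟨le_rfl, hab.le⟩
  have hU : b ∈ Icc a b := ⟨hab.le, le_rfl⟩
  have h0 : (0 : ℝ) ∈ Icc a b := ⟨h3.le, h4.le⟩
  have hr0 : xr 0 = XR := le_antisymm (hb _ (memr 0 h0)).2.1 ((hmem _ _).1 m4).2.2.2
  have hl0 : xl 0 = XL := le_antisymm ((hmem _ _).1 m3).2.2.1 (hb _ (meml 0 h0)).1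
  refine ⟨xl, xr, xl', xr', hR, ?_⟩
  exact
    { lo := h3
      up := h4
      ccv := hR.ccv
      cvx := hR.cvx
      cr := hR.chi
      cl := hR.clo
      dr := d2
      dl := d1
      cr' := d4
      cl' := d3
      rL := (hu _ (memr a hL)).2.2.1 rfl
      rU := (hu _ (memr b hU)).2.2.2 rfl
      lL := (hu _ (meml a hL)).2.2.1 rfl
      lU := (hu _ (meml b hU)).2.2.2 rfl
      mr := by
        intro y hy hy0
        rw [hr0]
        exact lt_of_le_of_ne (hb _ (memr y hy)).2.1 fun h => hy0 ((hu _ (memr y hy)).2.1 h)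
      ml := by
        intro y hy hy0
        rw [hl0]
        exact lt_of_le_of_ne (hb _ (meml y hy)).1 fun h => hy0 ((hu _ (meml y hy)).1 h.symm) }

end XR57
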