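import Pool.Agent.W_MP_dd0508_gt.Cert

/-!
The case of inscribed rectangles (section 2, case `Λ = 0`).
-/

namespace XR57

open MeasureTheory Set Topology

private theorem conc_out {f : ℝ → ℝ} {a b s y t : ℝ} (hf : ConcaveOn ℝ (Icc a b) f)
    (hs : s ∈ Icc a b) (hy : y ∈ Icc a b) (ht : t ∈ Icc a b) (hsy : s < y) (he : f s = f y)
    (h : t ≤ s ∨ y ≤ t) : f t ≤ f y := by
  rcases h with h | h
  · rcases h.eq_or_lt with h | h
    · rw [h, he]
    · have := hf.slope_anti_adjacent ht hy h hsy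
      rw [he, sub_self, zero_div] at this
      have h2 : 0 < s - t := by linarith
      by_contra hcon
      have h3 : (f y - f t) / (s - t) < 0 := div_neg_of_neg_of_pos (by linarith) h2
      linarith
  · rcases h.eq_or_lt with h | h
    · rw [h]
    · have := hf.slope_anti_adjacent hs ht hsy h
      rw [he, sub_self, zero_div] at this
      have h2 : 0 < t - y := by linarith
      by_contra hcon
      have h3 : 0 < (f t - f y) / (t - y) := div_pos (by linarith) h2
      linarith

private theorem conc_in {f : ℝ → ℝ} {a b s y t : ℝ} (hf : ConcaveOn ℝ (Icc a b) f)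
    (hs : s ∈ Icc a b) (hy : y ∈ Icc a b) (he : f s = f y)
    (h1 : s < t) (h2 : t < y) : f y ≤ f t := by
  have := hf.slope_anti_adjacent hs hy h1 h2
  by_contra hcon
  have h3 : 0 < (f y - f t) / (y - t) := div_pos (by linarith) (by linarith)
  have h4 : (f t - f s) / (t - s) < 0 := div_neg_of_neg_of_pos (by linarith) (by linarith)
  linarith

private theorem mem_iff {K : Set (ℝ × ℝ)} {YL YU : ℝ} {xl xr : ℝ → ℝ}
    (hR : Rep (Prod.swap ⁻¹' K) YL YU xl xr) (z : ℝ × ℝ) :
    z ∈ K ↔ YL ≤ z.2 ∧ z.2 ≤ YU ∧ xl z.2 ≤ z.1 ∧ z.1 ≤ xr z.2 := by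
  rw [← hR.mem]
  rfl

private theorem int_lt {K : Set (ℝ × ℝ)} {YL YU : ℝ} {xl xr : ℝ → ℝ}
    (hR : Rep (Prod.swap ⁻¹' K) YL YU xl xr) {z : ℝ × ℝ} (hz : z ∈ interior K) :
    YL < z.2 ∧ z.2 < YU ∧ xl z.2 < z.1 ∧ z.1 < xr z.2 := by
  have hnb : K ∈ 𝓝 z := mem_interior_iff_mem_nhds.1 hz
  rw [Metric.mem_nhds_iff] at hnb
  obtain ⟨ε, hε, hb⟩ := hnb
  have key : ∀ a b : ℝ, |a| < ε → |b| < ε → (z.1 + a, z.2 + b) ∈ K := by
    intro a b ha hb'
    apply hb
    rw [Metric.mem_ball, Prod.dist_eq, max_lt_iff]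
    simp only [Real.dist_eq, add_sub_cancel_left]
    exact ⟨ha, hb'⟩
  have he : |ε / 2| < ε := by rw [abs_of_pos (by linarith)]; linarith
  have he' : |-(ε / 2)| < ε := by rw [abs_neg]; exact he
  have h0 : |(0 : ℝ)| < ε := by rw [abs_zero]; exact hε
  have k1 := (mem_iff hR _).1 (key (ε / 2) 0 he h0)
  have k2 := (mem_iff hR _).1 (key (-(ε / 2)) 0 he' h0)
  have k3 := (mem_iff hR _).1 (key 0 (ε / 2) h0 he)
  have k4 := (mem_iff hR _).1 (key 0 (-(ε / 2)) h0 he')
  simp only [add_zero] at k1 k2 k3 k4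
  exact ⟨by linarith [k4.1], by linarith [k3.2.1], by linarith [k2.2.2.1], by linarith [k1.2.2.2]⟩

private theorem rect_null {K : Set (ℝ × ℝ)} (hc : IsCompact K) (hK : Convex ℝ K)
    {YL YU : ℝ} {xl xr : ℝ → ℝ}
    (hR : Rep (Prod.swap ⁻¹' K) YL YU xl xr) {y s : ℝ} (hy : y ∈ Icc YL YU) (hs : s ∈ Icc YL YU)
    (hsy : s < y) (er : xr s = xr y) (el : xl s = xl y) (hlr : xl y < xr y)
    {L : Set (ℝ × ℝ)} (hL : MeasurableSet L)
    (s1 : Same (fun z => z.1) L K) (s2 : Same (fun z => z.2) L K)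
    (s3 : Same (fun z => z.1 + z.2) L K) :
    volume ((K \ L) ∩ {z : ℝ × ℝ | xl y < z.1 ∧ z.1 < xr y ∧ s < z.2 ∧ z.2 < y}) = 0 := by
  classical
  have hf : volume (frontier K) = 0 := hK.addHaar_frontier _
  have hint : ∀ᵐ z ∂(volume : Measure (ℝ × ℝ)), z ∈ K → z ∈ interior K := by
    rw [ae_iff]
    refine measure_mono_null ?_ hf
    intro z hz
    simp only [mem_ofPred_eq, Classical.not_imp] at hz
    exact ⟨subset_closure hz.1, hz.2⟩
  have hcl : ConcaveOn ℝ (Icc YL YU) (fun t => - xl t) := hR.cvx.neg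
  have hm := cert_null hc hL continuous_fst continuous_snd
    (continuous_fst.add continuous_snd : Continuous fun z : ℝ × ℝ => z.1 + z.2) s1 s2 s3
    (g1 := fun t => (Ioi (xl y)).indicator 1 t + (Iio (xr y)).indicator 1 t - 3)
    (g2 := fun t => (Iio y).indicator 1 t + (Ioi s).indicator 1 t)
    (g3 := fun _ => 0)
    (((measurable_one.indicator measurableSet_Ioi).add
      (measurable_one.indicator measurableSet_Iio)).sub_const 3)
    ((measurable_one.indicator measurableSet_Iio).add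
      (measurable_one.indicator measurableSet_Ioi)) measurable_const (C := 5)
    (by
      intro z _
      simp only [indicator_apply, Pi.one_apply]
      split_ifs <;> norm_num [abs_le])
    (by
      intro z _
      simp only [indicator_apply, Pi.one_apply]
      split_ifs <;> norm_num [abs_le])
    (by
      intro z _
      norm_num)
    (by
      filter_upwards [hint] with z hz hzK _
      have h4 := int_lt hR (hz hzK)
      have hz2 : z.2 ∈ Icc YL YU := ⟨h4.1.le, h4.2.1.le⟩
      by_cases hout : z.2 ≤ s ∨ y ≤ z.2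
      · have k1 := conc_out hR.ccv hs hy hz2 hsy er hout
        have k2 := conc_out hcl hs hy hz2 hsy (by simp only [el]) hout
        have m1 : z.1 ∈ Ioi (xl y) := by simp only [mem_Ioi]; linarith [h4.2.2.1]
        have m2 : z.1 ∈ Iio (xr y) := by simp only [mem_Iio]; linarith [h4.2.2.2]
        rw [indicator_of_mem m1, indicator_of_mem m2]
        rcases hout with ho | ho
        · have m3 : z.2 ∈ Iio y := by simp only [mem_Iio]; linarith
          rw [indicator_of_mem m3]
          simp only [Pi.one_apply, indicator_apply]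
          split_ifs <;> norm_num
        · have m3 : z.2 ∈ Ioi s := by simp only [mem_Ioi]; linarith
          rw [indicator_of_mem m3]
          simp only [Pi.one_apply, indicator_apply]
          split_ifs <;> norm_num
      · rw [not_or, not_le, not_le] at hout
        have m3 : z.2 ∈ Iio y := hout.2
        have m4 : z.2 ∈ Ioi s := hout.1
        rw [indicator_of_mem m3, indicator_of_mem m4]
        by_cases m1 : z.1 ∈ Ioi (xl y)
        · rw [indicator_of_mem m1]
          simp only [Pi.one_apply, indicator_apply]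
          split_ifs <;> norm_num
        · have m2 : z.1 ∈ Iio (xr y) := by
            simp only [mem_Ioi, not_lt] at m1
            simp only [mem_Iio]
            linarith
          rw [indicator_of_mem m2]
          simp only [Pi.one_apply, indicator_apply]
          split_ifs <;> norm_num)
    (by
      refine Filter.Eventually.of_forall fun z _ hzK _ h2 _ => ?_
      obtain ⟨w, hw, hw2⟩ := h2
      have hw3 := (mem_iff hR w).1 hw
      rw [hw2] at hw3
      have hz2 : z.2 ∈ Icc YL YU := ⟨hw3.1, hw3.2.1⟩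
      simp only [indicator_apply, mem_Ioi, mem_Iio, Pi.one_apply]
      by_cases q1 : xl y < z.1 <;> by_cases q2 : z.1 < xr y <;> by_cases q3 : z.2 < y <;>
        by_cases q4 : s < z.2 <;> simp only [q1, q2, q3, q4, if_true, if_false] <;>
        try norm_num
      exfalso
      apply hzK
      rw [mem_iff hR]
      have k1 := conc_in hR.ccv hs hy er q4 q3
      have k2 := conc_in hcl hs hy (by simp only [el]) q4 q3
      exact ⟨hz2.1, hz2.2, by linarith, by linarith⟩)
  have h1 := hm.1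
  rw [ae_iff] at h1
  refine measure_mono_null ?_ h1
  rintro z ⟨⟨hzK, hzL⟩, m1, m2, m3, m4⟩
  simp only [mem_ofPred_eq, Classical.not_imp]
  refine ⟨hzK, hzL, ?_⟩
  rw [indicator_of_mem (show z.1 ∈ Ioi (xl y) from m1),
    indicator_of_mem (show z.1 ∈ Iio (xr y) from m2),
    indicator_of_mem (show z.2 ∈ Iio y from m4), indicator_of_mem (show z.2 ∈ Ioi s from m3)]
  norm_num

private theorem pair_indep {p q : (ℝ × ℝ) →ₗ[ℝ] ℝ}
    (h : p (1, 0) * q (0, 1) - p (0, 1) * q (1, 0) ≠ 0) : LinearIndependent ℝ ![p, q] := by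
  rw [LinearIndependent.pair_iff]
  intro a b hab
  have h1 := congrArg (fun f : (ℝ × ℝ) →ₗ[ℝ] ℝ => f (1, 0)) hab
  have h2 := congrArg (fun f : (ℝ × ℝ) →ₗ[ℝ] ℝ => f (0, 1)) hab
  simp only [LinearMap.add_apply, LinearMap.smul_apply, smul_eq_mul, LinearMap.zero_apply] at h1 h2
  have e1 : a * (p (1, 0) * q (0, 1) - p (0, 1) * q (1, 0)) = 0 := by
    linear_combination q (0, 1) * h1 - q (1, 0) * h2
  have e2 : b * (p (1, 0) * q (0, 1) - p (0, 1) * q (1, 0)) = 0 := by
    linear_combination p (1, 0) * h2 - p (0, 1) * h1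
  exact ⟨(mul_eq_zero.1 e1).resolve_right h, (mul_eq_zero.1 e2).resolve_right h⟩

theorem rect_verif {K : Set (ℝ × ℝ)} (hc : IsCompact K) (hK : Convex ℝ K)
    (hi : (interior K).Nonempty) {YL YU : ℝ} {xl xr xl' xr' : ℝ → ℝ}
    (hR : Rep (Prod.swap ⁻¹' K) YL YU xl xr) (h : Normal YL YU xl xr xl' xr')
    (hr : ∀ y ∈ Ioo 0 YU, ∃ s ∈ Ioo YL 0, xr s = xr y ∧ xl s = xl y) : Verif K := by
  classical
  refine ⟨![LinearMap.fst ℝ ℝ ℝ, LinearMap.snd ℝ ℝ ℝ, LinearMap.fst ℝ ℝ ℝ + LinearMap.snd ℝ ℝ ℝ],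
    ?_, ?_⟩
  · intro i j hij
    apply pair_indep
    fin_cases i <;> fin_cases j <;> simp at hij ⊢
  intro L hL hsame
  have hKm : MeasurableSet K := hc.isClosed.measurableSet
  have s1 : Same (fun z => z.1) L K := hsame 0
  have s2 : Same (fun z => z.2) L K := hsame 1
  have s3 : Same (fun z => z.1 + z.2) L K := hsame 2
  have hlo := h.lo
  have hup := h.up
  -- the rectangles
  have hrect : ∀ z ∈ interior K, z.2 ≠ 0 → ∃ y ∈ Ioo 0 YU, ∃ s ∈ Ioo YL 0, xr s = xr y ∧
      xl s = xl y ∧ xl y < z.1 ∧ z.1 < xr y ∧ s < z.2 ∧ z.2 < y := by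
    intro z hz hz0
    obtain ⟨a1, a2, a3, a4⟩ := int_lt hR hz
    have hz2 : z.2 ∈ Icc YL YU := ⟨a1.le, a2.le⟩
    have hnb : Icc YL YU ∈ 𝓝 z.2 := Icc_mem_nhds a1 a2
    have cr : ContinuousAt xr z.2 := h.cr.continuousAt hnb
    have cl : ContinuousAt xl z.2 := h.cl.continuousAt hnb
    have ev : ∀ᶠ t in 𝓝 z.2, xl t < z.1 ∧ z.1 < xr t ∧ YL < t ∧ t < YU :=
      (cl.eventually_lt_const a3).and ((cr.eventually_const_lt a4).and
        ((lt_mem_nhds a1).and (gt_mem_nhds a2)))
    rw [Metric.eventually_nhds_iff] at ev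
    obtain ⟨δ, hδ, hev⟩ := ev
    rcases lt_or_gt_of_ne hz0 with hneg | hpos
    · -- negative level
      have ht := hev (y := z.2 - δ / 2) (by
        rw [Real.dist_eq, sub_sub_cancel_left, abs_neg, abs_of_pos (by linarith)]; linarith)
      set t := z.2 - δ / 2 with htdef
      have htz : t < z.2 := by linarith
      have ht0 : t < 0 := by linarith
      have htI : t ∈ Icc YL YU := ⟨ht.2.2.1.le, ht.2.2.2.le⟩
      have h0I : (0 : ℝ) ∈ Icc YL YU := ⟨hlo.le, hup.le⟩
      set W : ℝ → ℝ := fun y => xr y - xl y with hW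
      have hWc : ContinuousOn W (Icc 0 YU) :=
        (h.cr.mono (Icc_subset_Icc hlo.le le_rfl)).sub (h.cl.mono (Icc_subset_Icc hlo.le le_rfl))
      have hWt : 0 < W t := by
        have := hR.ltt t ⟨ht.2.2.1, ht.2.2.2⟩
        simp only [hW]; linarith
      have hW0 : ∀ u ∈ Icc YL YU, u ≠ 0 → W u < W 0 := by
        intro u hu hu0
        have := h.mr u hu hu0
        have := h.ml u hu hu0
        simp only [hW]; linarith
      have hWU : W YU = 0 := by simp only [hW, h.rU, h.lU, sub_self]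
      have hmem : W t ∈ Ioo (W YU) (W 0) := ⟨by rw [hWU]; exact hWt, hW0 t htI ht0.ne⟩
      obtain ⟨y, hy, hWy⟩ := intermediate_value_Ioo' hup.le hWc hmem
      obtain ⟨s, hs, er, el⟩ := hr y hy
      have hWs : W s = W t := by
        rw [← hWy]; simp only [hW, er, el]
      have hWcc : ConcaveOn ℝ (Icc YL YU) W := h.ccv.sub h.cvx
      have hsI : s ∈ Icc YL YU := ⟨hs.1.le, by linarith [hs.2]⟩
      have hst : s = t := by
        rcases lt_trichotomy s t with hlt | heq | hgt
        · exfalso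
          have := hWcc.slope_anti_adjacent hsI h0I hlt ht0
          rw [hWs, sub_self, zero_div] at this
          have h3 : 0 < (W 0 - W t) / (0 - t) :=
            div_pos (by linarith [hW0 t htI ht0.ne]) (by linarith)
          linarith
        · exact heq
        · exfalso
          have := hWcc.slope_anti_adjacent htI h0I hgt hs.2
          rw [hWs, sub_self, zero_div] at this
          have h3 : 0 < (W 0 - W t) / (0 - s) :=
            div_pos (by linarith [hW0 t htI ht0.ne]) (by linarith [hs.2])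
          linarith
      refine ⟨y, hy, s, hs, er, el, ?_, ?_, ?_, ?_⟩
      · rw [← el, hst]; exact ht.1
      · rw [← er, hst]; exact ht.2.1
      · rw [hst]; exact htz
      · linarith [hy.1]
    · -- positive level
      have ht := hev (y := z.2 + δ / 2) (by
        rw [Real.dist_eq, add_sub_cancel_left, abs_of_pos (by linarith)]; linarith)
      have hy : z.2 + δ / 2 ∈ Ioo 0 YU := ⟨by linarith, ht.2.2.2⟩
      obtain ⟨s, hs, er, el⟩ := hr _ hy
      exact ⟨z.2 + δ / 2, hy, s, hs, er, el, ht.1, ht.2.1, by linarith [hs.2], by linarith⟩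
  -- nothing is missing
  have hf : volume (frontier K) = 0 := hK.addHaar_frontier _
  have hline : volume {z : ℝ × ℝ | z.2 = 0} = 0 := by
    have e : {z : ℝ × ℝ | z.2 = 0} = univ ×ˢ {(0 : ℝ)} := by
      ext z; simp
    rw [e, Measure.volume_eq_prod, Measure.prod_prod]
    simp
  have hloc : volume {z : ℝ × ℝ | z ∈ interior K ∧ z.2 ≠ 0 ∧ z ∉ L} = 0 := by
    apply measure_null_of_locally_null
    rintro z ⟨hz, hz0, hzL⟩
    obtain ⟨y, hy, s, hs, er, el, b1, b2, b3, b4⟩ := hrect z hz hz0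
    have hyI : y ∈ Icc YL YU := ⟨by linarith [hy.1], hy.2.le⟩
    have hsI : s ∈ Icc YL YU := ⟨hs.1.le, by linarith [hs.2]⟩
    refine ⟨{z : ℝ × ℝ | z ∈ interior K ∧ z.2 ≠ 0 ∧ z ∉ L} ∩
      {z : ℝ × ℝ | xl y < z.1 ∧ z.1 < xr y ∧ s < z.2 ∧ z.2 < y}, ?_, ?_⟩
    · refine inter_mem_nhdsWithin _ (IsOpen.mem_nhds ?_ ⟨b1, b2, b3, b4⟩)
      exact (isOpen_lt continuous_const continuous_fst).inter
        ((isOpen_lt continuous_fst continuous_const).inter
          ((isOpen_lt continuous_const continuous_snd).inter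
            (isOpen_lt continuous_snd continuous_const)))
    · refine measure_mono_null ?_ (rect_null hc hK hR hyI hsI (by linarith [hs.2, hy.1]) er el
        (by linarith) hL s1 s2 s3)
      rintro w ⟨⟨w1, _, w3⟩, w4⟩
      exact ⟨⟨interior_subset w1, w3⟩, w4⟩
  have hKL : volume (K \ L) = 0 := by
    refine measure_mono_null (t := frontier K ∪ {z : ℝ × ℝ | z.2 = 0} ∪
      {z : ℝ × ℝ | z ∈ interior K ∧ z.2 ≠ 0 ∧ z ∉ L}) ?_
      (measure_union_null (measure_union_null hf hline) hloc)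
    rintro z ⟨hzK, hzL⟩
    by_cases hzi : z ∈ interior K
    · by_cases hz0 : z.2 = 0
      · exact Or.inl (Or.inr hz0)
      · exact Or.inr ⟨hzi, hz0, hzL⟩
    · exact Or.inl (Or.inl ⟨subset_closure hzK, hzi⟩)
  have hLK : volume (L \ K) = 0 := by
    have := s1.diff_eq hc hL MeasurableSet.univ
    simp only [preimage_univ, inter_univ] at this
    rw [this, hKL]
  exact ae_eq_set.2 ⟨hLK, hKL⟩

end XR57
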