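import Pool.Agent.W_MP_dd0508_gt.RepEx
import Pool.Agent.W_MP_dd0508_gt.C1
import Pool.Agent.W_MP_dd0508_gt.Marg

/-!
The shear taking a good parallelogram to a rectangle.
-/

namespace XR57

open Set

/-- The shear `(x,y) ↦ (x - lam y, y)`. -/
noncomputable def shear (lam : ℝ) : (ℝ × ℝ) ≃ₗ[ℝ] (ℝ × ℝ) where
  toFun z := (z.1 - lam * z.2, z.2)
  invFun z := (z.1 + lam * z.2, z.2)
  map_add' x y := by ext <;> simp; ring
  map_smul' c x := by ext <;> simp; ring
  left_inv x := by ext <;> simp
  right_inv x := by ext <;> simp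

private theorem shear_apply (lam : ℝ) (z : ℝ × ℝ) : shear lam z = (z.1 - lam * z.2, z.2) := rfl

private theorem mem_shear_image {K : Set (ℝ × ℝ)} {lam x y : ℝ} :
    (x, y) ∈ shear lam '' K ↔ (x + lam * y, y) ∈ K := by
  constructor
  · rintro ⟨z, hz, hze⟩
    rw [shear_apply] at hze
    have h1 : z.1 - lam * z.2 = x := congrArg Prod.fst hze
    have h2 : z.2 = y := congrArg Prod.snd hze
    have : (x + lam * y, y) = z := by
      ext
      · simp only
        rw [← h1, ← h2]; ring
      · exact h2.symm
    rw [this]; exact hz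
  · intro h
    refine ⟨(x + lam * y, y), h, ?_⟩
    rw [shear_apply]
    simp

private theorem repy_shear {K : Set (ℝ × ℝ)} {YL YU : ℝ} {xl xr : ℝ → ℝ}
    (hR : Rep (Prod.swap ⁻¹' K) YL YU xl xr) (lam : ℝ) :
    Rep (Prod.swap ⁻¹' (shear lam '' K)) YL YU (fun y => xl y - lam * y)
      (fun y => xr y - lam * y) := by
  have hlin1 : ConcaveOn ℝ (Icc YL YU) (fun y : ℝ => lam * y) := by
    refine ⟨convex_Icc _ _, fun x _ y _ a b _ _ _ => ?_⟩
    simp only [smul_eq_mul]
    apply le_of_eq; ring
  have hlin2 : ConvexOn ℝ (Icc YL YU) (fun y : ℝ => lam * y) := by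
    refine ⟨convex_Icc _ _, fun x _ y _ a b _ _ _ => ?_⟩
    simp only [smul_eq_mul]
    apply le_of_eq; ring
  have hcl : ContinuousOn (fun y : ℝ => lam * y) (Icc YL YU) := by fun_prop
  refine ⟨hR.lt, ?_, hR.cvx.sub hlin1, hR.ccv.sub hlin2, hR.clo.sub hcl, hR.chi.sub hcl, ?_, ?_⟩
  · intro x y
    have h1 : (x, y) ∈ Prod.swap ⁻¹' (shear lam '' K) ↔
        (x, y + lam * x) ∈ Prod.swap ⁻¹' K := by
      rw [mem_preimage, mem_preimage, Prod.swap_prod_mk, Prod.swap_prod_mk, mem_shear_image]
    rw [h1, hR.mem]
    constructor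
    · rintro ⟨k1, k2, k3, k4⟩
      exact ⟨k1, k2, by linarith, by linarith⟩
    · rintro ⟨k1, k2, k3, k4⟩
      exact ⟨k1, k2, by linarith, by linarith⟩
  · intro x hx
    have := hR.le x hx
    linarith
  · intro x hx
    have := hR.ltt x hx
    linarith

theorem coreHyp_of_good {K : Set (ℝ × ℝ)} (hc : IsCompact K) (hK : Convex ℝ K)
    (hi : (interior K).Nonempty) (hnc : NoCorner K) {YL YU : ℝ} {xl xr xl' xr' : ℝ → ℝ}
    (hR : Rep (Prod.swap ⁻¹' K) YL YU xl xr) (h : Normal YL YU xl xr xl' xr')
    {lam ym yp : ℝ} (g : Good YL YU xl xr xl' xr' lam ym yp) :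
    ∃ (XL XR x3 x1 : ℝ) (bot top bot' top' : ℝ → ℝ),
      CoreHyp (shear lam '' K) XL XR YL YU bot top bot' top'
        (fun y => xl y - lam * y) (fun y => xr y - lam * y)
        (fun y => xl' y - lam) (fun y => xr' y - lam) ym yp x3 x1 := by
  have hcpt : IsCompact (shear lam '' K) := by
    apply hc.image
    have : (fun z => shear lam z) = fun z : ℝ × ℝ => (z.1 - lam * z.2, z.2) := by
      funext z; rfl
    change Continuous (fun z => shear lam z)
    rw [this]
    fun_prop
  have hcvx : Convex ℝ (shear lam '' K) := hK.linear_image (shear lam).toLinearMap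
  have hint : (interior (shear lam '' K)).Nonempty := by
    have h1 := (shear lam).toContinuousLinearEquiv.toHomeomorph.image_interior K
    have h2 : (interior ((shear lam).toContinuousLinearEquiv.toHomeomorph '' K)).Nonempty := by
      rw [← h1]
      exact hi.image _
    exact h2
  have hnc' : NoCorner (shear lam '' K) := by
    have := hnc.image (shear lam) 0
    simpa using this
  obtain ⟨XL, XR, bot, top, hX⟩ := exists_rep hcpt hcvx hint
  obtain ⟨bot', top', hb, ht, hcb, hct⟩ := hX.c1 hnc'
  have hyp : yp ∈ Ioo YL YU := ⟨by linarith [h.lo, g.yp0], g.ypU⟩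
  have h0 : (0 : ℝ) ∈ Ioo YL YU := ⟨h.lo, h.up⟩
  have hr0 : xr' 0 = 0 := by
    have hmax : IsLocalMax xr 0 := by
      filter_upwards [Ioo_mem_nhds h.lo h.up] with y hy
      by_cases hy0 : y = 0
      · rw [hy0]
      · exact (h.mr y (Ioo_subset_Icc_self hy) hy0).le
    exact hmax.hasDerivAt_eq_zero (h.dr 0 h0)
  have hl0 : xl' 0 = 0 := by
    have hmin : IsLocalMin xl 0 := by
      filter_upwards [Ioo_mem_nhds h.lo h.up] with y hy
      by_cases hy0 : y = 0
      · rw [hy0]
      · exact (h.ml y (Ioo_subset_Icc_self hy) hy0).le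
    exact hmin.hasDerivAt_eq_zero (h.dl 0 h0)
  refine ⟨XL, XR, xl yp - lam * yp, xr yp - lam * yp, bot, top, bot', top', ?_⟩
  exact
    { cpt := hcpt
      cvx := hcvx
      int := hint
      repx := hX
      repy := repy_shear hR lam
      db := hb
      dt := ht
      cb' := hcb
      ct' := hct
      dl := fun y hy => by
        have h1 : HasDerivAt (fun y : ℝ => lam * y) lam y := by
          simpa using (hasDerivAt_id y).const_mul lam
        exact (h.dl y hy).sub h1
      dr := fun y hy => by
        have h1 : HasDerivAt (fun y : ℝ => lam * y) lam y := by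
          simpa using (hasDerivAt_id y).const_mul lam
        exact (h.dr y hy).sub h1
      cl' := h.cl'.sub continuousOn_const
      cr' := h.cr'.sub continuousOn_const
      ymL := g.ymL
      ym0 := g.ym0
      yp0 := g.yp0
      ypU := g.ypU
      x31 := by
        have := hR.ltt yp hyp
        linarith
      rm := by
        have := g.er
        linarith
      rp := rfl
      lm := by
        have := g.el
        linarith
      lp := rfl
      a := g.a
      a' := g.a'
      b := g.b
      b' := g.b'
      q1 := g.q1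
      q2 := g.q2
      r0 := by
        have := g.hlam
        simp only [hr0]
        linarith
      l0 := by
        have := g.hlam
        simp only [hl0]
        linarith }

end XR57
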