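import Pool.Agent.W_MP_dd0508_gt.Defs

/-!
Slopes of the inscribed parallelograms with horizontal sides (section 2).
-/

namespace XR57

open Set Filter Topology

/-- Tangents of a concave function with a strict maximum at `0` are strictly steeper than chords
across `0`. -/
private theorem chord_lt {YL YU : ℝ} {g g' : ℝ → ℝ} (h0 : YL < 0) (h1 : 0 < YU)
    (hg : ConcaveOn ℝ (Icc YL YU) g) (d : ∀ y ∈ Ioo YL YU, HasDerivAt g (g' y) y)
    (m : ∀ y ∈ Icc YL YU, y ≠ 0 → g y < g 0) {s y : ℝ} (hs : s ∈ Ioo YL 0) (hy : y ∈ Ioo 0 YU) :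
    g y - g s < g' s * (y - s) ∧ g' y * (y - s) < g y - g s := by
  obtain ⟨hs1, hs2⟩ := hs
  obtain ⟨hy1, hy2⟩ := hy
  have z0 : (0 : ℝ) ∈ Icc YL YU := ⟨h0.le, h1.le⟩
  have zs : s ∈ Icc YL YU := ⟨hs1.le, by linarith⟩
  have zy : y ∈ Icc YL YU := ⟨by linarith, hy2.le⟩
  have ms := m s zs hs2.ne
  have my := m y zy hy1.ne'
  have A := hg.slope_le_of_hasDerivAt zs z0 hs2 (d s ⟨hs1, by linarith⟩)
  have B := hg.le_slope_of_hasDerivAt z0 zy hy1 (d y ⟨by linarith, hy2⟩)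
  rw [slope_def_field] at A B
  rw [div_le_iff₀ (by linarith)] at A
  rw [le_div_iff₀ (by linarith)] at B
  constructor
  · -- g y < g 0, g 0 - g s ≤ g' s * (0 - s), g' s > 0
    have hp : 0 < g' s := by
      by_contra hc
      push Not at hc
      nlinarith
    nlinarith [mul_pos hp hy1]
  · have hp : g' y < 0 := by
      by_contra hc
      push Not at hc
      nlinarith
    nlinarith [mul_neg_of_neg_of_pos hp (by linarith : 0 < -s)]

/-- The width function. -/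
private def Wd (xl xr : ℝ → ℝ) (y : ℝ) : ℝ := xr y - xl y

section

variable {YL YU : ℝ} {xl xr xl' xr' : ℝ → ℝ}

private theorem Normal.wccv (h : Normal YL YU xl xr xl' xr') :
    ConcaveOn ℝ (Icc YL YU) (Wd xl xr) := h.ccv.sub h.cvx

private theorem Normal.wd (h : Normal YL YU xl xr xl' xr') : ∀ y ∈ Ioo YL YU,
    HasDerivAt (Wd xl xr) (xr' y - xl' y) y := fun y hy => (h.dr y hy).sub (h.dl y hy)

private theorem Normal.wm (h : Normal YL YU xl xr xl' xr') : ∀ y ∈ Icc YL YU, y ≠ 0 →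
    Wd xl xr y < Wd xl xr 0 := fun y hy hy0 => by
  have := h.mr y hy hy0
  have := h.ml y hy hy0
  simp only [Wd]
  linarith

private theorem Normal.wc (h : Normal YL YU xl xr xl' xr') :
    ContinuousOn (Wd xl xr) (Icc YL YU) := h.cr.sub h.cl

/-- The derivative of the width is positive below level zero. -/
private theorem Normal.wpos (h : Normal YL YU xl xr xl' xr') {s : ℝ} (hs : s ∈ Ioo YL 0) :
    0 < xr' s - xl' s := by
  have z0 : (0 : ℝ) ∈ Icc YL YU := ⟨h.lo.le, h.up.le⟩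
  have zs : s ∈ Icc YL YU := ⟨hs.1.le, by linarith [hs.2, h.up]⟩
  have A := h.wccv.slope_le_of_hasDerivAt zs z0 hs.2 (h.wd s ⟨hs.1, by linarith [hs.2, h.up]⟩)
  have ms := h.wm s zs hs.2.ne
  rw [slope_def_field, div_le_iff₀ (by linarith [hs.2])] at A
  by_contra hc
  push Not at hc
  nlinarith [hs.2]

private theorem Normal.winj (h : Normal YL YU xl xr xl' xr') : StrictMonoOn (Wd xl xr) (Ioo YL 0) := by
  apply strictMonoOn_of_deriv_pos (convex_Ioo _ _)
  · exact h.wc.mono fun y hy => ⟨hy.1.le, by linarith [hy.2, h.up]⟩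
  · intro s hs
    rw [interior_Ioo] at hs
    rw [(h.wd s ⟨hs.1, by linarith [hs.2, h.up]⟩).deriv]
    exact h.wpos hs

private theorem level_aux (h : Normal YL YU xl xr xl' xr') {y : ℝ} (hy : y ∈ Ioo 0 YU) :
    ∃ s ∈ Ioo YL 0, xr s - xl s = xr y - xl y := by
  have hlo := h.lo
  have hup := h.up
  have z0 : (0 : ℝ) ∈ Icc YL YU := ⟨hlo.le, hup.le⟩
  have zU : YU ∈ Icc YL YU := ⟨by linarith, le_rfl⟩
  have zy : y ∈ Icc YL YU := ⟨by linarith [hy.1], hy.2.le⟩
  have W0 : 0 < Wd xl xr 0 := by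
    have := h.wm YL ⟨le_rfl, by linarith⟩ hlo.ne
    simp only [Wd, h.rL, h.lL] at this ⊢
    linarith
  have WU : Wd xl xr YU = 0 := by simp [Wd, h.rU, h.lU]
  have WL : Wd xl xr YL = 0 := by simp [Wd, h.rL, h.lL]
  have Wy : 0 < Wd xl xr y := by
    -- y = (1 - y/YU) * 0 + (y/YU) * YU
    have hc := h.wccv.2 z0 zU
      (show (0 : ℝ) ≤ 1 - y / YU by rw [sub_nonneg, div_le_one hup]; exact hy.2.le)
      (show (0 : ℝ) ≤ y / YU from div_nonneg hy.1.le hup.le) (by ring)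
    simp only [smul_eq_mul, mul_zero, zero_add, WU, add_zero] at hc
    rw [div_mul_cancel₀ _ hup.ne'] at hc
    have : 0 < (1 - y / YU) * Wd xl xr 0 := by
      apply mul_pos _ W0
      rw [sub_pos, div_lt_one hup]; exact hy.2
    linarith
  have Wlt := h.wm y zy hy.1.ne'
  obtain ⟨s, hs, hs'⟩ := intermediate_value_Ioo hlo.le (h.wc.mono (Icc_subset_Icc le_rfl hup.le))
    (show Wd xl xr y ∈ Ioo (Wd xl xr YL) (Wd xl xr 0) by rw [WL]; exact ⟨Wy, Wlt⟩)
  exact ⟨s, hs, hs'⟩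

end

/-- The level below zero with the same width. -/
theorem Normal.exists_level {YL YU : ℝ} {xl xr xl' xr' : ℝ → ℝ}
    (h : Normal YL YU xl xr xl' xr') {y : ℝ} (hy : y ∈ Ioo 0 YU) :
    ∃ s ∈ Ioo YL 0, xr s - xl s = xr y - xl y := level_aux h hy

/-- The level below zero with the same width as the level `y`. -/
private noncomputable def sg (YL : ℝ) (xl xr : ℝ → ℝ) (y : ℝ) : ℝ :=
  Function.invFunOn (Wd xl xr) (Ioo YL 0) (Wd xl xr y)

/-- The slope of the chord. -/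
private noncomputable def Lm (YL : ℝ) (xl xr : ℝ → ℝ) (y : ℝ) : ℝ :=
  (xr y - xr (sg YL xl xr y)) / (y - sg YL xl xr y)

section

variable {YL YU : ℝ} {xl xr xl' xr' : ℝ → ℝ}

private theorem Normal.sg_eq (h : Normal YL YU xl xr xl' xr') {s y : ℝ} (hs : s ∈ Ioo YL 0)
    (hW : xr s - xl s = xr y - xl y) : sg YL xl xr y = s := by
  have h1 : Wd xl xr y = Wd xl xr s := hW.symm
  rw [sg, h1]
  exact h.winj.injOn.leftInvOn_invFunOn hs

private theorem Normal.sg_mem (h : Normal YL YU xl xr xl' xr') {y : ℝ} (hy : y ∈ Ioo 0 YU) :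
    sg YL xl xr y ∈ Ioo YL 0 ∧
      xr (sg YL xl xr y) - xl (sg YL xl xr y) = xr y - xl y := by
  obtain ⟨s, hs, hW⟩ := h.exists_level hy
  rw [h.sg_eq hs hW]
  exact ⟨hs, hW⟩

private theorem Normal.sg_deriv (h : Normal YL YU xl xr xl' xr') {y : ℝ} (hy : y ∈ Ioo 0 YU) :
    HasDerivAt (sg YL xl xr)
      ((xr' (sg YL xl xr y) - xl' (sg YL xl xr y))⁻¹ * (xr' y - xl' y)) y := by
  obtain ⟨hs, hW⟩ := h.sg_mem hy
  have hup := h.up
  set s := sg YL xl xr y with hsdef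
  have hs2 : s ∈ Ioo YL YU := ⟨hs.1, by linarith [hs.2]⟩
  have hst : HasStrictDerivAt (Wd xl xr) (xr' s - xl' s) s := by
    refine hasStrictDerivAt_of_hasDerivAt_of_continuousAt (f' := fun t => xr' t - xl' t) ?_ ?_
    · filter_upwards [isOpen_Ioo.mem_nhds hs2] with t ht
      exact h.wd t ht
    · exact ((h.cr'.sub h.cl').continuousAt (isOpen_Ioo.mem_nhds hs2))
  have hinv := hst.to_local_left_inverse (h.wpos hs).ne'
    (g := Function.invFunOn (Wd xl xr) (Ioo YL 0)) (by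
      filter_upwards [isOpen_Ioo.mem_nhds hs] with t ht
      exact h.winj.injOn.leftInvOn_invFunOn ht)
  have hWe : Wd xl xr s = Wd xl xr y := hW
  rw [hWe] at hinv
  exact hinv.hasDerivAt.comp y (h.wd y ⟨by linarith [hy.1, h.lo], hy.2⟩)

private theorem Normal.Lm_deriv (h : Normal YL YU xl xr xl' xr') {y : ℝ} (hy : y ∈ Ioo 0 YU) :
    ∃ D : ℝ, HasDerivAt (Lm YL xl xr) D y ∧
      D * ((y - sg YL xl xr y) * (xr' (sg YL xl xr y) - xl' (sg YL xl xr y))) =
        (xr' (sg YL xl xr y) - Lm YL xl xr y) * (xl' y - Lm YL xl xr y) -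
        (xr' y - Lm YL xl xr y) * (xl' (sg YL xl xr y) - Lm YL xl xr y) := by
  obtain ⟨hs, hW⟩ := h.sg_mem hy
  have hup := h.up
  have hlo := h.lo
  have hd := h.sg_deriv hy
  have hs2 : sg YL xl xr y ∈ Ioo YL YU := ⟨hs.1, by linarith [hs.2]⟩
  have hy2 : y ∈ Ioo YL YU := ⟨by linarith [hy.1], hy.2⟩
  have hne : y - sg YL xl xr y ≠ 0 := by linarith [hs.2, hy.1]
  have h1 : HasDerivAt (fun t => xr t - xr (sg YL xl xr t))
      (xr' y - xr' (sg YL xl xr y) *
        ((xr' (sg YL xl xr y) - xl' (sg YL xl xr y))⁻¹ * (xr' y - xl' y))) y :=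
    (h.dr y hy2).sub ((h.dr _ hs2).comp y hd)
  have h2 : HasDerivAt (fun t => t - sg YL xl xr t)
      (1 - ((xr' (sg YL xl xr y) - xl' (sg YL xl xr y))⁻¹ * (xr' y - xl' y))) y :=
    (hasDerivAt_id y).sub hd
  refine ⟨_, h1.div h2 hne, ?_⟩
  have hp := (h.wpos hs).ne'
  simp only [Lm]
  generalize sg YL xl xr y = s at *
  generalize xr' s = p at *
  generalize xl' s = q at *
  generalize xr' y = u at *
  generalize xl' y = v at *
  generalize xr y = X at *
  generalize xr s = Y at *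
  field_simp
  ring

end

theorem Normal.exists_good {YL YU : ℝ} {xl xr xl' xr' : ℝ → ℝ}
    (h : Normal YL YU xl xr xl' xr') {s y : ℝ} (hs : s ∈ Ioo YL 0) (hy : y ∈ Ioo 0 YU)
    (hW : xr s - xl s = xr y - xl y) (hpos : xr s < xr y) :
    ∃ lam ym yp : ℝ, Good YL YU xl xr xl' xr' lam ym yp := by
  have hlo := h.lo
  have hup := h.up
  have hse := h.sg_eq hs hW
  have hmem : ∀ t ∈ Ioo 0 YU, sg YL xl xr t ∈ Ioo YL 0 := fun t ht => (h.sg_mem ht).1
  have hWσ : ∀ t ∈ Ioo 0 YU,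
      xr (sg YL xl xr t) - xl (sg YL xl xr t) = xr t - xl t := fun t ht => (h.sg_mem ht).2
  have hder := fun t ht => h.Lm_deriv (y := t) ht
  have hΛe : ∀ t ∈ Ioo 0 YU, xr t - xr (sg YL xl xr t) = Lm YL xl xr t * (t - sg YL xl xr t) := by
    intro t ht
    have : t - sg YL xl xr t ≠ 0 := by linarith [(hmem t ht).2, ht.1]
    simp only [Lm]
    rw [div_mul_cancel₀ _ this]
  have hσc : ∀ t ∈ Ioo 0 YU, ContinuousAt (sg YL xl xr) t := fun t ht => (h.sg_deriv ht).continuousAt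
  generalize Lm YL xl xr = Λ at *
  generalize sg YL xl xr = σ at *
  have hΛl : ∀ t ∈ Ioo 0 YU, xl t - xl (σ t) = Λ t * (t - σ t) := by
    intro t ht
    linarith [hΛe t ht, hWσ t ht]
  have hgap : ∀ t ∈ Ioo 0 YU, 0 < t - σ t := fun t ht => by linarith [(hmem t ht).2, ht.1]
  have cr : ∀ t ∈ Ioo 0 YU, Λ t < xr' (σ t) ∧ xr' t < Λ t := by
    intro t ht
    have hc := chord_lt hlo hup h.ccv h.dr h.mr (hmem t ht) ht
    rw [hΛe t ht] at hc
    exact ⟨lt_of_mul_lt_mul_right hc.1 (hgap t ht).le, lt_of_mul_lt_mul_right hc.2 (hgap t ht).le⟩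
  have cl : ∀ t ∈ Ioo 0 YU, xl' (σ t) < Λ t ∧ Λ t < xl' t := by
    intro t ht
    have hc := chord_lt (g := fun t => - xl t) (g' := fun t => - xl' t) hlo hup h.cvx.neg
      (fun y hy => (h.dl y hy).neg) (fun y hy hy0 => neg_lt_neg (h.ml y hy hy0)) (hmem t ht) ht
    have e := hΛl t ht
    have g := hgap t ht
    constructor
    · by_contra hcon
      push Not at hcon
      nlinarith [hc.1, mul_le_mul_of_nonneg_right hcon g.le]
    · by_contra hcon
      push Not at hcon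
      nlinarith [hc.2, mul_le_mul_of_nonneg_right hcon g.le]
  have Λc : ∀ t ∈ Ioo 0 YU, ContinuousAt Λ t := fun t ht => by
    obtain ⟨D, hD, -⟩ := hder t ht
    exact hD.continuousAt
  have hy0 : 0 < Λ y := by
    have e := hΛe y hy
    rw [hse] at e
    have g : 0 < y - s := by linarith [hs.2, hy.1]
    by_contra hcon
    push Not at hcon
    nlinarith [mul_nonneg_of_nonpos_of_nonpos hcon (by linarith : -(y - s) ≤ 0)]
  -- near `YU`
  have hU : ∃ q ∈ Ioo y YU, ∀ t ∈ Ico q YU, Λ t < Λ y := by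
    have hcU : ContinuousWithinAt xr (Iio YU) YU := by
      have := (h.cr YU ⟨by linarith, le_rfl⟩)
      refine this.mono_of_mem_nhdsWithin ?_
      have : Ioo YL YU ∈ 𝓝[<] YU := Ioo_mem_nhdsLT (by linarith)
      exact Filter.mem_of_superset this Ioo_subset_Icc_self
    have hev : ∀ᶠ t in 𝓝[<] YU, xr t < Λ y * t := by
      have h1 : Tendsto (fun t => xr t - Λ y * t) (𝓝[<] YU) (𝓝 (xr YU - Λ y * YU)) :=
        hcU.tendsto.sub ((continuous_const.mul continuous_id).continuousWithinAt.tendsto)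
      have h2 : xr YU - Λ y * YU < 0 := by rw [h.rU]; nlinarith
      filter_upwards [h1.eventually (gt_mem_nhds h2)] with t ht
      linarith
    have hev2 := hev.and (Ioo_mem_nhdsLT hy.2)
    obtain ⟨q, hq, hsub⟩ := (mem_nhdsLT_iff_exists_Ioo_subset' hy.2).1 hev2
    have hq' : q < YU := hq
    refine ⟨(max q y + YU) / 2, ⟨?_, ?_⟩, ?_⟩
    · have := le_max_right q y
      have := hy.2
      linarith
    · have : max q y < YU := max_lt hq' hy.2
      linarith
    · intro t ht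
      have hm : max q y < YU := max_lt hq' hy.2
      have h1 : q < t := by
        have := le_max_left q y
        linarith [ht.1]
      obtain ⟨h3, h4⟩ := hsub ⟨h1, ht.2⟩
      have ht' : t ∈ Ioo 0 YU := ⟨by linarith [h4.1, hy.1], ht.2⟩
      have hσ0 : 0 ≤ xr (σ t) := by
        have hm := hmem t ht'
        have := h.ccv.min_le_of_mem_Icc (x := YL) (y := YU) (z := σ t) ⟨le_rfl, by linarith⟩
          ⟨by linarith, le_rfl⟩ ⟨hm.1.le, by linarith [hm.2]⟩
        rw [h.rL, h.rU, min_self] at this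
        exact this
      by_contra hcon
      push Not at hcon
      have e := hΛe t ht'
      have hm := hmem t ht'
      have : Λ y * t ≤ Λ t * (t - σ t) :=
        mul_le_mul hcon (by linarith [hm.2]) ht'.1.le (by linarith)
      have h3' : xr t < Λ y * t := h3
      linarith
  -- near `0`
  have hl0 : xl' 0 = 0 := by
    have hloc : IsLocalMin xl 0 := by
      filter_upwards [isOpen_Ioo.mem_nhds (show (0 : ℝ) ∈ Ioo YL YU from ⟨hlo, hup⟩)] with t ht
      by_cases h0 : t = 0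
      · rw [h0]
      · exact (h.ml t (Ioo_subset_Icc_self ht) h0).le
    exact hloc.hasDerivAt_eq_zero (h.dl 0 ⟨hlo, hup⟩)
  have hL : ∃ p ∈ Ioo 0 y, ∀ t ∈ Ioc 0 p, Λ t < Λ y := by
    have hc0 : ContinuousAt xl' 0 :=
      h.cl'.continuousAt (isOpen_Ioo.mem_nhds (show (0 : ℝ) ∈ Ioo YL YU from ⟨hlo, hup⟩))
    have hev : ∀ᶠ t in 𝓝[>] (0 : ℝ), xl' t < Λ y := by
      have := hc0.tendsto.eventually (gt_mem_nhds (show xl' 0 < Λ y by rw [hl0]; exact hy0))
      exact this.filter_mono nhdsWithin_le_nhds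
    obtain ⟨p, hp, hsub⟩ := (mem_nhdsGT_iff_exists_Ioo_subset' hy.1).1 hev
    have hp' : 0 < p := hp
    refine ⟨min p y / 2, ⟨?_, ?_⟩, ?_⟩
    · have : 0 < min p y := lt_min hp' hy.1
      linarith
    · have := min_le_right p y
      have := hy.1
      linarith
    · intro t ht
      have : 0 < min p y := lt_min hp' hy.1
      have h1 : t < p := by
        have := min_le_left p y
        linarith [ht.2]
      have h2 : t < y := by
        have := min_le_right p y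
        linarith [ht.2]
      have h3 : xl' t < Λ y := hsub ⟨ht.1, h1⟩
      exact ((cl t ⟨ht.1, by linarith [hy.2]⟩).2).trans h3
  obtain ⟨p, hp, hpL⟩ := hL
  obtain ⟨q, hq, hqU⟩ := hU
  have hpq : Icc p q ⊆ Ioo 0 YU := fun t ht => ⟨by linarith [hp.1, ht.1], by linarith [hq.2, ht.2]⟩
  have hΛon : ContinuousOn Λ (Icc p q) := fun t ht => (Λc t (hpq ht)).continuousWithinAt
  have hyI : y ∈ Icc p q := ⟨hp.2.le, hq.1.le⟩
  obtain ⟨m, hm, hmax⟩ := isCompact_Icc.exists_isMaxOn ⟨y, hyI⟩ hΛon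
  have hclosed : IsClosed (Icc p q ∩ Λ ⁻¹' {Λ m}) :=
    hΛon.preimage_isClosed_of_isClosed isClosed_Icc isClosed_singleton
  have hcomp : IsCompact (Icc p q ∩ Λ ⁻¹' {Λ m}) :=
    isCompact_Icc.of_isClosed_subset hclosed inter_subset_left
  obtain ⟨t0, ht0, hgt⟩ := hcomp.exists_isGreatest ⟨m, hm, rfl⟩
  have ht0e : Λ t0 = Λ m := ht0.2
  have hc0 : Λ y ≤ Λ t0 := by rw [ht0e]; exact hmax hyI
  have hglob : ∀ t ∈ Ioo 0 YU, Λ t ≤ Λ t0 := by
    intro t ht
    rcases le_or_gt t p with h1 | h1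
    · exact ((hpL t ⟨ht.1, h1⟩).le).trans hc0
    · rcases le_or_gt q t with h2 | h2
      · exact ((hqU t ⟨h2, ht.2⟩).le).trans hc0
      · rw [ht0e]
        exact hmax ⟨h1.le, h2.le⟩
  have ht0I := hpq ht0.1
  have ht0q : t0 < q := by
    rcases lt_or_eq_of_le ht0.1.2 with h1 | h1
    · exact h1
    · exfalso
      have := hqU q ⟨le_rfl, hq.2⟩
      rw [h1] at hc0
      linarith
  -- the derivative vanishes at `t0`
  have hloc : IsLocalMax Λ t0 := by
    filter_upwards [isOpen_Ioo.mem_nhds ht0I] with t ht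
    exact hglob t ht
  obtain ⟨D, hD, hDe⟩ := hder t0 ht0I
  have hD0 : D = 0 := hloc.hasDerivAt_eq_zero hD
  rw [hD0, zero_mul] at hDe
  have hxr : ∀ t ∈ Ioo 0 YU, ContinuousAt xr' t := fun t ht =>
    h.cr'.continuousAt (isOpen_Ioo.mem_nhds ⟨by linarith [ht.1], ht.2⟩)
  have hxl : ∀ t ∈ Ioo 0 YU, ContinuousAt xl' t := fun t ht =>
    h.cl'.continuousAt (isOpen_Ioo.mem_nhds ⟨by linarith [ht.1], ht.2⟩)
  have hxrσ : ∀ t ∈ Ioo 0 YU, ContinuousAt (fun t => xr' (σ t)) t := fun t ht =>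
    ContinuousAt.comp (g := xr') (h.cr'.continuousAt (isOpen_Ioo.mem_nhds
      ⟨(hmem t ht).1, by linarith [(hmem t ht).2]⟩)) (hσc t ht)
  have hxlσ : ∀ t ∈ Ioo 0 YU, ContinuousAt (fun t => xl' (σ t)) t := fun t ht =>
    ContinuousAt.comp (g := xl') (h.cl'.continuousAt (isOpen_Ioo.mem_nhds
      ⟨(hmem t ht).1, by linarith [(hmem t ht).2]⟩)) (hσc t ht)
  have hFG : ContinuousAt (fun t => 2 * ((xr' (σ t) - Λ t) * (xl' t - Λ t)) -
      (xr' t - Λ t) * (xl' (σ t) - Λ t)) t0 := by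
    have a1 := hxr t0 ht0I
    have a2 := hxl t0 ht0I
    have a3 := hxrσ t0 ht0I
    have a4 := hxlσ t0 ht0I
    have a5 := Λc t0 ht0I
    exact (continuousAt_const.mul ((a3.sub a5).mul (a2.sub a5))).sub ((a1.sub a5).mul (a4.sub a5))
  have hval : 0 < 2 * ((xr' (σ t0) - Λ t0) * (xl' t0 - Λ t0)) -
      (xr' t0 - Λ t0) * (xl' (σ t0) - Λ t0) := by
    have h1 := cr t0 ht0I
    have h2 := cl t0 ht0I
    have := mul_pos (sub_pos.2 h1.1) (sub_pos.2 h2.2)
    linarith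
  have hev : ∀ᶠ t in 𝓝[>] t0, (0 < 2 * ((xr' (σ t) - Λ t) * (xl' t - Λ t)) -
      (xr' t - Λ t) * (xl' (σ t) - Λ t)) ∧ 0 < Λ t := by
    have h1 := hFG.tendsto.eventually (lt_mem_nhds hval)
    have h2 := (Λc t0 ht0I).tendsto.eventually (lt_mem_nhds (hy0.trans_le hc0))
    exact (h1.and h2).filter_mono nhdsWithin_le_nhds
  obtain ⟨u, hu, hsub⟩ := (mem_nhdsGT_iff_exists_Ioo_subset' ht0q).1 hev
  have hu' : t0 < u := hu
  obtain ⟨t1, ht1⟩ := exists_between (lt_min hu' ht0q)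
  have ht1u : t1 < u := ht1.2.trans_le (min_le_left _ _)
  have ht1q : t1 < q := ht1.2.trans_le (min_le_right _ _)
  have hlt : Λ t1 < Λ t0 := by
    refine lt_of_le_of_ne (hglob t1 ⟨by linarith [ht0I.1, ht1.1], by linarith [hq.2]⟩) ?_
    intro heq
    have : t1 ∈ Icc p q ∩ Λ ⁻¹' {Λ m} :=
      ⟨⟨by linarith [ht0.1.1, ht1.1], ht1q.le⟩, by rw [mem_preimage, heq, ht0e]; rfl⟩
    have := hgt this
    linarith [ht1.1]
  have hsubI : Icc t0 t1 ⊆ Ioo 0 YU := fun t ht =>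
    ⟨by linarith [ht0I.1, ht.1], by linarith [ht.2, hq.2]⟩
  obtain ⟨c, hc, hce⟩ := exists_hasDerivAt_eq_slope Λ (deriv Λ) ht1.1
    (fun t ht => (Λc t (hsubI ht)).continuousWithinAt) (fun t ht => by
      obtain ⟨D, hD, -⟩ := hder t (hsubI (Ioo_subset_Icc_self ht))
      rw [hD.deriv]; exact hD)
  have hcI := hsubI (Ioo_subset_Icc_self hc)
  obtain ⟨E, hE, hEe⟩ := hder c hcI
  rw [hE.deriv] at hce
  have hEneg : E < 0 := by
    rw [hce]
    exact div_neg_of_neg_of_pos (by linarith) (by linarith [ht1.1])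
  obtain ⟨hc1, hc2⟩ := hsub ⟨hc.1, hc.2.trans ht1u⟩
  have hwp := h.wpos (hmem c hcI)
  have hprod : E * ((c - σ c) * (xr' (σ c) - xl' (σ c))) < 0 :=
    mul_neg_of_neg_of_pos hEneg (mul_pos (hgap c hcI) hwp)
  have hcr := cr c hcI
  have hcl := cl c hcI
  have hmc := hmem c hcI
  refine ⟨Λ c, σ c, c, ⟨hc2, hmc.1, hmc.2, hcI.1, hcI.2, hΛe c hcI, hΛl c hcI, by linarith,
    by linarith, by linarith, by linarith, by linarith, by linarith⟩⟩

end XR57
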