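import Pool.Agent.W_MP_dd0508_gt.Core
import Pool.Agent.W_MP_dd0508_gt.Shear
import Pool.Agent.W_MP_dd0508_gt.Rect
import Pool.Agent.W_MP_dd0508_gt.Slope
import Pool.Agent.W_MP_dd0508_gt.Norm
import Pool.Agent.W_MP_dd0508_gt.NormalOf

/-!
Every planar convex body is verified by three marginals.
-/

namespace XR57

open MeasureTheory Set

/-- The reflection `(x,y) ↦ (-x, y)`. -/
def refl : (ℝ × ℝ) ≃ₗ[ℝ] (ℝ × ℝ) where
  toFun z := (-z.1, z.2)
  invFun z := (-z.1, z.2)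
  map_add' x y := by ext <;> simp; ring
  map_smul' c x := by ext <;> simp
  left_inv x := by ext <;> simp
  right_inv x := by ext <;> simp

theorem refl_apply (z : ℝ × ℝ) : refl z = (-z.1, z.2) := rfl

theorem linearEquiv_continuous (e : (ℝ × ℝ) ≃ₗ[ℝ] (ℝ × ℝ)) : Continuous e :=
  e.toLinearMap.continuous_of_finiteDimensional

/-- The affine homeomorphism. -/
noncomputable def aff (e : (ℝ × ℝ) ≃ₗ[ℝ] (ℝ × ℝ)) (v : ℝ × ℝ) : (ℝ × ℝ) ≃ₜ (ℝ × ℝ) :=
  e.toContinuousLinearEquiv.toHomeomorph.trans (Homeomorph.addRight v)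

theorem aff_apply (e : (ℝ × ℝ) ≃ₗ[ℝ] (ℝ × ℝ)) (v z : ℝ × ℝ) : aff e v z = e z + v := rfl

theorem body_image {K : Set (ℝ × ℝ)} (hc : IsCompact K) (hK : Convex ℝ K)
    (hi : (interior K).Nonempty) (e : (ℝ × ℝ) ≃ₗ[ℝ] (ℝ × ℝ)) (v : ℝ × ℝ) :
    IsCompact ((fun z => e z + v) '' K) ∧ Convex ℝ ((fun z => e z + v) '' K) ∧
      (interior ((fun z => e z + v) '' K)).Nonempty := by
  have e1 : (fun z => e z + v) = aff e v := by funext z; rw [aff_apply]
  refine ⟨?_, ?_, ?_⟩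
  · rw [e1]; exact hc.image (aff e v).continuous
  · rintro _ ⟨x, hx, rfl⟩ _ ⟨y, hy, rfl⟩ a b ha hb hab
    refine ⟨a • x + b • y, hK hx hy ha hb hab, ?_⟩
    simp only [map_add, map_smul, smul_add]
    have : v = a • v + b • v := by rw [← add_smul, hab, one_smul]
    nth_rewrite 1 [this]
    abel
  · rw [e1, ← Homeomorph.image_interior]
    exact hi.image _

/-- The case of an inscribed parallelogram of positive slope. -/
theorem verif_of_pos {K : Set (ℝ × ℝ)} (hc : IsCompact K) (hK : Convex ℝ K)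
    (hi : (interior K).Nonempty) (hnc : NoCorner K) {YL YU : ℝ} {xl xr xl' xr' : ℝ → ℝ}
    (hR : Rep (Prod.swap ⁻¹' K) YL YU xl xr) (h : Normal YL YU xl xr xl' xr')
    {s y : ℝ} (hs : s ∈ Ioo YL 0) (hy : y ∈ Ioo 0 YU)
    (hW : xr s - xl s = xr y - xl y) (hpos : xr s < xr y) : Verif K := by
  obtain ⟨lam, ym, yp, g⟩ := h.exists_good hs hy hW hpos
  obtain ⟨XL, XR, x3, x1, bot, top, bot', top', hcore⟩ := coreHyp_of_good hc hK hi hnc hR h g
  have := core hcore
  apply Verif.of_image (shear lam) 0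
  have e : (fun z => shear lam z + 0) = shear lam := by funext z; rw [add_zero]
  rw [e]
  exact this

theorem Normal.refl {YL YU : ℝ} {xl xr xl' xr' : ℝ → ℝ} (h : Normal YL YU xl xr xl' xr') :
    Normal YL YU (fun y => -xr y) (fun y => -xl y) (fun y => -xr' y) (fun y => -xl' y) where
  lo := h.lo
  up := h.up
  ccv := h.cvx.neg
  cvx := h.ccv.neg
  cr := h.cl.neg
  cl := h.cr.neg
  dr := fun y hy => (h.dl y hy).neg
  dl := fun y hy => (h.dr y hy).neg
  cr' := h.cl'.neg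
  cl' := h.cr'.neg
  rL := by rw [h.lL, neg_zero]
  rU := by rw [h.lU, neg_zero]
  lL := by rw [h.rL, neg_zero]
  lU := by rw [h.rU, neg_zero]
  mr := fun y hy h0 => neg_lt_neg (h.ml y hy h0)
  ml := fun y hy h0 => neg_lt_neg (h.mr y hy h0)

theorem Rep.refl {K : Set (ℝ × ℝ)} {YL YU : ℝ} {xl xr : ℝ → ℝ}
    (hR : Rep (Prod.swap ⁻¹' K) YL YU xl xr) :
    Rep (Prod.swap ⁻¹' ((fun z => XR57.refl z + 0) '' K)) YL YU (fun y => -xr y)
      (fun y => -xl y) where
  lt := hR.lt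
  mem := by
    intro y x
    have h1 : ((y, x) : ℝ × ℝ) ∈ Prod.swap ⁻¹' ((fun z => XR57.refl z + 0) '' K) ↔
        ((y, -x) : ℝ × ℝ) ∈ Prod.swap ⁻¹' K := by
      simp only [mem_preimage, Prod.swap_prod_mk, mem_image, add_zero, refl_apply]
      constructor
      · rintro ⟨z, hz, e⟩
        have e1 : -z.1 = x := congrArg Prod.fst e
        have e2 : z.2 = y := congrArg Prod.snd e
        have : z = (-x, y) := by ext <;> simp [← e1, ← e2]
        rw [← this]; exact hz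
      · intro hz
        exact ⟨_, hz, by simp⟩
    rw [h1, hR.mem]
    constructor
    · rintro ⟨a, b, c, d⟩; exact ⟨a, b, by linarith, by linarith⟩
    · rintro ⟨a, b, c, d⟩; exact ⟨a, b, by linarith, by linarith⟩
  cvx := hR.ccv.neg
  ccv := hR.cvx.neg
  clo := hR.chi.neg
  chi := hR.clo.neg
  le := fun x hx => neg_le_neg (hR.le x hx)
  ltt := fun x hx => neg_lt_neg (hR.ltt x hx)

theorem verif {K : Set (ℝ × ℝ)} (hc : IsCompact K) (hK : Convex ℝ K)
    (hi : (interior K).Nonempty) : Verif K := by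
  by_cases hnc : NoCorner K
  swap
  · exact verif_of_corner hc hK hi hnc
  obtain ⟨e, v, XL, XR, YL, YU, h1, h2, h3, h4, m1, m2, m3, m4, hb, hu⟩ :=
    exists_normal hc hK hi hnc
  apply Verif.of_image e v
  obtain ⟨hc', hK', hi'⟩ := body_image hc hK hi e v
  have hnc' := hnc.image e v
  generalize (fun z => e z + v) '' K = K' at *
  obtain ⟨xl, xr, xl', xr', hR, hN⟩ := normal_of hc' hK' hi' hnc' h1 h2 h3 h4 m1 m2 m3 m4 hb hu
  by_cases hr : ∀ y ∈ Ioo 0 YU, ∃ s ∈ Ioo YL 0, xr s = xr y ∧ xl s = xl y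
  · exact rect_verif hc' hK' hi' hR hN hr
  push Not at hr
  obtain ⟨y, hy, hr⟩ := hr
  obtain ⟨s, hs, hW⟩ := hN.exists_level hy
  rcases lt_trichotomy (xr s) (xr y) with h5 | h5 | h5
  · exact verif_of_pos hc' hK' hi' hnc' hR hN hs hy hW h5
  · exact absurd (by linarith) (hr s hs h5)
  · obtain ⟨hc2, hK2, hi2⟩ := body_image hc' hK' hi' refl 0
    apply Verif.of_image refl 0
    refine verif_of_pos hc2 hK2 hi2 (hnc'.image refl 0) hR.refl hN.refl hs hy ?_ ?_
    · linarith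
    · linarith

end XR57
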