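import Pool.Agent.W_MP_dd0508_gt.Defs

/-!
The test function principle and other consequences of equal marginals.
-/

namespace XR57

open MeasureTheory Set

theorem Same.ae_mem {K L : Set (ℝ × ℝ)} {l : ℝ × ℝ → ℝ} (hl : Continuous l) (hK : IsCompact K)
    (s : Same l L K) : ∀ᵐ z ∂(volume : Measure (ℝ × ℝ)), z ∈ L → l z ∈ l '' K := by
  rw [ae_iff]
  have e : {z | ¬ (z ∈ L → l z ∈ l '' K)} = L ∩ l ⁻¹' (l '' K)ᶜ := by
    ext z
    simp
  rw [e, s _ (hK.image hl).isClosed.measurableSet.compl]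
  have e2 : K ∩ l ⁻¹' (l '' K)ᶜ = ∅ := by
    rw [eq_empty_iff_forall_notMem]
    rintro z ⟨hz, hz'⟩
    exact hz' (mem_image_of_mem l hz)
  rw [e2, measure_empty]

/-- The parts of the two differences in a strip have the same measure. -/
theorem Same.diff_eq {K L : Set (ℝ × ℝ)} {l : ℝ × ℝ → ℝ} (hK : IsCompact K)
    (hL : MeasurableSet L) (s : Same l L K) {S : Set ℝ} (hS : MeasurableSet S) :
    volume ((L \ K) ∩ l ⁻¹' S) = volume ((K \ L) ∩ l ⁻¹' S) := by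
  have hKm : MeasurableSet K := hK.isClosed.measurableSet
  have h1 := measure_inter_add_sdiff (μ := (volume : Measure (ℝ × ℝ))) (L ∩ l ⁻¹' S) hKm
  have h2 := measure_inter_add_sdiff (μ := (volume : Measure (ℝ × ℝ))) (K ∩ l ⁻¹' S) hL
  have e1 : L ∩ l ⁻¹' S ∩ K = K ∩ l ⁻¹' S ∩ L := by
    ext z
    simp only [mem_inter_iff, mem_preimage]
    tauto
  have e2 : (L ∩ l ⁻¹' S) \ K = (L \ K) ∩ l ⁻¹' S := by
    ext z
    simp only [mem_inter_iff, mem_preimage, mem_sdiff]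
    tauto
  have e3 : (K ∩ l ⁻¹' S) \ L = (K \ L) ∩ l ⁻¹' S := by
    ext z
    simp only [mem_inter_iff, mem_preimage, mem_sdiff]
    tauto
  rw [e1, e2, s S hS, ← h2, e3] at h1
  have hfin : volume (K ∩ l ⁻¹' S ∩ L) ≠ ⊤ :=
    ne_top_of_le_ne_top hK.measure_lt_top.ne
      (measure_mono (inter_subset_left.trans inter_subset_left))
  exact (ENNReal.add_right_inj hfin).1 h1

/-- If nothing of `K` is missing in a strip then nothing is added there. -/
theorem Same.null_symm {K L : Set (ℝ × ℝ)} {l : ℝ × ℝ → ℝ} (hl : Continuous l) (hK : IsCompact K)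
    (hL : MeasurableSet L) (s : Same l L K) {S : Set ℝ} (hS : MeasurableSet S)
    (h : volume ((K \ L) ∩ l ⁻¹' S) = 0) : volume ((L \ K) ∩ l ⁻¹' S) = 0 := by
  rw [s.diff_eq hK hL hS, h]

/-- Cutting: if on the difference of `K` and `L` the set `A` coincides with a strip, then the parts
of `K` and `L` in `A` have the same marginal. -/
theorem Same.cut {K L : Set (ℝ × ℝ)} {l : ℝ × ℝ → ℝ} (hl : Continuous l) (hK : IsCompact K)
    (hL : MeasurableSet L) (s : Same l L K) {A : Set (ℝ × ℝ)} (hA : MeasurableSet A)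
    {B : Set ℝ} (hB : MeasurableSet B)
    (h1 : ∀ᵐ z ∂(volume : Measure (ℝ × ℝ)), z ∈ K → z ∉ L → (z ∈ A ↔ l z ∈ B))
    (h2 : ∀ᵐ z ∂(volume : Measure (ℝ × ℝ)), z ∈ L → z ∉ K → (z ∈ A ↔ l z ∈ B)) :
    Same l (L ∩ A) (K ∩ A) := by
  intro S hS
  have hKm : MeasurableSet K := hK.isClosed.measurableSet
  have e1 := measure_inter_add_sdiff (μ := (volume : Measure (ℝ × ℝ))) (L ∩ A ∩ l ⁻¹' S) hKm
  have e2 := measure_inter_add_sdiff (μ := (volume : Measure (ℝ × ℝ))) (K ∩ A ∩ l ⁻¹' S) hL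
  have e3 : L ∩ A ∩ l ⁻¹' S ∩ K = K ∩ A ∩ l ⁻¹' S ∩ L := by
    ext z
    simp only [mem_inter_iff, mem_preimage]
    tauto
  have e4 : volume ((L ∩ A ∩ l ⁻¹' S) \ K) = volume ((L \ K) ∩ l ⁻¹' (B ∩ S)) := by
    apply measure_congr
    filter_upwards [h2] with z hz
    apply propext
    change z ∈ (L ∩ A ∩ l ⁻¹' S) \ K ↔ z ∈ (L \ K) ∩ l ⁻¹' (B ∩ S)
    simp only [mem_sdiff, mem_inter_iff, mem_preimage]
    constructor
    · rintro ⟨⟨⟨a, b⟩, c⟩, d⟩
      exact ⟨⟨a, d⟩, (hz a d).1 b, c⟩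
    · rintro ⟨⟨a, d⟩, b, c⟩
      exact ⟨⟨⟨a, (hz a d).2 b⟩, c⟩, d⟩
  have e5 : volume ((K ∩ A ∩ l ⁻¹' S) \ L) = volume ((K \ L) ∩ l ⁻¹' (B ∩ S)) := by
    apply measure_congr
    filter_upwards [h1] with z hz
    apply propext
    change z ∈ (K ∩ A ∩ l ⁻¹' S) \ L ↔ z ∈ (K \ L) ∩ l ⁻¹' (B ∩ S)
    simp only [mem_sdiff, mem_inter_iff, mem_preimage]
    constructor
    · rintro ⟨⟨⟨a, b⟩, c⟩, d⟩
      exact ⟨⟨a, d⟩, (hz a d).1 b, c⟩
    · rintro ⟨⟨a, d⟩, b, c⟩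
      exact ⟨⟨⟨a, (hz a d).2 b⟩, c⟩, d⟩
  rw [← e1, ← e2, e3, e4, e5, s.diff_eq hK hL (hB.inter hS)]

theorem Same.map_eq {K L : Set (ℝ × ℝ)} {l : ℝ × ℝ → ℝ} (hl : Continuous l) (s : Same l L K) :
    ((volume : Measure (ℝ × ℝ)).restrict L).map l =
      ((volume : Measure (ℝ × ℝ)).restrict K).map l := by
  ext S hS
  rw [Measure.map_apply hl.measurable hS, Measure.map_apply hl.measurable hS,
    Measure.restrict_apply (hl.measurable hS), Measure.restrict_apply (hl.measurable hS),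
    inter_comm, inter_comm _ K]
  exact s S hS

theorem Same.integral_eq {K L : Set (ℝ × ℝ)} {l : ℝ × ℝ → ℝ} (hl : Continuous l)
    (s : Same l L K) {g : ℝ → ℝ} (hg : Measurable g) :
    ∫ x in L, g (l x) = ∫ x in K, g (l x) := by
  rw [← integral_map hl.measurable.aemeasurable hg.aestronglyMeasurable,
    ← integral_map hl.measurable.aemeasurable hg.aestronglyMeasurable, s.map_eq hl]

/-- The test function principle: an additive function which is nonnegative on `K` and nonpositive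
off `K` vanishes almost everywhere on the difference of `K` and `L`. -/
theorem cert_null {K L : Set (ℝ × ℝ)} (hK : IsCompact K) (hL : MeasurableSet L)
    {l1 l2 l3 : ℝ × ℝ → ℝ} (c1 : Continuous l1) (c2 : Continuous l2) (c3 : Continuous l3)
    (s1 : Same l1 L K) (s2 : Same l2 L K) (s3 : Same l3 L K)
    {g1 g2 g3 : ℝ → ℝ} (m1 : Measurable g1) (m2 : Measurable g2) (m3 : Measurable g3)
    {C : ℝ} (b1 : ∀ z ∈ K, |g1 (l1 z)| ≤ C) (b2 : ∀ z ∈ K, |g2 (l2 z)| ≤ C)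
    (b3 : ∀ z ∈ K, |g3 (l3 z)| ≤ C)
    (hpos : ∀ᵐ z ∂(volume : Measure (ℝ × ℝ)), z ∈ K → z ∉ L →
      0 ≤ g1 (l1 z) + g2 (l2 z) + g3 (l3 z))
    (hneg : ∀ᵐ z ∂(volume : Measure (ℝ × ℝ)), z ∈ L → z ∉ K →
      l1 z ∈ l1 '' K → l2 z ∈ l2 '' K → l3 z ∈ l3 '' K →
      g1 (l1 z) + g2 (l2 z) + g3 (l3 z) ≤ 0) :
    (∀ᵐ z ∂(volume : Measure (ℝ × ℝ)), z ∈ K → z ∉ L →
      g1 (l1 z) + g2 (l2 z) + g3 (l3 z) = 0) ∧
    (∀ᵐ z ∂(volume : Measure (ℝ × ℝ)), z ∈ L → z ∉ K →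
      g1 (l1 z) + g2 (l2 z) + g3 (l3 z) = 0) := by
  have hKm : MeasurableSet K := hK.isClosed.measurableSet
  have hKfin : volume K < ⊤ := hK.measure_lt_top
  have hLfin : volume L < ⊤ := by
    have := s1 univ MeasurableSet.univ
    simp only [preimage_univ, inter_univ] at this
    rw [this]; exact hKfin
  -- truncated functions
  have key : ∀ (l : ℝ × ℝ → ℝ) (g : ℝ → ℝ), Continuous l → Same l L K → Measurable g →
      (∀ z ∈ K, |g (l z)| ≤ C) → ∃ G : ℝ → ℝ, Measurable G ∧ (∀ t, |G t| ≤ max C 0) ∧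
        (∀ z, l z ∈ l '' K → G (l z) = g (l z)) ∧
        (∫ x in L, G (l x) = ∫ x in K, G (l x)) := by
    intro l g hl s hg hb
    refine ⟨(l '' K).indicator g, hg.indicator (hK.image hl).isClosed.measurableSet, ?_, ?_, ?_⟩
    · intro t
      by_cases ht : t ∈ l '' K
      · rw [indicator_of_mem ht]
        obtain ⟨z, hz, rfl⟩ := ht
        exact (hb z hz).trans (le_max_left _ _)
      · rw [indicator_of_notMem ht]
        simp
    · intro z hz
      rw [indicator_of_mem hz]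
    · exact s.integral_eq hl (hg.indicator (hK.image hl).isClosed.measurableSet)
  obtain ⟨G1, M1, B1, E1, I1⟩ := key l1 g1 c1 s1 m1 b1
  obtain ⟨G2, M2, B2, E2, I2⟩ := key l2 g2 c2 s2 m2 b2
  obtain ⟨G3, M3, B3, E3, I3⟩ := key l3 g3 c3 s3 m3 b3
  have hint : ∀ (E : Set (ℝ × ℝ)), volume E < ⊤ → ∀ (l : ℝ × ℝ → ℝ) (G : ℝ → ℝ), Continuous l →
      Measurable G → (∀ t, |G t| ≤ max C 0) → IntegrableOn (fun z => G (l z)) E := by
    intro E hE l G hl hG hb
    have : IsFiniteMeasure ((volume : Measure (ℝ × ℝ)).restrict E) :=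
      ⟨by rw [Measure.restrict_apply_univ]; exact hE⟩
    refine Integrable.of_bound (hG.comp hl.measurable).aestronglyMeasurable (max C 0) ?_
    exact Filter.Eventually.of_forall fun z => by
      rw [Real.norm_eq_abs]; exact hb _
  set F : ℝ × ℝ → ℝ := fun z => G1 (l1 z) + G2 (l2 z) + G3 (l3 z) with hF
  have hFint : ∀ (E : Set (ℝ × ℝ)), volume E < ⊤ → IntegrableOn F E := fun E hE =>
    ((hint E hE l1 G1 c1 M1 B1).add (hint E hE l2 G2 c2 M2 B2)).add (hint E hE l3 G3 c3 M3 B3)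
  have hsum : ∀ (E : Set (ℝ × ℝ)), volume E < ⊤ → ∫ z in E, F z =
      (∫ z in E, G1 (l1 z)) + (∫ z in E, G2 (l2 z)) + ∫ z in E, G3 (l3 z) := by
    intro E hE
    have i1 := hint E hE l1 G1 c1 M1 B1
    have i2 := hint E hE l2 G2 c2 M2 B2
    have i3 := hint E hE l3 G3 c3 M3 B3
    have e1 : ∫ z in E, F z =
        (∫ z in E, (G1 (l1 z) + G2 (l2 z))) + ∫ z in E, G3 (l3 z) :=
      integral_add (f := fun z => G1 (l1 z) + G2 (l2 z)) (i1.add i2) i3
    rw [e1, integral_add i1 i2]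
  have hLK : ∫ z in L, F z = ∫ z in K, F z := by
    rw [hsum L hLfin, hsum K hKfin, I1, I2, I3]
  have hsL : (∫ z in L ∩ K, F z) + (∫ z in L \ K, F z) = ∫ z in L, F z :=
    integral_inter_add_sdiff hKm (hFint L hLfin)
  have hsK : (∫ z in K ∩ L, F z) + (∫ z in K \ L, F z) = ∫ z in K, F z :=
    integral_inter_add_sdiff hL (hFint K hKfin)
  rw [inter_comm] at hsL
  have hdiff : ∫ z in L \ K, F z = ∫ z in K \ L, F z := by linarith
  have hFK : ∀ z ∈ K, F z = g1 (l1 z) + g2 (l2 z) + g3 (l3 z) := by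
    intro z hz
    simp only [hF, E1 z (mem_image_of_mem _ hz), E2 z (mem_image_of_mem _ hz),
      E3 z (mem_image_of_mem _ hz)]
  have hFL : ∀ᵐ z ∂(volume : Measure (ℝ × ℝ)), z ∈ L →
      F z = g1 (l1 z) + g2 (l2 z) + g3 (l3 z) := by
    filter_upwards [s1.ae_mem c1 hK, s2.ae_mem c2 hK, s3.ae_mem c3 hK] with z h1 h2 h3 hz
    simp only [hF, E1 z (h1 hz), E2 z (h2 hz), E3 z (h3 hz)]
  have hFKpos : 0 ≤ᵐ[(volume : Measure (ℝ × ℝ)).restrict (K \ L)] F := by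
    rw [Filter.EventuallyLE, ae_restrict_iff' (hKm.diff hL)]
    filter_upwards [hpos] with z hz hzKL
    rw [hFK z hzKL.1]
    exact hz hzKL.1 hzKL.2
  have hFLneg : F ≤ᵐ[(volume : Measure (ℝ × ℝ)).restrict (L \ K)] 0 := by
    rw [Filter.EventuallyLE, ae_restrict_iff' (hL.diff hKm)]
    filter_upwards [hneg, hFL, s1.ae_mem c1 hK, s2.ae_mem c2 hK, s3.ae_mem c3 hK]
      with z hz hz' h1 h2 h3 hzLK
    rw [hz' hzLK.1]
    exact hz hzLK.1 hzLK.2 (h1 hzLK.1) (h2 hzLK.1) (h3 hzLK.1)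
  have i1 : 0 ≤ ∫ z in K \ L, F z := integral_nonneg_of_ae hFKpos
  have i2 : ∫ z in L \ K, F z ≤ 0 := integral_nonpos_of_ae hFLneg
  have j1 : ∫ z in K \ L, F z = 0 := le_antisymm (hdiff ▸ i2) i1
  have j2 : ∫ z in L \ K, F z = 0 := by rw [hdiff, j1]
  constructor
  · have h := (setIntegral_eq_zero_iff_of_nonneg_ae hFKpos
      (hFint (K \ L) ((measure_mono sdiff_subset).trans_lt hKfin))).1 j1
    rw [Filter.EventuallyEq, ae_restrict_iff' (hKm.diff hL)] at h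
    filter_upwards [h] with z hz hzK hzL
    rw [← hFK z hzK]
    exact hz ⟨hzK, hzL⟩
  · have hneg' : 0 ≤ᵐ[(volume : Measure (ℝ × ℝ)).restrict (L \ K)] fun z => -F z := by
      filter_upwards [hFLneg] with z hz
      simpa using hz
    have j3 : ∫ z in L \ K, -F z = 0 := by rw [integral_neg, j2, neg_zero]
    have h := (setIntegral_eq_zero_iff_of_nonneg_ae hneg'
      (hFint (L \ K) ((measure_mono sdiff_subset).trans_lt hLfin)).neg).1 j3
    rw [Filter.EventuallyEq, ae_restrict_iff' (hL.diff hKm)] at h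
    filter_upwards [h, hFL] with z hz hz' hzL hzK
    rw [← hz' hzL]
    have := hz ⟨hzL, hzK⟩
    simpa using this

end XR57
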