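import Pool.Agent.W_MP_dd0508_gt.Cert

/-!
The certificate of a closed chain (section 3 of the paper proof).
-/

namespace XR57

open MeasureTheory Set

namespace ChainCertAux

theorem conc_sub {a b c : ℝ} {f : ℝ → ℝ} (hf : ConcaveOn ℝ (Icc a b) f) :
    ConcaveOn ℝ (Icc a b) (fun t => f t - c * t) := by
  have h := hf.sub ((LinearMap.lsmul ℝ ℝ c).convexOn (convex_Icc a b))
  refine h.congr ?_
  intro t _
  simp

theorem conc_ge {a b c p q y : ℝ} {f : ℝ → ℝ} (hf : ConcaveOn ℝ (Icc a b) f)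
    (hp : p ∈ Icc a b) (hq : q ∈ Icc a b) (he : f q - c * q = f p - c * p)
    (h1 : p ≤ y) (h2 : y ≤ q) : f q - c * q ≤ f y - c * y := by
  have h := (conc_sub (c := c) hf).min_le_of_mem_Icc hp hq ⟨h1, h2⟩
  simp only [he, min_self] at h
  linarith

theorem conc_le {a b c p q y : ℝ} {f : ℝ → ℝ} (hf : ConcaveOn ℝ (Icc a b) f)
    (hp : p ∈ Icc a b) (hq : q ∈ Icc a b) (hpq : p < q) (he : f q - c * q = f p - c * p)
    (hy : y ∈ Icc a b) (h : y ≤ p ∨ q ≤ y) : f y - c * y ≤ f q - c * q := by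
  have hg := conc_sub (c := c) hf
  rcases h with h | h
  · rcases h.lt_or_eq with h | h
    · have := hg.slope_anti_adjacent hy hq h hpq
      simp only [he, sub_self, zero_div] at this
      rw [le_div_iff₀ (by linarith)] at this
      linarith
    · rw [h, he]
  · rcases h.lt_or_eq with h | h
    · have := hg.slope_anti_adjacent hp hy hpq h
      simp only [he, sub_self, zero_div] at this
      rw [div_le_iff₀ (by linarith)] at this
      linarith
    · rw [h]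

theorem conv_le {a b c p q y : ℝ} {f : ℝ → ℝ} (hf : ConvexOn ℝ (Icc a b) f)
    (hp : p ∈ Icc a b) (hq : q ∈ Icc a b) (he : f q - c * q = f p - c * p)
    (h1 : p ≤ y) (h2 : y ≤ q) : f y - c * y ≤ f q - c * q := by
  have := conc_ge (c := -c) hf.neg hp hq (by simp; linarith) h1 h2
  simp at this
  linarith

theorem conv_ge {a b c p q y : ℝ} {f : ℝ → ℝ} (hf : ConvexOn ℝ (Icc a b) f)
    (hp : p ∈ Icc a b) (hq : q ∈ Icc a b) (hpq : p < q) (he : f q - c * q = f p - c * p)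
    (hy : y ∈ Icc a b) (h : y ≤ p ∨ q ≤ y) : f q - c * q ≤ f y - c * y := by
  have := conc_le (c := -c) hf.neg hp hq hpq (by simp; linarith) hy h
  simp at this
  linarith

/-- indicator of a proposition, as a real number -/
noncomputable def ind (p : Prop) : ℝ := by classical exact if p then 1 else 0

theorem ind_pos {p : Prop} (h : p) : ind p = 1 := by simp [ind, h]
theorem ind_neg {p : Prop} (h : ¬ p) : ind p = 0 := by simp [ind, h]
theorem ind_nonneg (p : Prop) : 0 ≤ ind p := by unfold ind; split_ifs <;> norm_num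
theorem ind_le_one (p : Prop) : ind p ≤ 1 := by unfold ind; split_ifs <;> norm_num

theorem abs_ind_le (p : Prop) : |ind p| ≤ 1 := by
  rw [abs_of_nonneg (ind_nonneg p)]; exact ind_le_one p

theorem measurable_ind_le (c : ℝ) : Measurable (fun x : ℝ => ind (c ≤ x)) := by
  unfold ind
  exact Measurable.ite measurableSet_Ici measurable_const measurable_const

theorem measurable_ind_ge (c : ℝ) : Measurable (fun x : ℝ => ind (x ≤ c)) := by
  unfold ind
  exact Measurable.ite measurableSet_Iic measurable_const measurable_const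

/-- part of the certificate carried by the functional with slope `s` -/
noncomputable def gs (N : ℕ) (e ρ lam : ℕ → ℝ) (P : ℝ → Prop) (x : ℝ) : ℝ :=
  ∑ j ∈ Finset.range N, ind (P (e j)) * (-(ind (ρ j ≤ x)) - ind (x ≤ lam j))

noncomputable def g3 (N : ℕ) (η y : ℕ → ℝ) (t : ℝ) : ℝ :=
  ∑ j ∈ Finset.range N, (1 - ind (y j ≤ t) - ind (t ≤ η j))

theorem measurable_gs (N : ℕ) (e ρ lam : ℕ → ℝ) (P : ℝ → Prop) :
    Measurable (gs N e ρ lam P) := by
  unfold gs
  refine Finset.measurable_sum _ ?_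
  intro j _
  exact ((measurable_ind_le _).neg.sub (measurable_ind_ge _)).const_mul _

theorem measurable_g3 (N : ℕ) (η y : ℕ → ℝ) : Measurable (g3 N η y) := by
  unfold g3
  refine Finset.measurable_sum _ ?_
  intro j _
  exact (measurable_const.sub (measurable_ind_le _)).sub (measurable_ind_ge _)

theorem abs_gs_le (N : ℕ) (e ρ lam : ℕ → ℝ) (P : ℝ → Prop) (x : ℝ) :
    |gs N e ρ lam P x| ≤ 3 * N := by
  unfold gs
  refine (Finset.abs_sum_le_sum_abs _ _).trans ?_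
  have : ∀ j ∈ Finset.range N, |ind (P (e j)) * (-(ind (ρ j ≤ x)) - ind (x ≤ lam j))| ≤ 3 := by
    intro j _
    rw [abs_mul]
    have h1 := abs_ind_le (P (e j))
    have h2 : |-(ind (ρ j ≤ x)) - ind (x ≤ lam j)| ≤ 3 := by
      have := ind_nonneg (ρ j ≤ x); have := ind_le_one (ρ j ≤ x)
      have := ind_nonneg (x ≤ lam j); have := ind_le_one (x ≤ lam j)
      rw [abs_le]; constructor <;> linarith
    calc _ ≤ 1 * 3 := mul_le_mul h1 h2 (abs_nonneg _) (by norm_num)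
      _ = 3 := by norm_num
  refine (Finset.sum_le_sum this).trans ?_
  simp; linarith

theorem abs_g3_le (N : ℕ) (η y : ℕ → ℝ) (x : ℝ) :
    |g3 N η y x| ≤ 3 * N := by
  unfold g3
  refine (Finset.abs_sum_le_sum_abs _ _).trans ?_
  have : ∀ j ∈ Finset.range N, |1 - ind (y j ≤ x) - ind (x ≤ η j)| ≤ 3 := by
    intro j _
    have := ind_nonneg (y j ≤ x); have := ind_le_one (y j ≤ x)
    have := ind_nonneg (x ≤ η j); have := ind_le_one (x ≤ η j)
    rw [abs_le]; constructor <;> linarith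
  refine (Finset.sum_le_sum this).trans ?_
  simp; linarith

theorem sum_eq {ε : ℝ} {N : ℕ} {e η y ρ lam : ℕ → ℝ} (hs : ∀ k < N, e k = 0 ∨ e k = ε)
    (z : ℝ × ℝ) :
    gs N e ρ lam (fun s => s = 0) z.1 + gs N e ρ lam (fun s => s ≠ 0) (z.1 - ε * z.2)
      + g3 N η y z.2 =
    ∑ j ∈ Finset.range N, (1 - ind (ρ j ≤ z.1 - e j * z.2) - ind (z.1 - e j * z.2 ≤ lam j)
      - ind (y j ≤ z.2) - ind (z.2 ≤ η j)) := by
  unfold gs g3
  rw [← Finset.sum_add_distrib, ← Finset.sum_add_distrib]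
  refine Finset.sum_congr rfl ?_
  intro j hj
  have hj' := hs j (Finset.mem_range.1 hj)
  by_cases h0 : e j = 0
  · rw [ind_pos (show e j = 0 from h0), ind_neg (show ¬ (e j ≠ 0) from fun h => h h0), h0]
    simp; ring
  · rw [ind_neg (show ¬ (e j = 0) from h0), ind_pos (show e j ≠ 0 from h0)]
    have : e j = ε := hj'.resolve_left h0
    rw [this]; ring

theorem shift_sum {N : ℕ} {η : ℕ → ℝ} (per : η N = η 0) (t : ℝ) :
    ∑ j ∈ Finset.range N, ind (t ≤ η j) = ∑ j ∈ Finset.range N, ind (t ≤ η (j + 1)) := by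
  have h1 := Finset.sum_range_succ (fun j => ind (t ≤ η j)) N
  have h2 := Finset.sum_range_succ' (fun j => ind (t ≤ η j)) N
  simp only [per] at h1
  linarith

theorem sum_eq' {N : ℕ} {e η y ρ lam : ℕ → ℝ} (per : η N = η 0) (z : ℝ × ℝ) :
    ∑ j ∈ Finset.range N, (1 - ind (ρ j ≤ z.1 - e j * z.2) - ind (z.1 - e j * z.2 ≤ lam j)
      - ind (y j ≤ z.2) - ind (z.2 ≤ η j)) =
    ∑ j ∈ Finset.range N, (1 - ind (ρ j ≤ z.1 - e j * z.2) - ind (z.1 - e j * z.2 ≤ lam j)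
      - ind (y j ≤ z.2) - ind (z.2 ≤ η (j + 1))) := by
  rw [Finset.sum_sub_distrib, Finset.sum_sub_distrib (g := fun j => ind (z.2 ≤ η (j + 1))),
    shift_sum per]

end ChainCertAux

open ChainCertAux

section main

variable {K L : Set (ℝ × ℝ)} {YL YU : ℝ} {xl xr : ℝ → ℝ} {ε : ℝ} {N : ℕ} {e η y : ℕ → ℝ}

/-- the value of the certificate -/
noncomputable def chainF (xl xr : ℝ → ℝ) (N : ℕ) (e η y : ℕ → ℝ) (z : ℝ × ℝ) : ℝ :=
  ∑ j ∈ Finset.range N, (1 - ind (xr (y j) - e j * y j ≤ z.1 - e j * z.2)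
    - ind (z.1 - e j * z.2 ≤ xl (y j) - e j * y j) - ind (y j ≤ z.2) - ind (z.2 ≤ η j))

theorem chainF_off (hR : Rep (Prod.swap ⁻¹' K) YL YU xl xr)
    (hc : Chain xl xr ε N e η y) (hlo : ∀ k ≤ N, YL ≤ η k) (hup : ∀ k < N, y k ≤ YU)
    {z : ℝ × ℝ} (hz : z ∉ K) (hz1 : YL ≤ z.2) (hz2 : z.2 ≤ YU) :
    chainF xl xr N e η y z ≤ 0 := by
  have hmem : ¬ (YL ≤ z.2 ∧ z.2 ≤ YU ∧ xl z.2 ≤ z.1 ∧ z.1 ≤ xr z.2) := by
    rw [← hR.mem z.2 z.1]
    simpa using hz
  have hηI : ∀ k < N, η k ∈ Icc YL YU := fun k hk =>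
    ⟨hlo k hk.le, (hc.lt k hk).le.trans (hup k hk)⟩
  have hηI' : ∀ k < N, η (k + 1) ∈ Icc YL YU := fun k hk =>
    ⟨hlo (k + 1) hk, (hc.lt' k hk).le.trans (hup k hk)⟩
  have hyI : ∀ k < N, y k ∈ Icc YL YU := fun k hk =>
    ⟨(hlo k hk.le).trans (hc.lt k hk).le, hup k hk⟩
  by_cases hx : xr z.2 < z.1
  · unfold chainF
    refine Finset.sum_nonpos ?_
    intro j hj
    have hj := Finset.mem_range.1 hj
    have n1 := ind_nonneg (z.1 - e j * z.2 ≤ xl (y j) - e j * y j)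
    have n2 := ind_nonneg (y j ≤ z.2)
    have n3 := ind_nonneg (z.2 ≤ η j)
    have n4 := ind_nonneg (xr (y j) - e j * y j ≤ z.1 - e j * z.2)
    by_cases h1 : y j ≤ z.2
    · rw [ind_pos h1]; linarith
    by_cases h2 : z.2 ≤ η j
    · rw [ind_pos h2]; linarith
    push Not at h1 h2
    have := conc_ge hR.ccv (hηI j hj) (hyI j hj) (hc.right j hj) h2.le h1.le
    rw [ind_pos (show xr (y j) - e j * y j ≤ z.1 - e j * z.2 by linarith)]
    linarith
  · have hx2 : z.1 < xl z.2 := by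
      by_contra hcon
      push Not at hcon hx
      exact hmem ⟨hz1, hz2, hcon, hx⟩
    unfold chainF
    rw [sum_eq' hc.per]
    refine Finset.sum_nonpos ?_
    intro j hj
    have hj := Finset.mem_range.1 hj
    have n1 := ind_nonneg (z.1 - e j * z.2 ≤ xl (y j) - e j * y j)
    have n2 := ind_nonneg (y j ≤ z.2)
    have n3 := ind_nonneg (z.2 ≤ η (j + 1))
    have n4 := ind_nonneg (xr (y j) - e j * y j ≤ z.1 - e j * z.2)
    by_cases h1 : y j ≤ z.2
    · rw [ind_pos h1]; linarith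
    by_cases h2 : z.2 ≤ η (j + 1)
    · rw [ind_pos h2]; linarith
    push Not at h1 h2
    have := conv_le hR.cvx (hηI' j hj) (hyI j hj) (hc.left j hj) h2.le h1.le
    rw [ind_pos (show z.1 - e j * z.2 ≤ xl (y j) - e j * y j by linarith)]
    linarith

/-- the three right-hand terms for a point of the interior -/
theorem right_terms (hR : Rep (Prod.swap ⁻¹' K) YL YU xl xr)
    (hc : Chain xl xr ε N e η y) (hlo : ∀ k ≤ N, YL ≤ η k) (hup : ∀ k < N, y k ≤ YU)
    {z : ℝ × ℝ} (hz : z.2 ∈ Icc YL YU) (hx : z.1 < xr z.2) {j : ℕ} (hj : j < N) :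
    0 ≤ 1 - ind (xr (y j) - e j * y j ≤ z.1 - e j * z.2) - ind (y j ≤ z.2) - ind (z.2 ≤ η j) := by
  have hηI : η j ∈ Icc YL YU := ⟨hlo j hj.le, (hc.lt j hj).le.trans (hup j hj)⟩
  have hyI : y j ∈ Icc YL YU := ⟨(hlo j hj.le).trans (hc.lt j hj).le, hup j hj⟩
  have hlt := hc.lt j hj
  have key : (z.2 ≤ η j ∨ y j ≤ z.2) → ¬ (xr (y j) - e j * y j ≤ z.1 - e j * z.2) := by
    intro h
    have := conc_le hR.ccv hηI hyI hlt (hc.right j hj) hz h
    intro h'; linarith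
  by_cases h1 : y j ≤ z.2
  · rw [ind_pos h1, ind_neg (key (Or.inr h1)), ind_neg (show ¬ (z.2 ≤ η j) by linarith)]
    norm_num
  by_cases h2 : z.2 ≤ η j
  · rw [ind_pos h2, ind_neg (key (Or.inl h2)), ind_neg h1]
    norm_num
  rw [ind_neg h1, ind_neg h2]
  have := ind_le_one (xr (y j) - e j * y j ≤ z.1 - e j * z.2)
  linarith

theorem left_terms (hR : Rep (Prod.swap ⁻¹' K) YL YU xl xr)
    (hc : Chain xl xr ε N e η y) (hlo : ∀ k ≤ N, YL ≤ η k) (hup : ∀ k < N, y k ≤ YU)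
    {z : ℝ × ℝ} (hz : z.2 ∈ Icc YL YU) (hx : xl z.2 < z.1) {j : ℕ} (hj : j < N) :
    0 ≤ 1 - ind (z.1 - e j * z.2 ≤ xl (y j) - e j * y j) - ind (y j ≤ z.2)
      - ind (z.2 ≤ η (j + 1)) := by
  have hηI : η (j + 1) ∈ Icc YL YU := ⟨hlo (j + 1) hj, (hc.lt' j hj).le.trans (hup j hj)⟩
  have hyI : y j ∈ Icc YL YU := ⟨(hlo j hj.le).trans (hc.lt j hj).le, hup j hj⟩
  have hlt := hc.lt' j hj
  have key : (z.2 ≤ η (j + 1) ∨ y j ≤ z.2) → ¬ (z.1 - e j * z.2 ≤ xl (y j) - e j * y j) := by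
    intro h
    have := conv_ge hR.cvx hηI hyI hlt (hc.left j hj) hz h
    intro h'; linarith
  by_cases h1 : y j ≤ z.2
  · rw [ind_pos h1, ind_neg (key (Or.inr h1)), ind_neg (show ¬ (z.2 ≤ η (j + 1)) by linarith)]
    norm_num
  by_cases h2 : z.2 ≤ η (j + 1)
  · rw [ind_pos h2, ind_neg (key (Or.inl h2)), ind_neg h1]
    norm_num
  rw [ind_neg h1, ind_neg h2]
  have := ind_le_one (z.1 - e j * z.2 ≤ xl (y j) - e j * y j)
  linarith

/-- a sum of nonnegative terms is at least one of its terms -/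
theorem le_sum_of_term {N k : ℕ} {f : ℕ → ℝ} (hf : ∀ j < N, 0 ≤ f j) (hk : k < N) :
    f k ≤ ∑ j ∈ Finset.range N, f j :=
  Finset.single_le_sum (f := f) (fun j hj => hf j (Finset.mem_range.1 hj)) (Finset.mem_range.2 hk)

theorem chainF_ge_right (hR : Rep (Prod.swap ⁻¹' K) YL YU xl xr)
    (hc : Chain xl xr ε N e η y) (hlo : ∀ k ≤ N, YL ≤ η k) (hup : ∀ k < N, y k ≤ YU)
    {z : ℝ × ℝ} (hz : z.2 ∈ Icc YL YU) (hx : z.1 < xr z.2)
    (hl : ∀ j < N, xl (y j) - e j * y j < z.1 - e j * z.2) {k : ℕ} (hk : k < N) :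
    1 - ind (xr (y k) - e k * y k ≤ z.1 - e k * z.2) - ind (y k ≤ z.2) - ind (z.2 ≤ η k) ≤
      chainF xl xr N e η y z := by
  have h : chainF xl xr N e η y z = ∑ j ∈ Finset.range N,
      (1 - ind (xr (y j) - e j * y j ≤ z.1 - e j * z.2) - ind (y j ≤ z.2) - ind (z.2 ≤ η j)) := by
    unfold chainF
    refine Finset.sum_congr rfl ?_
    intro j hj
    have hj := Finset.mem_range.1 hj
    rw [ind_neg (show ¬ (z.1 - e j * z.2 ≤ xl (y j) - e j * y j) from not_le.2 (hl j hj))]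
    ring
  rw [h]
  exact le_sum_of_term (f := fun j => 1 - ind (xr (y j) - e j * y j ≤ z.1 - e j * z.2)
    - ind (y j ≤ z.2) - ind (z.2 ≤ η j)) (fun j hj => right_terms hR hc hlo hup hz hx hj) hk

theorem chainF_ge_left (hR : Rep (Prod.swap ⁻¹' K) YL YU xl xr)
    (hc : Chain xl xr ε N e η y) (hlo : ∀ k ≤ N, YL ≤ η k) (hup : ∀ k < N, y k ≤ YU)
    {z : ℝ × ℝ} (hz : z.2 ∈ Icc YL YU) (hx : xl z.2 < z.1)
    (hl : ∀ j < N, z.1 - e j * z.2 < xr (y j) - e j * y j) {k : ℕ} (hk : k < N) :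
    1 - ind (z.1 - e k * z.2 ≤ xl (y k) - e k * y k) - ind (y k ≤ z.2) - ind (z.2 ≤ η (k + 1)) ≤
      chainF xl xr N e η y z := by
  have h : chainF xl xr N e η y z = ∑ j ∈ Finset.range N,
      (1 - ind (z.1 - e j * z.2 ≤ xl (y j) - e j * y j) - ind (y j ≤ z.2)
        - ind (z.2 ≤ η (j + 1))) := by
    unfold chainF
    rw [sum_eq' hc.per]
    refine Finset.sum_congr rfl ?_
    intro j hj
    have hj := Finset.mem_range.1 hj
    rw [ind_neg (show ¬ (xr (y j) - e j * y j ≤ z.1 - e j * z.2) from not_le.2 (hl j hj))]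
    ring
  rw [h]
  exact le_sum_of_term (f := fun j => 1 - ind (z.1 - e j * z.2 ≤ xl (y j) - e j * y j)
    - ind (y j ≤ z.2) - ind (z.2 ≤ η (j + 1))) (fun j hj => left_terms hR hc hlo hup hz hx hj) hk

/-- a point of the interior lies strictly between the two boundary functions -/
theorem interior_strict (hR : Rep (Prod.swap ⁻¹' K) YL YU xl xr) {z : ℝ × ℝ}
    (hz : z ∈ interior K) : z.2 ∈ Icc YL YU ∧ xl z.2 < z.1 ∧ z.1 < xr z.2 := by
  rw [mem_interior_iff_mem_nhds, Metric.mem_nhds_iff] at hz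
  obtain ⟨δ, hδ, hsub⟩ := hz
  have h1 : (z.1 - δ / 2, z.2) ∈ K := by
    apply hsub
    rw [Metric.mem_ball, Prod.dist_eq, Real.dist_eq, Real.dist_eq]
    simp only [sub_self, abs_zero]
    rw [max_eq_left (abs_nonneg _), sub_sub_cancel_left, abs_neg, abs_of_pos (by linarith)]
    linarith
  have h2 : (z.1 + δ / 2, z.2) ∈ K := by
    apply hsub
    rw [Metric.mem_ball, Prod.dist_eq, Real.dist_eq, Real.dist_eq]
    simp only [sub_self, abs_zero]
    rw [max_eq_left (abs_nonneg _), add_sub_cancel_left, abs_of_pos (by linarith)]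
    linarith
  have k1 := (hR.mem z.2 (z.1 - δ / 2)).1 (by simpa using h1)
  have k2 := (hR.mem z.2 (z.1 + δ / 2)).1 (by simpa using h2)
  exact ⟨⟨k1.1, k1.2.1⟩, by linarith [k1.2.2.1], by linarith [k2.2.2.2]⟩

theorem chainF_nonneg (hR : Rep (Prod.swap ⁻¹' K) YL YU xl xr)
    (hc : Chain xl xr ε N e η y) (hlo : ∀ k ≤ N, YL ≤ η k) (hup : ∀ k < N, y k ≤ YU)
    (hsep : ∀ z ∈ K, ∀ k < N, ∀ j < N, xr (y k) - e k * y k ≤ z.1 - e k * z.2 →
      xl (y j) - e j * y j < z.1 - e j * z.2)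
    {z : ℝ × ℝ} (hz : z ∈ interior K) : 0 ≤ chainF xl xr N e η y z := by
  obtain ⟨hz2, hl, hr⟩ := interior_strict hR hz
  have hzK := interior_subset hz
  by_cases h : ∀ j < N, xl (y j) - e j * y j < z.1 - e j * z.2
  · exact (right_terms hR hc hlo hup hz2 hr hc.pos).trans
      (chainF_ge_right hR hc hlo hup hz2 hr h hc.pos)
  · push Not at h
    obtain ⟨j, hj, hj'⟩ := h
    have h' : ∀ k < N, z.1 - e k * z.2 < xr (y k) - e k * y k := by
      intro k hk
      by_contra hcon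
      push Not at hcon
      have := hsep z hzK k hk j hj hcon
      linarith
    exact (left_terms hR hc hlo hup hz2 hl hc.pos).trans
      (chainF_ge_left hR hc hlo hup hz2 hl h' hc.pos)

theorem chainF_null (hK : IsCompact K)
    (hKc : Convex ℝ K) (hR : Rep (Prod.swap ⁻¹' K) YL YU xl xr)
    (hc : Chain xl xr ε N e η y) (hlo : ∀ k ≤ N, YL ≤ η k) (hup : ∀ k < N, y k ≤ YU)
    (hsep : ∀ z ∈ K, ∀ k < N, ∀ j < N, xr (y k) - e k * y k ≤ z.1 - e k * z.2 →
      xl (y j) - e j * y j < z.1 - e j * z.2)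
    (hL : MeasurableSet L) (s1 : Same (fun z => z.1) L K)
    (s2 : Same (fun z => z.1 - ε * z.2) L K) (s3 : Same (fun z => z.2) L K) :
    ∀ᵐ z ∂(volume : Measure (ℝ × ℝ)), z ∈ K → z ∉ L → chainF xl xr N e η y z = 0 := by
  have key := cert_null hK hL continuous_fst
    (show Continuous (fun z : ℝ × ℝ => z.1 - ε * z.2) by fun_prop) continuous_snd
    s1 s2 s3
    (measurable_gs N e (fun j => xr (y j) - e j * y j) (fun j => xl (y j) - e j * y j)
      (fun s => s = 0))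
    (measurable_gs N e (fun j => xr (y j) - e j * y j) (fun j => xl (y j) - e j * y j)
      (fun s => s ≠ 0))
    (measurable_g3 N η y) (C := 3 * N)
    (fun z _ => abs_gs_le _ _ _ _ _ _) (fun z _ => abs_gs_le _ _ _ _ _ _)
    (fun z _ => abs_g3_le _ _ _ _) ?_ ?_
  · filter_upwards [key.1] with z hz h1 h2
    have := hz h1 h2
    rw [sum_eq hc.slope z] at this
    exact this
  · have hfr := measure_eq_zero_iff_ae_notMem.1 (hKc.addHaar_frontier volume)
    filter_upwards [hfr] with z hz h1 h2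
    rw [sum_eq hc.slope z]
    have : z ∈ interior K := by
      by_contra hcon
      exact hz ⟨subset_closure h1, hcon⟩
    exact chainF_nonneg hR hc hlo hup hsep this
  · refine Filter.Eventually.of_forall ?_
    intro z _ h2 _ _ h5
    rw [sum_eq hc.slope z]
    obtain ⟨w, hw, hw2⟩ := h5
    have hw' := (hR.mem w.2 w.1).1 (by simpa using hw)
    exact chainF_off hR hc hlo hup h2 (by rw [← hw2]; exact hw'.1) (by rw [← hw2]; exact hw'.2.1)

end main

/-- `F z = N - #failures`: nonpositive off `K`, nonnegative on `K`, at least one on the set below. -/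
theorem Chain.null_right {K L : Set (ℝ × ℝ)} {YL YU : ℝ} {xl xr : ℝ → ℝ} (hK : IsCompact K)
    (hKc : Convex ℝ K) (hR : Rep (Prod.swap ⁻¹' K) YL YU xl xr) {ε : ℝ} {N : ℕ} {e η y : ℕ → ℝ}
    (hc : Chain xl xr ε N e η y) (hlo : ∀ k ≤ N, YL ≤ η k) (hup : ∀ k < N, y k ≤ YU)
    (hsep : ∀ z ∈ K, ∀ k < N, ∀ j < N, xr (y k) - e k * y k ≤ z.1 - e k * z.2 →
      xl (y j) - e j * y j < z.1 - e j * z.2)
    (hL : MeasurableSet L) (s1 : Same (fun z => z.1) L K)
    (s2 : Same (fun z => z.1 - ε * z.2) L K) (s3 : Same (fun z => z.2) L K)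
    {k : ℕ} (hk : k < N) :
    volume ((K \ L) ∩ {z | (∀ j < N, xl (y j) - e j * y j < z.1 - e j * z.2) ∧
      z.1 - e k * z.2 < xr (y k) - e k * y k ∧ η k < z.2 ∧ z.2 < y k}) = 0 := by
  have h0 := chainF_null hK hKc hR hc hlo hup hsep hL s1 s2 s3
  have hfr := measure_eq_zero_iff_ae_notMem.1 (hKc.addHaar_frontier volume)
  rw [measure_eq_zero_iff_ae_notMem]
  filter_upwards [h0, hfr] with z hz0 hzf
  rintro ⟨⟨hzK, hzL⟩, h1, h2, h3, h4⟩
  have hzi : z ∈ interior K := by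
    by_contra hcon
    exact hzf ⟨subset_closure hzK, hcon⟩
  obtain ⟨hz2, hl, hr⟩ := interior_strict hR hzi
  have h5 := chainF_ge_right hR hc hlo hup hz2 hr h1 hk
  rw [hz0 hzK hzL, ind_neg (not_le.2 h2), ind_neg (not_le.2 h4), ind_neg (not_le.2 h3)] at h5
  norm_num at h5

theorem Chain.null_left {K L : Set (ℝ × ℝ)} {YL YU : ℝ} {xl xr : ℝ → ℝ} (hK : IsCompact K)
    (hKc : Convex ℝ K) (hR : Rep (Prod.swap ⁻¹' K) YL YU xl xr) {ε : ℝ} {N : ℕ} {e η y : ℕ → ℝ}
    (hc : Chain xl xr ε N e η y) (hlo : ∀ k ≤ N, YL ≤ η k) (hup : ∀ k < N, y k ≤ YU)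
    (hsep : ∀ z ∈ K, ∀ k < N, ∀ j < N, xr (y k) - e k * y k ≤ z.1 - e k * z.2 →
      xl (y j) - e j * y j < z.1 - e j * z.2)
    (hL : MeasurableSet L) (s1 : Same (fun z => z.1) L K)
    (s2 : Same (fun z => z.1 - ε * z.2) L K) (s3 : Same (fun z => z.2) L K)
    {k : ℕ} (hk : k < N) :
    volume ((K \ L) ∩ {z | (∀ j < N, z.1 - e j * z.2 < xr (y j) - e j * y j) ∧
      xl (y k) - e k * y k < z.1 - e k * z.2 ∧ η (k + 1) < z.2 ∧ z.2 < y k}) = 0 := by
  have h0 := chainF_null hK hKc hR hc hlo hup hsep hL s1 s2 s3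
  have hfr := measure_eq_zero_iff_ae_notMem.1 (hKc.addHaar_frontier volume)
  rw [measure_eq_zero_iff_ae_notMem]
  filter_upwards [h0, hfr] with z hz0 hzf
  rintro ⟨⟨hzK, hzL⟩, h1, h2, h3, h4⟩
  have hzi : z ∈ interior K := by
    by_contra hcon
    exact hzf ⟨subset_closure hzK, hcon⟩
  obtain ⟨hz2, hl, hr⟩ := interior_strict hR hzi
  have h5 := chainF_ge_left hR hc hlo hup hz2 hl h1 hk
  rw [hz0 hzK hzL, ind_neg (not_le.2 h2), ind_neg (not_le.2 h4), ind_neg (not_le.2 h3)] at h5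
  norm_num at h5

end XR57
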