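import Mathlib

/-!
Linear independence of two functionals on the plane.
-/

namespace XR57

theorem indep_of_det {p q : (ℝ × ℝ) →ₗ[ℝ] ℝ}
    (h : p (1, 0) * q (0, 1) - p (0, 1) * q (1, 0) ≠ 0) : LinearIndependent ℝ ![p, q] := by
  rw [LinearIndependent.pair_iff]
  intro s t hst
  have h1 : s * p (1, 0) + t * q (1, 0) = 0 := by
    have := LinearMap.congr_fun hst (1, 0)
    simpa using this
  have h2 : s * p (0, 1) + t * q (0, 1) = 0 := by
    have := LinearMap.congr_fun hst (0, 1)
    simpa using this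
  have e1 : (p (1, 0) * q (0, 1) - p (0, 1) * q (1, 0)) * s = 0 := by
    linear_combination q (0, 1) * h1 - q (1, 0) * h2
  have e2 : (p (1, 0) * q (0, 1) - p (0, 1) * q (1, 0)) * t = 0 := by
    linear_combination p (1, 0) * h2 - p (0, 1) * h1
  exact ⟨(mul_eq_zero.1 e1).resolve_left h, (mul_eq_zero.1 e2).resolve_left h⟩

end XR57
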