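import Pool.Agent.W_MP_dd0508_gt.Marg
import Pool.Agent.W_MP_dd0508_gt.Cert
import Pool.Agent.W_MP_dd0508_gt.Indep

/-!
The end pieces: application of the corner theorem to `K ∩ {c ≤ σ (x - ε y)}` (section 7).
-/

namespace XR57

open MeasureTheory Set

theorem Same.comp {l : ℝ × ℝ → ℝ} {L K : Set (ℝ × ℝ)} (s : Same l L K) {g : ℝ → ℝ}
    (hg : Measurable g) : Same (fun z => g (l z)) L K :=
  fun _ hS => s _ (hg hS)

theorem corner_end {K L : Set (ℝ × ℝ)} (hc : IsCompact K) (hK : Convex ℝ K)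
    (hi : (interior K).Nonempty) {ε σ c : ℝ} (hε : 0 < ε) (hσ : σ ≠ 0) {A : ℝ × ℝ}
    (hA : A ∈ K) (hAc : σ * (A.1 - ε * A.2) = c)
    (h2 : ∀ z ∈ K, c ≤ σ * (z.1 - ε * z.2) → σ * A.2 ≤ σ * z.2)
    (h3 : ∃ z ∈ K, c < σ * (z.1 - ε * z.2))
    (hL : MeasurableSet L)
    (s1 : Same (fun z => z.1) (L ∩ {z | c ≤ σ * (z.1 - ε * z.2)})
      (K ∩ {z | c ≤ σ * (z.1 - ε * z.2)}))
    (s2 : Same (fun z => z.1 - ε * z.2) (L ∩ {z | c ≤ σ * (z.1 - ε * z.2)})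
      (K ∩ {z | c ≤ σ * (z.1 - ε * z.2)}))
    (s3 : Same (fun z => z.2) (L ∩ {z | c ≤ σ * (z.1 - ε * z.2)})
      (K ∩ {z | c ≤ σ * (z.1 - ε * z.2)})) :
    (L ∩ {z | c ≤ σ * (z.1 - ε * z.2)} : Set (ℝ × ℝ)) =ᵐ[(volume : Measure (ℝ × ℝ))]
      (K ∩ {z | c ≤ σ * (z.1 - ε * z.2)} : Set (ℝ × ℝ)) := by
  set H : Set (ℝ × ℝ) := {z | c ≤ σ * (z.1 - ε * z.2)} with hH
  have hcont : Continuous (fun z : ℝ × ℝ => σ * (z.1 - ε * z.2)) := by fun_prop
  have hHc : IsClosed H := isClosed_le continuous_const hcont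
  have hHconv : Convex ℝ H := by
    intro x hx y hy a b ha hb hab
    simp only [hH, mem_ofPred_eq, Prod.fst_add, Prod.smul_fst, Prod.snd_add, Prod.smul_snd,
      smul_eq_mul] at hx hy ⊢
    have e : σ * (a * x.1 + b * y.1 - ε * (a * x.2 + b * y.2)) =
      a * (σ * (x.1 - ε * x.2)) + b * (σ * (y.1 - ε * y.2)) := by ring
    rw [e]
    have : c = a * c + b * c := by rw [← add_mul, hab, one_mul]
    rw [this]
    exact add_le_add (mul_le_mul_of_nonneg_left hx ha) (mul_le_mul_of_nonneg_left hy hb)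
  let p : (ℝ × ℝ) →ₗ[ℝ] ℝ := σ • (LinearMap.fst ℝ ℝ ℝ - ε • LinearMap.snd ℝ ℝ ℝ)
  let q : (ℝ × ℝ) →ₗ[ℝ] ℝ := (σ * ε) • LinearMap.snd ℝ ℝ ℝ
  have hp : ∀ z, p z = σ * (z.1 - ε * z.2) := fun z => by simp [p]
  have hq : ∀ z, q z = σ * ε * z.2 := fun z => by simp [q]
  refine corner_same (p := p) (q := q) (v := A) (hc.inter_right hHc) (hK.inter hHconv) ?_ ?_
    ⟨hA, ?_⟩ ?_ ?_ (hL.inter hHc.measurableSet) ?_ ?_ ?_
  · obtain ⟨z, hz, hz'⟩ := h3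
    have hU : IsOpen {z : ℝ × ℝ | c < σ * (z.1 - ε * z.2)} := isOpen_lt continuous_const hcont
    have hzc : z ∈ closure (interior K) := by
      rw [hK.closure_interior_eq_closure_of_nonempty_interior hi]
      exact subset_closure hz
    obtain ⟨w, hw1, hw2⟩ := mem_closure_iff.1 hzc _ hU hz'
    refine ⟨w, ?_⟩
    refine interior_maximal (s := K ∩ H) (t := {z : ℝ × ℝ | c < σ * (z.1 - ε * z.2)} ∩ interior K)
      ?_ (hU.inter isOpen_interior) ⟨hw1, hw2⟩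
    rintro x ⟨hx1, hx2⟩
    have hx1' : c < σ * (x.1 - ε * x.2) := hx1
    exact ⟨interior_subset hx2, hx1'.le⟩
  · apply indep_of_det
    rw [hp, hp, hq, hq]
    simp only
    have : σ * (1 - ε * 0) * (σ * ε * 1) - σ * (0 - ε * 1) * (σ * ε * 0) = σ ^ 2 * ε := by ring
    rw [this]
    positivity
  · simp only [hH, mem_ofPred_eq]; exact hAc.ge
  · rintro x ⟨hx, hxH⟩
    rw [hp, hp, hAc]
    exact hxH
  · rintro x ⟨hx, hxH⟩
    rw [hq, hq]
    have := h2 x hx hxH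
    nlinarith
  · have e : (p : ℝ × ℝ → ℝ) = fun z => σ * (z.1 - ε * z.2) := funext hp
    rw [e]
    exact s2.comp (g := fun t => σ * t) (by fun_prop)
  · have e : (q : ℝ × ℝ → ℝ) = fun z => σ * ε * z.2 := funext hq
    rw [e]
    exact s3.comp (g := fun t => σ * ε * t) (by fun_prop)
  · have e : ((p + q : (ℝ × ℝ) →ₗ[ℝ] ℝ) : ℝ × ℝ → ℝ) = fun z => σ * z.1 := by
      funext z
      rw [LinearMap.add_apply, hp, hq]; ring
    rw [e]
    exact s1.comp (g := fun t => σ * t) (by fun_prop)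

end XR57
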