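import Pool.Agent.W_MP_dd0508_gt.Rec

/-!
The middle part of the function `f` (section 5).
-/

namespace XR57

open Set

/-- The defect `e` of the approximate solution and its derivative are small. -/
private theorem middle_est {A B x3 x1 : ℝ} (h1 : A < x3) (h2 : x3 < x1) (h3 : x1 < B)
    {top bot t b φ φ' Φ : ℝ → ℝ} {d T : ℝ} (hd : 0 < d) (hT : 0 < T)
    (dt : ∀ x ∈ Ioo A B, HasDerivAt top (t x) x) (db : ∀ x ∈ Ioo A B, HasDerivAt bot (b x) x)
    (hφc : Continuous φ) (hφd : ∀ x ∈ Ioo A B, HasDerivAt φ (φ' x) x)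
    (hφ'c : ContinuousOn φ' (Icc A B)) (hΦ : ∀ x, HasDerivAt Φ (φ x) x)
    (hφ : ∀ x ∈ Ioo A B, φ x * (top x - bot x) = top x + bot x)
    (hT1 : ∀ x ∈ Icc x3 x1, |top x| ≤ T ∧ |bot x| ≤ T ∧ |t x| ≤ T ∧ |b x| ≤ T)
    (hd1 : ∀ x ∈ Icc x3 x1, d ≤ top x - bot x) {η : ℝ} (hη : 0 < η) :
    ∃ ε1 > 0, ∀ ε, 0 < ε → ε < ε1 → ∀ e : ℝ → ℝ,
      (∀ x, e x = (Φ (x - ε * bot x) - Φ (x - ε * top x)) / ε - (top x + bot x)) →
      |e x1| ≤ η ∧ ∀ x ∈ Icc x3 x1, ∀ x' ∈ Icc x3 x1, |e x - e x'| ≤ η * |x - x'| := by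
  have hη' : 0 < η / (4 * T) := by positivity
  have uc1 := (isCompact_Icc (a := A) (b := B)).uniformContinuousOn_of_continuous
    hφc.continuousOn
  have uc2 := (isCompact_Icc (a := A) (b := B)).uniformContinuousOn_of_continuous hφ'c
  obtain ⟨r1, hr1, H1⟩ := Metric.uniformContinuousOn_iff.1 uc1 _ hη'
  obtain ⟨r2, hr2, H2⟩ := Metric.uniformContinuousOn_iff.1 uc2 _ hη'
  refine ⟨min (min (r1 / T) (r2 / T)) (min ((x3 - A) / T) ((B - x1) / T)), ?_, ?_⟩
  · refine lt_min (lt_min ?_ ?_) (lt_min ?_ ?_)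
    · positivity
    · positivity
    · exact div_pos (by linarith) hT
    · exact div_pos (by linarith) hT
  intro ε hε hε1 e he
  rw [lt_min_iff, lt_min_iff, lt_min_iff, lt_div_iff₀ hT, lt_div_iff₀ hT, lt_div_iff₀ hT,
    lt_div_iff₀ hT] at hε1
  obtain ⟨⟨ha, hb⟩, hc, hd'⟩ := hε1
  -- everything close to `x`
  have near : ∀ x ∈ Icc x3 x1, ∀ z ∈ Icc (x - ε * top x) (x - ε * bot x),
      z ∈ Ioo A B ∧ |φ z - φ x| ≤ η / (4 * T) ∧ |φ' z - φ' x| ≤ η / (4 * T) := by
    intro x hx z hz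
    obtain ⟨ht1, hb1, -, -⟩ := hT1 x hx
    have e1 : ε * top x ≤ ε * T := mul_le_mul_of_nonneg_left (le_trans (le_abs_self _) ht1) hε.le
    have e2 : -(ε * T) ≤ ε * bot x := by
      have : -T ≤ bot x := by linarith [neg_abs_le (bot x)]
      nlinarith
    have hz1 : |z - x| ≤ ε * T := by
      rw [abs_le]
      constructor <;> linarith [hz.1, hz.2]
    rw [abs_le] at hz1
    have hzI : z ∈ Ioo A B := ⟨by linarith [hx.1, hz1.1], by linarith [hx.2, hz1.2]⟩
    have hxI : x ∈ Icc A B := ⟨by linarith [hx.1], by linarith [hx.2]⟩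
    refine ⟨hzI, ?_, ?_⟩
    · have := H1 z (Ioo_subset_Icc_self hzI) x hxI (by
        rw [Real.dist_eq, abs_lt]; constructor <;> linarith)
      rw [Real.dist_eq] at this
      exact this.le
    · have := H2 z (Ioo_subset_Icc_self hzI) x hxI (by
        rw [Real.dist_eq, abs_lt]; constructor <;> linarith)
      rw [Real.dist_eq] at this
      exact this.le
  have hlt : ∀ x ∈ Icc x3 x1, x - ε * top x < x - ε * bot x := by
    intro x hx
    have := hd1 x hx
    nlinarith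
  constructor
  · -- value at `x1`
    have hx1 : x1 ∈ Icc x3 x1 := ⟨h2.le, le_rfl⟩
    obtain ⟨ξ, hξ, hξ2⟩ := exists_hasDerivAt_eq_slope Φ φ (hlt x1 hx1)
      (fun z _ => (hΦ z).continuousAt.continuousWithinAt) (fun z _ => hΦ z)
    have hx1I : x1 ∈ Ioo A B := ⟨by linarith, h3⟩
    have key : e x1 = (φ ξ - φ x1) * (top x1 - bot x1) := by
      rw [he, sub_mul, hφ x1 hx1I, hξ2]
      have : x1 - ε * bot x1 - (x1 - ε * top x1) ≠ 0 := by
        have := hlt x1 hx1
        exact ne_of_gt (by linarith)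
      have h5 : x1 - ε * bot x1 - (x1 - ε * top x1) = ε * (top x1 - bot x1) := by ring
      rw [h5] at this ⊢
      have h6 : top x1 - bot x1 ≠ 0 := right_ne_zero_of_mul this
      field_simp
    obtain ⟨-, h7, -⟩ := near x1 hx1 ξ (Ioo_subset_Icc_self hξ)
    obtain ⟨ht1, hb1, -, -⟩ := hT1 x1 hx1
    rw [key, abs_mul]
    have h8 : |top x1 - bot x1| ≤ 2 * T := by
      refine le_trans (abs_sub _ _) (by linarith)
    calc |φ ξ - φ x1| * |top x1 - bot x1| ≤ η / (4 * T) * (2 * T) :=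
          mul_le_mul h7 h8 (abs_nonneg _) hη'.le
      _ = η / 2 := by field_simp; ring
      _ ≤ η := by linarith
  · intro x hx x' hx'
    -- derivative
    have hder : ∀ y ∈ Icc x3 x1, ∃ e' : ℝ, HasDerivAt e e' y ∧ |e'| ≤ η := by
      intro y hy
      have hyI : y ∈ Ioo A B := ⟨by linarith [hy.1], by linarith [hy.2]⟩
      have hβ : HasDerivAt (fun x => x - ε * bot x) (1 - ε * b y) y :=
        (hasDerivAt_id y).sub ((db y hyI).const_mul ε)
      have hs : HasDerivAt (fun x => x - ε * top x) (1 - ε * t y) y :=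
        (hasDerivAt_id y).sub ((dt y hyI).const_mul ε)
      have h10 : HasDerivAt e ((φ (y - ε * bot y) * (1 - ε * b y)
          - φ (y - ε * top y) * (1 - ε * t y)) / ε - (t y + b y)) y := by
        have : e = fun x => (Φ (x - ε * bot x) - Φ (x - ε * top x)) / ε - (top x + bot x) :=
          funext he
        rw [this]
        exact ((((hΦ (y - ε * bot y)).comp y hβ).sub ((hΦ (y - ε * top y)).comp y hs)).div_const
          ε).sub ((dt y hyI).add (db y hyI))
      refine ⟨_, h10, ?_⟩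
      -- the product rule
      have h11 : HasDerivAt (fun z => φ z * (top z - bot z))
          (φ' y * (top y - bot y) + φ y * (t y - b y)) y :=
        (hφd y hyI).mul ((dt y hyI).sub (db y hyI))
      have h12 : HasDerivAt (fun z => φ z * (top z - bot z)) (t y + b y) y := by
        refine ((dt y hyI).add (db y hyI)).congr_of_eventuallyEq ?_
        filter_upwards [isOpen_Ioo.mem_nhds hyI] with z hz
        exact hφ z hz
      have h13 := h11.unique h12
      obtain ⟨ξ, hξ, hξ2⟩ := exists_hasDerivAt_eq_slope φ φ' (hlt y hy)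
        hφc.continuousOn (fun z hz => hφd z (near y hy z (Ioo_subset_Icc_self hz)).1)
      have h14 : (φ (y - ε * bot y) - φ (y - ε * top y)) / ε = φ' ξ * (top y - bot y) := by
        rw [hξ2]
        have : y - ε * bot y - (y - ε * top y) ≠ 0 := by
          have := hlt y hy
          exact ne_of_gt (by linarith)
        have h5 : y - ε * bot y - (y - ε * top y) = ε * (top y - bot y) := by ring
        rw [h5] at this ⊢
        have h6 : top y - bot y ≠ 0 := right_ne_zero_of_mul this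
        field_simp
      have key : (φ (y - ε * bot y) * (1 - ε * b y)
          - φ (y - ε * top y) * (1 - ε * t y)) / ε - (t y + b y)
          = (φ' ξ - φ' y) * (top y - bot y) - (φ (y - ε * bot y) - φ y) * b y
            + (φ (y - ε * top y) - φ y) * t y := by
        rw [← h13, sub_mul (φ' ξ), ← h14]
        field_simp
        ring
      obtain ⟨-, -, n1⟩ := near y hy ξ (Ioo_subset_Icc_self hξ)
      obtain ⟨-, n2, -⟩ := near y hy (y - ε * bot y) (right_mem_Icc.2 (hlt y hy).le)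
      obtain ⟨-, n3, -⟩ := near y hy (y - ε * top y) (left_mem_Icc.2 (hlt y hy).le)
      obtain ⟨ht1, hb1, ht2, hb2⟩ := hT1 y hy
      rw [key]
      have h8 : |top y - bot y| ≤ 2 * T := by
        refine le_trans (abs_sub _ _) (by linarith)
      have p1 : |(φ' ξ - φ' y) * (top y - bot y)| ≤ η / (4 * T) * (2 * T) := by
        rw [abs_mul]; exact mul_le_mul n1 h8 (abs_nonneg _) hη'.le
      have p2 : |(φ (y - ε * bot y) - φ y) * b y| ≤ η / (4 * T) * T := by
        rw [abs_mul]; exact mul_le_mul n2 hb2 (abs_nonneg _) hη'.le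
      have p3 : |(φ (y - ε * top y) - φ y) * t y| ≤ η / (4 * T) * T := by
        rw [abs_mul]; exact mul_le_mul n3 ht2 (abs_nonneg _) hη'.le
      have p4 : η / (4 * T) * (2 * T) + η / (4 * T) * T + η / (4 * T) * T = η := by
        field_simp; ring
      rw [abs_le] at p1 p2 p3 ⊢
      constructor <;> linarith [p1.1, p1.2, p2.1, p2.2, p3.1, p3.2]
    choose! e' he' he'b using hder
    have := (convex_Icc x3 x1).norm_image_sub_le_of_norm_hasDerivWithin_le
      (f := e) (f' := e') (C := η) (fun y hy => (he' y hy).hasDerivWithinAt)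
      (fun y hy => by simpa using he'b y hy) hx' hx
    simpa [Real.norm_eq_abs] using this

private theorem middle_core {A B x3 x1 : ℝ} (h1 : A < x3) (h2 : x3 < x1) (h3 : x1 < B)
    {top bot t b φ φ' Φ : ℝ → ℝ} {δ d T : ℝ} (hδ : 0 < δ) (hd : 0 < d)
    (hT : 0 < T)
    (dt : ∀ x ∈ Ioo A B, HasDerivAt top (t x) x) (db : ∀ x ∈ Ioo A B, HasDerivAt bot (b x) x)
    (hφc : Continuous φ) (hφd : ∀ x ∈ Ioo A B, HasDerivAt φ (φ' x) x)
    (hφ'c : ContinuousOn φ' (Icc A B)) (hΦ : ∀ x, HasDerivAt Φ (φ x) x)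
    (hφ : ∀ x ∈ Ioo A B, φ x * (top x - bot x) = top x + bot x)
    (hφb : ∀ x, |φ x| ≤ 1 - 2 * δ)
    (hT1 : ∀ x ∈ Icc x3 x1, |top x| ≤ T ∧ |bot x| ≤ T ∧ |t x| ≤ T ∧ |b x| ≤ T)
    (hd1 : ∀ x ∈ Icc x3 x1, d ≤ top x - bot x) :
    ∃ ε0 > 0, ∀ ε, 0 < ε → ε < ε0 → ∃ f : ℝ → ℝ,
      (∀ u ∈ Icc (x3 - ε * top x3) (x1 - ε * bot x1),
        ∀ v ∈ Icc (x3 - ε * top x3) (x1 - ε * bot x1), |f u - f v| ≤ (1 - δ) * |u - v| / ε) ∧
      (∀ x ∈ Icc x3 x1, f (x - ε * top x) - f (x - ε * bot x) = top x + bot x) := by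
  have hx : 0 < x1 - x3 := by linarith
  set C : ℝ := 2 * (x1 - x3) / d + 1 with hC
  have hC0 : 0 < C := by positivity
  set K : ℝ := Real.exp (4 * T * C) * (1 / d + 2 * C) with hK
  have hK0 : 0 < K := by positivity
  have hη : 0 < δ / K := by positivity
  set η : ℝ := δ / K with hηd
  obtain ⟨ε1, hε1, He⟩ := middle_est h1 h2 h3 hd hT dt db hφc hφd hφ'c hΦ hφ hT1 hd1 hη
  refine ⟨min ε1 (min 1 (1 / (2 * T))), lt_min hε1 (lt_min one_pos (by positivity)), ?_⟩
  intro ε hε hε0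
  rw [lt_min_iff, lt_min_iff, lt_div_iff₀ (by positivity)] at hε0
  obtain ⟨hε2, hε3, hε4⟩ := hε0
  have hεT : ε * T ≤ 1 / 2 := by nlinarith
  have hεT0 : 0 < ε * T := mul_pos hε hT
  obtain ⟨He1, He2⟩ := He ε hε hε2
    (fun x => (Φ (x - ε * bot x) - Φ (x - ε * top x)) / ε - (top x + bot x)) (fun x => rfl)
  set e : ℝ → ℝ := fun x => (Φ (x - ε * bot x) - Φ (x - ε * top x)) / ε - (top x + bot x)
    with hedef
  -- Lipschitz bounds
  have lt1 : ∀ x ∈ Icc x3 x1, ∀ x' ∈ Icc x3 x1, |top x' - top x| ≤ T * |x' - x| := by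
    intro x hx x' hx'
    have := (convex_Icc x3 x1).norm_image_sub_le_of_norm_hasDerivWithin_le
      (f := top) (f' := t) (C := T)
      (fun y hy => (dt y ⟨by linarith [hy.1], by linarith [hy.2]⟩).hasDerivWithinAt)
      (fun y hy => by simpa using (hT1 y hy).2.2.1) hx hx'
    simpa [Real.norm_eq_abs] using this
  have lb1 : ∀ x ∈ Icc x3 x1, ∀ x' ∈ Icc x3 x1, |bot x' - bot x| ≤ T * |x' - x| := by
    intro x hx x' hx'
    have := (convex_Icc x3 x1).norm_image_sub_le_of_norm_hasDerivWithin_le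
      (f := bot) (f' := b) (C := T)
      (fun y hy => (db y ⟨by linarith [hy.1], by linarith [hy.2]⟩).hasDerivWithinAt)
      (fun y hy => by simpa using (hT1 y hy).2.2.2) hx hx'
    simpa [Real.norm_eq_abs] using this
  have hs1 : ∀ x ∈ Icc x3 x1, ∀ x' ∈ Icc x3 x1, x ≤ x' →
      (1 - ε * T) * (x' - x) ≤ (x' - ε * top x') - (x - ε * top x) ∧
      (x' - ε * top x') - (x - ε * top x) ≤ (1 + ε * T) * (x' - x) := by
    intro x hx x' hx' hle
    have := lt1 x hx x' hx'
    rw [abs_of_nonneg (sub_nonneg.2 hle), abs_le] at this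
    have a1 : ε * (top x' - top x) ≤ ε * (T * (x' - x)) := mul_le_mul_of_nonneg_left this.2 hε.le
    have a2 : ε * (-(T * (x' - x))) ≤ ε * (top x' - top x) :=
      mul_le_mul_of_nonneg_left this.1 hε.le
    constructor <;> nlinarith
  have hβ1 : ∀ x ∈ Icc x3 x1, ∀ x' ∈ Icc x3 x1, x ≤ x' →
      |(x - ε * bot x) - (x' - ε * bot x')| ≤ (1 + ε * T) * (x' - x) := by
    intro x hx x' hx' hle
    have := lb1 x hx x' hx'
    rw [abs_of_nonneg (sub_nonneg.2 hle), abs_le] at this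
    have a1 : ε * (bot x' - bot x) ≤ ε * (T * (x' - x)) := mul_le_mul_of_nonneg_left this.2 hε.le
    have a2 : ε * (-(T * (x' - x))) ≤ ε * (bot x' - bot x) :=
      mul_le_mul_of_nonneg_left this.1 hε.le
    have a3 : 0 ≤ x' - x := by linarith
    rw [abs_le]
    constructor <;> nlinarith
  have hx3 : x3 ∈ Icc x3 x1 := ⟨le_rfl, h2.le⟩
  have hx1 : x1 ∈ Icc x3 x1 := ⟨h2.le, le_rfl⟩
  -- the sequence of Lipschitz constants
  set M : ℕ → ℝ := fun n => (1 + 4 * (ε * T)) ^ n * (η / (ε * d) + 2 * n * η) with hM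
  have hM0 : 0 ≤ M 0 := by simp only [hM]; positivity
  have hMs : ∀ n, (1 + 4 * (ε * T)) * M n + 2 * η ≤ M (n + 1) := by
    intro n
    simp only [hM]
    have h5 : (1 : ℝ) ≤ (1 + 4 * (ε * T)) ^ (n + 1) := one_le_pow₀ (by linarith)
    have h6 : (1 + 4 * (ε * T)) ^ (n + 1) * (η / (ε * d) + 2 * ((n + 1 : ℕ) : ℝ) * η)
        = (1 + 4 * (ε * T)) * ((1 + 4 * (ε * T)) ^ n * (η / (ε * d) + 2 * n * η))
          + (1 + 4 * (ε * T)) ^ (n + 1) * (2 * η) := by
      push_cast; ring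
    rw [h6]
    nlinarith
  have hMn : ∀ n, 0 ≤ M n := by
    intro n; simp only [hM]; positivity
  have hMm : Monotone M := by
    refine monotone_nat_of_le_succ (fun n => ?_)
    have := hMs n
    have := mul_nonneg hεT0.le (hMn n)
    nlinarith
  have hcs : ContinuousOn (fun x => x - ε * top x) (Icc x3 x1) := by
    refine continuousOn_id.sub (continuousOn_const.mul ?_)
    exact fun y hy => (dt y ⟨by linarith [hy.1], by linarith [hy.2]⟩).continuousAt.continuousWithinAt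
  set σ : ℝ := e x1 / (ε * (top x1 - bot x1)) with hσ
  have hden : 0 < ε * (top x1 - bot x1) := mul_pos hε (lt_of_lt_of_le hd (hd1 x1 hx1))
  have hσb : |σ| ≤ M 0 := by
    simp only [hM, pow_zero, one_mul, Nat.cast_zero, mul_zero, zero_mul, add_zero, hσ]
    rw [abs_div, abs_of_pos hden]
    exact div_le_div₀ hη.le He1 (by positivity) (mul_le_mul_of_nonneg_left (hd1 x1 hx1) hε.le)
  obtain ⟨N, hN1, hN2⟩ : ∃ N : ℕ, 2 * (x1 - x3) / (ε * d) ≤ N ∧ (N : ℝ) ≤ C / ε := by
    refine ⟨⌈2 * (x1 - x3) / (ε * d)⌉₊, Nat.le_ceil _, ?_⟩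
    refine (Nat.ceil_lt_add_one (by positivity)).le.trans ?_
    rw [hC, add_div]
    have h5 : 2 * (x1 - x3) / (ε * d) = 2 * (x1 - x3) / d / ε := by field_simp
    have h6 : (1 : ℝ) ≤ 1 / ε := by rw [le_div_iff₀ hε]; linarith
    rw [h5]; linarith
  obtain ⟨g, -, hg2, hg3⟩ := rec_solve (A := x3) (B := x1) h2.le
    (s := fun x => x - ε * top x) (β := fun x => x - ε * bot x) (E := fun x => - e x) hcs
    (fun x hx x' hx' hlt => by
      have := (hs1 x hx x' hx' hlt.le).1
      have h5 : 0 < (1 - ε * T) * (x' - x) := mul_pos (by linarith) (by linarith)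
      show x - ε * top x < x' - ε * top x'
      linarith)
    (c := ε * d) (by positivity)
    (fun x hx => by
      show x - ε * top x + ε * d ≤ x - ε * bot x
      have := mul_le_mul_of_nonneg_left (hd1 x hx) hε.le
      linarith)
    (M := M) hMm hM0
    (fun n x hx x' hx' hle => by
      show M n * |(x - ε * bot x) - (x' - ε * bot x')| + |- e x - - e x'|
        ≤ M (n + 1) * ((x' - ε * top x') - (x - ε * top x))
      have a1 := mul_le_mul_of_nonneg_left (hβ1 x hx x' hx' hle) (hMn n)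
      have a2 : |- e x - - e x'| ≤ η * (x' - x) := by
        have := He2 x hx x' hx'
        have h5 : - e x - - e x' = -(e x - e x') := by ring
        rw [h5, abs_neg]
        rwa [abs_sub_comm x x', abs_of_nonneg (sub_nonneg.2 hle)] at this
      have a3 := mul_le_mul_of_nonneg_left (hs1 x hx x' hx' hle).1 (hMn (n + 1))
      have a4 : (M n * (1 + ε * T) + η) * (x' - x) ≤ (M (n + 1) * (1 - ε * T)) * (x' - x) := by
        refine mul_le_mul_of_nonneg_right ?_ (by linarith)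
        have h6 := mul_le_mul_of_nonneg_right (hMs n) (show 0 ≤ 1 - ε * T by linarith)
        have h7 : 0 ≤ M n * (ε * T * (1 - 2 * (ε * T))) :=
          mul_nonneg (hMn n) (mul_nonneg hεT0.le (by linarith))
        nlinarith
      nlinarith)
    (f0 := fun w => σ * w)
    (fun u _ v _ => by
      show |σ * u - σ * v| ≤ M 0 * |u - v|
      rw [← mul_sub, abs_mul]
      exact mul_le_mul_of_nonneg_right hσb (abs_nonneg _))
    (by
      show σ * (x1 - ε * top x1) = σ * (x1 - ε * bot x1) + - e x1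
      have h5 : σ * (ε * (top x1 - bot x1)) = e x1 := by
        rw [hσ]; exact div_mul_cancel₀ _ hden.ne'
      linarith)
    N (by
      show x1 - ε * top x1 - N * (ε * d) ≤ x3 - ε * top x3
      have h5 := (hs1 x3 hx3 x1 hx1 h2.le).2
      rw [div_le_iff₀ (by positivity)] at hN1
      nlinarith)
  -- the last constant
  have hMN : M N ≤ δ / ε := by
    have b1 : (1 + 4 * (ε * T)) ^ N ≤ Real.exp (4 * T * C) := by
      have b2 : 1 + 4 * (ε * T) ≤ Real.exp (4 * (ε * T)) := by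
        have := Real.add_one_le_exp (4 * (ε * T)); linarith
      calc (1 + 4 * (ε * T)) ^ N ≤ Real.exp (4 * (ε * T)) ^ N :=
            pow_le_pow_left₀ (by positivity) b2 N
        _ = Real.exp (N * (4 * (ε * T))) := by rw [Real.exp_nat_mul]
        _ ≤ Real.exp (4 * T * C) := by
            refine Real.exp_le_exp.2 ?_
            have b3 : (N : ℝ) * ε ≤ C := by rwa [le_div_iff₀ hε] at hN2
            nlinarith
    have b4 : η / (ε * d) + 2 * N * η ≤ η / ε * (1 / d + 2 * C) := by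
      have b5 : 2 * (N : ℝ) * η ≤ 2 * (C / ε) * η := by
        refine mul_le_mul_of_nonneg_right ?_ hη.le
        linarith
      have b6 : η / ε * (1 / d + 2 * C) = η / (ε * d) + 2 * (C / ε) * η := by
        field_simp
      linarith
    calc M N = (1 + 4 * (ε * T)) ^ N * (η / (ε * d) + 2 * N * η) := rfl
      _ ≤ Real.exp (4 * T * C) * (η / ε * (1 / d + 2 * C)) :=
          mul_le_mul b1 b4 (by positivity) (Real.exp_pos _).le
      _ = K * η / ε := by rw [hK]; ring
      _ = δ / ε := by rw [hηd, mul_div_cancel₀ _ hK0.ne']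
  have hΦL : ∀ u v : ℝ, |Φ u - Φ v| ≤ (1 - 2 * δ) * |u - v| := by
    intro u v
    have := (convex_univ).norm_image_sub_le_of_norm_hasDerivWithin_le
      (f := Φ) (f' := φ) (C := 1 - 2 * δ) (s := univ)
      (fun y _ => (hΦ y).hasDerivWithinAt)
      (fun y _ => by simpa using hφb y) (mem_univ v) (mem_univ u)
    simpa [Real.norm_eq_abs] using this
  refine ⟨fun w => - Φ w / ε + g w, ?_, ?_⟩
  · intro u hu v hv
    have c1 : |-(Φ u - Φ v) / ε| ≤ (1 - 2 * δ) * |u - v| / ε := by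
      rw [abs_div, abs_neg, abs_of_pos hε]
      exact div_le_div_of_nonneg_right (hΦL u v) hε.le
    have c2 : |g u - g v| ≤ δ / ε * |u - v| :=
      (hg3 u hu.1 v hv.1).trans (mul_le_mul_of_nonneg_right hMN (abs_nonneg _))
    have c3 : (- Φ u / ε + g u) - (- Φ v / ε + g v) = -(Φ u - Φ v) / ε + (g u - g v) := by ring
    show |(- Φ u / ε + g u) - (- Φ v / ε + g v)| ≤ _
    rw [c3]
    refine (abs_add_le _ _).trans ?_
    have c4 : (1 - δ) * |u - v| / ε = (1 - 2 * δ) * |u - v| / ε + δ / ε * |u - v| := by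
      field_simp; ring
    linarith
  · intro x hx
    have := hg2 x hx
    have c5 : (Φ (x - ε * bot x) - Φ (x - ε * top x)) / ε = e x + (top x + bot x) := by
      simp only [hedef]; ring
    show (- Φ (x - ε * top x) / ε + g (x - ε * top x))
      - (- Φ (x - ε * bot x) / ε + g (x - ε * bot x)) = top x + bot x
    have c6 : (- Φ (x - ε * top x) / ε + g (x - ε * top x))
      - (- Φ (x - ε * bot x) / ε + g (x - ε * bot x))
      = (Φ (x - ε * bot x) - Φ (x - ε * top x)) / ε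
        + (g (x - ε * top x) - g (x - ε * bot x)) := by ring
    have c7 : g (x - ε * top x) = g (x - ε * bot x) + - e x := this
    rw [c6, c5, c7]
    ring

theorem middle_part {A B x3 x1 : ℝ} (h1 : A < x3) (h2 : x3 < x1) (h3 : x1 < B)
    {top bot t b : ℝ → ℝ}
    (dt : ∀ x ∈ Ioo A B, HasDerivAt top (t x) x) (db : ∀ x ∈ Ioo A B, HasDerivAt bot (b x) x)
    (ct : ContinuousOn t (Ioo A B)) (cb : ContinuousOn b (Ioo A B))
    (hb : ∀ x ∈ Icc x3 x1, bot x < 0) (ht : ∀ x ∈ Icc x3 x1, 0 < top x) :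
    ∃ κ, 0 ≤ κ ∧ κ < 1 ∧ ∃ ε0 > 0, ∀ ε, 0 < ε → ε < ε0 → ∃ f : ℝ → ℝ,
      (∀ u ∈ Icc (x3 - ε * top x3) (x1 - ε * bot x1),
        ∀ v ∈ Icc (x3 - ε * top x3) (x1 - ε * bot x1), |f u - f v| ≤ κ * |u - v| / ε) ∧
      (∀ x ∈ Icc x3 x1, f (x - ε * top x) - f (x - ε * bot x) = top x + bot x) := by
  -- shrink the interval
  have hctop : ∀ x ∈ Ioo A B, ContinuousAt top x := fun x hx => (dt x hx).continuousAt
  have hcbot : ∀ x ∈ Ioo A B, ContinuousAt bot x := fun x hx => (db x hx).continuousAt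
  have hpt : ∀ x ∈ Icc x3 x1, ∃ r > 0, ∀ y, |y - x| < r → A < y ∧ y < B ∧ bot y < 0 ∧
      0 < top y := by
    intro x hx
    have hxI : x ∈ Ioo A B := ⟨by linarith [hx.1], by linarith [hx.2]⟩
    have e1 : ∀ᶠ y in nhds x, A < y ∧ y < B ∧ bot y < 0 ∧ 0 < top y := by
      filter_upwards [lt_mem_nhds hxI.1, gt_mem_nhds hxI.2,
        (hcbot x hxI).eventually_lt_const (hb x hx), (hctop x hxI).eventually_const_lt (ht x hx)]
        with y a1 a2 a3 a4 using ⟨a1, a2, a3, a4⟩
    obtain ⟨r, hr, H⟩ := Metric.eventually_nhds_iff.1 e1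
    exact ⟨r, hr, fun y hy => H (by rwa [Real.dist_eq])⟩
  obtain ⟨r3, hr3, H3⟩ := hpt x3 ⟨le_rfl, h2.le⟩
  obtain ⟨r1, hr1, H1⟩ := hpt x1 ⟨h2.le, le_rfl⟩
  obtain ⟨A', B', hA', hB', hI⟩ : ∃ A' B', A' < x3 ∧ x1 < B' ∧
      ∀ x ∈ Icc A' B', A < x ∧ x < B ∧ bot x < 0 ∧ 0 < top x := by
    refine ⟨x3 - r3 / 2, x1 + r1 / 2, by linarith, by linarith, ?_⟩
    intro x hx
    rcases lt_or_ge x x3 with h | h
    · exact H3 x (by rw [abs_lt]; constructor <;> linarith [hx.1])
    rcases lt_or_ge x1 x with h' | h'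
    · exact H1 x (by rw [abs_lt]; constructor <;> linarith [hx.2])
    exact ⟨by linarith, by linarith, hb x ⟨h, h'⟩, ht x ⟨h, h'⟩⟩
  have hAB' : A' ≤ B' := by linarith
  have hIo : ∀ x ∈ Icc A' B', x ∈ Ioo A B := fun x hx => ⟨(hI x hx).1, (hI x hx).2.1⟩
  have hw : ∀ x ∈ Icc A' B', 0 < top x - bot x := fun x hx => by
    have := hI x hx
    linarith [this.2.2.1, this.2.2.2]
  have hct : ContinuousOn top (Icc A' B') := fun x hx => (hctop x (hIo x hx)).continuousWithinAt
  have hcb : ContinuousOn bot (Icc A' B') := fun x hx => (hcbot x (hIo x hx)).continuousWithinAt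
  have hct' : ContinuousOn t (Icc A' B') := ct.mono hIo
  have hcb' : ContinuousOn b (Icc A' B') := cb.mono hIo
  -- the slope function
  set φ0 : ℝ → ℝ := fun x => (top x + bot x) / (top x - bot x) with hφ0
  have hφ0c : ContinuousOn φ0 (Icc A' B') :=
    (hct.add hcb).div (hct.sub hcb) (fun x hx => (hw x hx).ne')
  set φ' : ℝ → ℝ := fun x =>
    ((t x + b x) * (top x - bot x) - (top x + bot x) * (t x - b x)) / (top x - bot x) ^ 2
    with hφ'
  have hφ'c : ContinuousOn φ' (Icc A' B') :=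
    (((hct'.add hcb').mul (hct.sub hcb)).sub ((hct.add hcb).mul (hct'.sub hcb'))).div
      ((hct.sub hcb).pow 2) (fun x hx => pow_ne_zero 2 (hw x hx).ne')
  set φ : ℝ → ℝ := fun x => φ0 (max A' (min B' x)) with hφ
  have hcl : ∀ x, max A' (min B' x) ∈ Icc A' B' := fun x =>
    ⟨le_max_left _ _, max_le hAB' (min_le_left _ _)⟩
  have hcl2 : ∀ x ∈ Icc A' B', max A' (min B' x) = x := fun x hx => by
    rw [min_eq_right hx.2, max_eq_right hx.1]
  have hφc : Continuous φ :=
    hφ0c.comp_continuous (continuous_const.max (continuous_const.min continuous_id)) hcl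
  have hφd : ∀ x ∈ Ioo A' B', HasDerivAt φ (φ' x) x := by
    intro x hx
    have hxI := Ioo_subset_Icc_self hx
    have a1 : HasDerivAt φ0 (φ' x) x :=
      ((dt x (hIo x hxI)).add (db x (hIo x hxI))).div ((dt x (hIo x hxI)).sub (db x (hIo x hxI)))
        (hw x hxI).ne'
    refine a1.congr_of_eventuallyEq ?_
    filter_upwards [isOpen_Ioo.mem_nhds hx] with y hy
    show φ0 (max A' (min B' y)) = φ0 y
    rw [hcl2 y (Ioo_subset_Icc_self hy)]
  have hφm : ∀ x ∈ Ioo A' B', φ x * (top x - bot x) = top x + bot x := by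
    intro x hx
    have hxI := Ioo_subset_Icc_self hx
    show φ0 (max A' (min B' x)) * (top x - bot x) = top x + bot x
    rw [hcl2 x hxI]
    exact div_mul_cancel₀ _ (hw x hxI).ne'
  -- the antiderivative
  have hΦ : ∀ x, HasDerivAt (fun x => ∫ y in (0:ℝ)..x, φ y) (φ x) x := fun x =>
    (hφc.integral_hasStrictDerivAt 0 x).hasDerivAt
  -- the bound on `φ`
  obtain ⟨z, hz, hzm⟩ := (isCompact_Icc (a := A') (b := B')).exists_isMaxOn
    ⟨A', left_mem_Icc.2 hAB'⟩ hφ0c.abs
  have hz1 : |φ0 z| < 1 := by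
    rw [hφ0]
    show |(top z + bot z) / (top z - bot z)| < 1
    rw [abs_div, abs_of_pos (hw z hz), div_lt_one (hw z hz), abs_lt]
    have := hI z hz
    constructor <;> linarith [this.2.2.1, this.2.2.2]
  set δ : ℝ := (1 - |φ0 z|) / 2 with hδ
  have hδ0 : 0 < δ := by rw [hδ]; linarith
  have hφb : ∀ x, |φ x| ≤ 1 - 2 * δ := by
    intro x
    have := hzm (hcl x)
    rw [hδ]
    have h5 : |φ0 (max A' (min B' x))| ≤ |φ0 z| := this
    show |φ0 (max A' (min B' x))| ≤ _
    linarith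
  -- the bounds `T` and `d`
  have hsub : Icc x3 x1 ⊆ Icc A' B' := Icc_subset_Icc hA'.le hB'.le
  have hne : (Icc x3 x1).Nonempty := ⟨x3, left_mem_Icc.2 h2.le⟩
  have hcomp := isCompact_Icc (a := x3) (b := x1)
  obtain ⟨T1, hT1⟩ := hcomp.exists_bound_of_continuousOn (hct.mono hsub)
  obtain ⟨T2, hT2⟩ := hcomp.exists_bound_of_continuousOn (hcb.mono hsub)
  obtain ⟨T3, hT3⟩ := hcomp.exists_bound_of_continuousOn (hct'.mono hsub)
  obtain ⟨T4, hT4⟩ := hcomp.exists_bound_of_continuousOn (hcb'.mono hsub)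
  simp only [Real.norm_eq_abs] at hT1 hT2 hT3 hT4
  have m1 := hT1 x3 (left_mem_Icc.2 h2.le)
  have m2 := hT2 x3 (left_mem_Icc.2 h2.le)
  have m3 := hT3 x3 (left_mem_Icc.2 h2.le)
  have m4 := hT4 x3 (left_mem_Icc.2 h2.le)
  have n1 := abs_nonneg (top x3)
  have n2 := abs_nonneg (bot x3)
  have n3 := abs_nonneg (t x3)
  have n4 := abs_nonneg (b x3)
  obtain ⟨y, hy, hym⟩ := hcomp.exists_isMinOn hne ((hct.sub hcb).mono hsub)
  obtain ⟨ε0, hε0, H⟩ := middle_core (A := A') (B := B') hA' h2 hB' (T := T1 + T2 + T3 + T4 + 1)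
    (d := top y - bot y) hδ0 (hw y (hsub hy)) (by linarith)
    (fun x hx => dt x (hIo x (Ioo_subset_Icc_self hx)))
    (fun x hx => db x (hIo x (Ioo_subset_Icc_self hx))) hφc hφd hφ'c hΦ hφm hφb
    (fun x hx => by
      have k1 := hT1 x hx
      have k2 := hT2 x hx
      have k3 := hT3 x hx
      have k4 := hT4 x hx
      refine ⟨?_, ?_, ?_, ?_⟩ <;> linarith)
    (fun x hx => hym hx)
  refine ⟨1 - δ, ?_, by linarith, ε0, hε0, H⟩
  have := abs_nonneg (φ0 z)
  rw [hδ]; linarith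

end XR57
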