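import Pool.Agent.W_MP_dd0508_gt.Right
import Pool.Agent.W_MP_dd0508_gt.Middle

/-!
Gluing the three parts of the function `f` (section 5).
-/

namespace XR57

open Set

/-- Gluing of one-sided Lipschitz estimates. -/
theorem glue_le {f : ℝ → ℝ} {ε a b : ℝ} (hab : a ≤ b)
    (h1 : ∀ u v, u ≤ v → v ≤ a → |f u - f v| ≤ (v - u) / ε)
    (h2 : ∀ u v, a ≤ u → u ≤ v → v ≤ b → |f u - f v| ≤ (v - u) / ε)
    (h3 : ∀ u v, b ≤ u → u ≤ v → |f u - f v| ≤ (v - u) / ε) :
    ∀ u v, u ≤ v → |f u - f v| ≤ (v - u) / ε := by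
  have tri : ∀ u m v, |f u - f m| ≤ (m - u) / ε → |f m - f v| ≤ (v - m) / ε →
      |f u - f v| ≤ (v - u) / ε := by
    intro u m v e1 e2
    have e : (v - u) / ε = (m - u) / ε + (v - m) / ε := by rw [← add_div]; congr 1; ring
    rw [e]
    exact (abs_sub_le _ (f m) _).trans (add_le_add e1 e2)
  have h23 : ∀ u v, a ≤ u → u ≤ v → |f u - f v| ≤ (v - u) / ε := by
    intro u v hu huv
    rcases le_total v b with hv | hv
    · exact h2 u v hu huv hv
    · rcases le_total u b with hub | hub
      · exact tri u b v (h2 u b hu hub le_rfl) (h3 b v le_rfl hv)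
      · exact h3 u v hub huv
  intro u v huv
  rcases le_total v a with hv | hv
  · exact h1 u v huv hv
  · rcases le_total u a with hu | hu
    · exact tri u a v (h1 u a hu le_rfl) (h23 a v le_rfl hv)
    · exact h23 u v hu huv

/-- Gluing of the strict estimates. -/
theorem glue_lt {f : ℝ → ℝ} {ε a b xL xR : ℝ} (hab : a < b) (hxL : xL < a) (hxR : b < xR)
    (h0 : ∀ u v, u ≤ v → |f u - f v| ≤ (v - u) / ε)
    (h1 : ∀ u v, u < v → v ≤ a → xL < v → |f u - f v| < (v - u) / ε)
    (h2 : ∀ u v, a ≤ u → u < v → v ≤ b → |f u - f v| < (v - u) / ε)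
    (h3 : ∀ u v, b ≤ u → u < v → u < xR → |f u - f v| < (v - u) / ε) :
    ∀ u v, u < v → xL < v → u < xR → |f u - f v| < (v - u) / ε := by
  have tri : ∀ u m v, |f u - f m| < (m - u) / ε → |f m - f v| ≤ (v - m) / ε →
      |f u - f v| < (v - u) / ε := by
    intro u m v e1 e2
    have e : (v - u) / ε = (m - u) / ε + (v - m) / ε := by rw [← add_div]; congr 1; ring
    rw [e]
    exact (abs_sub_le _ (f m) _).trans_lt (add_lt_add_of_lt_of_le e1 e2)
  intro u v huv hxv hux
  rcases le_or_gt v a with hv | hv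
  · exact h1 u v huv hv hxv
  · rcases lt_or_ge u a with hu | hu
    · exact tri u a v (h1 u a hu le_rfl hxL) (h0 a v hv.le)
    · rcases le_or_gt v b with hvb | hvb
      · exact h2 u v hu huv hvb
      · rcases lt_or_ge u b with hub | hub
        · exact tri u b v (h2 u b hu hub le_rfl) (h0 b v hvb.le)
        · exact h3 u v hub huv hux

/-- An upper bound for the difference quotients on a compact interval. -/
theorem exists_slope_bound {A B p q : ℝ} {f f' : ℝ → ℝ} (h1 : A < p) (h2 : q < B)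
    (df : ∀ x ∈ Ioo A B, HasDerivAt f (f' x) x) (cf : ContinuousOn f' (Ioo A B)) :
    ∃ M, 0 < M ∧ ∀ u ∈ Icc p q, ∀ v ∈ Icc p q, u ≤ v → |f v - f u| ≤ M * (v - u) := by
  have hsub : Icc p q ⊆ Ioo A B := fun x hx => ⟨h1.trans_le hx.1, hx.2.trans_lt h2⟩
  obtain ⟨C, hC⟩ := isCompact_Icc.exists_bound_of_continuousOn (cf.mono hsub)
  refine ⟨max C 1, by positivity, ?_⟩
  intro u hu v hv huv
  have key := (convex_Icc p q).norm_image_sub_le_of_norm_hasDerivWithin_le (f := f) (f' := f')
    (C := max C 1) (fun x hx => (df x (hsub hx)).hasDerivWithinAt)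
    (fun x hx => (hC x hx).trans (le_max_left _ _)) hu hv
  rw [Real.norm_eq_abs, Real.norm_eq_abs, abs_of_nonneg (sub_nonneg.2 huv)] at key
  exact key

theorem exists_eps {a b c d e g k : ℝ} (ha : 0 < a) (hb : 0 < b) (hc : 0 < c) (hd : 0 < d)
    (he : 0 < e) (hg : 0 < g) (hk : 0 < k) :
    ∃ ε0 > 0, ∀ ε, 0 < ε → ε < ε0 → ε < a ∧ ε < b ∧ ε < c ∧ ε < d ∧ ε < e ∧ ε < g ∧ ε < k := by
  refine ⟨min a (min b (min c (min d (min e (min g k))))), by positivity, ?_⟩
  intro ε _ h
  simp only [lt_min_iff] at h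
  exact ⟨h.1, h.2.1, h.2.2.1, h.2.2.2.1, h.2.2.2.2.1, h.2.2.2.2.2.1, h.2.2.2.2.2.2⟩

theorem exists_f {XL xL x3 x1 xR XR ym yp : ℝ} {bot top bot' top' : ℝ → ℝ}
    (h : FHyp XL xL x3 x1 xR XR ym yp bot top bot' top') :
    ∃ ε0 > 0, ∀ ε, 0 < ε → ε < ε0 → ∃ f : ℝ → ℝ, FProp XL xL x3 x1 xR XR ym yp bot top ε f := by
  have o1 := h.o1
  have o2 := h.o2
  have o3 := h.o3
  have o4 := h.o4
  have o5 := h.o5
  have m0 := h.m0
  have p0 := h.p0
  -- bounds of the slopes
  obtain ⟨MR, hMR0, hMR⟩ := exists_slope_bound (A := XL) (B := XR) (p := x1) (q := xR)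
    (by linarith) o5 h.db h.cb'
  obtain ⟨ML, hML0, hML⟩ := exists_slope_bound (A := XL) (B := XR) (p := xL) (q := x3)
    o1 (by linarith) h.dt h.ct'
  obtain ⟨M1, hM10, hM1⟩ := exists_slope_bound (A := XL) (B := XR) (p := x3) (q := x1)
    (by linarith) (by linarith) h.db h.cb'
  obtain ⟨M3, hM30, hM3⟩ := exists_slope_bound (A := XL) (B := XR) (p := x3) (q := x1)
    (by linarith) (by linarith) h.dt h.ct'
  -- the right part
  obtain ⟨εR, hεR, hR⟩ := right_part (x1 := x1) (xR := xR) o4 (top := top) (bot := bot)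
    (h.ct.mono (Icc_subset_Icc (by linarith) o5.le))
    (h.cb.mono (Icc_subset_Icc (by linarith) o5.le))
    (h.aR.mono (Icc_subset_Icc_right o5.le)) (h.mR.mono (Icc_subset_Icc_right o5.le))
    (M := MR) (fun u hu v hv huv => (le_abs_self _).trans (hMR u hu v hv huv)) h.tR
    (fun x hx => h.ltt x ⟨by linarith [hx.1], by linarith [hx.2]⟩)
  -- the left part
  have cneg : ContinuousOn (fun x : ℝ => -x) (Icc (-x3) (-xL)) := continuous_neg.continuousOn
  have maps : MapsTo (fun x : ℝ => -x) (Icc (-x3) (-xL)) (Icc XL XR) := by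
    intro x hx
    simp only [mem_Icc] at hx ⊢
    constructor <;> linarith
  obtain ⟨εL, hεL, hL⟩ := right_part (x1 := -x3) (xR := -xL) (by linarith)
    (top := fun x => -bot (-x)) (bot := fun x => -top (-x))
    ((h.cb.comp cneg maps).neg) ((h.ct.comp cneg maps).neg)
    (by
      intro u hu v hv huv
      simp only [mem_Icc] at hu hv
      have := h.aL (a := -v) (b := -u) ⟨by linarith, by linarith⟩ ⟨by linarith, by linarith⟩
        (by linarith)
      simp only
      linarith)
    (by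
      intro u hu v hv huv
      simp only [mem_Icc] at hu hv
      have := h.mL (a := -v) (b := -u) ⟨by linarith, by linarith⟩ ⟨by linarith, by linarith⟩
        (by linarith)
      simp only
      linarith)
    (M := ML)
    (by
      intro u hu v hv huv
      simp only [mem_Icc] at hu hv
      have := (le_abs_self _).trans (hML (-v) ⟨by linarith, by linarith⟩ (-u)
        ⟨by linarith, by linarith⟩ (by linarith))
      linarith)
    (by simp [h.bL])
    (by
      intro x hx
      simp only [mem_Icc] at hx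
      have := h.ltt (-x) ⟨by linarith, by linarith⟩
      linarith)
  -- the middle part
  have hIcc : ∀ x ∈ Icc x3 x1, x ∈ Icc XL XR := fun x hx =>
    ⟨by linarith [hx.1], by linarith [hx.2]⟩
  have hbm : ∀ x ∈ Icc x3 x1, bot x ≤ ym := by
    intro x hx
    have := h.cvx.le_max_of_mem_Icc (hIcc x3 ⟨le_rfl, o3.le⟩) (hIcc x1 ⟨o3.le, le_rfl⟩) hx
    rwa [h.b3, h.b1, max_self] at this
  have htm : ∀ x ∈ Icc x3 x1, yp ≤ top x := by
    intro x hx
    have := h.ccv.min_le_of_mem_Icc (hIcc x3 ⟨le_rfl, o3.le⟩) (hIcc x1 ⟨o3.le, le_rfl⟩) hx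
    rwa [h.t3, h.t1, min_self] at this
  obtain ⟨κ, hκ0, hκ1, εM, hεM, hM⟩ := middle_part (A := XL) (B := XR) (x3 := x3) (x1 := x1)
    (by linarith) o3 (by linarith) h.dt h.db h.ct' h.cb'
    (fun x hx => (hbm x hx).trans_lt m0) (fun x hx => p0.trans_le (htm x hx))
  -- the choice of ε
  obtain ⟨ε0, hε0, hsmall⟩ := exists_eps hεR hεL hεM (inv_pos.2 hM10) (inv_pos.2 hM30)
    (div_pos (sub_pos.2 o2) p0) (div_pos (sub_pos.2 o4) (neg_pos.2 m0))
  refine ⟨ε0, hε0, ?_⟩
  intro ε hε hεlt
  obtain ⟨l1, l2, l3, l4, l5, l6, l7⟩ := hsmall ε hε hεlt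
  have l4' : ε * M1 < 1 := by
    rw [lt_inv_comm₀ hε hM10] at l4
    calc ε * M1 < ε * ε⁻¹ := mul_lt_mul_of_pos_left l4 hε
      _ = 1 := mul_inv_cancel₀ hε.ne'
  have l5' : ε * M3 < 1 := by
    rw [lt_inv_comm₀ hε hM30] at l5
    calc ε * M3 < ε * ε⁻¹ := mul_lt_mul_of_pos_left l5 hε
      _ = 1 := mul_inv_cancel₀ hε.ne'
  rw [lt_div_iff₀ p0] at l6
  rw [lt_div_iff₀ (neg_pos.2 m0)] at l7
  obtain ⟨fR, R1, R2, R3, R4⟩ := hR ε hε l1
  obtain ⟨fl, L1, L2, L3, L4⟩ := hL ε hε l2
  obtain ⟨fM, M1', M2'⟩ := hM ε hε l3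
  simp only [neg_neg] at L1 L2 L4
  rw [h.b3] at L1 L2
  rw [h.t1] at R1 R2
  rw [h.t3, h.b1] at M1'
  set WL := x3 - ε * yp with hWL
  set WR := x1 - ε * ym with hWR
  have hεp : 0 < ε * yp := mul_pos hε p0
  have hεm : 0 < ε * (-ym) := mul_pos hε (neg_pos.2 m0)
  have hW : WL < WR := by rw [hWL, hWR]; nlinarith
  have hxLW : xL < WL := by rw [hWL]; linarith
  have hWxR : WR < xR := by rw [hWR]; linarith
  -- the function
  set cL := fM WL - fl (-WL) with hcL
  set cR := fM WR - fR WR with hcR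
  set f : ℝ → ℝ := fun w => if w ≤ WL then fl (-w) + cL else if w ≤ WR then fM w else fR w + cR
    with hf
  have fL' : ∀ w, w ≤ WL → f w = fl (-w) + cL := fun w hw => by
    rw [hf]; simp only [if_pos hw]
  have fM' : ∀ w, WL ≤ w → w ≤ WR → f w = fM w := by
    intro w hw1 hw2
    rcases eq_or_lt_of_le hw1 with h0 | h0
    · rw [fL' w h0.ge, ← h0, hcL]; ring
    · rw [hf]; simp only [if_neg (not_le.2 h0), if_pos hw2]
  have fR' : ∀ w, WR ≤ w → f w = fR w + cR := by
    intro w hw
    rcases eq_or_lt_of_le hw with h0 | h0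
    · rw [fM' w (by linarith) h0.ge, ← h0, hcR]; ring
    · rw [hf]; simp only [if_neg (not_le.2 (hW.trans h0)), if_neg (not_le.2 h0)]
  clear_value f
  -- Lipschitz estimates
  have e1 : ∀ u v, u ≤ v → v ≤ WL → |f u - f v| ≤ (v - u) / ε := by
    intro u v huv hv
    rw [fL' u (huv.trans hv), fL' v hv]
    have := L1 (-v) (-u) (by rw [hWL] at hv; nlinarith) (by rw [hWL] at hv; nlinarith)
    rw [abs_of_nonpos (by linarith : -v - -u ≤ 0), abs_sub_comm] at this
    calc |fl (-u) + cL - (fl (-v) + cL)| = |fl (-u) - fl (-v)| := by congr 1; ring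
      _ ≤ _ := this
      _ = _ := by congr 1; ring
  have e2s : ∀ u v, WL ≤ u → u < v → v ≤ WR → |f u - f v| < (v - u) / ε := by
    intro u v hu huv hv
    rw [fM' u hu (huv.le.trans hv), fM' v (hu.trans huv.le) hv]
    have := M1' u ⟨hu, huv.le.trans hv⟩ v ⟨hu.trans huv.le, hv⟩
    rw [abs_of_neg (by linarith : u - v < 0)] at this
    have h5 : 0 < (v - u) / ε := div_pos (by linarith) hε
    calc |fM u - fM v| ≤ _ := this
      _ = κ * ((v - u) / ε) := by rw [mul_div_assoc]; congr 2; ring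
      _ < 1 * ((v - u) / ε) := mul_lt_mul_of_pos_right hκ1 h5
      _ = _ := one_mul _
  have e2 : ∀ u v, WL ≤ u → u ≤ v → v ≤ WR → |f u - f v| ≤ (v - u) / ε := by
    intro u v hu huv hv
    rcases eq_or_lt_of_le huv with h0 | h0
    · rw [h0]; simp
    · exact (e2s u v hu h0 hv).le
  have e3 : ∀ u v, WR ≤ u → u ≤ v → |f u - f v| ≤ (v - u) / ε := by
    intro u v hu huv
    rw [fR' u hu, fR' v (hu.trans huv)]
    have := R1 u v (by rw [hWR] at hu; nlinarith) (by rw [hWR] at hu; nlinarith)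
    rw [abs_of_nonpos (by linarith : u - v ≤ 0)] at this
    calc |fR u + cR - (fR v + cR)| = |fR u - fR v| := by congr 1; ring
      _ ≤ _ := this
      _ = _ := by congr 1; ring
  have e1s : ∀ u v, u < v → v ≤ WL → xL < v → |f u - f v| < (v - u) / ε := by
    intro u v huv hv hxv
    rw [fL' u (huv.le.trans hv), fL' v hv]
    have := L2 (-v) (-u) (by rw [hWL] at hv; nlinarith) (by linarith) (by linarith)
    rw [abs_sub_comm] at this
    calc |fl (-u) + cL - (fl (-v) + cL)| = |fl (-u) - fl (-v)| := by congr 1; ring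
      _ < _ := this
      _ = _ := by congr 1; ring
  have e3s : ∀ u v, WR ≤ u → u < v → u < xR → |f u - f v| < (v - u) / ε := by
    intro u v hu huv hux
    rw [fR' u hu, fR' v (hu.trans huv.le)]
    have := R2 u v (by rw [hWR] at hu; nlinarith) huv hux
    calc |fR u + cR - (fR v + cR)| = |fR u - fR v| := by congr 1; ring
      _ < _ := this
  have e0 := glue_le hW.le e1 e2 e3
  have es := glue_lt hW hxLW hWxR e0 e1s e2s e3s
  refine ⟨f, ?_, es, ?_, ?_, ?_⟩
  · intro u v
    rcases le_total u v with huv | huv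
    · rw [abs_of_nonpos (sub_nonpos.2 huv), neg_sub]
      exact e0 u v huv
    · rw [abs_of_nonneg (sub_nonneg.2 huv), abs_sub_comm]
      exact e0 v u huv
  · intro w hw
    rw [fL' w (hw.trans hxLW.le), fL' xL hxLW.le, L3 (-w) (by linarith), L3 (-xL) le_rfl]
    field_simp
    ring
  · intro w hw
    rw [fR' w (hWxR.le.trans hw), fR' xR hWxR.le, R3 w hw, R3 xR le_rfl]
    field_simp
    ring
  · intro x hx hw1 hw2
    have hxI : x ∈ Icc XL XR := Ioo_subset_Icc_self hx
    have hbt := h.ltt x hx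
    have hst : x - ε * top x < x - ε * bot x := by nlinarith
    -- values of f at the left of xL and at the right of xR
    have vL : ∀ w, w ≤ xL → f w = -w / ε + cL := by
      intro w hw
      rw [fL' w (hw.trans hxLW.le), L3 (-w) (by linarith)]
    have vR : ∀ w, xR ≤ w → f w = w / ε + cR := by
      intro w hw
      rw [fR' w (hWxR.le.trans hw), R3 w hw]
    rcases lt_or_ge x x3 with hx3 | hx3
    · have hx3' : x ≤ x3 - ε * (yp - ym) := by
        by_contra hcon
        push Not at hcon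
        exact hw2 ⟨hcon, hx3⟩
      rcases le_or_gt x xL with hxx | hxx
      · have hb : 0 ≤ bot x := by
          rcases eq_or_lt_of_le hxx with h0 | h0
          · rw [h0, h.bL]
          · have := h.aL ⟨hxI.1, hx3.le⟩ ⟨o1.le, o2.le⟩ h0
            rw [h.bL] at this; exact this.le
        have ht : 0 ≤ top x := hb.trans hbt.le
        rw [abs_of_nonneg ht, abs_of_nonneg hb, vL _ (by nlinarith), vL _ (by nlinarith)]
        field_simp
        ring
      · have hb : bot x < 0 := by
          have := h.aL ⟨o1.le, o2.le⟩ ⟨hxI.1, hx3.le⟩ hxx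
          rw [h.bL] at this; exact this
        have hb' : ym ≤ bot x := by
          have := h.aL.antitoneOn ⟨hxI.1, hx3.le⟩ ⟨by linarith, le_rfl⟩ hx3.le
          rw [h.b3] at this; exact this
        have ht : 0 < top x := by
          have h5 := h.mL ⟨o1.le, o2.le⟩ ⟨hxI.1, hx3.le⟩ hxx
          have h6 := h.ltt xL ⟨o1, by linarith⟩
          rw [h.bL] at h6
          linarith
        have hβ : x - ε * bot x ≤ WL := by rw [hWL]; nlinarith
        have key := L4 (-x) ⟨by linarith, by linarith⟩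
        simp only [neg_neg] at key
        rw [abs_of_pos ht, abs_of_neg hb, fL' _ (hst.le.trans hβ), fL' _ hβ]
        have a1 : -(x - ε * top x) = -x - ε * -top x := by ring
        have a2 : -(x - ε * bot x) = -x - ε * -bot x := by ring
        rw [a1, a2]
        linarith
    · rcases le_or_gt x x1 with hx1 | hx1
      · have hxm : x ∈ Icc x3 x1 := ⟨hx3, hx1⟩
        have hb : bot x < 0 := (hbm x hxm).trans_lt m0
        have ht : 0 < top x := p0.trans_le (htm x hxm)
        have hs : WL ≤ x - ε * top x := by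
          have h5 := (le_abs_self _).trans (hM3 x3 ⟨le_rfl, o3.le⟩ x hxm hx3)
          rw [h.t3] at h5
          rw [hWL]
          nlinarith
        have hβ : x - ε * bot x ≤ WR := by
          have h5 := (le_abs_self _).trans (hM1 x hxm x1 ⟨o3.le, le_rfl⟩ hx1)
          rw [h.b1] at h5
          rw [hWR]
          nlinarith
        rw [abs_of_pos ht, abs_of_neg hb, fM' _ hs (hst.le.trans hβ), fM' _ (hs.trans hst.le) hβ]
        have := M2' x hxm
        linarith
      · have hx1' : x1 + ε * (yp - ym) ≤ x := by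
          by_contra hcon
          push Not at hcon
          exact hw1 ⟨hx1, hcon⟩
        rcases le_or_gt xR x with hxx | hxx
        · have ht : top x ≤ 0 := by
            rcases eq_or_lt_of_le hxx with h0 | h0
            · rw [← h0, h.tR]
            · have := h.aR ⟨o4.le, o5.le⟩ ⟨hx1.le, hxI.2⟩ h0
              rw [h.tR] at this; exact this.le
          have hb : bot x ≤ 0 := hbt.le.trans ht
          rw [abs_of_nonpos ht, abs_of_nonpos hb, vR _ (by nlinarith), vR _ (by nlinarith)]
          field_simp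
          ring
        · have ht : 0 < top x := by
            have := h.aR ⟨hx1.le, hxI.2⟩ ⟨o4.le, o5.le⟩ hxx
            rw [h.tR] at this; exact this
          have ht' : top x ≤ yp := by
            have := h.aR.antitoneOn ⟨le_rfl, by linarith⟩ ⟨hx1.le, hxI.2⟩ hx1.le
            rw [h.t1] at this; exact this
          have hb : bot x < 0 := by
            have h5 := h.mR ⟨hx1.le, hxI.2⟩ ⟨o4.le, o5.le⟩ hxx
            have h6 := h.ltt xR ⟨by linarith, o5⟩
            rw [h.tR] at h6
            linarith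
          have hs : WR ≤ x - ε * top x := by rw [hWR]; nlinarith
          have key := R4 x ⟨hx1.le, hxx.le⟩
          rw [abs_of_pos ht, abs_of_neg hb, fR' _ hs, fR' _ (hs.trans hst.le)]
          linarith

end XR57
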