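import Pool.Agent.W_MP_dd0508_gt.Defs

/-!
From the core hypotheses to the data for the function `f`.
-/

namespace XR57

open Set

namespace LinkAux

open Filter Topology

theorem ex_left {g : ℝ → ℝ} {g' a c : ℝ} (hd : HasDerivAt g g' c) (h : g' < 0) (hac : a < c) :
    ∃ y ∈ Ioo a c, g c < g y := by
  have ht := hasDerivAt_iff_tendsto_slope.1 hd
  have h1 : ∀ᶠ y in 𝓝[<] c, slope g c y < 0 :=
    (ht.eventually (gt_mem_nhds h)).filter_mono (nhdsWithin_mono _ fun y hy => ne_of_lt hy)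
  obtain ⟨y, h2, h3⟩ := (h1.and (Ioo_mem_nhdsLT hac)).exists
  refine ⟨y, h3, ?_⟩
  rw [slope_def_field, div_neg_iff] at h2
  rcases h2 with h2 | h2
  · linarith [h2.1]
  · linarith [h2.2, h3.2]

theorem ex_right {g : ℝ → ℝ} {g' b c : ℝ} (hd : HasDerivAt g g' c) (h : g' < 0) (hcb : c < b) :
    ∃ y ∈ Ioo c b, g y < g c := by
  have ht := hasDerivAt_iff_tendsto_slope.1 hd
  have h1 : ∀ᶠ y in 𝓝[>] c, slope g c y < 0 :=
    (ht.eventually (gt_mem_nhds h)).filter_mono (nhdsWithin_mono _ fun y hy => ne_of_gt hy)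
  obtain ⟨y, h2, h3⟩ := (h1.and (Ioo_mem_nhdsGT hcb)).exists
  refine ⟨y, h3, ?_⟩
  rw [slope_def_field, div_neg_iff] at h2
  rcases h2 with h2 | h2
  · linarith [h2.2, h3.1]
  · linarith [h2.1]

theorem tangent {a b c g' : ℝ} {g : ℝ → ℝ} (hg : ConcaveOn ℝ (Icc a b) g) (hc : c ∈ Icc a b)
    (hd : HasDerivAt g g' c) {y : ℝ} (hy : y ∈ Icc a b) : g y ≤ g c + g' * (y - c) := by
  rcases lt_trichotomy y c with h | h | h
  · have := hg.le_slope_of_hasDerivAt hy hc h hd
    rw [slope_def_field, le_div_iff₀ (by linarith)] at this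
    nlinarith
  · subst h; simp
  · have := hg.slope_le_of_hasDerivAt hc hy h hd
    rw [slope_def_field, div_le_iff₀ (by linarith)] at this
    nlinarith

/-- a concave function with equal values `v` at `p < q` and positive derivative at `p` is `> v`
inside -/
theorem above {a b p q g' : ℝ} {g : ℝ → ℝ} (hg : ConcaveOn ℝ (Icc a b) g) (hp : p ∈ Icc a b)
    (hq : q ∈ Icc a b) (he : g p = g q) (hd : HasDerivAt g g' p) (h : 0 < g') {y : ℝ}
    (hy : y ∈ Ioo p q) : g p < g y := by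
  obtain ⟨y0, h1, h2⟩ := ex_right hd.neg (by linarith : -g' < 0) hy.1
  have h3 : g p < g y0 := by simpa using h2
  have h4 := hg.slope_anti_adjacent (x := y0) (y := y) (z := q)
    ⟨hp.1.trans h1.1.le, (h1.2.le.trans hy.2.le).trans hq.2⟩ hq h1.2 hy.2
  by_contra hcon
  push Not at hcon
  have h5 : (g y - g y0) / (y - y0) < 0 := div_neg_of_neg_of_pos (by linarith) (by linarith [h1.2])
  have h6 : 0 ≤ (g q - g y) / (q - y) := div_nonneg (by linarith) (by linarith [hy.2])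
  linarith

theorem anti_right {a b c : ℝ} {g : ℝ → ℝ} (hg : ConcaveOn ℝ (Icc a b) g) (hc : c ∈ Icc a b)
    (h : ∀ x, c < x → x ≤ b → g x < g c) : StrictAntiOn g (Icc c b) := by
  intro x hx x' hx' hlt
  rcases eq_or_lt_of_le hx.1 with h1 | h1
  · subst h1; exact h x' hlt hx'.2
  · have h2 := hg.slope_anti_adjacent (x := c) (y := x) (z := x') hc
      ⟨hc.1.trans hx'.1, hx'.2⟩ h1 hlt
    have h3 : (g x - g c) / (x - c) < 0 :=
      div_neg_of_neg_of_pos (by linarith [h x h1 hx.2]) (by linarith)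
    have h4 := h2.trans_lt h3
    rw [div_neg_iff] at h4
    rcases h4 with h4 | h4
    · linarith [h4.2]
    · linarith [h4.1]

theorem mono_left {a b c : ℝ} {g : ℝ → ℝ} (hg : ConcaveOn ℝ (Icc a b) g) (hc : c ∈ Icc a b)
    (h : ∀ x, a ≤ x → x < c → g x < g c) : StrictMonoOn g (Icc a c) := by
  intro x hx x' hx' hlt
  rcases eq_or_lt_of_le hx'.2 with h1 | h1
  · subst h1; exact h x hx.1 hlt
  · have h2 := hg.slope_anti_adjacent (x := x) (y := x') (z := c)
      ⟨hx.1, hx.2.trans hc.2⟩ hc hlt h1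
    have h3 : 0 < (g c - g x') / (c - x') :=
      div_pos (by linarith [h x' hx'.1 h1]) (by linarith)
    have h4 := h3.trans_le h2
    rw [div_pos_iff] at h4
    rcases h4 with h4 | h4
    · linarith [h4.1]
    · linarith [h4.2]

end LinkAux

open LinkAux

theorem CoreHyp.fhyp {K : Set (ℝ × ℝ)} {XL XR YL YU : ℝ}
    {bot top bot' top' xl xr xl' xr' : ℝ → ℝ} {ym yp x3 x1 : ℝ}
    (h : CoreHyp K XL XR YL YU bot top bot' top' xl xr xl' xr' ym yp x3 x1) :
    FHyp XL (xl 0) x3 x1 (xr 0) XR ym yp bot top bot' top' := by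
  -- the bridge between the two representations
  have B : ∀ x y : ℝ, (XL ≤ x ∧ x ≤ XR ∧ bot x ≤ y ∧ y ≤ top x) ↔
      (YL ≤ y ∧ y ≤ YU ∧ xl y ≤ x ∧ x ≤ xr y) := fun x y =>
    (h.repx.mem x y).symm.trans (h.repy.mem y x)
  have k1 := h.ymL
  have k2 := h.ym0
  have k3 := h.yp0
  have k4 := h.ypU
  have iym : ym ∈ Icc YL YU := ⟨by linarith, by linarith⟩
  have iyp : yp ∈ Icc YL YU := ⟨by linarith, by linarith⟩
  have i0 : (0 : ℝ) ∈ Icc YL YU := ⟨by linarith, by linarith⟩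
  have oym : ym ∈ Ioo YL YU := ⟨by linarith, by linarith⟩
  have oyp : yp ∈ Ioo YL YU := ⟨by linarith, by linarith⟩
  have o0 : (0 : ℝ) ∈ Ioo YL YU := ⟨by linarith, by linarith⟩
  have cr := h.repy.ccv
  have cl := h.repy.cvx.neg
  -- xr at levels outside / inside
  have r_up : ∀ y, YL ≤ y → y ≤ YU → yp < y → xr y < x1 := by
    intro y h1 h2 h3
    have := tangent cr iyp (h.dr yp oyp) ⟨h1, h2⟩
    have h4 := h.a'
    have h5 := h.rp
    nlinarith
  have r_dn : ∀ y, YL ≤ y → y ≤ YU → y < ym → xr y < x1 := by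
    intro y h1 h2 h3
    have := tangent cr iym (h.dr ym oym) ⟨h1, h2⟩
    have h4 := h.a
    have h5 := h.rm
    nlinarith
  have l_up : ∀ y, YL ≤ y → y ≤ YU → yp < y → x3 < xl y := by
    intro y h1 h2 h3
    have := tangent cl iyp (h.dl yp oyp).neg ⟨h1, h2⟩
    simp only [Pi.neg_apply] at this
    have h4 := h.b
    have h5 := h.lp
    nlinarith
  have l_dn : ∀ y, YL ≤ y → y ≤ YU → y < ym → x3 < xl y := by
    intro y h1 h2 h3
    have := tangent cl iym (h.dl ym oym).neg ⟨h1, h2⟩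
    simp only [Pi.neg_apply] at this
    have h4 := h.b'
    have h5 := h.lm
    nlinarith
  have hx1 : x1 < xr 0 := by
    have := above cr iym iyp (by rw [h.rm, h.rp]) (h.dr ym oym) h.a ⟨k2, k3⟩
    rwa [h.rm] at this
  have hx3 : xl 0 < x3 := by
    have := above cl iym iyp (by simp [h.lm, h.lp]) (h.dl ym oym).neg (by linarith [h.b']) ⟨k2, k3⟩
    simp only [Pi.neg_apply, h.lm] at this
    linarith
  have r0 : ∀ y, YL ≤ y → y ≤ YU → 0 < y → xr y < xr 0 := by
    intro y h1 h2 h3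
    have := tangent cr i0 (h.dr 0 o0) ⟨h1, h2⟩
    have h4 := h.r0
    nlinarith
  have l0 : ∀ y, YL ≤ y → y ≤ YU → y < 0 → xl 0 < xl y := by
    intro y h1 h2 h3
    have := tangent cl i0 (h.dl 0 o0).neg ⟨h1, h2⟩
    simp only [Pi.neg_apply] at this
    have h4 := h.l0
    nlinarith
  have hlr : ∀ y ∈ Icc YL YU, xl y ≤ xr y := h.repy.le
  have hXR : xr 0 < XR := by
    obtain ⟨y, h1, h2⟩ := ex_left (h.dr 0 o0) h.r0 o0.1
    have hy : YL ≤ y ∧ y ≤ YU := ⟨h1.1.le, by linarith [h1.2, o0.2]⟩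
    have := (B (xr y) y).2 ⟨hy.1, hy.2, hlr y ⟨hy.1, hy.2⟩, le_rfl⟩
    linarith [this.2.1]
  have hXL : XL < xl 0 := by
    obtain ⟨y, h1, h2⟩ := ex_right (h.dl 0 o0) h.l0 o0.2
    have hy : YL ≤ y ∧ y ≤ YU := ⟨by linarith [h1.1, o0.1], h1.2.le⟩
    have := (B (xl y) y).2 ⟨hy.1, hy.2, le_rfl, hlr y ⟨hy.1, hy.2⟩⟩
    linarith [this.1]
  have h31 := h.x31
  have ix1 : x1 ∈ Icc XL XR := ⟨by linarith, by linarith⟩
  have ix3 : x3 ∈ Icc XL XR := ⟨by linarith, by linarith⟩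
  have hle := h.repx.le
  -- membership of boundary points
  have mt : ∀ x ∈ Icc XL XR, YL ≤ top x ∧ top x ≤ YU ∧ xl (top x) ≤ x ∧ x ≤ xr (top x) :=
    fun x hx => (B x (top x)).1 ⟨hx.1, hx.2, hle x hx, le_rfl⟩
  have mb : ∀ x ∈ Icc XL XR, YL ≤ bot x ∧ bot x ≤ YU ∧ xl (bot x) ≤ x ∧ x ≤ xr (bot x) :=
    fun x hx => (B x (bot x)).1 ⟨hx.1, hx.2, le_rfl, hle x hx⟩
  have t1 : top x1 = yp := by
    apply le_antisymm
    · by_contra hcon
      push Not at hcon
      obtain ⟨m1, m2, m3, m4⟩ := mt x1 ix1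
      linarith [r_up _ m1 m2 hcon]
    · exact ((B x1 yp).2 ⟨iyp.1, iyp.2, by rw [h.lp]; exact h31.le, by rw [h.rp]⟩).2.2.2
  have b1 : bot x1 = ym := by
    apply le_antisymm
    · exact ((B x1 ym).2 ⟨iym.1, iym.2, by rw [h.lm]; exact h31.le, by rw [h.rm]⟩).2.2.1
    · by_contra hcon
      push Not at hcon
      obtain ⟨m1, m2, m3, m4⟩ := mb x1 ix1
      linarith [r_dn _ m1 m2 hcon]
  have t3 : top x3 = yp := by
    apply le_antisymm
    · by_contra hcon
      push Not at hcon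
      obtain ⟨m1, m2, m3, m4⟩ := mt x3 ix3
      linarith [l_up _ m1 m2 hcon]
    · exact ((B x3 yp).2 ⟨iyp.1, iyp.2, by rw [h.lp], by rw [h.rp]; exact h31.le⟩).2.2.2
  have b3 : bot x3 = ym := by
    apply le_antisymm
    · exact ((B x3 ym).2 ⟨iym.1, iym.2, by rw [h.lm], by rw [h.rm]; exact h31.le⟩).2.2.1
    · by_contra hcon
      push Not at hcon
      obtain ⟨m1, m2, m3, m4⟩ := mb x3 ix3
      linarith [l_dn _ m1 m2 hcon]
  -- top, bot right of x1 and left of x3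
  have tr : ∀ x, x1 < x → x ≤ XR → top x < yp := by
    intro x h1 h2
    obtain ⟨m1, m2, m3, m4⟩ := mt x ⟨by linarith, h2⟩
    by_contra hcon
    push Not at hcon
    rcases eq_or_lt_of_le hcon with h3 | h3
    · rw [← h3, h.rp] at m4; linarith
    · linarith [r_up _ m1 m2 h3]
  have br : ∀ x, x1 < x → x ≤ XR → ym < bot x := by
    intro x h1 h2
    obtain ⟨m1, m2, m3, m4⟩ := mb x ⟨by linarith, h2⟩
    by_contra hcon
    push Not at hcon
    rcases eq_or_lt_of_le hcon with h3 | h3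
    · rw [h3, h.rm] at m4; linarith
    · linarith [r_dn _ m1 m2 h3]
  have tl : ∀ x, XL ≤ x → x < x3 → top x < yp := by
    intro x h1 h2
    obtain ⟨m1, m2, m3, m4⟩ := mt x ⟨h1, by linarith⟩
    by_contra hcon
    push Not at hcon
    rcases eq_or_lt_of_le hcon with h3 | h3
    · rw [← h3, h.lp] at m3; linarith
    · linarith [l_up _ m1 m2 h3]
  have bl : ∀ x, XL ≤ x → x < x3 → ym < bot x := by
    intro x h1 h2
    obtain ⟨m1, m2, m3, m4⟩ := mb x ⟨h1, by linarith⟩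
    by_contra hcon
    push Not at hcon
    rcases eq_or_lt_of_le hcon with h3 | h3
    · rw [h3, h.lm] at m3; linarith
    · linarith [l_dn _ m1 m2 h3]
  refine
    { o1 := hXL, o2 := hx3, o3 := h31, o4 := hx1, o5 := hXR
      cvx := h.repx.cvx, ccv := h.repx.ccv, cb := h.repx.clo, ct := h.repx.chi
      db := h.db, dt := h.dt, cb' := h.cb', ct' := h.ct'
      ltt := h.repx.ltt
      aR := anti_right h.repx.ccv ix1 fun x h1 h2 => by rw [t1]; exact tr x h1 h2
      mR := ?_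
      mL := mono_left h.repx.ccv ix3 fun x h1 h2 => by rw [t3]; exact tl x h1 h2
      aL := ?_
      tR := ?_
      bL := ?_
      t1 := t1, t3 := t3, b1 := b1, b3 := b3, m0 := k2, p0 := k3 }
  · have := anti_right h.repx.cvx.neg ix1 fun x h1 h2 => by
      simp only [Pi.neg_apply, b1]
      linarith [br x h1 h2]
    intro x hx x' hx' hlt
    have h2 := this hx hx' hlt
    simp only [Pi.neg_apply] at h2
    linarith
  · have := mono_left h.repx.cvx.neg ix3 fun x h1 h2 => by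
      simp only [Pi.neg_apply, b3]
      linarith [bl x h1 h2]
    intro x hx x' hx' hlt
    have h2 := this hx hx' hlt
    simp only [Pi.neg_apply] at h2
    linarith
  · apply le_antisymm
    · by_contra hcon
      push Not at hcon
      obtain ⟨m1, m2, m3, m4⟩ := mt (xr 0) ⟨by linarith, hXR.le⟩
      linarith [r0 _ m1 m2 hcon]
    · exact ((B (xr 0) 0).2 ⟨i0.1, i0.2, hlr 0 i0, le_rfl⟩).2.2.2
  · apply le_antisymm
    · exact ((B (xl 0) 0).2 ⟨i0.1, i0.2, le_rfl, hlr 0 i0⟩).2.2.1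
    · by_contra hcon
      push Not at hcon
      obtain ⟨m1, m2, m3, m4⟩ := mb (xl 0) ⟨hXL.le, by linarith⟩
      linarith [l0 _ m1 m2 hcon]

end XR57
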