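import Pool.Agent.W_MP_dd0508_gt.Cert

/-!
The main certificate `F (x,y) = |bot x| - f (x - ε bot x) + f (x - ε y) - |y|` (section 6).
-/

namespace XR57

open MeasureTheory Set

section pointwise

variable {XL xL x3 x1 xR XR ym yp : ℝ} {bot top bot' top' : ℝ → ℝ}

private theorem sgn_bot (hF : FHyp XL xL x3 x1 xR XR ym yp bot top bot' top') {x : ℝ}
    (h1 : xL < x) (h2 : x < xR) : bot x < 0 := by
  have o1 := hF.o1
  have o2 := hF.o2
  have o3 := hF.o3
  have o4 := hF.o4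
  have o5 := hF.o5
  rcases le_total x x3 with h | h
  · have := hF.aL (a := xL) (b := x) ⟨o1.le, o2.le⟩ ⟨by linarith, h⟩ h1
    rw [hF.bL] at this
    exact this
  rcases le_total x x1 with h' | h'
  · have := hF.cvx.le_on_segment (x := x3) (y := x1) ⟨by linarith, by linarith⟩
      ⟨by linarith, by linarith⟩ (z := x)
      (by rw [segment_eq_Icc (by linarith)]; exact ⟨h, h'⟩)
    rw [hF.b3, hF.b1, max_self] at this
    linarith [hF.m0]
  · have a1 := hF.mR (a := x) (b := xR) ⟨h', by linarith⟩ ⟨by linarith, o5.le⟩ h2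
    have a2 := hF.ltt xR ⟨by linarith, o5⟩
    rw [hF.tR] at a2
    linarith

private theorem sgn_top (hF : FHyp XL xL x3 x1 xR XR ym yp bot top bot' top') {x : ℝ}
    (h1 : xL < x) (h2 : x < xR) : 0 < top x := by
  have o1 := hF.o1
  have o2 := hF.o2
  have o3 := hF.o3
  have o4 := hF.o4
  have o5 := hF.o5
  rcases le_total x x3 with h | h
  · have a1 := hF.mL (a := xL) (b := x) ⟨o1.le, o2.le⟩ ⟨by linarith, h⟩ h1
    have a2 := hF.ltt xL ⟨o1, by linarith⟩
    rw [hF.bL] at a2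
    linarith
  rcases le_total x x1 with h' | h'
  · have := hF.ccv.ge_on_segment (x := x3) (y := x1) ⟨by linarith, by linarith⟩
      ⟨by linarith, by linarith⟩ (z := x)
      (by rw [segment_eq_Icc (by linarith)]; exact ⟨h, h'⟩)
    rw [hF.t3, hF.t1, min_self] at this
    linarith [hF.p0]
  · have a1 := hF.aR (a := x) (b := xR) ⟨h', by linarith⟩ ⟨by linarith, o5.le⟩ h2
    rw [hF.tR] at a1
    linarith

private theorem sgn_left (hF : FHyp XL xL x3 x1 xR XR ym yp bot top bot' top') {x : ℝ}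
    (h0 : XL < x) (h1 : x ≤ xL) : 0 ≤ bot x := by
  rcases h1.eq_or_lt with h | h
  · rw [h, hF.bL]
  · have := hF.aL (a := x) (b := xL) ⟨h0.le, by linarith [hF.o2]⟩ ⟨hF.o1.le, hF.o2.le⟩ h
    rw [hF.bL] at this
    exact this.le

private theorem sgn_right (hF : FHyp XL xL x3 x1 xR XR ym yp bot top bot' top') {x : ℝ}
    (h0 : x < XR) (h1 : xR ≤ x) : top x ≤ 0 := by
  rcases h1.eq_or_lt with h | h
  · rw [← h, hF.tR]
  · have := hF.aR (a := xR) (b := x) ⟨hF.o4.le, hF.o5.le⟩ ⟨by linarith [hF.o4], h0.le⟩ h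
    rw [hF.tR] at this
    exact this.le

/-- The certificate for fixed `x`. -/
private noncomputable def G (bot f : ℝ → ℝ) (ε x y : ℝ) : ℝ :=
  |bot x| - f (x - ε * bot x) + f (x - ε * y) - |y|

private theorem G_bot (bot f : ℝ → ℝ) (ε x : ℝ) : G bot f ε x (bot x) = 0 := by
  unfold G; ring

private theorem G_top {f : ℝ → ℝ} {ε : ℝ} (hf : FProp XL xL x3 x1 xR XR ym yp bot top ε f) {x : ℝ}
    (hx : x ∈ Ioo XL XR) (hx1 : x ∉ Ioo x1 (x1 + ε * (yp - ym)))
    (hx2 : x ∉ Ioo (x3 - ε * (yp - ym)) x3) : G bot f ε x (top x) = 0 := by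
  have := hf.eq x hx hx1 hx2
  unfold G
  linarith

private theorem G_mono {f : ℝ → ℝ} {ε : ℝ} (hε : 0 < ε)
    (hf : FProp XL xL x3 x1 xR XR ym yp bot top ε f) (x : ℝ) {y y' : ℝ} (h : y ≤ y')
    (h' : y' ≤ 0) : G bot f ε x y ≤ G bot f ε x y' := by
  have h1 := hf.lip (x - ε * y') (x - ε * y)
  have h2 : |x - ε * y' - (x - ε * y)| / ε = y' - y := by
    rw [show x - ε * y' - (x - ε * y) = -(ε * (y' - y)) by ring, abs_neg, abs_mul, abs_of_pos hε,
      abs_of_nonneg (by linarith)]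
    field_simp
  rw [h2] at h1
  have h3 := (abs_le.1 h1).1
  unfold G
  rw [abs_of_nonpos h', abs_of_nonpos (h.trans h')]
  linarith

private theorem G_anti {f : ℝ → ℝ} {ε : ℝ} (hε : 0 < ε)
    (hf : FProp XL xL x3 x1 xR XR ym yp bot top ε f) (x : ℝ) {y y' : ℝ} (h : y ≤ y')
    (h' : 0 ≤ y) : G bot f ε x y' ≤ G bot f ε x y := by
  have h1 := hf.lip (x - ε * y') (x - ε * y)
  have h2 : |x - ε * y' - (x - ε * y)| / ε = y' - y := by
    rw [show x - ε * y' - (x - ε * y) = -(ε * (y' - y)) by ring, abs_neg, abs_mul, abs_of_pos hε,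
      abs_of_nonneg (by linarith)]
    field_simp
  rw [h2] at h1
  have h3 := (abs_le.1 h1).2
  unfold G
  rw [abs_of_nonneg h', abs_of_nonneg (h'.trans h)]
  linarith

private theorem G_mono' {f : ℝ → ℝ} {ε : ℝ} (hε : 0 < ε)
    (hf : FProp XL xL x3 x1 xR XR ym yp bot top ε f) (x : ℝ) {y y' : ℝ} (h : y < y')
    (h' : y' ≤ 0) (hl : xL < x - ε * y) (hr : x - ε * y' < xR) :
    G bot f ε x y < G bot f ε x y' := by
  have h1 := hf.strict (x - ε * y') (x - ε * y) (by nlinarith) hl hr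
  have h2 : (x - ε * y - (x - ε * y')) / ε = y' - y := by
    rw [show x - ε * y - (x - ε * y') = ε * (y' - y) by ring]
    field_simp
  rw [h2] at h1
  have h3 := (abs_lt.1 h1).1
  unfold G
  rw [abs_of_nonpos h', abs_of_nonpos (h.le.trans h')]
  linarith

private theorem G_anti' {f : ℝ → ℝ} {ε : ℝ} (hε : 0 < ε)
    (hf : FProp XL xL x3 x1 xR XR ym yp bot top ε f) (x : ℝ) {y y' : ℝ} (h : y < y')
    (h' : 0 ≤ y) (hl : xL < x - ε * y) (hr : x - ε * y' < xR) :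
    G bot f ε x y' < G bot f ε x y := by
  have h1 := hf.strict (x - ε * y') (x - ε * y) (by nlinarith) hl hr
  have h2 : (x - ε * y - (x - ε * y')) / ε = y' - y := by
    rw [show x - ε * y - (x - ε * y') = ε * (y' - y) by ring]
    field_simp
  rw [h2] at h1
  have h3 := (abs_lt.1 h1).2
  unfold G
  rw [abs_of_nonneg h', abs_of_nonneg (h'.trans h.le)]
  linarith

/-- Left of `xL` the certificate vanishes for `y ≥ 0`. -/
private theorem G_left (hF : FHyp XL xL x3 x1 xR XR ym yp bot top bot' top') {f : ℝ → ℝ} {ε : ℝ}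
    (hε : 0 < ε) (hf : FProp XL xL x3 x1 xR XR ym yp bot top ε f) {x : ℝ}
    (h0 : XL < x) (h1 : x ≤ xL) {y : ℝ} (hy : 0 ≤ y) : G bot f ε x y = 0 := by
  have hb := sgn_left hF h0 h1
  unfold G
  rw [hf.left (x - ε * bot x) (by nlinarith), hf.left (x - ε * y) (by nlinarith),
    abs_of_nonneg hb, abs_of_nonneg hy]
  field_simp
  ring

private theorem G_right (hF : FHyp XL xL x3 x1 xR XR ym yp bot top bot' top') {f : ℝ → ℝ} {ε : ℝ}
    (hε : 0 < ε) (hf : FProp XL xL x3 x1 xR XR ym yp bot top ε f) {x : ℝ}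
    (h0 : x < XR) (h1 : xR ≤ x) {y : ℝ} (hy : y ≤ 0) : G bot f ε x y = 0 := by
  have ht := sgn_right hF h0 h1
  have hb : bot x ≤ 0 := by
    have := hF.ltt x ⟨by linarith [hF.o1, hF.o2, hF.o3, hF.o4], h0⟩
    linarith
  unfold G
  rw [hf.right (x - ε * bot x) (by nlinarith), hf.right (x - ε * y) (by nlinarith),
    abs_of_nonpos hb, abs_of_nonpos hy]
  field_simp
  ring

private theorem G_nonneg (hF : FHyp XL xL x3 x1 xR XR ym yp bot top bot' top') {f : ℝ → ℝ} {ε : ℝ}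
    (hε : 0 < ε) (hf : FProp XL xL x3 x1 xR XR ym yp bot top ε f) {x : ℝ}
    (hx : x ∈ Ioo XL XR) (hx1 : x ∉ Ioo x1 (x1 + ε * (yp - ym)))
    (hx2 : x ∉ Ioo (x3 - ε * (yp - ym)) x3) {y : ℝ} (hy1 : bot x ≤ y) (hy2 : y ≤ top x) :
    0 ≤ G bot f ε x y := by
  rcases le_or_gt x xL with h1 | h1
  · rw [G_left hF hε hf hx.1 h1 ((sgn_left hF hx.1 h1).trans hy1)]
  rcases le_or_gt xR x with h2 | h2
  · rw [G_right hF hε hf hx.2 h2 (hy2.trans (sgn_right hF hx.2 h2))]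
  rcases le_total y 0 with h | h
  · rw [← G_bot bot f ε x]
    exact G_mono hε hf x hy1 h
  · rw [← G_top hf hx hx1 hx2]
    exact G_anti hε hf x hy2 h

private theorem G_nonpos (hF : FHyp XL xL x3 x1 xR XR ym yp bot top bot' top') {f : ℝ → ℝ} {ε : ℝ}
    (hε : 0 < ε) (hf : FProp XL xL x3 x1 xR XR ym yp bot top ε f) {x : ℝ}
    (hx : x ∈ Ioo XL XR) (hx1 : x ∉ Ioo x1 (x1 + ε * (yp - ym)))
    (hx2 : x ∉ Ioo (x3 - ε * (yp - ym)) x3) {y : ℝ} (hy : ¬ (bot x ≤ y ∧ y ≤ top x)) :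
    G bot f ε x y ≤ 0 := by
  rcases le_or_gt x xL with h1 | h1
  · rcases le_total 0 y with h | h
    · rw [G_left hF hε hf hx.1 h1 h]
    · rw [← G_left hF hε hf hx.1 h1 (le_refl 0)]
      exact G_mono hε hf x h (le_refl 0)
  rcases le_or_gt xR x with h2 | h2
  · rcases le_total y 0 with h | h
    · rw [G_right hF hε hf hx.2 h2 h]
    · rw [← G_right hF hε hf hx.2 h2 (le_refl 0)]
      exact G_anti hε hf x h (le_refl 0)
  rcases lt_or_ge y (bot x) with h | h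
  · rw [← G_bot bot f ε x]
    exact G_mono hε hf x h.le (sgn_bot hF h1 h2).le
  · have h' : top x < y := by
      by_contra hc
      exact hy ⟨h, not_lt.1 hc⟩
    rw [← G_top hf hx hx1 hx2]
    exact G_anti hε hf x h'.le (sgn_top hF h1 h2).le

private theorem G_pos (hF : FHyp XL xL x3 x1 xR XR ym yp bot top bot' top') {f : ℝ → ℝ} {ε : ℝ}
    (hε : 0 < ε) (hf : FProp XL xL x3 x1 xR XR ym yp bot top ε f) {x : ℝ}
    (hx : x ∈ Ioo XL XR) (hx1 : x ∉ Ioo x1 (x1 + ε * (yp - ym)))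
    (hx2 : x ∉ Ioo (x3 - ε * (yp - ym)) x3) {y : ℝ} (hy1 : bot x < y) (hy2 : y < top x)
    (hl : xL < x - ε * y) (hr : x - ε * y < xR) : 0 < G bot f ε x y := by
  rcases le_or_gt x xL with h1 | h1
  · exfalso
    have := sgn_left hF hx.1 h1
    nlinarith
  rcases le_or_gt xR x with h2 | h2
  · exfalso
    have := sgn_right hF hx.2 h2
    nlinarith
  rcases le_total y 0 with h | h
  · rw [← G_bot bot f ε x]
    exact G_mono' hε hf x hy1 h (by nlinarith) hr
  · rw [← G_top hf hx hx1 hx2]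
    exact G_anti' hε hf x hy2 h hl (by nlinarith)

private theorem G_neg_right (hF : FHyp XL xL x3 x1 xR XR ym yp bot top bot' top') {f : ℝ → ℝ}
    {ε : ℝ} (hε : 0 < ε) (hf : FProp XL xL x3 x1 xR XR ym yp bot top ε f) {x : ℝ}
    (hx : x ∈ Ioo XL XR) {y : ℝ} (hy : 0 < y) (hr : xR ≤ x - ε * y) : G bot f ε x y < 0 := by
  have h2 : xR ≤ x := by nlinarith
  have ht := sgn_right hF hx.2 h2
  have hb : bot x ≤ 0 := by
    have := hF.ltt x hx
    linarith
  have : G bot f ε x y = - 2 * y := by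
    unfold G
    rw [hf.right (x - ε * bot x) (by nlinarith), hf.right (x - ε * y) hr,
      abs_of_nonpos hb, abs_of_pos hy]
    field_simp
    ring
  rw [this]
  linarith

private theorem G_neg_left (hF : FHyp XL xL x3 x1 xR XR ym yp bot top bot' top') {f : ℝ → ℝ}
    {ε : ℝ} (hε : 0 < ε) (hf : FProp XL xL x3 x1 xR XR ym yp bot top ε f) {x : ℝ}
    (hx : x ∈ Ioo XL XR) {y : ℝ} (hy : y < 0) (hr : x - ε * y ≤ xL) : G bot f ε x y < 0 := by
  have h2 : x ≤ xL := by nlinarith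
  have hb := sgn_left hF hx.1 h2
  have : G bot f ε x y = 2 * y := by
    unfold G
    rw [hf.left (x - ε * bot x) (by nlinarith), hf.left (x - ε * y) hr,
      abs_of_nonneg hb, abs_of_neg hy]
    field_simp
    ring
  rw [this]
  linarith

end pointwise

private theorem null_line (c : ℝ) : volume {z : ℝ × ℝ | z.1 = c} = 0 := by
  have : {z : ℝ × ℝ | z.1 = c} = {c} ×ˢ univ := by
    ext z; simp
  rw [this, Measure.volume_eq_prod, Measure.prod_prod]
  simp

private theorem mem_int_rep {K : Set (ℝ × ℝ)} {a b : ℝ} {lo hi : ℝ → ℝ} (hR : Rep K a b lo hi)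
    {z : ℝ × ℝ} (hz : z ∈ interior K) : lo z.1 < z.2 ∧ z.2 < hi z.1 := by
  have hz' := isOpen_interior.mem_nhds hz
  rw [Metric.mem_nhds_iff] at hz'
  obtain ⟨δ, hδ, hb⟩ := hz'
  have h1 : (z.1, z.2 - δ / 2) ∈ K := by
    apply interior_subset
    apply hb
    rw [Metric.mem_ball, Prod.dist_eq]
    simp only [dist_self, Real.dist_eq]
    rw [show z.2 - δ / 2 - z.2 = -(δ / 2) by ring, abs_neg, abs_of_pos (by linarith)]
    simp only [sup_lt_iff]
    constructor <;> linarith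
  have h2 : (z.1, z.2 + δ / 2) ∈ K := by
    apply interior_subset
    apply hb
    rw [Metric.mem_ball, Prod.dist_eq]
    simp only [dist_self, Real.dist_eq]
    rw [show z.2 + δ / 2 - z.2 = (δ / 2) by ring, abs_of_pos (by linarith)]
    simp only [sup_lt_iff]
    constructor <;> linarith
  have h1' := (hR.mem _ _).1 h1
  have h2' := (hR.mem _ _).1 h2
  constructor
  · linarith [h1'.2.2.1]
  · linarith [h2'.2.2.2]

theorem main_cert {K L : Set (ℝ × ℝ)} {XL xL x3 x1 xR XR ym yp : ℝ} {bot top bot' top' : ℝ → ℝ}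
    (hK : IsCompact K) (hKc : Convex ℝ K) (hR : Rep K XL XR bot top)
    (hF : FHyp XL xL x3 x1 xR XR ym yp bot top bot' top') {ε : ℝ} (hε : 0 < ε) {f : ℝ → ℝ}
    (hf : FProp XL xL x3 x1 xR XR ym yp bot top ε f) (hL : MeasurableSet L)
    (s1 : Same (fun z => z.1) L K) (s2 : Same (fun z => z.1 - ε * z.2) L K)
    (s3 : Same (fun z => z.2) L K)
    (w1 : volume ((K \ L) ∩ {z | x1 < z.1 ∧ z.1 < x1 + ε * (yp - ym)}) = 0)
    (w2 : volume ((K \ L) ∩ {z | x3 - ε * (yp - ym) < z.1 ∧ z.1 < x3}) = 0) :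
    volume ((K \ L) ∩ {z | xL < z.1 - ε * z.2 ∧ z.1 - ε * z.2 < xR}) = 0 ∧
    volume ((L \ K) ∩ {z | xL < z.1 - ε * z.2 ∧ z.1 - ε * z.2 < xR}) = 0 ∧
    volume ((L \ K) ∩ {z | xR ≤ z.1 - ε * z.2 ∧ 0 < z.2}) = 0 ∧
    volume ((L \ K) ∩ {z | z.1 - ε * z.2 ≤ xL ∧ z.2 < 0}) = 0 := by
  classical
  have c1 : Continuous (fun z : ℝ × ℝ => z.1) := continuous_fst
  have c2 : Continuous (fun z : ℝ × ℝ => z.1 - ε * z.2) := by fun_prop
  have c3 : Continuous (fun z : ℝ × ℝ => z.2) := continuous_snd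
  -- `f` is continuous
  have cf : Continuous f := by
    have : LipschitzWith (Real.toNNReal (1 / ε)) f := by
      apply LipschitzWith.of_dist_le_mul
      intro u v
      rw [Real.dist_eq, Real.dist_eq, Real.coe_toNNReal _ (by positivity)]
      have := hf.lip u v
      rw [div_eq_inv_mul] at this
      rwa [one_div]
    exact this.continuous
  have cg : ContinuousOn (fun x => |bot x| - f (x - ε * bot x)) (Icc XL XR) := by
    have := hF.cb
    apply ContinuousOn.sub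
    · exact this.abs
    · exact cf.comp_continuousOn (continuousOn_id.sub (continuousOn_const.mul this))
  set g1 : ℝ → ℝ := (Ioo XL XR).piecewise (fun x => |bot x| - f (x - ε * bot x)) (fun _ => 0)
    with hg1
  have m1 : Measurable g1 :=
    (cg.mono Ioo_subset_Icc_self).measurable_piecewise continuousOn_const measurableSet_Ioo
  -- bounds
  obtain ⟨C1, hC1⟩ : ∃ C1, ∀ x ∈ Icc XL XR, |(|bot x| - f (x - ε * bot x))| ≤ C1 := by
    obtain ⟨C, hC⟩ := isCompact_Icc.exists_bound_of_continuousOn cg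
    exact ⟨C, fun x hx => by simpa [Real.norm_eq_abs] using hC x hx⟩
  obtain ⟨C2, hC2⟩ : ∃ C2, ∀ z ∈ K, |f (z.1 - ε * z.2)| ≤ C2 := by
    obtain ⟨C, hC⟩ := hK.exists_bound_of_continuousOn (cf.comp c2).continuousOn
    exact ⟨C, fun x hx => by simpa [Real.norm_eq_abs] using hC x hx⟩
  obtain ⟨C3, hC3⟩ : ∃ C3, ∀ z ∈ K, |z.2| ≤ C3 := by
    obtain ⟨C, hC⟩ := hK.exists_bound_of_continuousOn c3.continuousOn
    exact ⟨C, fun x hx => by simpa [Real.norm_eq_abs] using hC x hx⟩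
  have hKx : ∀ z ∈ K, z.1 ∈ Icc XL XR := by
    intro z hz
    have := (hR.mem z.1 z.2).1 hz
    exact ⟨this.1, this.2.1⟩
  have hltt : XL < XR := hR.lt
  have hC1' : 0 ≤ C1 := (abs_nonneg _).trans (hC1 XL ⟨le_refl _, hltt.le⟩)
  -- value of the certificate
  have hval : ∀ z : ℝ × ℝ, z.1 ∈ Ioo XL XR →
      g1 z.1 + f (z.1 - ε * z.2) + (fun y => -|y|) z.2 = G bot f ε z.1 z.2 := by
    intro z hz
    rw [hg1, piecewise_eq_of_mem _ _ _ hz]
    unfold G
    ring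
  -- null sets
  have nL : ∀ᵐ z ∂(volume : Measure (ℝ × ℝ)), z.1 ≠ XL := by
    rw [ae_iff]
    simpa using null_line XL
  have nR : ∀ᵐ z ∂(volume : Measure (ℝ × ℝ)), z.1 ≠ XR := by
    rw [ae_iff]
    simpa using null_line XR
  have nF : ∀ᵐ z ∂(volume : Measure (ℝ × ℝ)), z ∉ frontier K := by
    rw [ae_iff]
    simpa using hKc.addHaar_frontier volume
  have w1' : volume ((L \ K) ∩ {z | x1 < z.1 ∧ z.1 < x1 + ε * (yp - ym)}) = 0 :=
    s1.null_symm c1 hK hL (S := Ioo x1 (x1 + ε * (yp - ym))) measurableSet_Ioo w1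
  have w2' : volume ((L \ K) ∩ {z | x3 - ε * (yp - ym) < z.1 ∧ z.1 < x3}) = 0 :=
    s1.null_symm c1 hK hL (S := Ioo (x3 - ε * (yp - ym)) x3) measurableSet_Ioo w2
  have aw1 : ∀ᵐ z ∂(volume : Measure (ℝ × ℝ)),
      z ∉ (K \ L) ∩ {z | x1 < z.1 ∧ z.1 < x1 + ε * (yp - ym)} := by
    rw [ae_iff]; simpa only [not_not, ofPred_mem_eq] using w1
  have aw2 : ∀ᵐ z ∂(volume : Measure (ℝ × ℝ)),
      z ∉ (K \ L) ∩ {z | x3 - ε * (yp - ym) < z.1 ∧ z.1 < x3} := by
    rw [ae_iff]; simpa only [not_not, ofPred_mem_eq] using w2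
  have aw1' : ∀ᵐ z ∂(volume : Measure (ℝ × ℝ)),
      z ∉ (L \ K) ∩ {z | x1 < z.1 ∧ z.1 < x1 + ε * (yp - ym)} := by
    rw [ae_iff]; simpa only [not_not, ofPred_mem_eq] using w1'
  have aw2' : ∀ᵐ z ∂(volume : Measure (ℝ × ℝ)),
      z ∉ (L \ K) ∩ {z | x3 - ε * (yp - ym) < z.1 ∧ z.1 < x3} := by
    rw [ae_iff]; simpa only [not_not, ofPred_mem_eq] using w2'
  have aL : ∀ᵐ z ∂(volume : Measure (ℝ × ℝ)), z ∈ L → z.1 ∈ (fun z : ℝ × ℝ => z.1) '' K :=
    s1.ae_mem c1 hK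
  have key := cert_null hK hL c1 c2 c3 s1 s2 s3 m1 cf.measurable
    (g3 := fun y => -|y|) (by fun_prop) (C := max C1 (max C2 C3))
    (by
      intro z hz
      apply le_max_of_le_left
      simp only [hg1]
      by_cases h : z.1 ∈ Ioo XL XR
      · rw [piecewise_eq_of_mem _ _ _ h]
        exact hC1 _ (hKx z hz)
      · rw [piecewise_eq_of_notMem _ _ _ h]
        simpa using hC1')
    (by
      intro z hz
      exact le_max_of_le_right (le_max_of_le_left (hC2 z hz)))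
    (by
      intro z hz
      apply le_max_of_le_right (le_max_of_le_right _)
      simpa using hC3 z hz)
    (by
      filter_upwards [nL, nR, aw1, aw2] with z h1 h2 h3 h4 hz hzL
      have hx := hKx z hz
      have hx' : z.1 ∈ Ioo XL XR := ⟨lt_of_le_of_ne hx.1 (Ne.symm h1), lt_of_le_of_ne hx.2 h2⟩
      have hm := (hR.mem z.1 z.2).1 hz
      have e := hval z hx'
      simp only at e ⊢
      rw [e]
      exact G_nonneg hF hε hf hx' (fun hc => h3 ⟨⟨hz, hzL⟩, hc⟩) (fun hc => h4 ⟨⟨hz, hzL⟩, hc⟩)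
        hm.2.2.1 hm.2.2.2)
    (by
      filter_upwards [nL, nR, aw1', aw2'] with z h1 h2 h3 h4 hz hzK hx1 _ _
      obtain ⟨w, hw, hwz⟩ := hx1
      have hx := hKx w hw
      simp only at hwz
      rw [hwz] at hx
      have hx' : z.1 ∈ Ioo XL XR := ⟨lt_of_le_of_ne hx.1 (Ne.symm h1), lt_of_le_of_ne hx.2 h2⟩
      have e := hval z hx'
      simp only at e ⊢
      rw [e]
      exact G_nonpos hF hε hf hx' (fun hc => h3 ⟨⟨hz, hzK⟩, hc⟩) (fun hc => h4 ⟨⟨hz, hzK⟩, hc⟩)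
        (fun hc => hzK ((hR.mem z.1 z.2).2 ⟨hx.1, hx.2, hc.1, hc.2⟩)))
  obtain ⟨k1, k2⟩ := key
  have r1 : volume ((K \ L) ∩ {z | xL < z.1 - ε * z.2 ∧ z.1 - ε * z.2 < xR}) = 0 := by
    have : ∀ᵐ z ∂(volume : Measure (ℝ × ℝ)),
        z ∉ (K \ L) ∩ {z | xL < z.1 - ε * z.2 ∧ z.1 - ε * z.2 < xR} := by
      filter_upwards [k1, nL, nR, nF, aw1, aw2] with z h0 h1 h2 h5 h3 h4 hz
      obtain ⟨⟨hz, hzL⟩, hs⟩ := hz
      have hx := hKx z hz
      have hx' : z.1 ∈ Ioo XL XR := ⟨lt_of_le_of_ne hx.1 (Ne.symm h1), lt_of_le_of_ne hx.2 h2⟩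
      have hint : z ∈ interior K := by
        by_contra hc
        exact h5 ⟨subset_closure hz, hc⟩
      have hm := mem_int_rep hR hint
      have e := hval z hx'
      have e0 := h0 hz hzL
      simp only at e e0
      rw [e] at e0
      have := G_pos hF hε hf hx' (fun hc => h3 ⟨⟨hz, hzL⟩, hc⟩) (fun hc => h4 ⟨⟨hz, hzL⟩, hc⟩)
        hm.1 hm.2 hs.1 hs.2
      linarith
    rw [ae_iff] at this
    simpa only [not_not, ofPred_mem_eq] using this
  have hreg : ∀ᵐ z ∂(volume : Measure (ℝ × ℝ)), z ∈ L → z ∉ K →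
      z.1 ∈ Ioo XL XR ∧ G bot f ε z.1 z.2 = 0 := by
    filter_upwards [k2, nL, nR, aL] with z h0 h1 h2 h5 hz hzK
    obtain ⟨w, hw, hwz⟩ := h5 hz
    have hx := hKx w hw
    simp only at hwz
    rw [hwz] at hx
    have hx' : z.1 ∈ Ioo XL XR := ⟨lt_of_le_of_ne hx.1 (Ne.symm h1), lt_of_le_of_ne hx.2 h2⟩
    have e := hval z hx'
    have e0 := h0 hz hzK
    simp only at e e0
    rw [e] at e0
    exact ⟨hx', e0⟩
  refine ⟨r1, s2.null_symm c2 hK hL (S := Ioo xL xR) measurableSet_Ioo r1, ?_, ?_⟩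
  · have : ∀ᵐ z ∂(volume : Measure (ℝ × ℝ)),
        z ∉ (L \ K) ∩ {z | xR ≤ z.1 - ε * z.2 ∧ 0 < z.2} := by
      filter_upwards [hreg] with z h0 hz
      obtain ⟨⟨hz, hzK⟩, hs⟩ := hz
      obtain ⟨hx, h⟩ := h0 hz hzK
      have := G_neg_right hF hε hf hx hs.2 hs.1
      linarith
    rw [ae_iff] at this
    simpa only [not_not, ofPred_mem_eq] using this
  · have : ∀ᵐ z ∂(volume : Measure (ℝ × ℝ)),
        z ∉ (L \ K) ∩ {z | z.1 - ε * z.2 ≤ xL ∧ z.2 < 0} := by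
      filter_upwards [hreg] with z h0 hz
      obtain ⟨⟨hz, hzK⟩, hs⟩ := hz
      obtain ⟨hx, h⟩ := h0 hz hzK
      have := G_neg_left hF hε hf hx hs.2 hs.1
      linarith
    rw [ae_iff] at this
    simpa only [not_not, ofPred_mem_eq] using this

end XR57
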