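import Pool.Agent.W_MP_dd0508_gt.IFS

/-!
The zone dynamics: dense closed chains near the inscribed parallelogram (section 4).
-/

namespace XR57

open Set

/-- Two-sided difference quotient bounds near the two ends. -/
private structure Bd (r l : ℝ → ℝ) (ym yp c a1 a2 A1 A2 b1 b2 B1 B2 : ℝ) : Prop where
  ra : ∀ u v, ym ≤ u → u ≤ v → v ≤ ym + c → a1 * (v - u) ≤ r v - r u ∧ r v - r u ≤ a2 * (v - u)
  rA : ∀ u v, yp - c ≤ u → u ≤ v → v ≤ yp → A1 * (v - u) ≤ r u - r v ∧ r u - r v ≤ A2 * (v - u)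
  lb : ∀ u v, yp - c ≤ u → u ≤ v → v ≤ yp → b1 * (v - u) ≤ l v - l u ∧ l v - l u ≤ b2 * (v - u)
  lB : ∀ u v, ym ≤ u → u ≤ v → v ≤ ym + c → B1 * (v - u) ≤ l u - l v ∧ l u - l v ≤ B2 * (v - u)
  cr : ContinuousOn r (Icc (yp - c) yp)
  cl : ContinuousOn l (Icc ym (ym + c))

private theorem one_map {r l : ℝ → ℝ} {ym yp c c1 s a1 a2 A1 A2 b1 b2 B1 B2 : ℝ}
    (h : Bd r l ym yp c a1 a2 A1 A2 b1 b2 B1 B2)
    (pa1 : 0 < a1) (pa2 : 0 < a2) (pA1 : 0 < A1) (pb1 : 0 < b1) (pb2 : 0 < b2) (pB1 : 0 < B1)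
    (hs : 0 ≤ s) (hr : r ym = r yp + s) (hl : l ym = l yp + s)
    (hc1 : 0 < c1) (hc : c1 ≤ c)
    (h1 : a2 * c1 + s ≤ A1 * c) (h3 : (A1 + b2) * s ≤ (A1 * B1 - a2 * b2) * c1) :
    ∃ R Q : ℝ → ℝ, ∀ z ∈ Icc ym (ym + c1),
      (R z ∈ Icc (yp - c) yp ∧ Q z ∈ Icc ym (ym + c) ∧ r (R z) = r z ∧ l (R z) = l (Q z) ∧
      a1 * (z - ym) + s ≤ A2 * (yp - R z) ∧ A1 * (yp - R z) ≤ a2 * (z - ym) + s ∧
      s + b1 * (yp - R z) ≤ B2 * (Q z - ym) ∧ B1 * (Q z - ym) ≤ s + b2 * (yp - R z)) ∧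
      ∀ z' ∈ Icc ym (ym + c1), z ≤ z' → R z' ≤ R z ∧ Q z ≤ Q z' ∧
        a1 * (z' - z) ≤ A2 * (R z - R z') ∧ A1 * (R z - R z') ≤ a2 * (z' - z) ∧
        b1 * (R z - R z') ≤ B2 * (Q z' - Q z) ∧ B1 * (Q z' - Q z) ≤ b2 * (R z - R z') := by
  have hcp : 0 < c := hc1.trans_le hc
  have key : ∀ z, ∃ y w : ℝ, z ∈ Icc ym (ym + c1) →
      y ∈ Icc (yp - c) yp ∧ w ∈ Icc ym (ym + c) ∧ r y = r z ∧ l y = l w := by
    intro z
    by_cases hz : z ∈ Icc ym (ym + c1)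
    · have e1 := h.ra ym z le_rfl hz.1 (hz.2.trans (by linarith))
      have e2 := h.rA (yp - c) yp le_rfl (by linarith) le_rfl
      have hz0 : 0 ≤ z - ym := by linarith [hz.1]
      have hz1 : z - ym ≤ c1 := by linarith [hz.2]
      have m1 : 0 ≤ a1 * (z - ym) := mul_nonneg pa1.le hz0
      have m2 : a2 * (z - ym) ≤ a2 * c1 := mul_le_mul_of_nonneg_left hz1 pa2.le
      have hmem : r z ∈ Icc (r yp) (r (yp - c)) := by
        constructor
        · linarith [e1.1]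
        · have : A1 * (yp - (yp - c)) = A1 * c := by ring
          linarith [e1.2, e2.1]
      obtain ⟨y, hy, hyr⟩ := intermediate_value_Icc' (by linarith : yp - c ≤ yp) h.cr hmem
      have e3 := h.rA y yp hy.1 hy.2 le_rfl
      have e4 := h.lb y yp hy.1 hy.2 le_rfl
      have e5 := h.lB ym (ym + c) le_rfl (by linarith) le_rfl
      have hyp : 0 ≤ yp - y := by linarith [hy.2]
      have m3 : A1 * (yp - y) ≤ a2 * c1 + s := by linarith [e3.1, e1.2]
      have m4 : 0 ≤ b1 * (yp - y) := mul_nonneg pb1.le hyp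
      have m5 : s + b2 * (yp - y) ≤ B1 * c := by
        have k1 : A1 * (s + b2 * (yp - y)) ≤ A1 * (B1 * c) := by
          have k2 : b2 * (A1 * (yp - y)) ≤ b2 * (a2 * c1 + s) :=
            mul_le_mul_of_nonneg_left m3 pb2.le
          have k3 : A1 * B1 * c1 ≤ A1 * B1 * c :=
            mul_le_mul_of_nonneg_left hc (mul_pos pA1 pB1).le
          linarith
        exact le_of_mul_le_mul_left k1 pA1
      have hmem2 : l y ∈ Icc (l (ym + c)) (l ym) := by
        constructor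
        · have : B1 * (ym + c - ym) = B1 * c := by ring
          linarith [e4.2, e5.1]
        · linarith [e4.1]
      obtain ⟨w, hw, hwl⟩ := intermediate_value_Icc' (by linarith : ym ≤ ym + c) h.cl hmem2
      exact ⟨y, w, fun _ => ⟨hy, hw, hyr, hwl.symm⟩⟩
    · exact ⟨0, 0, fun hz' => absurd hz' hz⟩
  choose R Q hRQ using key
  refine ⟨R, Q, fun z hz => ?_⟩
  obtain ⟨hR, hQ, hr1, hl1⟩ := hRQ z hz
  have e1 := h.ra ym z le_rfl hz.1 (hz.2.trans (by linarith))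
  have e3 := h.rA (R z) yp hR.1 hR.2 le_rfl
  have e4 := h.lb (R z) yp hR.1 hR.2 le_rfl
  have e5 := h.lB ym (Q z) le_rfl hQ.1 hQ.2
  refine ⟨⟨hR, hQ, hr1, hl1, by linarith [e1.1, e3.2], by linarith [e1.2, e3.1],
    by linarith [e4.1, e5.2], by linarith [e4.2, e5.1]⟩, ?_⟩
  intro z' hz' hzz'
  obtain ⟨hR', hQ', hr1', hl1'⟩ := hRQ z' hz'
  have f1 := h.ra z z' hz.1 hzz' (hz'.2.trans (by linarith))
  have f0 : 0 ≤ a1 * (z' - z) := mul_nonneg pa1.le (by linarith)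
  have hRle : R z' ≤ R z := by
    by_contra hlt
    push Not at hlt
    have f2 := h.rA (R z) (R z') hR.1 hlt.le hR'.2
    have f3 : 0 < A1 * (R z' - R z) := mul_pos pA1 (by linarith)
    linarith [f1.1, f2.1]
  have f4 := h.rA (R z') (R z) hR'.1 hRle hR.2
  have f5 := h.lb (R z') (R z) hR'.1 hRle hR.2
  have f6 : 0 ≤ b1 * (R z - R z') := mul_nonneg pb1.le (by linarith)
  have hQle : Q z ≤ Q z' := by
    by_contra hlt
    push Not at hlt
    have f7 := h.lB (Q z') (Q z) hQ'.1 hlt.le hQ.2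
    have f8 : 0 < B1 * (Q z - Q z') := mul_pos pB1 (by linarith)
    linarith [f5.1, f7.1]
  have f9 := h.lB (Q z) (Q z') hQ.1 hQle hQ'.2
  exact ⟨hRle, hQle, by linarith [f1.1, f4.2], by linarith [f1.2, f4.1], by linarith [f5.1, f9.2],
    by linarith [f5.2, f9.1]⟩

/-- Consequences for the composed map. -/
private theorem comp_bounds {a1 a2 A1 A2 b1 b2 B1 B2 dz dR dQ : ℝ}
    (pA1 : 0 < A1) (pA2 : 0 < A2) (pb1 : 0 < b1) (pb2 : 0 < b2) (pB1 : 0 < B1)
    (pB2 : 0 < B2) (q2 : A2 * B2 ≤ 2 * (a1 * b1)) (hdz : 0 ≤ dz)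
    (h1 : a1 * dz ≤ A2 * dR) (h2 : A1 * dR ≤ a2 * dz) (h3 : b1 * dR ≤ B2 * dQ)
    (h4 : B1 * dQ ≤ b2 * dR) : dz ≤ 2 * dQ ∧ dQ ≤ a2 * b2 / (A1 * B1) * dz := by
  constructor
  · have k1 : b1 * (a1 * dz) ≤ b1 * (A2 * dR) := mul_le_mul_of_nonneg_left h1 pb1.le
    have k2 : A2 * (b1 * dR) ≤ A2 * (B2 * dQ) := mul_le_mul_of_nonneg_left h3 pA2.le
    have k3 : A2 * B2 * dz ≤ 2 * (a1 * b1) * dz := mul_le_mul_of_nonneg_right q2 hdz
    have k4 : (A2 * B2) * dz ≤ (A2 * B2) * (2 * dQ) := by linarith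
    exact le_of_mul_le_mul_left k4 (mul_pos pA2 pB2)
  · have k1 : A1 * (B1 * dQ) ≤ A1 * (b2 * dR) := mul_le_mul_of_nonneg_left h4 pA1.le
    have k2 : b2 * (A1 * dR) ≤ b2 * (a2 * dz) := mul_le_mul_of_nonneg_left h2 pb2.le
    have hp : 0 < A1 * B1 := mul_pos pA1 pB1
    rw [div_mul_eq_mul_div, le_div_iff₀ hp]
    linarith

private theorem zone_abs {xl xr : ℝ → ℝ} {ym yp x1 x3 c c1 ε a1 a2 A1 A2 b1 b2 B1 B2 : ℝ}
    (hε : 0 < ε) (hy : ym + c < yp - c)
    (H0 : Bd xr xl ym yp c a1 a2 A1 A2 b1 b2 B1 B2)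
    (Hε : Bd (fun y => xr y - ε * y) (fun y => xl y - ε * y) ym yp c a1 a2 A1 A2 b1 b2 B1 B2)
    (pa1 : 0 < a1) (pa2 : 0 < a2) (pA1 : 0 < A1) (pA2 : 0 < A2) (pb1 : 0 < b1) (pb2 : 0 < b2)
    (pB1 : 0 < B1) (pB2 : 0 < B2)
    (rm : xr ym = x1) (rp : xr yp = x1) (lm : xl ym = x3) (lp : xl yp = x3)
    (hc1 : 0 < c1) (hc : c1 ≤ c)
    (h1 : a2 * c1 + ε * (yp - ym) ≤ A1 * c)
    (h3 : (A1 + b2) * (ε * (yp - ym)) ≤ (A1 * B1 - a2 * b2) * c1)
    (q1 : a2 * b2 < A1 * B1) (q2 : A2 * B2 ≤ 2 * (a1 * b1)) :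
    ∃ η2 y2 : ℝ, ym < η2 ∧ η2 ≤ ym + c1 ∧ y2 < yp ∧ yp - c ≤ y2 ∧ xr y2 = xr η2 ∧
      x1 + ε * (yp - ym) ≤ xr η2 ∧ xl y2 ≤ x3 - ε * (yp - ym) ∧
      ∀ u v, ym ≤ u → u < v → v ≤ η2 → ∃ (N : ℕ) (e η y : ℕ → ℝ), Chain xl xr ε N e η y ∧
        e 0 = 0 ∧ u < η 0 ∧ η 0 < v ∧ y2 ≤ y 0 ∧ (∀ k ≤ N, ym ≤ η k ∧ η k ≤ η2) ∧
        ∀ k < N, yp - c ≤ y k ∧ y k ≤ yp := by
  have hcp : 0 < c := hc1.trans_le hc
  have hℓ : 0 < yp - ym := by linarith
  have hs : 0 < ε * (yp - ym) := mul_pos hε hℓ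
  obtain ⟨R0, Q0, H0'⟩ := one_map (s := 0) H0 pa1 pa2 pA1 pb1 pb2 pB1 le_rfl
    (by rw [rm, rp, add_zero]) (by rw [lm, lp, add_zero]) hc1 hc
    (by linarith) (by
      have : 0 ≤ (A1 * B1 - a2 * b2) * c1 := mul_nonneg (by linarith) hc1.le
      linarith)
  obtain ⟨Re, Qe, He'⟩ := one_map (s := ε * (yp - ym)) Hε pa1 pa2 pA1 pb1 pb2 pB1 hs.le
    (by simp only [rm, rp]; ring) (by simp only [lm, lp]; ring) hc1 hc h1 h3
  set s := ε * (yp - ym) with hsdef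
  set ρ := a2 * b2 / (A1 * B1) with hρdef
  have pAB : 0 < A1 * B1 := mul_pos pA1 pB1
  have pAB2 : 0 < A2 * B2 := mul_pos pA2 pB2
  have hρ0 : 0 ≤ ρ := (div_pos (mul_pos pa2 pb2) pAB).le
  have hρ1 : ρ < 1 := by rw [hρdef, div_lt_one pAB]; exact q1
  -- monotonicity and bounds for the composed maps
  have M0 : ∀ z ∈ Icc ym (ym + c1), ∀ z' ∈ Icc ym (ym + c1), z ≤ z' →
      R0 z' ≤ R0 z ∧ Q0 z ≤ Q0 z' ∧ z' - z ≤ 2 * (Q0 z' - Q0 z) ∧ Q0 z' - Q0 z ≤ ρ * (z' - z) := by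
    intro z hz z' hz' hzz'
    obtain ⟨g1, g2, g3, g4, g5, g6⟩ := (H0' z hz).2 z' hz' hzz'
    obtain ⟨g7, g8⟩ := comp_bounds pA1 pA2 pb1 pb2 pB1 pB2 q2 (by linarith) g3 g4 g5 g6
    exact ⟨g1, g2, g7, g8⟩
  have Me : ∀ z ∈ Icc ym (ym + c1), ∀ z' ∈ Icc ym (ym + c1), z ≤ z' →
      Re z' ≤ Re z ∧ Qe z ≤ Qe z' ∧ z' - z ≤ 2 * (Qe z' - Qe z) ∧ Qe z' - Qe z ≤ ρ * (z' - z) := by
    intro z hz z' hz' hzz'
    obtain ⟨g1, g2, g3, g4, g5, g6⟩ := (He' z hz).2 z' hz' hzz'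
    obtain ⟨g7, g8⟩ := comp_bounds pA1 pA2 pb1 pb2 pB1 pB2 q2 (by linarith) g3 g4 g5 g6
    exact ⟨g1, g2, g7, g8⟩
  have lip_of : ∀ F : ℝ → ℝ, (∀ z ∈ Icc ym (ym + c1), ∀ z' ∈ Icc ym (ym + c1), z ≤ z' →
      F z ≤ F z' ∧ F z' - F z ≤ ρ * (z' - z)) →
      ∀ z ∈ Icc ym (ym + c1), ∀ z' ∈ Icc ym (ym + c1), |F z - F z'| ≤ ρ * |z - z'| := by
    intro F hF z hz z' hz'
    rcases le_total z z' with hle | hle
    · obtain ⟨k1, k2⟩ := hF z hz z' hz' hle
      rw [abs_sub_comm, abs_of_nonneg (by linarith : 0 ≤ F z' - F z), abs_sub_comm z z',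
        abs_of_nonneg (by linarith : 0 ≤ z' - z)]
      exact k2
    · obtain ⟨k1, k2⟩ := hF z' hz' z hz hle
      rw [abs_of_nonneg (by linarith : 0 ≤ F z - F z'), abs_of_nonneg (by linarith : 0 ≤ z - z')]
      exact k2
  have lip0 := lip_of Q0 (fun z hz z' hz' hle => ⟨(M0 z hz z' hz' hle).2.1, (M0 z hz z' hz' hle).2.2.2⟩)
  have lipe := lip_of Qe (fun z hz z' hz' hle => ⟨(Me z hz z' hz' hle).2.1, (Me z hz z' hz' hle).2.2.2⟩)
  have cont_of : ∀ F : ℝ → ℝ, (∀ z ∈ Icc ym (ym + c1), ∀ z' ∈ Icc ym (ym + c1),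
      |F z - F z'| ≤ ρ * |z - z'|) → ContinuousOn F (Icc ym (ym + c1)) := by
    intro F hF
    have : LipschitzOnWith (Real.toNNReal ρ) F (Icc ym (ym + c1)) := by
      refine LipschitzOnWith.of_dist_le_mul fun z hz z' hz' => ?_
      rw [Real.dist_eq, Real.dist_eq, Real.coe_toNNReal _ hρ0]
      exact hF z hz z' hz'
    exact this.continuousOn
  have cont0 := cont_of Q0 lip0
  have conte := cont_of Qe lipe
  -- the end point
  have memm : ym ∈ Icc ym (ym + c1) := ⟨le_rfl, by linarith⟩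
  have memc : ym + c1 ∈ Icc ym (ym + c1) := ⟨by linarith, le_rfl⟩
  obtain ⟨⟨i1, i2, i3, i4, i5, i6, i7, i8⟩, -⟩ := H0' ym memm
  have hR0 : R0 ym = yp := by
    have : A1 * (yp - R0 ym) ≤ 0 := by linarith
    have h2 : 0 ≤ yp - R0 ym := by linarith [i1.2]
    have h4 : yp - R0 ym ≤ 0 := by
      by_contra hn
      push Not at hn
      linarith [mul_pos pA1 hn]
    linarith
  have hQ0 : Q0 ym = ym := by
    rw [hR0] at i8
    have h2 : 0 ≤ Q0 ym - ym := by linarith [i2.1]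
    have h4 : Q0 ym - ym ≤ 0 := by
      by_contra hn
      push Not at hn
      linarith [mul_pos pB1 hn]
    linarith
  obtain ⟨⟨j1, j2, j3, j4, j5, j6, j7, j8⟩, -⟩ := He' ym memm
  have hgl : (A2 + b1) * s ≤ (A2 * B2) * (Qe ym - ym) := by
    have k1 : A2 * (s + b1 * (yp - Re ym)) ≤ A2 * (B2 * (Qe ym - ym)) :=
      mul_le_mul_of_nonneg_left j7 pA2.le
    have k2 : b1 * (a1 * (ym - ym) + s) ≤ b1 * (A2 * (yp - Re ym)) :=
      mul_le_mul_of_nonneg_left j5 pb1.le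
    linarith
  have hgu : (A1 * B1) * (Qe ym - ym) ≤ (A1 + b2) * s := by
    have k1 : A1 * (B1 * (Qe ym - ym)) ≤ A1 * (s + b2 * (yp - Re ym)) :=
      mul_le_mul_of_nonneg_left j8 pA1.le
    have k2 : b2 * (A1 * (yp - Re ym)) ≤ b2 * (a2 * (ym - ym) + s) :=
      mul_le_mul_of_nonneg_left j6 pb2.le
    linarith
  have hgpos : 0 < Qe ym - ym := by
    have k1 : 0 < (A2 + b1) * s := mul_pos (by linarith) hs
    by_contra hn
    push Not at hn
    have : (A2 * B2) * (Qe ym - ym) ≤ 0 := mul_nonpos_of_nonneg_of_nonpos pAB2.le hn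
    linarith
  have hend : Qe (ym + c1) ≤ ym + c1 := by
    have k1 := (Me ym memm (ym + c1) memc (by linarith)).2.2.2
    have k2 : (A1 * B1) * (Qe (ym + c1) - Qe ym) ≤ a2 * b2 * c1 := by
      have : ρ * (ym + c1 - ym) = a2 * b2 * c1 / (A1 * B1) := by rw [hρdef]; ring
      rw [this, le_div_iff₀ pAB] at k1
      linarith
    have k3 : (A1 * B1) * (Qe (ym + c1) - ym) ≤ (A1 * B1) * c1 := by linarith
    have := le_of_mul_le_mul_left k3 pAB
    linarith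
  -- the fixed point
  obtain ⟨η2, hη2, hfix⟩ : ∃ η2 ∈ Icc ym (ym + c1), Qe η2 = η2 := by
    have hc' : ContinuousOn (fun z => Qe z - z) (Icc ym (ym + c1)) := conte.sub continuousOn_id
    obtain ⟨w, hw, hw0⟩ := intermediate_value_Icc' (by linarith : ym ≤ ym + c1) hc'
      (show (0 : ℝ) ∈ Icc _ _ from ⟨by linarith, by linarith⟩)
    exact ⟨w, hw, by simpa [sub_eq_zero] using hw0⟩
  have hη2m : ym < η2 := by
    rcases hη2.1.lt_or_eq with hlt | heq
    · exact hlt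
    · rw [← heq] at hfix
      linarith
  have hη2g : 2 * (Qe ym - ym) ≤ η2 - ym := by
    have := (Me ym memm η2 hη2 hη2.1).2.2.1
    rw [hfix] at this
    linarith
  have hbig : 2 * ((A2 + b1) * s) ≤ (A2 * B2) * (η2 - ym) := by
    have := mul_le_mul_of_nonneg_left hη2g pAB2.le
    linarith
  have hx1 : x1 + s ≤ xr η2 := by
    have k0 := (H0.ra ym η2 le_rfl hη2.1 (hη2.2.trans (by linarith))).1
    have k1 : s ≤ a1 * (η2 - ym) := by
      have k2 : a1 * (2 * ((A2 + b1) * s)) ≤ a1 * ((A2 * B2) * (η2 - ym)) :=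
        mul_le_mul_of_nonneg_left hbig pa1.le
      have k3 : A2 * B2 * s ≤ 2 * (a1 * b1) * s := mul_le_mul_of_nonneg_right q2 hs.le
      have k4 : 0 ≤ a1 * (A2 * s) := mul_nonneg pa1.le (mul_nonneg pA2.le hs.le)
      have k5 : (A2 * B2) * s ≤ (A2 * B2) * (a1 * (η2 - ym)) := by linarith
      exact le_of_mul_le_mul_left k5 pAB2
    linarith
  obtain ⟨⟨n1, n2, n3, n4, n5, n6, n7, n8⟩, -⟩ := H0' η2 hη2
  have hx3b : s ≤ b1 * (yp - R0 η2) := by
    have k1 : b1 * (a1 * (η2 - ym) + 0) ≤ b1 * (A2 * (yp - R0 η2)) :=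
      mul_le_mul_of_nonneg_left n5 pb1.le
    have k2 : A2 * B2 * (η2 - ym) ≤ 2 * (a1 * b1) * (η2 - ym) :=
      mul_le_mul_of_nonneg_right q2 (by linarith)
    have k3 : 0 ≤ b1 * s := mul_nonneg pb1.le hs.le
    have k4 : A2 * s ≤ A2 * (b1 * (yp - R0 η2)) := by linarith
    exact le_of_mul_le_mul_left k4 pA2
  have hx3 : xl (R0 η2) ≤ x3 - s := by
    have k0 := (H0.lb (R0 η2) yp n1.1 n1.2 le_rfl).1
    linarith
  have hy2 : R0 η2 < yp := by
    by_contra hn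
    push Not at hn
    have : b1 * (yp - R0 η2) ≤ 0 := mul_nonpos_of_nonneg_of_nonpos pb1.le (by linarith)
    linarith
  refine ⟨η2, R0 η2, hη2m, hη2.2, hy2, n1.1, n3, hx1, hx3, ?_⟩
  intro u v hu huv hv
  have sub : ∀ z ∈ Icc ym η2, z ∈ Icc ym (ym + c1) := fun z hz => ⟨hz.1, hz.2.trans hη2.2⟩
  obtain ⟨N, i, η, hN, hper, hi0, hu0, hv0, hmem, hstep⟩ :=
    ifs_dense (A := ym) (B := η2) (ρ := ρ) hη2m hρ0 hρ1
      (Q := fun i => if i = true then Qe else Q0)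
      (by
        intro i z hz
        cases i with
        | true =>
          simp only [if_true]
          have k1 := Me z (sub z hz) η2 hη2 hz.2
          rw [hfix] at k1
          exact ⟨((He' z (sub z hz)).1.2.1).1, k1.2.1⟩
        | false =>
          simp only [Bool.false_eq_true, if_false]
          have k1 := (M0 ym memm z (sub z hz) hz.1).2.2.2
          rw [hQ0] at k1
          have k2 : ρ * (z - ym) ≤ 1 * (z - ym) :=
            mul_le_mul_of_nonneg_right hρ1.le (by linarith [hz.1])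
          exact ⟨((H0' z (sub z hz)).1.2.1).1, by linarith [hz.2]⟩)
      (by
        intro i z hz z' hz'
        cases i with
        | true =>
          simp only [if_true]
          exact lipe z (sub z hz) z' (sub z' hz')
        | false =>
          simp only [Bool.false_eq_true, if_false]
          exact lip0 z (sub z hz) z' (sub z' hz'))
      (by
        intro w hw
        rcases le_total w ((ym + η2) / 2) with hle | hle
        · have k1 := (M0 ym memm η2 hη2 hη2.1).2.2.1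
          rw [hQ0] at k1
          obtain ⟨z, hz, hz'⟩ := intermediate_value_Icc hη2m.le (cont0.mono sub)
            (show w ∈ Icc (Q0 ym) (Q0 η2) from ⟨by rw [hQ0]; exact hw.1, by linarith⟩)
          exact ⟨false, z, hz, by simpa using hz'⟩
        · obtain ⟨z, hz, hz'⟩ := intermediate_value_Icc hη2m.le (conte.mono sub)
            (show w ∈ Icc (Qe ym) (Qe η2) from ⟨by linarith, by rw [hfix]; exact hw.2⟩)
          exact ⟨true, z, hz, by simpa using hz'⟩)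
      hu huv hv
  have hηc : ∀ k, η k < yp - c := fun k => by
    have := (hmem k).2
    linarith [hη2.2]
  refine ⟨N, fun k => if i k = true then ε else 0, η,
    fun k => if i k = true then Re (η k) else R0 (η k), ?_, ?_, hu0, hv0, ?_, ?_, ?_⟩
  · refine ⟨hN, hper, ?_, ?_, ?_, ?_, ?_⟩
    · intro k _
      cases i k <;> simp
    · intro k _
      have hk := sub _ (hmem k)
      cases i k with
      | true => simpa using (hηc k).trans_le ((He' (η k) hk).1.1).1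
      | false => simpa using (hηc k).trans_le ((H0' (η k) hk).1.1).1
    · intro k _
      have hk := sub _ (hmem k)
      cases i k with
      | true => simpa using (hηc (k + 1)).trans_le ((He' (η k) hk).1.1).1
      | false => simpa using (hηc (k + 1)).trans_le ((H0' (η k) hk).1.1).1
    · intro k _
      have hk := sub _ (hmem k)
      cases i k with
      | true =>
        simp only [if_true]
        exact (He' (η k) hk).1.2.2.1
      | false =>
        simp only [Bool.false_eq_true, if_false, zero_mul, sub_zero]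
        exact (H0' (η k) hk).1.2.2.1
    · intro k hkN
      have hk := sub _ (hmem k)
      have hs' := hstep k hkN
      cases hi : i k with
      | true =>
        simp only [hi, if_true] at hs' ⊢
        rw [hs']
        exact (He' (η k) hk).1.2.2.2.1
      | false =>
        simp only [hi, Bool.false_eq_true, if_false, zero_mul, sub_zero] at hs' ⊢
        rw [hs']
        exact (H0' (η k) hk).1.2.2.2.1
  · simp [hi0]
  · simp only [hi0, Bool.false_eq_true, if_false]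
    exact (M0 (η 0) (sub _ (hmem 0)) η2 hη2 (hmem 0).2).1
  · intro k _
    exact hmem k
  · intro k _
    have hk := sub _ (hmem k)
    show yp - c ≤ (if i k = true then Re (η k) else R0 (η k)) ∧
      (if i k = true then Re (η k) else R0 (η k)) ≤ yp
    cases i k with
    | true =>
      simp only [if_true]
      exact (He' (η k) hk).1.1
    | false =>
      simp only [Bool.false_eq_true, if_false]
      exact (H0' (η k) hk).1.1

/-- Difference quotients from derivative bounds. -/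
private theorem quot {f f' : ℝ → ℝ} {p q m M : ℝ} (hd : ∀ y ∈ Icc p q, HasDerivAt f (f' y) y)
    (hb : ∀ y ∈ Icc p q, m ≤ f' y ∧ f' y ≤ M) :
    ∀ u v, p ≤ u → u ≤ v → v ≤ q → m * (v - u) ≤ f v - f u ∧ f v - f u ≤ M * (v - u) := by
  intro u v hu huv hv
  rcases huv.lt_or_eq with hlt | heq
  · have hsub : Icc u v ⊆ Icc p q := Icc_subset_Icc hu hv
    obtain ⟨ξ, hξ, hξ'⟩ := exists_hasDerivAt_eq_slope f f' hlt
      (fun y hy => (hd y (hsub hy)).continuousAt.continuousWithinAt)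
      (fun y hy => hd y (hsub (Ioo_subset_Icc_self hy)))
    have hvu : 0 < v - u := by linarith
    have e : f v - f u = f' ξ * (v - u) := by
      rw [hξ', div_mul_cancel₀ _ hvu.ne']
    have hbb := hb ξ (hsub (Ioo_subset_Icc_self hξ))
    rw [e]
    exact ⟨mul_le_mul_of_nonneg_right hbb.1 hvu.le, mul_le_mul_of_nonneg_right hbb.2 hvu.le⟩
  · subst heq
    simp

theorem zone_chains {YL YU ym yp x1 x3 : ℝ} {xl xr xl' xr' : ℝ → ℝ}
    (h1 : YL < ym) (h2 : ym < yp) (h3 : yp < YU)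
    (dl : ∀ y ∈ Ioo YL YU, HasDerivAt xl (xl' y) y) (dr : ∀ y ∈ Ioo YL YU, HasDerivAt xr (xr' y) y)
    (cl : ContinuousOn xl' (Ioo YL YU)) (cr : ContinuousOn xr' (Ioo YL YU))
    (rm : xr ym = x1) (rp : xr yp = x1) (lm : xl ym = x3) (lp : xl yp = x3)
    (a : 0 < xr' ym) (a' : xr' yp < 0) (b : 0 < xl' yp) (b' : xl' ym < 0)
    (q1 : xr' ym * xl' yp < xr' yp * xl' ym) (q2 : xr' yp * xl' ym < 2 * (xr' ym * xl' yp))
    {c : ℝ} (hc : 0 < c) :
    ∃ ε0 > 0, ∀ ε, 0 < ε → ε < ε0 → ∃ η2 y2 : ℝ, ym < η2 ∧ η2 < ym + c ∧ y2 < yp ∧ yp - c < y2 ∧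
      xr y2 = xr η2 ∧ x1 + ε * (yp - ym) ≤ xr η2 ∧ xl y2 ≤ x3 - ε * (yp - ym) ∧
      StrictMonoOn xr (Icc ym η2) ∧ StrictAntiOn xr (Icc y2 yp) ∧ StrictMonoOn xl (Icc y2 yp) ∧
      ∀ u v, ym ≤ u → u < v → v ≤ η2 → ∃ (N : ℕ) (e η y : ℕ → ℝ), Chain xl xr ε N e η y ∧
        e 0 = 0 ∧ u < η 0 ∧ η 0 < v ∧ y2 ≤ y 0 ∧ (∀ k ≤ N, ym ≤ η k ∧ η k ≤ η2) ∧
        ∀ k < N, yp - c < y k ∧ y k ≤ yp := by
  set a0 := xr' ym with ha0
  set A0 := -xr' yp with hA0
  set b0 := xl' yp with hb0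
  set B0 := -xl' ym with hB0
  have pA : 0 < A0 := by linarith
  have pB : 0 < B0 := by linarith
  have hAB : xr' yp * xl' ym = A0 * B0 := by rw [hA0, hB0]; ring
  rw [hAB] at q1 q2
  -- the constant θ
  obtain ⟨θ, ⟨hθ1, hθ2, hθ3⟩, hθ4⟩ : ∃ θ : ℝ, (A0 * B0 < 2 * (θ ^ 4 * (a0 * b0)) ∧
      a0 * b0 < θ ^ 4 * (A0 * B0) ∧ 0 < θ) ∧ θ < 1 := by
    have t1 : Filter.Tendsto (fun θ : ℝ => 2 * (θ ^ 4 * (a0 * b0))) (nhds 1)
        (nhds (2 * (1 ^ 4 * (a0 * b0)))) := by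
      apply Continuous.tendsto
      fun_prop
    have t2 : Filter.Tendsto (fun θ : ℝ => θ ^ 4 * (A0 * B0)) (nhds 1)
        (nhds (1 ^ 4 * (A0 * B0))) := by
      apply Continuous.tendsto
      fun_prop
    have e1 : ∀ᶠ θ : ℝ in nhds 1, A0 * B0 < 2 * (θ ^ 4 * (a0 * b0)) :=
      t1.eventually_const_lt (by linarith)
    have e2 : ∀ᶠ θ : ℝ in nhds 1, a0 * b0 < θ ^ 4 * (A0 * B0) :=
      t2.eventually_const_lt (by linarith)
    have e3 : ∀ᶠ θ : ℝ in nhds 1, 0 < θ := lt_mem_nhds one_pos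
    have e4 := ((e1.and (e2.and e3)).filter_mono nhdsWithin_le_nhds :
      ∀ᶠ θ : ℝ in nhdsWithin 1 (Iio 1), _)
    have e5 : ∀ᶠ θ : ℝ in nhdsWithin 1 (Iio 1), θ < 1 := self_mem_nhdsWithin
    obtain ⟨θ, hθ⟩ := (e4.and e5).exists
    exact ⟨θ, hθ⟩
  have hθi : 1 < 1 / θ := by rw [lt_div_iff₀ hθ3]; linarith
  -- continuity of the derivatives at the two ends
  have mm : Ioo YL YU ∈ nhds ym := Ioo_mem_nhds h1 (h2.trans h3)
  have mp : Ioo YL YU ∈ nhds yp := Ioo_mem_nhds (h1.trans h2) h3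
  have crm : ContinuousAt xr' ym := cr.continuousAt mm
  have crp : ContinuousAt xr' yp := cr.continuousAt mp
  have clm : ContinuousAt xl' ym := cl.continuousAt mm
  have clp : ContinuousAt xl' yp := cl.continuousAt mp
  have E1 : ∀ᶠ y in nhds ym, y ∈ Ioo YL YU ∧ (1 + θ) / 2 * a0 < xr' y ∧ xr' y < a0 * (1 / θ) ∧
      θ * B0 < -xl' y ∧ -xl' y < (1 + 1 / θ) / 2 * B0 := by
    have k1 : (1 + θ) / 2 * a0 < xr' ym := by nlinarith
    have k2 : xr' ym < a0 * (1 / θ) := by nlinarith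
    have k3 : θ * B0 < -xl' ym := by nlinarith
    have k4 : -xl' ym < (1 + 1 / θ) / 2 * B0 := by nlinarith
    exact (Filter.Eventually.and mm ((crm.eventually_const_lt k1).and ((crm.eventually_lt_const k2).and
      ((clm.neg.eventually_const_lt k3).and (clm.neg.eventually_lt_const k4)))))
  have E2 : ∀ᶠ y in nhds yp, y ∈ Ioo YL YU ∧ (1 + θ) / 2 * b0 < xl' y ∧ xl' y < b0 * (1 / θ) ∧
      θ * A0 < -xr' y ∧ -xr' y < (1 + 1 / θ) / 2 * A0 := by
    have k1 : (1 + θ) / 2 * b0 < xl' yp := by nlinarith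
    have k2 : xl' yp < b0 * (1 / θ) := by nlinarith
    have k3 : θ * A0 < -xr' yp := by nlinarith
    have k4 : -xr' yp < (1 + 1 / θ) / 2 * A0 := by nlinarith
    exact (Filter.Eventually.and mp ((clp.eventually_const_lt k1).and ((clp.eventually_lt_const k2).and
      ((crp.neg.eventually_const_lt k3).and (crp.neg.eventually_lt_const k4)))))
  obtain ⟨r1, hr1, H1⟩ := Metric.eventually_nhds_iff.1 E1
  obtain ⟨r2, hr2, H2⟩ := Metric.eventually_nhds_iff.1 E2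
  obtain ⟨d, hd0, hd1, hd2, hd3, hd4⟩ : ∃ d : ℝ, 0 < d ∧ d < r1 ∧ d < r2 ∧ d < c ∧
      ym + d < yp - d := by
    refine ⟨min (min r1 r2) (min c ((yp - ym) / 2)) / 2, ?_, ?_, ?_, ?_, ?_⟩
    · have : 0 < min (min r1 r2) (min c ((yp - ym) / 2)) :=
        lt_min (lt_min hr1 hr2) (lt_min hc (by linarith))
      linarith
    · have k1 : min (min r1 r2) (min c ((yp - ym) / 2)) ≤ r1 :=
        (min_le_left _ _).trans (min_le_left _ _)
      linarith
    · have k1 : min (min r1 r2) (min c ((yp - ym) / 2)) ≤ r2 :=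
        (min_le_left _ _).trans (min_le_right _ _)
      linarith
    · have k1 : min (min r1 r2) (min c ((yp - ym) / 2)) ≤ c :=
        (min_le_right _ _).trans (min_le_left _ _)
      linarith
    · have k1 : min (min r1 r2) (min c ((yp - ym) / 2)) ≤ (yp - ym) / 2 :=
        (min_le_right _ _).trans (min_le_right _ _)
      linarith
  have G1 : ∀ y ∈ Icc ym (ym + d), y ∈ Ioo YL YU ∧ (1 + θ) / 2 * a0 < xr' y ∧
      xr' y < a0 * (1 / θ) ∧ θ * B0 < -xl' y ∧ -xl' y < (1 + 1 / θ) / 2 * B0 := by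
    intro y hy
    refine H1 ?_
    rw [Real.dist_eq, abs_of_nonneg (by linarith [hy.1])]
    linarith [hy.2]
  have G2 : ∀ y ∈ Icc (yp - d) yp, y ∈ Ioo YL YU ∧ (1 + θ) / 2 * b0 < xl' y ∧
      xl' y < b0 * (1 / θ) ∧ θ * A0 < -xr' y ∧ -xr' y < (1 + 1 / θ) / 2 * A0 := by
    intro y hy
    refine H2 ?_
    rw [Real.dist_eq, abs_of_nonpos (by linarith [hy.2])]
    linarith [hy.1]
  -- the bounds for slopes e with 0 ≤ e small
  have BD : ∀ e : ℝ, 0 ≤ e → e ≤ (1 - θ) / 2 * a0 → e ≤ (1 - θ) / 2 * b0 →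
      e ≤ (1 / θ - 1) / 2 * A0 → e ≤ (1 / θ - 1) / 2 * B0 →
      Bd (fun y => xr y - e * y) (fun y => xl y - e * y) ym yp d (θ * a0) (a0 * (1 / θ))
        (θ * A0) (A0 * (1 / θ)) (θ * b0) (b0 * (1 / θ)) (θ * B0) (B0 * (1 / θ)) := by
    intro e he ea eb eA eB
    have dre : ∀ y ∈ Ioo YL YU, HasDerivAt (fun y => xr y - e * y) (xr' y - e) y := by
      intro y hy
      have := (dr y hy).fun_sub ((hasDerivAt_id y).const_mul e)
      simpa using this
    have dle : ∀ y ∈ Ioo YL YU, HasDerivAt (fun y => xl y - e * y) (xl' y - e) y := by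
      intro y hy
      have := (dl y hy).fun_sub ((hasDerivAt_id y).const_mul e)
      simpa using this
    refine ⟨?_, ?_, ?_, ?_, ?_, ?_⟩
    · refine quot (fun y hy => dre y (G1 y hy).1) fun y hy => ?_
      obtain ⟨-, g1, g2, -, -⟩ := G1 y hy
      constructor <;> linarith
    · intro u v hu huv hv
      have := quot (f := fun y => -(xr y - e * y)) (f' := fun y => -(xr' y - e)) (p := yp - d)
        (q := yp) (m := θ * A0) (M := A0 * (1 / θ)) (fun y hy => (dre y (G2 y hy).1).neg)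
        (fun y hy => by
          obtain ⟨-, -, -, g1, g2⟩ := G2 y hy
          constructor <;> linarith) u v hu huv hv
      constructor <;> linarith [this.1, this.2]
    · refine quot (fun y hy => dle y (G2 y hy).1) fun y hy => ?_
      obtain ⟨-, g1, g2, -, -⟩ := G2 y hy
      constructor <;> linarith
    · intro u v hu huv hv
      have := quot (f := fun y => -(xl y - e * y)) (f' := fun y => -(xl' y - e)) (p := ym)
        (q := ym + d) (m := θ * B0) (M := B0 * (1 / θ)) (fun y hy => (dle y (G1 y hy).1).neg)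
        (fun y hy => by
          obtain ⟨-, -, -, g1, g2⟩ := G1 y hy
          constructor <;> linarith) u v hu huv hv
      constructor <;> linarith [this.1, this.2]
    · exact fun y hy => (dre y (G2 y hy).1).continuousAt.continuousWithinAt
    · exact fun y hy => (dle y (G1 y hy).1).continuousAt.continuousWithinAt
  have hθm : 0 < 1 - θ := by linarith
  have hθn : 0 < 1 / θ - 1 := by linarith
  have hθp : 0 < 1 / θ := by linarith
  have BD0 : Bd xr xl ym yp d (θ * a0) (a0 * (1 / θ))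
        (θ * A0) (A0 * (1 / θ)) (θ * b0) (b0 * (1 / θ)) (θ * B0) (B0 * (1 / θ)) := by
    have := BD 0 le_rfl (by positivity) (by positivity) (by positivity) (by positivity)
    simpa using this
  have pt1 : 0 < θ * a0 := mul_pos hθ3 a
  have pt2 : 0 < a0 * (1 / θ) := mul_pos a hθp
  have pt3 : 0 < θ * A0 := mul_pos hθ3 pA
  have pt4 : 0 < A0 * (1 / θ) := mul_pos pA hθp
  have pt5 : 0 < θ * b0 := mul_pos hθ3 b
  have pt6 : 0 < b0 * (1 / θ) := mul_pos b hθp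
  have pt7 : 0 < θ * B0 := mul_pos hθ3 pB
  have pt8 : 0 < B0 * (1 / θ) := mul_pos pB hθp
  have Q1 : a0 * (1 / θ) * (b0 * (1 / θ)) < θ * A0 * (θ * B0) := by
    have e1 : a0 * (1 / θ) * (b0 * (1 / θ)) = a0 * b0 / θ ^ 2 := by field_simp
    rw [e1, div_lt_iff₀ (by positivity)]
    have e2 : θ * A0 * (θ * B0) * θ ^ 2 = θ ^ 4 * (A0 * B0) := by ring
    rw [e2]
    exact hθ2
  have Q2 : A0 * (1 / θ) * (B0 * (1 / θ)) ≤ 2 * (θ * a0 * (θ * b0)) := by
    have e1 : A0 * (1 / θ) * (B0 * (1 / θ)) = A0 * B0 / θ ^ 2 := by field_simp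
    rw [e1, div_le_iff₀ (by positivity)]
    have e2 : 2 * (θ * a0 * (θ * b0)) * θ ^ 2 = 2 * (θ ^ 4 * (a0 * b0)) := by ring
    rw [e2]
    exact hθ1.le
  -- the size c1 of the domain
  obtain ⟨c1, hc10, hc1d, hc1a⟩ : ∃ c1 : ℝ, 0 < c1 ∧ c1 ≤ d ∧
      a0 * (1 / θ) * c1 ≤ θ * A0 * d / 2 := by
    refine ⟨min d (θ * A0 * d / 2 / (a0 * (1 / θ))), ?_, min_le_left _ _, ?_⟩
    · exact lt_min hd0 (by positivity)
    · have k1 : min d (θ * A0 * d / 2 / (a0 * (1 / θ))) ≤ θ * A0 * d / 2 / (a0 * (1 / θ)) :=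
        min_le_right _ _
      rw [le_div_iff₀ pt2] at k1
      linarith
  have hℓ : 0 < yp - ym := by linarith
  set D := θ * A0 * (θ * B0) - a0 * (1 / θ) * (b0 * (1 / θ)) with hD
  have hDp : 0 < D := by linarith
  obtain ⟨ε0, hε0, he1, he2, he3, he4, he5, he6⟩ : ∃ ε0 : ℝ, 0 < ε0 ∧ ε0 ≤ (1 - θ) / 2 * a0 ∧
      ε0 ≤ (1 - θ) / 2 * b0 ∧ ε0 ≤ (1 / θ - 1) / 2 * A0 ∧ ε0 ≤ (1 / θ - 1) / 2 * B0 ∧
      ε0 * (yp - ym) ≤ θ * A0 * d / 2 ∧
      (θ * A0 + b0 * (1 / θ)) * (ε0 * (yp - ym)) ≤ D * c1 := by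
    refine ⟨min (min ((1 - θ) / 2 * a0) ((1 - θ) / 2 * b0))
      (min (min ((1 / θ - 1) / 2 * A0) ((1 / θ - 1) / 2 * B0))
        (min (θ * A0 * d / 2 / (yp - ym)) (D * c1 / (θ * A0 + b0 * (1 / θ)) / (yp - ym)))),
      ?_, ?_, ?_, ?_, ?_, ?_, ?_⟩
    · refine lt_min (lt_min ?_ ?_) (lt_min (lt_min ?_ ?_) (lt_min ?_ ?_)) <;> positivity
    · exact (min_le_left _ _).trans (min_le_left _ _)
    · exact (min_le_left _ _).trans (min_le_right _ _)
    · exact (min_le_right _ _).trans ((min_le_left _ _).trans (min_le_left _ _))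
    · exact (min_le_right _ _).trans ((min_le_left _ _).trans (min_le_right _ _))
    · rw [← le_div_iff₀ hℓ]
      exact (min_le_right _ _).trans ((min_le_right _ _).trans (min_le_left _ _))
    · have hp : 0 < θ * A0 + b0 * (1 / θ) := by linarith
      rw [mul_comm (θ * A0 + b0 * (1 / θ)), ← le_div_iff₀ hp, ← le_div_iff₀ hℓ]
      exact (min_le_right _ _).trans ((min_le_right _ _).trans (min_le_right _ _))
  refine ⟨ε0, hε0, fun ε hε hεlt => ?_⟩
  have hmul : ε * (yp - ym) ≤ ε0 * (yp - ym) := mul_le_mul_of_nonneg_right hεlt.le hℓ.le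
  have hp : 0 < θ * A0 + b0 * (1 / θ) := by linarith
  obtain ⟨η2, y2, z1, z2, z3, z4, z5, z6, z7, z8⟩ := zone_abs (x1 := x1) (x3 := x3) hε hd4 BD0
    (BD ε hε.le (by linarith) (by linarith) (by linarith) (by linarith))
    pt1 pt2 pt3 pt4 pt5 pt6 pt7 pt8 rm rp lm lp hc10 hc1d
    (by linarith)
    ((mul_le_mul_of_nonneg_left hmul hp.le).trans he6) Q1 Q2
  have hd5 : η2 ≤ ym + d := by linarith
  refine ⟨η2, y2, z1, by linarith, z3, by linarith, z5, z6, z7, ?_, ?_, ?_, ?_⟩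
  · intro u hu v hv huv
    have k1 := (BD0.ra u v hu.1 huv.le (hv.2.trans hd5)).1
    have k2 : 0 < θ * a0 * (v - u) := mul_pos pt1 (by linarith)
    linarith
  · intro u hu v hv huv
    have k1 := (BD0.rA u v (z4.trans hu.1) huv.le hv.2).1
    have k2 : 0 < θ * A0 * (v - u) := mul_pos pt3 (by linarith)
    linarith
  · intro u hu v hv huv
    have k1 := (BD0.lb u v (z4.trans hu.1) huv.le hv.2).1
    have k2 : 0 < θ * b0 * (v - u) := mul_pos pt5 (by linarith)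
    linarith
  · intro u v hu huv hv
    obtain ⟨N, e, η, y, w1, w2, w3, w4, w5, w6, w7⟩ := z8 u v hu huv hv
    exact ⟨N, e, η, y, w1, w2, w3, w4, w5, w6, fun k hk => ⟨by linarith [(w7 k hk).1], (w7 k hk).2⟩⟩

end XR57
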