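import Pool.Agent.W_MP_dd0508_gt.ChainCert
import Pool.Agent.W_MP_dd0508_gt.Zone

/-!
Nothing of `K` is missing in the two vertical windows (end of section 4).
-/

namespace XR57

open MeasureTheory Set

/-- A concave function with equal values at `a < b` is at most that value outside `(a, b)`. -/
private theorem ccv_le {f : ℝ → ℝ} {s : Set ℝ} (hf : ConcaveOn ℝ s f) {a b t : ℝ} (ha : a ∈ s)
    (hb : b ∈ s) (ht : t ∈ s) (hab : a < b) (he : f a = f b) (h : f b < f t) : a < t ∧ t < b := by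
  constructor
  · by_contra hle
    have hle : t ≤ a := not_lt.1 hle
    rcases hle.eq_or_lt with h1 | h1
    · subst h1; linarith
    · have := hf.slope_anti_adjacent ht hb h1 hab
      have h2 : (f b - f a) / (b - a) = 0 := by rw [he]; simp
      rw [h2] at this
      have h3 : (f a - f t) / (a - t) < 0 := div_neg_of_neg_of_pos (by linarith) (by linarith)
      linarith
  · by_contra hle
    have hle : b ≤ t := not_lt.1 hle
    rcases hle.eq_or_lt with h1 | h1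
    · subst h1; linarith
    · have := hf.slope_anti_adjacent ha ht hab h1
      have h2 : (f b - f a) / (b - a) = 0 := by rw [he]; simp
      rw [h2] at this
      have h3 : 0 < (f t - f b) / (t - b) := div_pos (by linarith) (by linarith)
      linarith

private theorem cvx_ge {f : ℝ → ℝ} {s : Set ℝ} (hf : ConvexOn ℝ s f) {a b t : ℝ} (ha : a ∈ s)
    (hb : b ∈ s) (ht : t ∈ s) (hab : a < b) (he : f a = f b) (h : f t < f b) : a < t ∧ t < b := by
  have := ccv_le hf.neg ha hb ht hab (by simp [he]) (by simpa using h)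
  exact this

/-- A concave function with equal values at `a < b` is at least that value on `[a, b]`. -/
private theorem ccv_ge {f : ℝ → ℝ} {s : Set ℝ} (hf : ConcaveOn ℝ s f) {a b t : ℝ} (ha : a ∈ s)
    (hb : b ∈ s) (he : f a = f b) (ht : t ∈ Icc a b) : f a ≤ f t := by
  have := hf.min_le_of_mem_Icc ha hb ht
  rw [← he, min_self] at this
  exact this

private theorem cvx_le {f : ℝ → ℝ} {s : Set ℝ} (hf : ConvexOn ℝ s f) {a b t : ℝ} (ha : a ∈ s)
    (hb : b ∈ s) (he : f a = f b) (ht : t ∈ Icc a b) : f t ≤ f a := by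
  have := hf.le_max_of_mem_Icc ha hb ht
  rw [← he, max_self] at this
  exact this

/-- Nullity of `(K \ L) ∩ W` follows from local nullity at the points of the interior of `K`. -/
private theorem null_of_interior {K L W : Set (ℝ × ℝ)} (hK : Convex ℝ K)
    (h : ∀ z ∈ interior K, z ∈ W → ∃ U : Set (ℝ × ℝ), IsOpen U ∧ z ∈ U ∧
      volume ((K \ L) ∩ U) = 0) : volume ((K \ L) ∩ W) = 0 := by
  have h1 : volume ((interior K \ L) ∩ W) = 0 := by
    refine measure_null_of_locally_null _ ?_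
    intro z hz
    obtain ⟨U, hU, hzU, h0⟩ := h z hz.1.1 hz.2
    refine ⟨((interior K \ L) ∩ W) ∩ U, ?_, ?_⟩
    · exact inter_mem_nhdsWithin _ (hU.mem_nhds hzU)
    · refine measure_mono_null ?_ h0
      rintro p ⟨⟨⟨hp, hp'⟩, _⟩, hpU⟩
      exact ⟨⟨interior_subset hp, hp'⟩, hpU⟩
  have h2 : volume (frontier K) = 0 := hK.addHaar_frontier volume
  refine measure_mono_null ?_ (measure_union_null h1 h2)
  rintro p ⟨⟨hp, hp'⟩, hpW⟩
  by_cases hpi : p ∈ interior K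
  · exact Or.inl ⟨⟨hpi, hp'⟩, hpW⟩
  · exact Or.inr ⟨subset_closure hp, hpi⟩

/-- Interior points are strictly inside the level segment. -/
private theorem strict_mem {K : Set (ℝ × ℝ)} {YL YU : ℝ} {xl xr : ℝ → ℝ}
    (hR : Rep (Prod.swap ⁻¹' K) YL YU xl xr) {z : ℝ × ℝ} (hz : z ∈ interior K) :
    YL ≤ z.2 ∧ z.2 ≤ YU ∧ xl z.2 < z.1 ∧ z.1 < xr z.2 := by
  obtain ⟨δ, hδ, hball⟩ := Metric.isOpen_iff.1 isOpen_interior z hz
  have key : ∀ t : ℝ, |t| < δ → (z.1 + t, z.2) ∈ K := by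
    intro t ht
    apply interior_subset
    apply hball
    rw [Metric.mem_ball, Prod.dist_eq]
    simp only [Real.dist_eq, add_sub_cancel_left, sub_self, abs_zero]
    exact max_lt ht hδ
  have h1 := (hR.mem z.2 (z.1 + δ / 2)).1 (key (δ / 2) (by rw [abs_of_pos (by linarith)]; linarith))
  have h2 := (hR.mem z.2 (z.1 + -(δ / 2))).1
    (key (-(δ / 2)) (by rw [abs_neg, abs_of_pos (by linarith)]; linarith))
  exact ⟨h1.1, h1.2.1, by linarith [h2.2.2.1], by linarith [h1.2.2.2]⟩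

theorem windows {K : Set (ℝ × ℝ)} {XL XR YL YU : ℝ} {bot top bot' top' xl xr xl' xr' : ℝ → ℝ}
    {ym yp x3 x1 : ℝ} (h : CoreHyp K XL XR YL YU bot top bot' top' xl xr xl' xr' ym yp x3 x1) :
    ∃ ε0 > 0, ∀ ε, 0 < ε → ε < ε0 → ∀ L : Set (ℝ × ℝ), MeasurableSet L →
      Same (fun z => z.1) L K → Same (fun z => z.1 - ε * z.2) L K → Same (fun z => z.2) L K →
      volume ((K \ L) ∩ {z | x1 < z.1 ∧ z.1 < x1 + ε * (yp - ym)}) = 0 ∧
      volume ((K \ L) ∩ {z | x3 - ε * (yp - ym) < z.1 ∧ z.1 < x3}) = 0 := by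
  have hym0 := h.ym0
  have hyp0 := h.yp0
  have hymL := h.ymL
  have hypU := h.ypU
  have hx31 := h.x31
  have hR := h.repy
  obtain ⟨c, hc, hcy⟩ : ∃ c : ℝ, 0 < c ∧ c < yp - ym := ⟨(yp - ym) / 2, by linarith, by linarith⟩
  obtain ⟨ε1, hε1, hz⟩ := zone_chains (YL := YL) (YU := YU) (ym := ym) (yp := yp) (x1 := x1)
    (x3 := x3) (xl := xl) (xr := xr) (xl' := xl') (xr' := xr') h.ymL (by linarith) h.ypU h.dl h.dr
    h.cl' h.cr' h.rm h.rp h.lm h.lp h.a h.a' h.b h.b' h.q1 h.q2 hc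
  obtain ⟨M, hM0, hML, hMU⟩ : ∃ M : ℝ, 0 < M ∧ -M ≤ YL ∧ YU ≤ M :=
    ⟨max (-YL) YU, lt_max_of_lt_right (by linarith), by
      have := le_max_left (-YL) YU
      linarith, le_max_right _ _⟩
  refine ⟨min ε1 ((x1 - x3) / (4 * M)), lt_min hε1 (div_pos (by linarith) (by linarith)), ?_⟩
  intro ε hε hε0 L hL s1 s2 s3
  have hεM : ε * (4 * M) < x1 - x3 := (lt_div_iff₀ (by linarith)).1 (lt_of_lt_of_le hε0 (min_le_right _ _))
  obtain ⟨η2, y2, hη2, hη2', hy2, hy2', hxe, hxr, hxl, mr, ar, ml, hch⟩ :=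
    hz ε hε (lt_of_lt_of_le hε0 (min_le_left _ _))
  have iym : ym ∈ Icc YL YU := ⟨by linarith, by linarith⟩
  have iyp : yp ∈ Icc YL YU := ⟨by linarith, by linarith⟩
  have hxrge : ∀ t ∈ Icc ym yp, x1 ≤ xr t := fun t ht => by
    have := ccv_ge hR.ccv iym iyp (by rw [h.rm, h.rp]) ht
    rwa [h.rm] at this
  have hxlle : ∀ t ∈ Icc ym yp, xl t ≤ x3 := fun t ht => by
    have := cvx_le hR.cvx iym iyp (by rw [h.lm, h.lp]) ht
    rwa [h.lm] at this
  -- estimates of the shear terms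
  have shear : ∀ e : ℝ, (e = 0 ∨ e = ε) → ∀ s ∈ Icc YL YU, ∀ t ∈ Icc YL YU,
      e * s - e * t ≤ ε * (2 * M) := by
    intro e he s hs t ht
    rcases he with he | he
    · rw [he]; nlinarith
    · rw [he]
      nlinarith [hs.1, hs.2, ht.1, ht.2]
  -- properties of the chains
  have hch' : ∀ u v, ym ≤ u → u < v → v ≤ η2 → ∃ (N : ℕ) (e η y : ℕ → ℝ), Chain xl xr ε N e η y ∧
        e 0 = 0 ∧ u < η 0 ∧ η 0 < v ∧ y2 ≤ y 0 ∧ (∀ k ≤ N, YL ≤ η k) ∧ (∀ k ≤ N, η k ≤ YU) ∧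
        (∀ k < N, y k ∈ Icc ym yp) ∧
        (∀ k < N, ∀ t ∈ Icc YL YU, x1 - ε * (2 * M) ≤ xr (y k) - e k * y k + e k * t) ∧
        (∀ k < N, ∀ t ∈ Icc YL YU, xl (y k) - e k * y k + e k * t ≤ x3 + ε * (2 * M)) := by
    intro u v hu huv hv
    obtain ⟨N, e, η, y, hc1, he0, h1, h2, h3, h4, h5⟩ := hch u v hu huv hv
    have hyI : ∀ k < N, y k ∈ Icc ym yp := fun k hk => ⟨by linarith [(h5 k hk).1], (h5 k hk).2⟩
    have hyI' : ∀ k < N, y k ∈ Icc YL YU := fun k hk =>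
      ⟨by linarith [(hyI k hk).1], by linarith [(hyI k hk).2]⟩
    refine ⟨N, e, η, y, hc1, he0, h1, h2, h3, fun k hk => by linarith [(h4 k hk).1],
      fun k hk => by linarith [(h4 k hk).2], hyI, ?_, ?_⟩
    · intro k hk t ht
      have := shear (e k) (hc1.slope k hk) (y k) (hyI' k hk) t ht
      linarith [hxrge _ (hyI k hk)]
    · intro k hk t ht
      have := shear (e k) (hc1.slope k hk) t ht (y k) (hyI' k hk)
      linarith [hxlle _ (hyI k hk)]
  have hcrη : ContinuousOn xr (Icc ym η2) := hR.chi.mono (Icc_subset_Icc (by linarith) (by linarith))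
  have hη2m : ym ∈ Icc ym η2 := ⟨le_rfl, by linarith⟩
  have hη2r : η2 ∈ Icc ym η2 := ⟨by linarith, le_rfl⟩
  -- solve `xr u = r` on `[ym, η2]`
  have ivr : ∀ r, x1 ≤ r → r ≤ xr η2 → ∃ u ∈ Icc ym η2, xr u = r := by
    intro r h1 h2
    have := intermediate_value_Icc (by linarith : ym ≤ η2) hcrη
    exact this ⟨by rw [h.rm]; exact h1, h2⟩
  constructor
  · -- right window
    refine null_of_interior h.cvx ?_
    rintro z hzi ⟨hz1, hz2⟩
    obtain ⟨hzL, hzU, hzl, hzr⟩ := strict_mem hR hzi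
    obtain ⟨u, hu, hu'⟩ := ivr z.1 hz1.le (by linarith)
    have hmm : z.1 < min (xr η2) (xr z.2) := lt_min (by linarith) hzr
    obtain ⟨v, hv, hv'⟩ := ivr (min (xr η2) (xr z.2)) (by linarith) (min_le_left _ _)
    have huv : u < v := (mr.lt_iff_lt hu hv).1 (by rw [hu', hv']; exact hmm)
    obtain ⟨N, e, η, y, hc1, he0, h1, h2, h3, h4, h4', h5, h6, h7⟩ := hch' u v hu.1 huv hv.2
    have hη0 : η 0 ∈ Icc ym η2 := ⟨by linarith [hu.1], by linarith [hv.2]⟩
    have ha1 : z.1 < xr (η 0) := by rw [← hu']; exact (mr.lt_iff_lt hu hη0).2 h1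
    have ha2 : xr (η 0) < xr z.2 := by
      have : xr (η 0) < xr v := (mr.lt_iff_lt hη0 hv).2 h2
      rw [hv'] at this
      exact lt_of_lt_of_le this (min_le_right _ _)
    have hN := hc1.pos
    have hr0 := hc1.right 0 hN
    rw [he0] at hr0
    simp only [zero_mul, sub_zero] at hr0
    have hlt0 := hc1.lt 0 hN
    have iη0 : η 0 ∈ Icc YL YU := ⟨h4 0 (Nat.zero_le _), h4' 0 (Nat.zero_le _)⟩
    have iy0 : y 0 ∈ Icc YL YU := ⟨by linarith [(h5 0 hN).1], by linarith [(h5 0 hN).2]⟩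
    obtain ⟨hb1, hb2⟩ := ccv_le hR.ccv iη0 iy0 ⟨hzL, hzU⟩ hlt0 hr0.symm (by rw [hr0]; exact ha2)
    refine ⟨_, ?_, ?_, Chain.null_right (k := 0) h.cpt h.cvx hR hc1 (fun k hk => h4 k hk)
      (fun k hk => by linarith [(h5 k hk).2]) ?_ hL s1 s2 s3 hN⟩
    · have : {z : ℝ × ℝ | (∀ j < N, xl (y j) - e j * y j < z.1 - e j * z.2) ∧
          z.1 - e 0 * z.2 < xr (y 0) - e 0 * y 0 ∧ η 0 < z.2 ∧ z.2 < y 0} =
          (⋂ j ∈ Finset.range N, {z : ℝ × ℝ | xl (y j) - e j * y j < z.1 - e j * z.2}) ∩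
          {z : ℝ × ℝ | z.1 - e 0 * z.2 < xr (y 0) - e 0 * y 0 ∧ η 0 < z.2 ∧ z.2 < y 0} := by
        ext p
        simp
      rw [this]
      refine IsOpen.inter ?_ ?_
      · refine isOpen_biInter_finset fun j _ => ?_
        exact isOpen_lt continuous_const (by fun_prop)
      · have o1 : IsOpen {z : ℝ × ℝ | z.1 - e 0 * z.2 < xr (y 0) - e 0 * y 0} :=
          isOpen_lt (by fun_prop) continuous_const
        have o2 : IsOpen {z : ℝ × ℝ | η 0 < z.2} := isOpen_lt continuous_const (by fun_prop)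
        have o3 : IsOpen {z : ℝ × ℝ | z.2 < y 0} := isOpen_lt (by fun_prop) continuous_const
        exact o1.inter (o2.inter o3)
    · refine ⟨?_, ?_, hb1, hb2⟩
      · intro j hj
        have := h7 j hj z.2 ⟨hzL, hzU⟩
        linarith
      · rw [he0]
        simp only [zero_mul, sub_zero]
        rw [hr0]; exact ha1
    · intro p hp k hk j hj hle
      have hp2 := (hR.mem p.2 p.1).1 hp
      have i2 : p.2 ∈ Icc YL YU := ⟨hp2.1, hp2.2.1⟩
      have e1 := h6 k hk p.2 i2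
      have e2 := h7 j hj p.2 i2
      linarith
  · -- left window
    refine null_of_interior h.cvx ?_
    rintro z hzi ⟨hz1, hz2⟩
    obtain ⟨hzL, hzU, hzl, hzr⟩ := strict_mem hR hzi
    have hcly : ContinuousOn xl (Icc y2 yp) :=
      hR.clo.mono (Icc_subset_Icc (by linarith) (by linarith))
    have ivl : ∀ r, xl y2 ≤ r → r ≤ x3 → ∃ u ∈ Icc y2 yp, xl u = r := by
      intro r h1 h2
      have := intermediate_value_Icc (by linarith : y2 ≤ yp) hcly
      exact this ⟨h1, by rw [h.lp]; exact h2⟩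
    have hmm : max (xl y2) (xl z.2) < z.1 := max_lt (by linarith) hzl
    obtain ⟨y', hy', ey'⟩ := ivl (max (xl y2) (xl z.2)) (le_max_left _ _) (by linarith)
    obtain ⟨y'', hy'', ey''⟩ := ivl z.1 (by linarith) hz2.le
    have hyy : y' < y'' := (ml.lt_iff_lt hy' hy'').1 (by rw [ey', ey'']; exact hmm)
    have iy2 : y2 ∈ Icc y2 yp := ⟨le_rfl, by linarith⟩
    have iyp2 : yp ∈ Icc y2 yp := ⟨by linarith, le_rfl⟩
    have hrange : ∀ t ∈ Icc y2 yp, x1 ≤ xr t ∧ xr t ≤ xr η2 := by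
      intro t ht
      constructor
      · rw [← h.rp]; exact ar.antitoneOn ht iyp2 ht.2
      · rw [← hxe]; exact ar.antitoneOn iy2 ht ht.1
    obtain ⟨u, hu, hu'⟩ := ivr (xr y'') (hrange _ hy'').1 (hrange _ hy'').2
    obtain ⟨v, hv, hv'⟩ := ivr (xr y') (hrange _ hy').1 (hrange _ hy').2
    have huv : u < v := (mr.lt_iff_lt hu hv).1 (by rw [hu', hv']; exact ar hy' hy'' hyy)
    obtain ⟨N, e, η, y, hc1, he0, h1, h2, h3, h4, h4', h5, h6, h7⟩ := hch' u v hu.1 huv hv.2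
    have hη0 : η 0 ∈ Icc ym η2 := ⟨by linarith [hu.1], by linarith [hv.2]⟩
    have hN := hc1.pos
    have hr0 := hc1.right 0 hN
    have hl0 := hc1.left 0 hN
    rw [he0] at hr0 hl0
    simp only [zero_mul, sub_zero, zero_add] at hr0 hl0
    have ha1 : xr y'' < xr (y 0) := by rw [← hu', hr0]; exact (mr.lt_iff_lt hu hη0).2 h1
    have ha2 : xr (y 0) < xr y' := by rw [← hv', hr0]; exact (mr.lt_iff_lt hη0 hv).2 h2
    have hy0 : y 0 ∈ Icc y2 yp := ⟨h3, (h5 0 hN).2⟩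
    have hb1 : y 0 < y'' := (ar.lt_iff_gt hy'' hy0).1 ha1
    have hb2 : y' < y 0 := (ar.lt_iff_gt hy0 hy').1 ha2
    have hc2 : xl (y 0) < z.1 := by rw [← ey'']; exact (ml.lt_iff_lt hy0 hy'').2 hb1
    have hc3 : xl z.2 < xl (y 0) := by
      have : xl y' < xl (y 0) := (ml.lt_iff_lt hy' hy0).2 hb2
      rw [ey'] at this
      exact lt_of_le_of_lt (le_max_right _ _) this
    have hlt0 := hc1.lt' 0 hN
    simp only [zero_add] at hlt0
    have iη1 : η 1 ∈ Icc YL YU := ⟨h4 1 hN, h4' 1 hN⟩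
    have iy0 : y 0 ∈ Icc YL YU := ⟨by linarith [(h5 0 hN).1], by linarith [(h5 0 hN).2]⟩
    obtain ⟨hd1, hd2⟩ := cvx_ge hR.cvx iη1 iy0 ⟨hzL, hzU⟩ hlt0 hl0.symm hc3
    refine ⟨_, ?_, ?_, Chain.null_left (k := 0) h.cpt h.cvx hR hc1 (fun k hk => h4 k hk)
      (fun k hk => by linarith [(h5 k hk).2]) ?_ hL s1 s2 s3 hN⟩
    · have : {z : ℝ × ℝ | (∀ j < N, z.1 - e j * z.2 < xr (y j) - e j * y j) ∧
          xl (y 0) - e 0 * y 0 < z.1 - e 0 * z.2 ∧ η (0 + 1) < z.2 ∧ z.2 < y 0} =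
          (⋂ j ∈ Finset.range N, {z : ℝ × ℝ | z.1 - e j * z.2 < xr (y j) - e j * y j}) ∩
          {z : ℝ × ℝ | xl (y 0) - e 0 * y 0 < z.1 - e 0 * z.2 ∧ η (0 + 1) < z.2 ∧ z.2 < y 0} := by
        ext p
        simp
      rw [this]
      refine IsOpen.inter ?_ ?_
      · refine isOpen_biInter_finset fun j _ => ?_
        exact isOpen_lt (by fun_prop) continuous_const
      · have o1 : IsOpen {z : ℝ × ℝ | xl (y 0) - e 0 * y 0 < z.1 - e 0 * z.2} :=
          isOpen_lt continuous_const (by fun_prop)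
        have o2 : IsOpen {z : ℝ × ℝ | η (0 + 1) < z.2} := isOpen_lt continuous_const (by fun_prop)
        have o3 : IsOpen {z : ℝ × ℝ | z.2 < y 0} := isOpen_lt (by fun_prop) continuous_const
        exact o1.inter (o2.inter o3)
    · refine ⟨?_, ?_, hd1, hd2⟩
      · intro j hj
        have := h6 j hj z.2 ⟨hzL, hzU⟩
        linarith
      · rw [he0]
        simp only [zero_mul, sub_zero]
        exact hc2
    · intro p hp k hk j hj hle
      have hp2 := (hR.mem p.2 p.1).1 hp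
      have i2 : p.2 ∈ Icc YL YU := ⟨hp2.1, hp2.2.1⟩
      have e1 := h6 k hk p.2 i2
      have e2 := h7 j hj p.2 i2
      linarith

end XR57
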