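import Pool.Agent.W_MP_dd0508_gt.Marg
import Pool.Agent.W_MP_dd0508_gt.Windows
import Pool.Agent.W_MP_dd0508_gt.FFun
import Pool.Agent.W_MP_dd0508_gt.Sign
import Pool.Agent.W_MP_dd0508_gt.Link
import Pool.Agent.W_MP_dd0508_gt.End

/-!
The core theorem (section 7).
-/

namespace XR57

open MeasureTheory Set

theorem ae_snd_ne_zero : ∀ᵐ z : ℝ × ℝ ∂(volume : Measure (ℝ × ℝ)), z.2 ≠ 0 := by
  rw [ae_iff]
  have e : {z : ℝ × ℝ | ¬ z.2 ≠ 0} = univ ×ˢ {(0 : ℝ)} := by
    ext z; simp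
  rw [e, Measure.volume_eq_prod, Measure.prod_prod]
  simp

theorem exists_small {a b c d e w : ℝ} (ha : 0 < a) (hb : 0 < b) (hc : 0 < c) (hd : 0 < d)
    (he : 0 < e) (hw : 0 < w) : ∃ ε, 0 < ε ∧ ε < a ∧ ε < b ∧ ε * w < c ∧ ε * w < d ∧ ε * w < e := by
  set m := min (min a b) (min (c / w) (min (d / w) (e / w))) with hm
  have hmpos : 0 < m := by
    rw [hm]
    have := div_pos hc hw
    have := div_pos hd hw
    have := div_pos he hw
    simp only [lt_min_iff]
    tauto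
  have h1 : m ≤ a := (min_le_left _ _).trans (min_le_left _ _)
  have h2 : m ≤ b := (min_le_left _ _).trans (min_le_right _ _)
  have h3 : m ≤ c / w := (min_le_right _ _).trans (min_le_left _ _)
  have h4 : m ≤ d / w := (min_le_right _ _).trans ((min_le_right _ _).trans (min_le_left _ _))
  have h5 : m ≤ e / w := (min_le_right _ _).trans ((min_le_right _ _).trans (min_le_right _ _))
  rw [le_div_iff₀ hw] at h3 h4 h5
  refine ⟨m / 2, by linarith, by linarith, by linarith, ?_, ?_, ?_⟩ <;> nlinarith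

theorem core {K : Set (ℝ × ℝ)} {XL XR YL YU : ℝ}
    {bot top bot' top' xl xr xl' xr' : ℝ → ℝ} {ym yp x3 x1 : ℝ}
    (h : CoreHyp K XL XR YL YU bot top bot' top' xl xr xl' xr' ym yp x3 x1) : Verif K := by
  obtain ⟨ε1, hε1, hwin⟩ := windows h
  have hF := h.fhyp
  obtain ⟨ε2, hε2, hfun⟩ := exists_f hF
  set xR := xr 0 with hxR
  set xL := xl 0 with hxL
  have hYL : YL < 0 := h.ymL.trans h.ym0
  have hYU : 0 < YU := h.yp0.trans h.ypU
  have o1 := hF.o1
  have o2 := hF.o2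
  have o3 := hF.o3
  have o4 := hF.o4
  have o5 := hF.o5
  obtain ⟨ε, hε, e1, e2, e3, e4, e5⟩ := exists_small (a := ε1) (b := ε2) (c := (xR - xL) / 2)
    (d := xR - x1) (e := x3 - xL) (w := YU - YL) hε1 hε2 (by linarith) (by linarith) (by linarith)
    (by linarith)
  have hεL : 0 < ε * (-YL) := mul_pos hε (by linarith)
  have hεU : 0 < ε * YU := mul_pos hε hYU
  obtain ⟨f, hf⟩ := hfun ε hε e2
  -- the three functionals
  refine ⟨![LinearMap.fst ℝ ℝ ℝ, LinearMap.fst ℝ ℝ ℝ - ε • LinearMap.snd ℝ ℝ ℝ,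
    LinearMap.snd ℝ ℝ ℝ], ?_, ?_⟩
  · intro i j hij
    apply indep_of_det
    fin_cases i <;> fin_cases j <;> simp [hε.ne'] at hij ⊢
  intro L hL hs
  have s1 : Same (fun z => z.1) L K := hs 0
  have s2 : Same (fun z => z.1 - ε * z.2) L K := by
    have := hs 1
    have e : ((![LinearMap.fst ℝ ℝ ℝ, LinearMap.fst ℝ ℝ ℝ - ε • LinearMap.snd ℝ ℝ ℝ,
      LinearMap.snd ℝ ℝ ℝ] : Fin 3 → ((ℝ × ℝ) →ₗ[ℝ] ℝ)) 1 : ℝ × ℝ → ℝ) =
      fun z => z.1 - ε * z.2 := by
      funext z; simp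
    rw [e] at this
    exact this
  have s3 : Same (fun z => z.2) L K := hs 2
  obtain ⟨w1, w2⟩ := hwin ε hε e1 L hL s1 s2 s3
  obtain ⟨c1, c2, c3, c4⟩ := main_cert h.cpt h.cvx h.repx hF hε hf hL s1 s2 s3 w1 w2
  -- facts about K
  have hKx : ∀ z ∈ K, XL ≤ z.1 ∧ z.1 ≤ XR ∧ bot z.1 ≤ z.2 ∧ z.2 ≤ top z.1 := fun z hz =>
    (h.repx.mem z.1 z.2).1 hz
  have hKy : ∀ z ∈ K, YL ≤ z.2 ∧ z.2 ≤ YU := by
    intro z hz
    have := (h.repy.mem z.2 z.1).1 hz
    exact ⟨this.1, this.2.1⟩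
  have hmem : ∀ x y : ℝ, XL ≤ x → x ≤ XR → bot x ≤ y → y ≤ top x → ((x, y) : ℝ × ℝ) ∈ K :=
    fun x y a b c d => (h.repx.mem x y).2 ⟨a, b, c, d⟩
  have hLy : ∀ᵐ z : ℝ × ℝ ∂(volume : Measure (ℝ × ℝ)), z ∈ L → YL ≤ z.2 ∧ z.2 ≤ YU := by
    have := s3.ae_mem continuous_snd h.cpt
    filter_upwards [this] with z hz hzL
    obtain ⟨w, hw, e⟩ := hz hzL
    rw [← e]
    exact hKy w hw
  have hne := ae_snd_ne_zero
  rw [measure_eq_zero_iff_ae_notMem] at c1 c2 c3 c4
  -- signs of the levels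
  have hKR : ∀ z ∈ K, xR ≤ z.1 - ε * z.2 → z.2 ≤ 0 := by
    intro z hz hw
    obtain ⟨a1, a2, a3, a4⟩ := hKx z hz
    by_contra hcon
    push Not at hcon
    have hz1 : xR < z.1 := by nlinarith
    have h5 := hF.aR ⟨o4.le, o5.le⟩ ⟨(o4.trans hz1).le, a2⟩ hz1
    rw [hF.tR] at h5
    linarith
  have hKL : ∀ z ∈ K, z.1 - ε * z.2 ≤ xL → 0 ≤ z.2 := by
    intro z hz hw
    obtain ⟨a1, a2, a3, a4⟩ := hKx z hz
    by_contra hcon
    push Not at hcon
    have hz1 : z.1 < xL := by nlinarith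
    have h5 := hF.aL ⟨a1, (hz1.trans o2).le⟩ ⟨o1.le, o2.le⟩ hz1
    rw [hF.bL] at h5
    linarith
  have hyy : ∀ z : ℝ × ℝ, YL ≤ z.2 ∧ z.2 ≤ YU → -(ε * (YU - YL)) ≤ ε * z.2 ∧
      ε * z.2 ≤ ε * (YU - YL) := by
    intro z hz
    constructor <;> nlinarith [hz.1, hz.2]
  -- the right part
  have sR1 : Same (fun z => z.1) (L ∩ {z | xR ≤ 1 * (z.1 - ε * z.2)})
      (K ∩ {z | xR ≤ 1 * (z.1 - ε * z.2)}) := by
    refine s1.cut continuous_fst h.cpt hL
      (measurableSet_le measurable_const (by fun_prop)) (B := Ici ((xL + xR) / 2))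
      measurableSet_Ici ?_ ?_
    · filter_upwards [c1] with z hz1 hzK hzL
      have h6 := hyy z (hKy z hzK)
      simp only [mem_ofPred_eq, one_mul, mem_Ici]
      constructor
      · intro h7; linarith
      · intro h7
        by_contra h8
        push Not at h8
        exact hz1 ⟨⟨hzK, hzL⟩, by simp only [mem_ofPred_eq]; exact ⟨by linarith, h8⟩⟩
    · filter_upwards [c2, hLy] with z hz1 hz2 hzL hzK
      have h6 := hyy z (hz2 hzL)
      simp only [mem_ofPred_eq, one_mul, mem_Ici]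
      constructor
      · intro h7; linarith
      · intro h7
        by_contra h8
        push Not at h8
        exact hz1 ⟨⟨hzL, hzK⟩, by simp only [mem_ofPred_eq]; exact ⟨by linarith, h8⟩⟩
  have sR2 : Same (fun z => z.1 - ε * z.2) (L ∩ {z | xR ≤ 1 * (z.1 - ε * z.2)})
      (K ∩ {z | xR ≤ 1 * (z.1 - ε * z.2)}) := by
    refine s2.cut (by fun_prop) h.cpt hL
      (measurableSet_le measurable_const (by fun_prop)) (B := Ici xR) measurableSet_Ici ?_ ?_
    · filter_upwards with z _ _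
      simp
    · filter_upwards with z _ _
      simp
  have sR3 : Same (fun z => z.2) (L ∩ {z | xR ≤ 1 * (z.1 - ε * z.2)})
      (K ∩ {z | xR ≤ 1 * (z.1 - ε * z.2)}) := by
    refine s3.cut continuous_snd h.cpt hL
      (measurableSet_le measurable_const (by fun_prop)) (B := Iic 0) measurableSet_Iic ?_ ?_
    · filter_upwards [c1, hne] with z hz1 hz3 hzK hzL
      simp only [mem_ofPred_eq, one_mul, mem_Iic]
      constructor
      · exact hKR z hzK
      · intro h7
        by_contra h8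
        push Not at h8
        rcases le_or_gt (z.1 - ε * z.2) xL with h9 | h9
        · exact hz3 (le_antisymm h7 (hKL z hzK h9))
        · exact hz1 ⟨⟨hzK, hzL⟩, h9, h8⟩
    · filter_upwards [c2, c3, c4, hne] with z hz1 hz2 hz4 hz3 hzL hzK
      simp only [mem_ofPred_eq, one_mul, mem_Iic]
      constructor
      · intro h7
        by_contra h8
        push Not at h8
        exact hz2 ⟨⟨hzL, hzK⟩, h7, h8⟩
      · intro h7
        by_contra h8
        push Not at h8
        rcases le_or_gt (z.1 - ε * z.2) xL with h9 | h9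
        · exact hz4 ⟨⟨hzL, hzK⟩, h9, lt_of_le_of_ne h7 hz3⟩
        · exact hz1 ⟨⟨hzL, hzK⟩, h9, h8⟩
  -- the left part
  have sL1 : Same (fun z => z.1) (L ∩ {z | -xL ≤ (-1) * (z.1 - ε * z.2)})
      (K ∩ {z | -xL ≤ (-1) * (z.1 - ε * z.2)}) := by
    refine s1.cut continuous_fst h.cpt hL
      (measurableSet_le measurable_const (by fun_prop)) (B := Iic ((xL + xR) / 2))
      measurableSet_Iic ?_ ?_
    · filter_upwards [c1] with z hz1 hzK hzL
      have h6 := hyy z (hKy z hzK)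
      simp only [mem_ofPred_eq, neg_mul, one_mul, mem_Iic, neg_le_neg_iff]
      constructor
      · intro h7; linarith
      · intro h7
        by_contra h8
        push Not at h8
        exact hz1 ⟨⟨hzK, hzL⟩, by simp only [mem_ofPred_eq]; exact ⟨h8, by linarith⟩⟩
    · filter_upwards [c2, hLy] with z hz1 hz2 hzL hzK
      have h6 := hyy z (hz2 hzL)
      simp only [mem_ofPred_eq, neg_mul, one_mul, mem_Iic, neg_le_neg_iff]
      constructor
      · intro h7; linarith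
      · intro h7
        by_contra h8
        push Not at h8
        exact hz1 ⟨⟨hzL, hzK⟩, by simp only [mem_ofPred_eq]; exact ⟨h8, by linarith⟩⟩
  have sL2 : Same (fun z => z.1 - ε * z.2) (L ∩ {z | -xL ≤ (-1) * (z.1 - ε * z.2)})
      (K ∩ {z | -xL ≤ (-1) * (z.1 - ε * z.2)}) := by
    refine s2.cut (by fun_prop) h.cpt hL
      (measurableSet_le measurable_const (by fun_prop)) (B := Iic xL) measurableSet_Iic ?_ ?_
    · filter_upwards with z _ _
      simp only [mem_ofPred_eq, neg_mul, one_mul, mem_Iic, neg_le_neg_iff]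
    · filter_upwards with z _ _
      simp only [mem_ofPred_eq, neg_mul, one_mul, mem_Iic, neg_le_neg_iff]
  have sL3 : Same (fun z => z.2) (L ∩ {z | -xL ≤ (-1) * (z.1 - ε * z.2)})
      (K ∩ {z | -xL ≤ (-1) * (z.1 - ε * z.2)}) := by
    refine s3.cut continuous_snd h.cpt hL
      (measurableSet_le measurable_const (by fun_prop)) (B := Ici 0) measurableSet_Ici ?_ ?_
    · filter_upwards [c1, hne] with z hz1 hz3 hzK hzL
      simp only [mem_ofPred_eq, neg_mul, one_mul, mem_Ici, neg_le_neg_iff]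
      constructor
      · exact hKL z hzK
      · intro h7
        by_contra h8
        push Not at h8
        rcases le_or_gt xR (z.1 - ε * z.2) with h9 | h9
        · exact hz3 (le_antisymm (hKR z hzK h9) h7)
        · exact hz1 ⟨⟨hzK, hzL⟩, h8, h9⟩
    · filter_upwards [c2, c3, c4, hne] with z hz1 hz2 hz4 hz3 hzL hzK
      simp only [mem_ofPred_eq, neg_mul, one_mul, mem_Ici, neg_le_neg_iff]
      constructor
      · intro h7
        by_contra h8
        push Not at h8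
        exact hz4 ⟨⟨hzL, hzK⟩, h7, h8⟩
      · intro h7
        by_contra h8
        push Not at h8
        rcases le_or_gt xR (z.1 - ε * z.2) with h9 | h9
        · exact hz2 ⟨⟨hzL, hzK⟩, h9, lt_of_le_of_ne h7 (Ne.symm hz3)⟩
        · exact hz1 ⟨⟨hzL, hzK⟩, h8, h9⟩
  -- the right corner
  have hbY : ∀ x ∈ Icc XL XR, YL ≤ bot x := fun x hx =>
    (hKy (x, bot x) (hmem x _ hx.1 hx.2 le_rfl (h.repx.le x hx))).1
  have htY : ∀ x ∈ Icc XL XR, top x ≤ YU := fun x hx =>
    (hKy (x, top x) (hmem x _ hx.1 hx.2 (h.repx.le x hx) le_rfl)).2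
  have hβc : ContinuousOn (fun x => x - ε * bot x) (Icc XL XR) :=
    continuousOn_id.sub (h.repx.clo.const_smul ε |>.congr fun x _ => by simp)
  have hsc : ContinuousOn (fun x => x - ε * top x) (Icc XL XR) :=
    continuousOn_id.sub (h.repx.chi.const_smul ε |>.congr fun x _ => by simp)
  have xRm : xR ∈ Icc XL XR := ⟨by linarith, o5.le⟩
  have xLm : xL ∈ Icc XL XR := ⟨o1.le, by linarith⟩
  have hbR : bot xR < 0 := by
    have := h.repx.ltt xR ⟨by linarith, o5⟩
    rw [hF.tR] at this; exact this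
  have htL : 0 < top xL := by
    have := h.repx.ltt xL ⟨o1, by linarith⟩
    rw [hF.bL] at this; exact this
  have endR : (L ∩ {z | xR ≤ 1 * (z.1 - ε * z.2)} : Set (ℝ × ℝ))
      =ᵐ[(volume : Measure (ℝ × ℝ))] (K ∩ {z | xR ≤ 1 * (z.1 - ε * z.2)} : Set (ℝ × ℝ)) := by
    have hTc : IsCompact (Icc XL XR ∩ {x | xR ≤ x - ε * bot x}) := by
      have : IsClosed (Icc XL XR ∩ (fun x => x - ε * bot x) ⁻¹' (Ici xR)) :=
        hβc.preimage_isClosed_of_isClosed isClosed_Icc isClosed_Ici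
      exact isCompact_Icc.of_isClosed_subset this inter_subset_left
    obtain ⟨xA, ⟨hA1, hA2⟩, hA3⟩ := hTc.exists_isLeast
      ⟨xR, xRm, by simp only [mem_ofPred_eq]; nlinarith⟩
    simp only [mem_ofPred_eq] at hA2
    have hle : ∀ x ∈ Icc XL XR, xR ≤ x - ε * bot x → xA ≤ x := fun x hx hx' => hA3 ⟨hx, hx'⟩
    have hA4 : x1 ≤ xA := by
      by_contra h8
      push Not at h8
      have := hbY xA hA1
      nlinarith
    have hXL : XL - ε * bot XL ≤ xR := by
      have := hbY XL ⟨le_rfl, by linarith⟩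
      nlinarith
    have hA5 : xA - ε * bot xA = xR := by
      obtain ⟨x, hx, ex⟩ := intermediate_value_Icc hA1.1
        (hβc.mono (Icc_subset_Icc_right hA1.2)) ⟨hXL, hA2⟩
      simp only at ex
      have := hle x ⟨hx.1, hx.2.trans hA1.2⟩ ex.ge
      have : x = xA := le_antisymm hx.2 this
      rw [← this]; exact ex
    refine corner_end (A := (xA, bot xA)) h.cpt h.cvx h.int hε one_ne_zero
      (hmem xA _ hA1.1 hA1.2 le_rfl (h.repx.le xA hA1)) (by simp only [one_mul]; exact hA5) ?_ ?_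
      hL sR1 sR2 sR3
    · intro z hz hw
      rw [one_mul] at hw
      obtain ⟨a1, a2, a3, a4⟩ := hKx z hz
      have h5 : xA ≤ z.1 := hle z.1 ⟨a1, a2⟩ (by nlinarith)
      have h6 := hF.mR.monotoneOn ⟨hA4, hA1.2⟩ ⟨hA4.trans h5, a2⟩ h5
      simp only [one_mul]
      linarith
    · refine ⟨(XR, top XR), hmem XR _ (by linarith) le_rfl (h.repx.le XR ⟨by linarith, le_rfl⟩)
        le_rfl, ?_⟩
      have := hF.aR ⟨o4.le, o5.le⟩ ⟨by linarith, le_rfl⟩ o5
      rw [hF.tR] at this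
      simp only [one_mul]
      nlinarith
  have endL : (L ∩ {z | -xL ≤ (-1) * (z.1 - ε * z.2)} : Set (ℝ × ℝ))
      =ᵐ[(volume : Measure (ℝ × ℝ))] (K ∩ {z | -xL ≤ (-1) * (z.1 - ε * z.2)} : Set (ℝ × ℝ)) := by
    have hTc : IsCompact (Icc XL XR ∩ {x | x - ε * top x ≤ xL}) := by
      have : IsClosed (Icc XL XR ∩ (fun x => x - ε * top x) ⁻¹' (Iic xL)) :=
        hsc.preimage_isClosed_of_isClosed isClosed_Icc isClosed_Iic
      exact isCompact_Icc.of_isClosed_subset this inter_subset_left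
    obtain ⟨xA, ⟨hA1, hA2⟩, hA3⟩ := hTc.exists_isGreatest
      ⟨xL, xLm, by simp only [mem_ofPred_eq]; nlinarith⟩
    simp only [mem_ofPred_eq] at hA2
    have hle : ∀ x ∈ Icc XL XR, x - ε * top x ≤ xL → x ≤ xA := fun x hx hx' => hA3 ⟨hx, hx'⟩
    have hA4 : xA ≤ x3 := by
      by_contra h8
      push Not at h8
      have := htY xA hA1
      nlinarith
    have hXR : xL ≤ XR - ε * top XR := by
      have := htY XR ⟨by linarith, le_rfl⟩
      nlinarith
    have hA5 : xA - ε * top xA = xL := by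
      obtain ⟨x, hx, ex⟩ := intermediate_value_Icc hA1.2
        (hsc.mono (Icc_subset_Icc_left hA1.1)) ⟨hA2, hXR⟩
      simp only at ex
      have := hle x ⟨hA1.1.trans hx.1, hx.2⟩ ex.le
      have : x = xA := le_antisymm this hx.1
      rw [← this]; exact ex
    refine corner_end (A := (xA, top xA)) h.cpt h.cvx h.int hε (by norm_num)
      (hmem xA _ hA1.1 hA1.2 (h.repx.le xA hA1) le_rfl) (by simp only; rw [hA5]; ring) ?_ ?_
      hL sL1 sL2 sL3
    · intro z hz hw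
      obtain ⟨a1, a2, a3, a4⟩ := hKx z hz
      have h5 : z.1 ≤ xA := hle z.1 ⟨a1, a2⟩ (by nlinarith)
      have h6 := hF.mL.monotoneOn ⟨a1, h5.trans hA4⟩ ⟨hA1.1, hA4⟩ h5
      simp only
      linarith
    · refine ⟨(XL, bot XL), hmem XL _ le_rfl (by linarith) le_rfl
        (h.repx.le XL ⟨le_rfl, by linarith⟩), ?_⟩
      have := hF.aL ⟨le_rfl, by linarith⟩ ⟨o1.le, o2.le⟩ o1
      rw [hF.bL] at this
      simp only
      nlinarith
  -- conclusion
  filter_upwards [c1, c2, endR, endL] with z hz1 hz2 hz3 hz4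
  have hz3' : (z ∈ L ∧ xR ≤ 1 * (z.1 - ε * z.2)) = (z ∈ K ∧ xR ≤ 1 * (z.1 - ε * z.2)) := hz3
  have hz4' : (z ∈ L ∧ -xL ≤ (-1) * (z.1 - ε * z.2)) = (z ∈ K ∧ -xL ≤ (-1) * (z.1 - ε * z.2)) :=
    hz4
  show (z ∈ L) = (z ∈ K)
  simp only [one_mul, neg_mul, neg_le_neg_iff, eq_iff_iff] at hz3' hz4' ⊢
  rcases le_or_gt xR (z.1 - ε * z.2) with h9 | h9
  · constructor
    · intro h5; exact (hz3'.1 ⟨h5, h9⟩).1
    · intro h5; exact (hz3'.2 ⟨h5, h9⟩).1
  · rcases le_or_gt (z.1 - ε * z.2) xL with h8 | h8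
    · constructor
      · intro h5; exact (hz4'.1 ⟨h5, h8⟩).1
      · intro h5; exact (hz4'.2 ⟨h5, h8⟩).1
    · constructor
      · intro h5
        by_contra h6
        exact hz2 ⟨⟨h5, h6⟩, h8, h9⟩
      · intro h5
        by_contra h6
        exact hz1 ⟨⟨h5, h6⟩, h8, h9⟩

end XR57
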