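import Pool.Agent.W_MP_dd0508_gt.Defs

/-!
Two contractions of an interval whose images cover it: periodic orbits are dense, with a prescribed
first map.
-/

namespace XR57

open Set

/-- Composition `Q (ι 0) ∘ … ∘ Q (ι (n-1))`. -/
private noncomputable def ifsW (Q : Bool → ℝ → ℝ) (ι : ℕ → Bool) : ℕ → ℝ → ℝ
  | 0, x => x
  | n + 1, x => ifsW Q ι n (Q (ι n) x)

/-- Forward orbit. -/
private noncomputable def ifsOrb (Q : Bool → ℝ → ℝ) (i : ℕ → Bool) (z : ℝ) : ℕ → ℝ
  | 0 => z
  | n + 1 => Q (i n) (ifsOrb Q i z n)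

theorem ifs_dense {A B ρ : ℝ} (hAB : A < B) (hρ0 : 0 ≤ ρ) (hρ : ρ < 1) {Q : Bool → ℝ → ℝ}
    (maps : ∀ i, ∀ u ∈ Icc A B, Q i u ∈ Icc A B)
    (lip : ∀ i, ∀ u ∈ Icc A B, ∀ v ∈ Icc A B, |Q i u - Q i v| ≤ ρ * |u - v|)
    (cover : ∀ u ∈ Icc A B, ∃ i, ∃ v ∈ Icc A B, Q i v = u)
    {a b : ℝ} (ha : A ≤ a) (hab : a < b) (hb : b ≤ B) :
    ∃ (N : ℕ) (i : ℕ → Bool) (η : ℕ → ℝ), 0 < N ∧ η N = η 0 ∧ i 0 = false ∧ a < η 0 ∧ η 0 < b ∧
      (∀ k, η k ∈ Icc A B) ∧ ∀ k < N, η (k + 1) = Q (i k) (η k) := by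
  choose! s r hr hs using cover
  -- backwards itinerary of the midpoint
  set u : ℝ := (a + b) / 2 with hu
  have huI : u ∈ Icc A B := ⟨by rw [hu]; linarith, by rw [hu]; linarith⟩
  let v : ℕ → ℝ := fun n => r^[n] u
  let ι : ℕ → Bool := fun n => s (v n)
  have hv : ∀ n, v n ∈ Icc A B := by
    intro n
    induction n with
    | zero => simpa [v] using huI
    | succ n ih =>
      have : v (n + 1) = r (v n) := by
        simp only [v, Function.iterate_succ_apply']
      rw [this]
      exact hr _ ih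
  have hvQ : ∀ n, Q (ι n) (v (n + 1)) = v n := by
    intro n
    have : v (n + 1) = r (v n) := by
      simp only [v, Function.iterate_succ_apply']
    rw [this]
    exact hs _ (hv n)
  have hWv : ∀ n, ifsW Q ι n (v n) = u := by
    intro n
    induction n with
    | zero => simp [ifsW, v]
    | succ n ih => simp only [ifsW]; rw [hvQ]; exact ih
  have hWlip : ∀ n, ∀ x ∈ Icc A B, ∀ y ∈ Icc A B,
      |ifsW Q ι n x - ifsW Q ι n y| ≤ ρ ^ n * |x - y| := by
    intro n
    induction n with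
    | zero => intro x _ y _; simp [ifsW]
    | succ n ih =>
      intro x hx y hy
      simp only [ifsW]
      refine (ih _ (maps _ _ hx) _ (maps _ _ hy)).trans ?_
      rw [pow_succ, mul_assoc]
      exact mul_le_mul_of_nonneg_left (lip _ _ hx _ hy) (pow_nonneg hρ0 n)
  have hWm : ∀ n, ∀ x ∈ Icc A B, ifsW Q ι n x ∈ Icc A B := by
    intro n
    induction n with
    | zero => intro x hx; simpa [ifsW] using hx
    | succ n ih => intro x hx; simp only [ifsW]; exact ih _ (maps _ _ hx)
  obtain ⟨n, hn⟩ : ∃ n : ℕ, ρ ^ n * (B - A) < (b - a) / 2 := by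
    have hBA : 0 < B - A := by linarith
    obtain ⟨n, hn⟩ := exists_pow_lt_of_lt_one (show 0 < (b - a) / 2 / (B - A) by
      apply div_pos <;> linarith) hρ
    exact ⟨n, by rwa [lt_div_iff₀ hBA] at hn⟩
  have hWab : ∀ x ∈ Icc A B, a < ifsW Q ι n x ∧ ifsW Q ι n x < b := by
    intro x hx
    have h1 := hWlip n x hx (v n) (hv n)
    rw [hWv] at h1
    have h2 : |x - v n| ≤ B - A := by
      have := hv n
      rw [abs_le]
      constructor <;> linarith [hx.1, hx.2, this.1, this.2]
    have h3 : |ifsW Q ι n x - u| < (b - a) / 2 :=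
      (h1.trans (mul_le_mul_of_nonneg_left h2 (pow_nonneg hρ0 n))).trans_lt hn
    rw [abs_lt] at h3
    constructor <;> linarith [h3.1, h3.2]
  have hcont : ContinuousOn (fun x => ifsW Q ι n (Q false x)) (Icc A B) := by
    have hL : LipschitzOnWith (Real.toNNReal (ρ ^ (n + 1))) (fun x => ifsW Q ι n (Q false x))
        (Icc A B) := by
      refine LipschitzOnWith.of_dist_le_mul fun x hx y hy => ?_
      rw [Real.coe_toNNReal _ (pow_nonneg hρ0 _), Real.dist_eq, Real.dist_eq]
      refine (hWlip n _ (maps _ _ hx) _ (maps _ _ hy)).trans ?_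
      rw [pow_succ, mul_assoc]
      exact mul_le_mul_of_nonneg_left (lip _ _ hx _ hy) (pow_nonneg hρ0 n)
    exact hL.continuousOn
  have hmap : MapsTo (fun x => ifsW Q ι n (Q false x)) (Icc A B) (Icc A B) :=
    fun x hx => hWm n _ (maps _ _ hx)
  obtain ⟨z, hz, hfix⟩ := exists_mem_Icc_isFixedPt_of_mapsTo hcont hAB.le hmap
  have hfix' : ifsW Q ι n (Q false z) = z := hfix
  have hzab := hWab _ (maps false _ hz)
  rw [hfix'] at hzab
  let i : ℕ → Bool := fun k => if k = 0 then false else ι (n - k)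
  have hi0 : i 0 = false := by simp [i]
  have hmem : ∀ k, ifsOrb Q i z k ∈ Icc A B := by
    intro k
    induction k with
    | zero => simpa [ifsOrb] using hz
    | succ k ih => simp only [ifsOrb]; exact maps _ _ ih
  have hstep : ∀ j ≤ n, ifsW Q ι (n - j) (ifsOrb Q i z (j + 1)) = z := by
    intro j
    induction j with
    | zero =>
      intro _
      simp only [ifsOrb, hi0, Nat.sub_zero]
      exact hfix'
    | succ j ih =>
      intro hj
      have h1 := ih (by omega)
      have h2 : n - j = (n - (j + 1)) + 1 := by omega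
      rw [h2] at h1
      simp only [ifsW] at h1
      have h3 : ι (n - (j + 1)) = i (j + 1) := by simp [i]
      rw [h3] at h1
      exact h1
  refine ⟨n + 1, i, ifsOrb Q i z, Nat.succ_pos _, ?_, hi0, hzab.1, hzab.2, hmem, ?_⟩
  · have := hstep n le_rfl
    simpa [ifsW, ifsOrb] using this
  · intro k _
    rfl

end XR57
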