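import Pool.Agent.W_MP_dd0508_gt.Defs

/-!
Solving `f (s x) = f (β x) + E x` from right to left with control of the Lipschitz constant.
-/

namespace XR57

open Set

private theorem rec_aux {A B : ℝ} (hAB : A ≤ B) {s β E : ℝ → ℝ} (hs : ContinuousOn s (Icc A B))
    (hs' : StrictMonoOn s (Icc A B)) {c : ℝ} (hc : 0 < c) (hβ : ∀ x ∈ Icc A B, s x + c ≤ β x)
    {M : ℕ → ℝ} (hM : Monotone M) (hM0 : 0 ≤ M 0)
    (step : ∀ n, ∀ x ∈ Icc A B, ∀ x' ∈ Icc A B, x ≤ x' →
      M n * |β x - β x'| + |E x - E x'| ≤ M (n + 1) * (s x' - s x))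
    {f0 : ℝ → ℝ} (h0 : ∀ u, s B ≤ u → ∀ v, s B ≤ v → |f0 u - f0 v| ≤ M 0 * |u - v|)
    (h00 : f0 (s B) = f0 (β B) + E B) (n : ℕ) :
    ∃ f : ℝ → ℝ, (∀ w, s B ≤ w → f w = f0 w) ∧
      (∀ x ∈ Icc A B, s B - n * c ≤ s x → f (s x) = f (β x) + E x) ∧
      ∀ u, s A ≤ u → s B - n * c ≤ u → ∀ v, s A ≤ v → s B - n * c ≤ v →
        |f u - f v| ≤ M n * |u - v| := by
  classical
  have hA : A ∈ Icc A B := ⟨le_rfl, hAB⟩
  have hB : B ∈ Icc A B := ⟨hAB, le_rfl⟩
  have sAB : s A ≤ s B := hs'.monotoneOn hA hB hAB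
  have hMn : ∀ n, 0 ≤ M n := fun n => hM0.trans (hM (Nat.zero_le n))
  induction n with
  | zero =>
    refine ⟨f0, fun _ _ => rfl, ?_, ?_⟩
    · intro x hx h
      have h1 : s B ≤ s x := by simpa using h
      have h2 : x = B := by
        rcases lt_or_eq_of_le hx.2 with h3 | h3
        · exact absurd (hs' hx hB h3) (not_lt.2 h1)
        · exact h3
      rw [h2]; exact h00
    · intro u _ hu v _ hv
      exact h0 u (by simpa using hu) v (by simpa using hv)
  | succ n ih =>
    obtain ⟨f, f1, f2, f3⟩ := ih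
    have hcast : ((n + 1 : ℕ) : ℝ) = (n : ℝ) + 1 := by push_cast; ring
    have hncB : s B - (n : ℝ) * c ≤ s B := by
      have : 0 ≤ (n : ℝ) * c := by positivity
      linarith
    -- the threshold
    set a : ℝ := max (s A) (s B - n * c) with ha
    have haA : s A ≤ a := le_max_left _ _
    have haB' : s B - n * c ≤ a := le_max_right _ _
    have haB : a ≤ s B := max_le sAB hncB
    -- inverse of s
    have hinv : ∀ w, s A ≤ w → w ≤ s B → ∃ x ∈ Icc A B, s x = w := by
      intro w h1 h2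
      exact (intermediate_value_Icc hAB hs) ⟨h1, h2⟩
    have hβa : ∀ x ∈ Icc A B, s B - ((n + 1 : ℕ) : ℝ) * c ≤ s x → a ≤ β x := by
      intro x hx h
      have h1 := hβ x hx
      have h2 : s A ≤ s x := hs'.monotoneOn hA hx hx.1
      rw [hcast] at h
      apply max_le
      · linarith
      · nlinarith
    -- new function
    let g : ℝ → ℝ := fun w => if a ≤ w then f w else
      if h : ∃ x ∈ Icc A B, s x = w then f (β h.choose) + E h.choose else 0
    have g1 : ∀ w, a ≤ w → g w = f w := fun w hw => by simp only [g, if_pos hw]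
    have g2 : ∀ x ∈ Icc A B, s x < a → g (s x) = f (β x) + E x := by
      intro x hx h
      have hex : ∃ y ∈ Icc A B, s y = s x := ⟨x, hx, rfl⟩
      have hch : hex.choose = x := hs'.injOn hex.choose_spec.1 hx hex.choose_spec.2
      simp only [g, if_neg (not_le.2 h), dif_pos hex, hch]
    -- on the whole interval [a', a] the formula holds
    have g3 : ∀ x ∈ Icc A B, s x ≤ a → g (s x) = f (β x) + E x := by
      intro x hx h
      rcases lt_or_eq_of_le h with h | h
      · exact g2 x hx h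
      · rw [g1 _ h.ge]
        exact f2 x hx (by rw [h]; exact haB')
    have key : ∀ x ∈ Icc A B, ∀ x' ∈ Icc A B, x ≤ x' → s B - ((n + 1 : ℕ) : ℝ) * c ≤ s x →
        s x' ≤ a → |g (s x) - g (s x')| ≤ M (n + 1) * (s x' - s x) := by
      intro x hx x' hx' hxx h1 h2
      have hmono : s x ≤ s x' := hs'.monotoneOn hx hx' hxx
      rw [g3 x hx (hmono.trans h2), g3 x' hx' h2]
      have b1 := hβa x hx h1
      have b2 := hβa x' hx' (h1.trans hmono)
      have l1 : |f (β x) - f (β x')| ≤ M n * |β x - β x'| :=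
        f3 _ (haA.trans b1) (haB'.trans b1) _ (haA.trans b2) (haB'.trans b2)
      have l2 : |f (β x) + E x - (f (β x') + E x')| ≤ |f (β x) - f (β x')| + |E x - E x'| := by
        have : f (β x) + E x - (f (β x') + E x') = (f (β x) - f (β x')) + (E x - E x') := by ring
        rw [this]; exact abs_add_le _ _
      have l3 := step n x hx x' hx' hxx
      linarith
    have lip : ∀ u, s A ≤ u → s B - ((n + 1 : ℕ) : ℝ) * c ≤ u → ∀ v, u ≤ v →
        |g u - g v| ≤ M (n + 1) * (v - u) := by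
      intro u hu1 hu2 v huv
      have hMM : M n ≤ M (n + 1) := hM (Nat.le_succ n)
      have upper : ∀ p, a ≤ p → ∀ r, p ≤ r → |g p - g r| ≤ M (n + 1) * (r - p) := by
        intro p hp r hr
        rw [g1 p hp, g1 r (hp.trans hr)]
        have := f3 p (haA.trans hp) (haB'.trans hp) r (haA.trans (hp.trans hr))
          (haB'.trans (hp.trans hr))
        have e : |p - r| = r - p := by rw [abs_sub_comm]; exact abs_of_nonneg (by linarith)
        rw [e] at this
        exact this.trans (mul_le_mul_of_nonneg_right hMM (by linarith))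
      rcases le_total a u with h | h
      · exact upper u h v huv
      · obtain ⟨x, hx, rfl⟩ := hinv u hu1 (h.trans haB)
        rcases le_total v a with h' | h'
        · obtain ⟨x', hx', rfl⟩ := hinv v (hu1.trans huv) (h'.trans haB)
          have hxx : x ≤ x' := (hs'.le_iff_le hx hx').1 huv
          exact key x hx x' hx' hxx hu2 h'
        · obtain ⟨x', hx', hx'a⟩ := hinv a haA haB
          have hxx : x ≤ x' := (hs'.le_iff_le hx hx').1 (by rw [hx'a]; exact h)
          have k1 := key x hx x' hx' hxx hu2 hx'a.le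
          rw [hx'a] at k1
          have k2 := upper a le_rfl v h'
          have k3 : |g (s x) - g v| ≤ |g (s x) - g a| + |g a - g v| := abs_sub_le _ _ _
          nlinarith
    refine ⟨g, ?_, ?_, ?_⟩
    · intro w hw
      rw [g1 w (haB.trans hw), f1 w hw]
    · intro x hx h
      have hb := hβa x hx h
      rw [g1 (β x) hb]
      rcases le_total a (s x) with h' | h'
      · rw [g1 _ h']
        exact f2 x hx (haB'.trans h')
      · exact g3 x hx h'
    · intro u hu1 hu2 v hv1 hv2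
      rcases le_total u v with h | h
      · have := lip u hu1 hu2 v h
        rwa [abs_sub_comm u v, abs_of_nonneg (sub_nonneg.2 h)]
      · have := lip v hv1 hv2 u h
        rw [abs_sub_comm (g u), abs_of_nonneg (sub_nonneg.2 h)]
        exact this

theorem rec_solve {A B : ℝ} (hAB : A ≤ B) {s β E : ℝ → ℝ} (hs : ContinuousOn s (Icc A B))
    (hs' : StrictMonoOn s (Icc A B)) {c : ℝ} (hc : 0 < c) (hβ : ∀ x ∈ Icc A B, s x + c ≤ β x)
    {M : ℕ → ℝ} (hM : Monotone M) (hM0 : 0 ≤ M 0)
    (step : ∀ n, ∀ x ∈ Icc A B, ∀ x' ∈ Icc A B, x ≤ x' →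
      M n * |β x - β x'| + |E x - E x'| ≤ M (n + 1) * (s x' - s x))
    {f0 : ℝ → ℝ} (h0 : ∀ u, s B ≤ u → ∀ v, s B ≤ v → |f0 u - f0 v| ≤ M 0 * |u - v|)
    (h00 : f0 (s B) = f0 (β B) + E B) (N : ℕ) (hN : s B - N * c ≤ s A) :
    ∃ f : ℝ → ℝ, (∀ w, s B ≤ w → f w = f0 w) ∧ (∀ x ∈ Icc A B, f (s x) = f (β x) + E x) ∧
      ∀ u, s A ≤ u → ∀ v, s A ≤ v → |f u - f v| ≤ M N * |u - v| := by
  have hA : A ∈ Icc A B := ⟨le_rfl, hAB⟩
  obtain ⟨f, f1, f2, f3⟩ := rec_aux hAB hs hs' hc hβ hM hM0 step h0 h00 N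
  refine ⟨f, f1, fun x hx => f2 x hx (hN.trans (hs'.monotoneOn hA hx hx.1)), ?_⟩
  intro u hu v hv
  exact f3 u hu (hN.trans hu) v hv (hN.trans hv)

end XR57
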