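import Pool.Agent.W_MP_dd0508_gt.Defs

/-!
Existence of the representation of a convex body by its lower and upper boundary functions.
-/

namespace XR57

open Set

/-- The lower boundary function of a compact convex planar set. -/
private theorem lower_ex {K : Set (ℝ × ℝ)} (hc : IsCompact K) (hK : Convex ℝ K)
    {a b : ℝ} (hD : Prod.fst '' K = Icc a b) :
    ∃ lo : ℝ → ℝ, (∀ x ∈ Icc a b, (x, lo x) ∈ K ∧ ∀ y, (x, y) ∈ K → lo x ≤ y) ∧
      ConvexOn ℝ (Icc a b) lo ∧ ContinuousOn lo (Icc a b) := by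
  classical
  have hsec : ∀ x ∈ Icc a b, ∃ y, (x, y) ∈ K ∧ ∀ y', (x, y') ∈ K → y ≤ y' := by
    intro x hx
    have hcl : IsClosed {z : ℝ × ℝ | z.1 = x} := isClosed_eq continuous_fst continuous_const
    have hcc : IsCompact (K ∩ {z : ℝ × ℝ | z.1 = x}) := hc.inter_right hcl
    have hne : (K ∩ {z : ℝ × ℝ | z.1 = x}).Nonempty := by
      rw [← hD] at hx
      obtain ⟨z, hz, rfl⟩ := hx
      exact ⟨z, hz, rfl⟩
    obtain ⟨z, hz, hmin⟩ := hcc.exists_isMinOn hne continuous_snd.continuousOn
    refine ⟨z.2, ?_, ?_⟩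
    · have h1 : z.1 = x := hz.2
      have : z = (x, z.2) := by rw [← h1]
      rw [← this]; exact hz.1
    · intro y' hy'
      exact hmin (show (x, y') ∈ _ from ⟨hy', rfl⟩)
  choose! lo h1 h2 using hsec
  have hcv : ConvexOn ℝ (Icc a b) lo := by
    refine ⟨convex_Icc a b, ?_⟩
    intro x hx y hy s t hs ht hst
    have hm : s • x + t • y ∈ Icc a b := convex_Icc a b hx hy hs ht hst
    apply h2 _ hm
    have := hK (h1 x hx) (h1 y hy) hs ht hst
    simpa using this
  refine ⟨lo, fun x hx => ⟨h1 x hx, h2 x hx⟩, hcv, ?_⟩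
  intro x0 hx0
  have hax0 := hx0.1
  have hx0b := hx0.2
  have hbnd : ∃ C : ℝ, 0 ≤ C ∧ ∀ x ∈ Icc a b, lo x ≤ lo x0 + C * |x - x0| := by
    have hA : 0 ≤ |lo b - lo x0| / (b - x0) := div_nonneg (abs_nonneg _) (by linarith)
    have hB : 0 ≤ |lo a - lo x0| / (x0 - a) := div_nonneg (abs_nonneg _) (by linarith)
    refine ⟨|lo b - lo x0| / (b - x0) + |lo a - lo x0| / (x0 - a), add_nonneg hA hB, ?_⟩
    intro x hx
    rcases lt_trichotomy x x0 with hlt | heq | hgt
    · have ha : a < x0 := lt_of_le_of_lt hx.1 hlt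
      have hd : 0 < x0 - a := by linarith
      have habs : |x - x0| = x0 - x := by rw [abs_sub_comm, abs_of_pos (by linarith)]
      have hs : 0 ≤ (x0 - x) / (x0 - a) := div_nonneg (by linarith) hd.le
      have ht : 0 ≤ (x - a) / (x0 - a) := div_nonneg (by linarith [hx.1]) hd.le
      have hst : (x0 - x) / (x0 - a) + (x - a) / (x0 - a) = 1 := by field_simp; ring
      have haI : a ∈ Icc a b := ⟨le_rfl, by linarith⟩
      have key := hcv.2 haI hx0 hs ht hst
      have hxe : ((x0 - x) / (x0 - a)) • a + ((x - a) / (x0 - a)) • x0 = x := by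
        simp only [smul_eq_mul]; field_simp; ring
      rw [hxe] at key
      simp only [smul_eq_mul] at key
      have e2 : (x - a) / (x0 - a) = 1 - (x0 - x) / (x0 - a) := by linarith
      rw [e2] at key
      have e3 : (x0 - x) / (x0 - a) * (lo a - lo x0) ≤ |lo a - lo x0| / (x0 - a) * (x0 - x) := by
        rw [div_mul_eq_mul_div, div_mul_eq_mul_div]
        apply div_le_div_of_nonneg_right _ hd.le
        rw [mul_comm]
        exact mul_le_mul_of_nonneg_right (le_abs_self _) (by linarith)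
      have e4 : 0 ≤ |lo b - lo x0| / (b - x0) * (x0 - x) := mul_nonneg hA (by linarith)
      rw [habs]
      nlinarith
    · rw [heq]; simp
    · have hb : x0 < b := lt_of_lt_of_le hgt hx.2
      have hd : 0 < b - x0 := by linarith
      have habs : |x - x0| = x - x0 := abs_of_pos (by linarith)
      have hs : 0 ≤ (x - x0) / (b - x0) := div_nonneg (by linarith) hd.le
      have ht : 0 ≤ (b - x) / (b - x0) := div_nonneg (by linarith [hx.2]) hd.le
      have hst : (b - x) / (b - x0) + (x - x0) / (b - x0) = 1 := by field_simp; ring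
      have hbI : b ∈ Icc a b := ⟨by linarith, le_rfl⟩
      have key := hcv.2 hx0 hbI ht hs hst
      have hxe : ((b - x) / (b - x0)) • x0 + ((x - x0) / (b - x0)) • b = x := by
        simp only [smul_eq_mul]; field_simp; ring
      rw [hxe] at key
      simp only [smul_eq_mul] at key
      have e2 : (b - x) / (b - x0) = 1 - (x - x0) / (b - x0) := by linarith
      rw [e2] at key
      have e3 : (x - x0) / (b - x0) * (lo b - lo x0) ≤ |lo b - lo x0| / (b - x0) * (x - x0) := by
        rw [div_mul_eq_mul_div, div_mul_eq_mul_div]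
        apply div_le_div_of_nonneg_right _ hd.le
        rw [mul_comm]
        exact mul_le_mul_of_nonneg_right (le_abs_self _) (by linarith)
      have e4 : 0 ≤ |lo a - lo x0| / (x0 - a) * (x - x0) := mul_nonneg hB (by linarith)
      rw [habs]
      nlinarith
  obtain ⟨C, hC, hb⟩ := hbnd
  unfold ContinuousWithinAt
  rw [tendsto_order]
  constructor
  · intro c hcx
    have hT : IsClosed (Prod.fst '' (K ∩ {z : ℝ × ℝ | z.2 ≤ c})) :=
      ((hc.inter_right (isClosed_le continuous_snd continuous_const)).image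
        continuous_fst).isClosed
    have hx0T : x0 ∈ (Prod.fst '' (K ∩ {z : ℝ × ℝ | z.2 ≤ c}))ᶜ := by
      rintro ⟨z, ⟨hz, hzc⟩, rfl⟩
      have := h2 z.1 hx0 z.2 hz
      have hzc' : z.2 ≤ c := hzc
      linarith
    have hn := hT.isOpen_compl.mem_nhds hx0T
    filter_upwards [mem_nhdsWithin_of_mem_nhds hn, self_mem_nhdsWithin] with x hx hxI
    by_contra hle
    exact hx ⟨(x, lo x), ⟨h1 x hxI, not_lt.mp hle⟩, rfl⟩
  · intro c hcx
    have ht : Filter.Tendsto (fun x => lo x0 + C * |x - x0|) (nhdsWithin x0 (Icc a b))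
        (nhds (lo x0 + C * |x0 - x0|)) := by
      apply Filter.Tendsto.mono_left _ nhdsWithin_le_nhds
      exact (Continuous.tendsto (by fun_prop) x0)
    have ht' : lo x0 + C * |x0 - x0| < c := by simpa using hcx
    filter_upwards [ht.eventually (gt_mem_nhds ht'), self_mem_nhdsWithin] with x hx hxI
    exact lt_of_le_of_lt (hb x hxI) hx

theorem exists_rep {K : Set (ℝ × ℝ)} (hc : IsCompact K) (hK : Convex ℝ K)
    (hi : (interior K).Nonempty) : ∃ (a b : ℝ) (lo hi : ℝ → ℝ), Rep K a b lo hi := by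
  obtain ⟨z0, hz0⟩ := hi
  have hz0K : z0 ∈ K := interior_subset hz0
  have hDc : IsCompact (Prod.fst '' K) := hc.image continuous_fst
  have hDv : Convex ℝ (Prod.fst '' K) := by
    have := hK.linear_image (LinearMap.fst ℝ ℝ ℝ)
    simpa using this
  have hDn : (Prod.fst '' K).Nonempty := ⟨z0.1, z0, hz0K, rfl⟩
  have hconn : IsConnected (Prod.fst '' K) := ⟨hDn, hDv.isPreconnected⟩
  obtain ⟨a, b, hD⟩ : ∃ a b, Prod.fst '' K = Icc a b :=
    ⟨_, _, eq_Icc_of_connected_compact hconn hDc⟩
  -- an interior square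
  obtain ⟨ε, hε, hball⟩ := Metric.isOpen_iff.mp isOpen_interior z0 hz0
  have hsq : ∀ u v : ℝ, |u| < ε → |v| < ε → (z0.1 + u, z0.2 + v) ∈ K := by
    intro u v hu hv
    apply interior_subset
    apply hball
    rw [Metric.mem_ball, Prod.dist_eq]
    apply max_lt
    · simpa [Real.dist_eq] using hu
    · simpa [Real.dist_eq] using hv
  have hp : |ε / 2| < ε := by rw [abs_of_pos (by linarith)]; linarith
  have hn : |-(ε / 2)| < ε := by rw [abs_neg]; exact hp
  have h0 : |(0 : ℝ)| < ε := by simpa using hε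
  have hxr : z0.1 + ε / 2 ∈ Icc a b := by rw [← hD]; exact ⟨_, hsq _ 0 hp h0, rfl⟩
  have hxl : z0.1 + -(ε / 2) ∈ Icc a b := by rw [← hD]; exact ⟨_, hsq _ 0 hn h0, rfl⟩
  have hab : a < b := by have := hxr.2; have := hxl.1; linarith
  obtain ⟨lo, hlo, hcv, hcl⟩ := lower_ex hc hK hD
  -- the reflected body
  let e : (ℝ × ℝ) →ₗ[ℝ] (ℝ × ℝ) := LinearMap.prodMap LinearMap.id (-LinearMap.id)
  have he : ∀ z : ℝ × ℝ, e z = (z.1, -z.2) := fun z => rfl
  have hcont : Continuous (fun z : ℝ × ℝ => e z) := by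
    have : (fun z : ℝ × ℝ => e z) = fun z => (z.1, -z.2) := funext he
    rw [this]; fun_prop
  have hc' : IsCompact ((fun z => e z) '' K) := hc.image hcont
  have hK' : Convex ℝ ((fun z => e z) '' K) := hK.linear_image e
  have hD' : Prod.fst '' ((fun z => e z) '' K) = Icc a b := by
    rw [← hD, image_image]
    rfl
  obtain ⟨hi', hhi, hcv', hcl'⟩ := lower_ex hc' hK' hD'
  have hmemhi : ∀ x ∈ Icc a b, (x, -hi' x) ∈ K := by
    intro x hx
    obtain ⟨z, hz, hze⟩ := (hhi x hx).1
    have h1 : z.1 = x := congrArg Prod.fst hze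
    have h2 : -z.2 = hi' x := congrArg Prod.snd hze
    have : (x, -hi' x) = z := by rw [← h2, ← h1]; simp
    rw [this]; exact hz
  have hlehi : ∀ x ∈ Icc a b, ∀ y, (x, y) ∈ K → y ≤ -hi' x := by
    intro x hx y hy
    have := (hhi x hx).2 (-y) ⟨(x, y), hy, rfl⟩
    linarith
  have hccv : ConcaveOn ℝ (Icc a b) (fun x => -hi' x) := hcv'.neg
  have hle : ∀ x ∈ Icc a b, lo x ≤ -hi' x := fun x hx => hlehi x hx _ (hlo x hx).1
  refine ⟨a, b, lo, fun x => -hi' x, hab, ?_, hcv, hccv, hcl, hcl'.neg, hle, ?_⟩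
  · intro x y
    constructor
    · intro hxy
      have hx : x ∈ Icc a b := by rw [← hD]; exact ⟨_, hxy, rfl⟩
      exact ⟨hx.1, hx.2, (hlo x hx).2 y hxy, hlehi x hx y hxy⟩
    · rintro ⟨h1, h2, h3, h4⟩
      have hx : x ∈ Icc a b := ⟨h1, h2⟩
      have hm1 := (hlo x hx).1
      have hm2 := hmemhi x hx
      rcases eq_or_lt_of_le (hle x hx) with heq | hlt
      · have : y = lo x := le_antisymm (by rw [heq]; exact h4) h3
        rw [this]; exact hm1
      · have hd : 0 < -hi' x - lo x := by linarith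
        have hs : 0 ≤ (-hi' x - y) / (-hi' x - lo x) := div_nonneg (by linarith) hd.le
        have ht : 0 ≤ (y - lo x) / (-hi' x - lo x) := div_nonneg (by linarith) hd.le
        have hst : (-hi' x - y) / (-hi' x - lo x) + (y - lo x) / (-hi' x - lo x) = 1 := by
          rw [← add_div]; rw [div_eq_one_iff_eq hd.ne']; ring
        have key := hK hm1 hm2 hs ht hst
        have hfin : ((-hi' x - y) / (-hi' x - lo x)) • (x, lo x) +
            ((y - lo x) / (-hi' x - lo x)) • (x, -hi' x) = (x, y) := by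
          ext
          · simp only [Prod.smul_mk, smul_eq_mul, Prod.mk_add_mk]
            rw [← add_mul, hst, one_mul]
          · simp only [Prod.smul_mk, smul_eq_mul, Prod.mk_add_mk]
            have hne : -hi' x - lo x ≠ 0 := hd.ne'
            field_simp
            ring
        rw [hfin] at key
        exact key
  · intro x hx
    have hx0 : z0.1 ∈ Icc a b := by rw [← hD]; exact ⟨z0, hz0K, rfl⟩
    have hgap : lo z0.1 < -hi' z0.1 := by
      have h1 := (hlo _ hx0).2 (z0.2 + -(ε / 2)) (by simpa using hsq 0 _ h0 hn)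
      have h2 := hlehi _ hx0 (z0.2 + ε / 2) (by simpa using hsq 0 _ h0 hp)
      linarith
    rcases lt_trichotomy x z0.1 with hlt | heq | hgt
    · -- x between a and z0.1
      have hd : 0 < z0.1 - a := by linarith [hx.1]
      have hs : 0 ≤ (z0.1 - x) / (z0.1 - a) := div_nonneg (by linarith) hd.le
      have ht : 0 < (x - a) / (z0.1 - a) := div_pos (by linarith [hx.1]) hd
      have hst : (z0.1 - x) / (z0.1 - a) + (x - a) / (z0.1 - a) = 1 := by field_simp; ring
      have haI : a ∈ Icc a b := ⟨le_rfl, hab.le⟩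
      have k1 := hcv.2 haI hx0 hs ht.le hst
      have k2 := hccv.2 haI hx0 hs ht.le hst
      have hxe : ((z0.1 - x) / (z0.1 - a)) • a + ((x - a) / (z0.1 - a)) • z0.1 = x := by
        simp only [smul_eq_mul]; field_simp; ring
      rw [hxe] at k1 k2
      simp only [smul_eq_mul] at k1 k2
      have k3 := mul_le_mul_of_nonneg_left (hle a haI) hs
      have k4 := mul_lt_mul_of_pos_left hgap ht
      linarith
    · rw [heq]; exact hgap
    · have hd : 0 < b - z0.1 := by linarith [hx.2]
      have hs : 0 ≤ (x - z0.1) / (b - z0.1) := div_nonneg (by linarith) hd.le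
      have ht : 0 < (b - x) / (b - z0.1) := div_pos (by linarith [hx.2]) hd
      have hst : (b - x) / (b - z0.1) + (x - z0.1) / (b - z0.1) = 1 := by field_simp; ring
      have hbI : b ∈ Icc a b := ⟨hab.le, le_rfl⟩
      have k1 := hcv.2 hx0 hbI ht.le hs hst
      have k2 := hccv.2 hx0 hbI ht.le hs hst
      have hxe : ((b - x) / (b - z0.1)) • z0.1 + ((x - z0.1) / (b - z0.1)) • b = x := by
        simp only [smul_eq_mul]; field_simp; ring
      rw [hxe] at k1 k2
      simp only [smul_eq_mul] at k1 k2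
      have k3 := mul_le_mul_of_nonneg_left (hle b hbI) hs
      have k4 := mul_lt_mul_of_pos_left hgap ht
      linarith

end XR57
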