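import Pool.Agent.W_MP_dd0508_gt.Rec

/-!
The right part of the function `f` (section 5).
-/

namespace XR57

open Set

theorem right_part {x1 xR : ℝ} (h : x1 < xR) {top bot : ℝ → ℝ}
    (ct : ContinuousOn top (Icc x1 xR)) (cb : ContinuousOn bot (Icc x1 xR))
    (mt : StrictAntiOn top (Icc x1 xR)) (mb : StrictMonoOn bot (Icc x1 xR))
    {M : ℝ} (hM : ∀ u ∈ Icc x1 xR, ∀ v ∈ Icc x1 xR, u ≤ v → bot v - bot u ≤ M * (v - u))
    (h0 : top xR = 0) (hlt : ∀ x ∈ Icc x1 xR, bot x < top x) :
    ∃ ε0 > 0, ∀ ε, 0 < ε → ε < ε0 → ∃ f : ℝ → ℝ,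
      (∀ u v, x1 - ε * top x1 ≤ u → x1 - ε * top x1 ≤ v → |f u - f v| ≤ |u - v| / ε) ∧
      (∀ u v, x1 - ε * top x1 ≤ u → u < v → u < xR → |f u - f v| < (v - u) / ε) ∧
      (∀ w, xR ≤ w → f w = w / ε) ∧
      (∀ x ∈ Icc x1 xR, f (x - ε * top x) - f (x - ε * bot x) = top x + bot x) := by
  have hA : x1 ∈ Icc x1 xR := ⟨le_rfl, h.le⟩
  have hB : xR ∈ Icc x1 xR := ⟨h.le, le_rfl⟩
  have hMpos : 0 < M := by
    have h1 := hM x1 hA xR hB h.le
    have h2 := mb hA hB h
    by_contra hcon
    push Not at hcon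
    nlinarith [mul_nonneg_of_nonpos_of_nonpos hcon (by linarith : x1 - xR ≤ 0)]
  obtain ⟨z, hz, hzmin⟩ := isCompact_Icc.exists_isMinOn ⟨x1, hA⟩ (ct.sub cb)
  have hd : 0 < top z - bot z := by have := hlt z hz; linarith
  have hdle : ∀ x ∈ Icc x1 xR, top z - bot z ≤ top x - bot x := fun x hx => hzmin hx
  refine ⟨1 / M, by positivity, ?_⟩
  intro ε hε hεM
  have hεM' : ε * M ≤ 1 := by
    rw [lt_div_iff₀ hMpos] at hεM; exact hεM.le
  set s : ℝ → ℝ := fun x => x - ε * top x with hs_def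
  set β : ℝ → ℝ := fun x => x - ε * bot x with hβ_def
  set E : ℝ → ℝ := fun x => top x + bot x with hE_def
  have sc : ContinuousOn s (Icc x1 xR) := continuousOn_id.sub (ct.const_smul ε |>.congr
    (fun x _ => by simp [smul_eq_mul]))
  have sm : StrictMonoOn s (Icc x1 xR) := by
    intro x hx y hy hxy
    have := mt hx hy hxy
    simp only [hs_def]
    nlinarith
  have hc : 0 < ε * (top z - bot z) := by positivity
  have hβ : ∀ x ∈ Icc x1 xR, s x + ε * (top z - bot z) ≤ β x := by
    intro x hx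
    have := hdle x hx
    simp only [hs_def, hβ_def]
    nlinarith
  -- monotonicity data
  have dt : ∀ x ∈ Icc x1 xR, ∀ x' ∈ Icc x1 xR, x ≤ x' → 0 ≤ top x - top x' := by
    intro x hx x' hx' hxx
    have := mt.antitoneOn hx hx' hxx
    linarith
  have db : ∀ x ∈ Icc x1 xR, ∀ x' ∈ Icc x1 xR, x ≤ x' → 0 ≤ bot x' - bot x := by
    intro x hx x' hx' hxx
    have := mb.monotoneOn hx hx' hxx
    linarith
  have eps_b : ∀ x ∈ Icc x1 xR, ∀ x' ∈ Icc x1 xR, x ≤ x' → ε * (bot x' - bot x) ≤ x' - x := by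
    intro x hx x' hx' hxx
    have h1 := hM x hx x' hx' hxx
    have h2 : ε * (bot x' - bot x) ≤ ε * (M * (x' - x)) := mul_le_mul_of_nonneg_left h1 hε.le
    have h3 : ε * M * (x' - x) ≤ 1 * (x' - x) := mul_le_mul_of_nonneg_right hεM' (by linarith)
    linarith
  have absβ : ∀ x ∈ Icc x1 xR, ∀ x' ∈ Icc x1 xR, x ≤ x' →
      |β x - β x'| = (x' - x) - ε * (bot x' - bot x) := by
    intro x hx x' hx' hxx
    have := eps_b x hx x' hx' hxx
    rw [abs_sub_comm, abs_of_nonneg]
    · simp only [hβ_def]; ring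
    · simp only [hβ_def]; linarith
  have hεinv : (1 / ε) * ε = 1 := by field_simp
  have step : ∀ _n : ℕ, ∀ x ∈ Icc x1 xR, ∀ x' ∈ Icc x1 xR, x ≤ x' →
      (1 / ε) * |β x - β x'| + |E x - E x'| ≤ (1 / ε) * (s x' - s x) := by
    intro _ x hx x' hx' hxx
    rw [absβ x hx x' hx' hxx]
    have h1 := dt x hx x' hx' hxx
    have h2 := db x hx x' hx' hxx
    have h3 : |E x - E x'| ≤ (top x - top x') + (bot x' - bot x) := by
      simp only [hE_def]
      rw [abs_le]; constructor <;> linarith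
    have e1 : (1 / ε) * ((x' - x) - ε * (bot x' - bot x)) =
        (1 / ε) * (x' - x) - (bot x' - bot x) := by field_simp
    have e2 : (1 / ε) * (s x' - s x) = (1 / ε) * (x' - x) + (top x - top x') := by
      simp only [hs_def]; field_simp; ring
    rw [e1, e2]; linarith
  have stepS : ∀ x ∈ Icc x1 xR, ∀ x' ∈ Icc x1 xR, x < x' →
      (1 / ε) * |β x - β x'| + |E x - E x'| < (1 / ε) * (s x' - s x) := by
    intro x hx x' hx' hxx
    rw [absβ x hx x' hx' hxx.le]
    have h1 : 0 < top x - top x' := by have := mt hx hx' hxx; linarith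
    have h2 : 0 < bot x' - bot x := by have := mb hx hx' hxx; linarith
    have h3 : |E x - E x'| < (top x - top x') + (bot x' - bot x) := by
      simp only [hE_def]
      rw [abs_lt]; constructor <;> linarith
    have e1 : (1 / ε) * ((x' - x) - ε * (bot x' - bot x)) =
        (1 / ε) * (x' - x) - (bot x' - bot x) := by field_simp
    have e2 : (1 / ε) * (s x' - s x) = (1 / ε) * (x' - x) + (top x - top x') := by
      simp only [hs_def]; field_simp; ring
    rw [e1, e2]; linarith
  have sB : s xR = xR := by simp only [hs_def, h0]; ring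
  obtain ⟨N, hN⟩ := exists_nat_ge ((s xR - s x1) / (ε * (top z - bot z)))
  have hN' : s xR - N * (ε * (top z - bot z)) ≤ s x1 := by
    rw [div_le_iff₀ hc] at hN; linarith
  obtain ⟨f, f1, f2, f3⟩ := rec_solve h.le sc sm hc hβ (M := fun _ => 1 / ε)
    (fun _ _ _ => le_rfl) (by positivity) step (f0 := fun w => w / ε)
    (by
      intro u _ v _
      have : u / ε - v / ε = (1 / ε) * (u - v) := by ring
      rw [this, abs_mul, abs_of_pos (by positivity : (0 : ℝ) < 1 / ε)])
    (by
      simp only [sB, hβ_def, hE_def, h0]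
      field_simp
      ring) N hN'
  have f3' : ∀ u v, s x1 ≤ u → s x1 ≤ v → |f u - f v| ≤ |u - v| / ε := by
    intro u v hu hv
    have := f3 u hu v hv
    have e : (1 / ε) * |u - v| = |u - v| / ε := by ring
    rw [← e]; exact this
  have strict1 : ∀ u v, s x1 ≤ u → u < v → v ≤ xR → |f u - f v| < (v - u) / ε := by
    intro u v hu huv hv
    obtain ⟨x, hx, rfl⟩ := (intermediate_value_Icc h.le sc) ⟨hu, by rw [sB]; linarith⟩
    obtain ⟨x', hx', rfl⟩ := (intermediate_value_Icc h.le sc)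
      (⟨hu.trans huv.le, by rw [sB]; exact hv⟩ : v ∈ Icc (s x1) (s xR))
    have hxx : x < x' := (sm.lt_iff_lt hx hx').1 huv
    rw [f2 x hx, f2 x' hx']
    have sx : s x1 ≤ β x := by
      have := hβ x hx; linarith
    have sx' : s x1 ≤ β x' := by
      have := hβ x' hx'; linarith [hu.trans huv.le]
    have l1 := f3 (β x) sx (β x') sx'
    have l2 : |f (β x) + E x - (f (β x') + E x')| ≤ |f (β x) - f (β x')| + |E x - E x'| := by
      have : f (β x) + E x - (f (β x') + E x') = (f (β x) - f (β x')) + (E x - E x') := by ring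
      rw [this]; exact abs_add_le _ _
    have l3 := stepS x hx x' hx' hxx
    have e : (s x' - s x) / ε = (1 / ε) * (s x' - s x) := by ring
    rw [e]
    have l1' : |f (β x) - f (β x')| ≤ (1 / ε) * |β x - β x'| := l1
    linarith
  refine ⟨f, fun u v hu hv => f3' u v hu hv, ?_, ?_, ?_⟩
  · intro u v hu huv hux
    rcases le_total v xR with hv | hv
    · exact strict1 u v hu huv hv
    · have k1 := strict1 u xR hu hux le_rfl
      have k2 := f3' xR v (hu.trans hux.le) (hu.trans huv.le)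
      rw [abs_sub_comm xR v, abs_of_nonneg (sub_nonneg.2 hv)] at k2
      have k3 : |f u - f v| ≤ |f u - f xR| + |f xR - f v| := abs_sub_le _ _ _
      have e : (v - u) / ε = (xR - u) / ε + (v - xR) / ε := by ring
      rw [e]; linarith
  · intro w hw
    exact f1 w (by rw [sB]; exact hw)
  · intro x hx
    have := f2 x hx
    simp only [hs_def, hβ_def, hE_def] at this
    linarith

end XR57
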